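import Pool.Agent.H7.IG.ItD
import Pool.Agent.H7.IG.ItA
import Pool.Agent.H7.IG.ItU

/-!
# IG, Part 2 (finite support iteration for Martin's axiom): working definitions

Everything is relative to a ctm `N`, `δ` is `ω₁` of `N`.

* `lw δ Q β = {p ∈ Q : Dm p β}`: the iteration up to `β` (also used for generic filters: `lw δ H β`).
* A name for a stage is a set `b` of triples `((z, y), p)`, `z, y ∈ δ`, `p ∈ q` (`NmS δ q b`).
* `sc E K Y = {x ∈ Y : ∃ p ∈ K, (x, p) ∈ E}`: the value of such a name.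
* `LbS δ q b β p q' z`: `q' ∈ q` forces that `z` is a lower bound of `p(β) = {y : (β, y) ∈ p}`.
* `nx δ 𝓕 q b β`: the next step of the iteration (`q = Q_β`, `b` the name, result `Q_{β+1}`).
* `Acc N δ 𝓕 q b β`: the candidate `b` is accepted at stage `β`: it is a name of size `≤ δ` and the next step is ccc.
* `ItB N δ Λ 𝓡 Q 𝓕 B`: `(𝓡, Q)` is the iteration that follows the bookkeeping function `B`: at stage `β` the name is
  `B(β)` if it is accepted and `∅` otherwise (trivial stage).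
* `PC N δ R`: the relation `z ≤ y` iff `(z, y) ∉ R` is a preorder on `δ` that is ccc in `N`.
* `BK N δ Λ κ B`: the properties of the bookkeeping function.
-/

set_option autoImplicit false
set_option linter.unusedVariables false
set_option linter.unusedSectionVars false
set_option linter.unusedSimpArgs false
set_option linter.unusedTactic false
set_option linter.unreachableTactic false

namespace Pool.Agent.H7.IG

open Pool.Agent.H17.Omega Pool.Agent.H17.Omega.CTM Pool.Agent.H52.GX Pool.Agent.H52.GC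

/-- `Q_β`: the members of `Q` with domain contained in `β`. -/
noncomputable def lw (δ Q β : ZFSet.{0}) : ZFSet.{0} := ZFSet.sep (fun p => Dm δ p β) Q

theorem mem_lw {δ Q β p : ZFSet.{0}} : p ∈ lw δ Q β ↔ p ∈ Q ∧ Dm δ p β := ZFSet.mem_sep

/-- `b` is a set of triples `((z, y), p)` with `z, y ∈ δ` and `p ∈ q`. -/
def NmS (δ q b : ZFSet.{0}) : Prop := ∀ w ∈ b, ∃ z ∈ δ, ∃ y ∈ δ, ∃ p ∈ q, w = ZFSet.pair (ZFSet.pair z y) p

/-- The value `{x ∈ Y : ∃ p ∈ K, (x, p) ∈ E}` of a name. -/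
noncomputable def sc (E K Y : ZFSet.{0}) : ZFSet.{0} := ZFSet.sep (fun x => ∃ p ∈ K, ZFSet.pair x p ∈ E) Y

theorem mem_sc {E K Y x : ZFSet.{0}} : x ∈ sc E K Y ↔ x ∈ Y ∧ ∃ p ∈ K, ZFSet.pair x p ∈ E := ZFSet.mem_sep

/-- The value of a name of a relation on `δ`. -/
noncomputable def Rv (δ b K : ZFSet.{0}) : ZFSet.{0} := sc b K (ZFSet.prod δ δ)

/-- `q'` forces that `z` is a lower bound of `p(β)`, for the name `b`. -/
def LbS (δ q b β p q' z : ZFSet.{0}) : Prop :=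
  ∀ y ∈ δ, ZFSet.pair β y ∈ p → ∀ p' ∈ q, ZFSet.pair (ZFSet.pair z y) p' ∈ b → ∀ r ∈ q, q' ⊆ r → ¬ p' ⊆ r

/-- `p` satisfies the requirement for conditions of the successor step. -/
def InSt (δ q b β p : ZFSet.{0}) : Prop :=
  ∃ p₀ ∈ q, p₀ ⊆ p ∧ (∀ z ∈ p, z ∈ p₀ ∨ ∃ x ∈ δ, z = ZFSet.pair β x) ∧
    ∀ r ∈ q, p₀ ⊆ r → ∃ q' ∈ q, r ⊆ q' ∧ ∃ z ∈ δ, LbS δ q b β p q' z

/-- The successor step. -/
noncomputable def nx (δ 𝓕 q b β : ZFSet.{0}) : ZFSet.{0} := ZFSet.sep (fun p => InSt δ q b β p) 𝓕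

theorem mem_nx {δ 𝓕 q b β p : ZFSet.{0}} : p ∈ nx δ 𝓕 q b β ↔ p ∈ 𝓕 ∧ InSt δ q b β p := ZFSet.mem_sep

/-- The candidate `b` is accepted at stage `β`. -/
def Acc (N : Set ZFSet.{0}) (δ 𝓕 q b β : ZFSet.{0}) : Prop := NmS δ q b ∧ Cvr N δ b ∧ Ccc N (nx δ 𝓕 q b β)

/-- The iteration that follows the bookkeeping function `B`. -/
structure ItB (N : Set ZFSet.{0}) (δ Λ : Ordinal.{0}) (𝓡 Q 𝓕 B : ZFSet.{0}) : Prop where
  L_mem : Λ.toZFSet ∈ N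
  R_mem : 𝓡 ∈ N
  Q_mem : Q ∈ N
  F_mem : 𝓕 ∈ N
  fin : FinSub δ.toZFSet Λ.toZFSet 𝓕
  it : IsIt δ.toZFSet Λ.toZFSet 𝓡 Q 𝓕
  yes : ∀ β < Λ, ∀ b, ZFSet.pair β.toZFSet b ∈ B → Acc N δ.toZFSet 𝓕 (lw δ.toZFSet Q β.toZFSet) b β.toZFSet →
    ∀ z y p, R4 𝓡 β.toZFSet z y p ↔ ZFSet.pair (ZFSet.pair z y) p ∈ b
  no : ∀ β < Λ, ∀ b, ZFSet.pair β.toZFSet b ∈ B → ¬ Acc N δ.toZFSet 𝓕 (lw δ.toZFSet Q β.toZFSet) b β.toZFSet →
    ∀ z y p, ¬ R4 𝓡 β.toZFSet z y p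

/-- `z ≤ y :↔ (z, y) ∉ R` is a preorder on `δ`. -/
structure PreR (δ R : ZFSet.{0}) : Prop where
  refl : ∀ z ∈ δ, ZFSet.pair z z ∉ R
  trans : ∀ x ∈ δ, ∀ y ∈ δ, ∀ z ∈ δ, ZFSet.pair x y ∉ R → ZFSet.pair y z ∉ R → ZFSet.pair x z ∉ R

/-- `z ≤ y :↔ (z, y) ∉ R` is a preorder on `δ` that is ccc in `N`. -/
structure PC (N : Set ZFSet.{0}) (δ R : ZFSet.{0}) : Prop where
  pre : PreR δ R
  ccc : ∀ A ∈ N, A ⊆ δ → (∀ a ∈ A, ∀ b ∈ A, a ≠ b → ∀ z ∈ δ, ZFSet.pair z a ∉ R → ZFSet.pair z b ∈ R) → Ctb N A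

/-- `c` is a code over `α`: a set of triples `((z, y), p)` with `z, y ∈ δ` and `p ⊆ α × δ`. -/
def Cnd (δ α c : ZFSet.{0}) : Prop := ∀ w ∈ c, ∃ z ∈ δ, ∃ y ∈ δ, ∃ p, w = ZFSet.pair (ZFSet.pair z y) p ∧ Dm δ p α

/-- The properties of the bookkeeping function. -/
structure BK (N : Set ZFSet.{0}) (δ Λ κ : Ordinal.{0}) (B : ZFSet.{0}) : Prop where
  L_mem : Λ.toZFSet ∈ N
  B_mem : B ∈ N
  pos : 0 < Λ
  lim : ∀ α < Λ, α + 1 < Λ
  fn : FnD B Λ.toZFSet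
  /-- the cofinality of `Λ` is larger than `δ` -/
  bdd : ∀ X ∈ N, X ⊆ Λ.toZFSet → Cvr N δ.toZFSet X → ∃ α < Λ, X ⊆ α.toZFSet
  /-- every code is listed unboundedly often, and so often that the indices are not covered by `κ × ω` -/
  rep : ∀ c ∈ N, ∀ α < Λ, Cnd δ.toZFSet α.toZFSet c → ∀ Z ∈ N,
    (∀ β < Λ, α ≤ β → ZFSet.pair β.toZFSet c ∈ B → β.toZFSet ∈ Z) → ¬ Cvr N (ZFSet.prod κ.toZFSet omZ) Z

end Pool.Agent.H7.IG
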