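import Pool.Agent.H19.IG.J0
import Pool.Agent.H7.IG.Gx3

/-!
# IG, Part 2: general substitution in uniformly definable predicates
-/

set_option autoImplicit false
set_option linter.unusedVariables false
set_option linter.unusedSectionVars false
set_option linter.unusedSimpArgs false
set_option linter.unusedTactic false
set_option linter.unreachableTactic false

namespace Pool.Agent.H7.IG

open Pool.Agent.H17.Omega Pool.Agent.H17.Omega.CTM Pool.Agent.H52.GX Pool.Agent.H52.GC

variable {𝒞 : Set (Set ZFSet.{0})}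

/-- Several existential quantifiers. -/
theorem UD.exN {k : ℕ} : ∀ {m : ℕ} {R : (N : Set ZFSet.{0}) → (Fin k → N) → (Fin m → N) → Prop},
    UD 𝒞 (fun N (u : Fin (k + m) → N) => R N (fun i => u (Fin.castAdd m i)) (fun i => u (Fin.natAdd k i))) →
    UD 𝒞 (fun N (v : Fin k → N) => ∃ w : Fin m → N, R N v w) := by
  intro m
  induction m with
  | zero =>
    intro R h
    refine UD.congr h fun N _ v => ?_
    constructor
    · intro h1
      exact ⟨_, h1⟩
    · rintro ⟨w, h1⟩
      have h2 : ∀ w' : Fin 0 → N, R N v w' := fun w' => (Subsingleton.elim w w') ▸ h1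
      exact h2 _
  | succ m ih =>
    intro R h
    have h1 : UD 𝒞 (fun N (v : Fin k → N) => ∃ w : Fin m → N, ∃ z : N,
        R N v (Fin.snoc (α := fun _ => N) w z)) := by
      refine ih (R := fun N v w => ∃ z : N, R N v (Fin.snoc (α := fun _ => N) w z)) (UD.ex ?_)
      refine UD.congr h fun N _ u => ?_
      have h2 : (Fin.snoc (α := fun _ => N) (fun i : Fin m => u ((Fin.natAdd k i).castSucc))
          (u (Fin.last (k + m))) : Fin (m + 1) → N) = fun i => u (Fin.natAdd k i) := by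
        funext i
        refine Fin.lastCases ?_ (fun i => ?_) i
        · rw [Fin.snoc_last]; rfl
        · rw [Fin.snoc_castSucc]; rfl
      rw [h2]
      exact Iff.rfl
    refine UD.congr h1 fun N _ v => ?_
    constructor
    · rintro ⟨w, z, h2⟩; exact ⟨_, h2⟩
    · rintro ⟨w, h2⟩
      refine ⟨fun i => w i.castSucc, w (Fin.last m), ?_⟩
      have h3 : (Fin.snoc (α := fun _ => N) (fun i : Fin m => w i.castSucc) (w (Fin.last m)) :
          Fin (m + 1) → N) = w := by
        funext i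
        refine Fin.lastCases ?_ (fun i => ?_) i
        · rw [Fin.snoc_last]
        · rw [Fin.snoc_castSucc]
      rw [h3]
      exact h2

/-- Finite conjunctions. -/
theorem UD.allFin {k : ℕ} : ∀ {m : ℕ} {P : Fin m → (N : Set ZFSet.{0}) → (Fin k → N) → Prop},
    (∀ i, UD 𝒞 (P i)) → UD 𝒞 (fun N v => ∀ i, P i N v) := by
  intro m
  induction m with
  | zero => intro P h; exact UD.congr UD.true' fun N _ v => ⟨fun _ i => i.elim0, fun _ => trivial⟩
  | succ m ih =>
    intro P h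
    refine UD.congr ((ih fun i => h i.castSucc).and (h (Fin.last m))) fun N _ v => ?_
    constructor
    · rintro ⟨h1, h2⟩ i
      exact Fin.lastCases h2 h1 i
    · intro h1
      exact ⟨fun i => h1 _, h1 _⟩

theorem UT.castA {k : ℕ} {s : (N : Set ZFSet.{0}) → (Fin k → N) → N} (h : UT s) (n : ℕ) :
    UT (fun N (v : Fin (k + n) → N) => s N (fun i => v (Fin.castAdd n i))) := by
  obtain ⟨j, hj⟩ := h
  exact ⟨Fin.castAdd n j, fun N v => hj _ _⟩

/-- General substitution. -/
theorem UD.subG {m n : ℕ} {P : (N : Set ZFSet.{0}) → (Fin m → N) → Prop} (h : UD 𝒞 P)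
    {s : Fin m → (N : Set ZFSet.{0}) → (Fin n → N) → N} (hs : ∀ i, UT (s i)) :
    UD 𝒞 (fun N v => P N (fun i => s i N v)) := by
  have h1 : UD 𝒞 (fun N (v : Fin n → N) => ∃ w : Fin m → N, (∀ i, w i = s i N v) ∧ P N w) := by
    refine UD.exN (R := fun N v w => (∀ i, w i = s i N v) ∧ P N w) ?_
    refine (UD.allFin fun i => ?_).and (h.shift n)
    exact UD.eq (UT.var _) ((hs i).castA m)
  refine UD.congr h1 fun N _ v => ?_
  constructor
  · rintro ⟨w, h2, h3⟩
    have : w = fun i => s i N v := funext h2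
    rwa [← this]
  · intro h2
    exact ⟨_, fun i => rfl, h2⟩

theorem Dfn.subG {M : Set ZFSet.{0}} {hM : CTM M} {m n : ℕ} {P : (Fin m → M) → Prop} (h : hM.Dfn P)
    {s : Fin m → (Fin n → M) → M} (hs : ∀ i, hM.DT (s i)) : hM.Dfn (fun v => P (fun i => s i v)) := by
  have h1 : hM.Dfn (fun v : Fin n → M => ∃ w : Fin m → M, (∀ i, w i = s i v) ∧ P w) := by
    refine Dfn.exN (R := fun v w => (∀ i, w i = s i v) ∧ P w) ?_
    refine (Dfn.allFin fun i => ?_).and (h.shift n)
    exact Dfn.eq (DT.var _) (DT.castA (hs i) m)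
  refine Dfn.congr (fun v => ?_) h1
  constructor
  · rintro ⟨w, h2, h3⟩
    have : w = fun i => s i v := funext h2
    rwa [← this]
  · intro h2
    exact ⟨_, fun i => rfl, h2⟩

theorem UD.sub5 {n : ℕ} {P : (N : Set ZFSet.{0}) → N → N → N → N → N → Prop}
    {a b c d e : (N : Set ZFSet.{0}) → (Fin n → N) → N}
    (h : UD 𝒞 (fun N (v : Fin 5 → N) => P N (v 0) (v 1) (v 2) (v 3) (v 4)))
    (ha : UT a) (hb : UT b) (hc : UT c) (hd : UT d) (he : UT e) :
    UD 𝒞 (fun N v => P N (a N v) (b N v) (c N v) (d N v) (e N v)) :=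
  UD.subG h (s := ![a, b, c, d, e]) (by intro i; fin_cases i <;> assumption)

theorem UD.sub6 {n : ℕ} {P : (N : Set ZFSet.{0}) → N → N → N → N → N → N → Prop}
    {a b c d e f : (N : Set ZFSet.{0}) → (Fin n → N) → N}
    (h : UD 𝒞 (fun N (v : Fin 6 → N) => P N (v 0) (v 1) (v 2) (v 3) (v 4) (v 5)))
    (ha : UT a) (hb : UT b) (hc : UT c) (hd : UT d) (he : UT e) (hf : UT f) :
    UD 𝒞 (fun N v => P N (a N v) (b N v) (c N v) (d N v) (e N v) (f N v)) :=
  UD.subG h (s := ![a, b, c, d, e, f]) (by intro i; fin_cases i <;> assumption)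

theorem UD.sub7 {n : ℕ} {P : (N : Set ZFSet.{0}) → N → N → N → N → N → N → N → Prop}
    {a b c d e f g : (N : Set ZFSet.{0}) → (Fin n → N) → N}
    (h : UD 𝒞 (fun N (v : Fin 7 → N) => P N (v 0) (v 1) (v 2) (v 3) (v 4) (v 5) (v 6)))
    (ha : UT a) (hb : UT b) (hc : UT c) (hd : UT d) (he : UT e) (hf : UT f) (hg : UT g) :
    UD 𝒞 (fun N v => P N (a N v) (b N v) (c N v) (d N v) (e N v) (f N v) (g N v)) :=
  UD.subG h (s := ![a, b, c, d, e, f, g]) (by intro i; fin_cases i <;> assumption)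

theorem UD.d5 {M : Set ZFSet.{0}} {hM : CTM M} {n : ℕ} {P : (N : Set ZFSet.{0}) → N → N → N → N → N → Prop}
    (h : UD 𝒞 (fun N (v : Fin 5 → N) => P N (v 0) (v 1) (v 2) (v 3) (v 4)))
    (hc : M ∈ 𝒞) {a b c d e : (Fin n → M) → M} (ha : hM.DT a) (hb : hM.DT b) (hc' : hM.DT c)
    (hd : hM.DT d) (he : hM.DT e) : hM.Dfn (fun v => P M (a v) (b v) (c v) (d v) (e v)) :=
  Dfn.subG (h.dfn hM hc) (s := ![a, b, c, d, e]) (by intro i; fin_cases i <;> assumption)

theorem UD.d6 {M : Set ZFSet.{0}} {hM : CTM M} {n : ℕ} {P : (N : Set ZFSet.{0}) → N → N → N → N → N → N → Prop}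
    (h : UD 𝒞 (fun N (v : Fin 6 → N) => P N (v 0) (v 1) (v 2) (v 3) (v 4) (v 5)))
    (hc : M ∈ 𝒞) {a b c d e f : (Fin n → M) → M} (ha : hM.DT a) (hb : hM.DT b) (hc' : hM.DT c)
    (hd : hM.DT d) (he : hM.DT e) (hf : hM.DT f) :
    hM.Dfn (fun v => P M (a v) (b v) (c v) (d v) (e v) (f v)) :=
  Dfn.subG (h.dfn hM hc) (s := ![a, b, c, d, e, f]) (by intro i; fin_cases i <;> assumption)

end Pool.Agent.H7.IG
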