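import Pool.Agent.H19.IG.J7
import Pool.Agent.H7.IG.Tk7

/-!
# IG, Part 2: ccc at limit stages

Let `γ ≤ Λ` be a limit and let `Q_β` be ccc for all `β < γ`. Let `A ∈ N` be an antichain of `Q_γ`, uncountable in `N`. The domain
`d(p) = {β ∈ γ : ∃ x, (β, x) ∈ p}` of `p ∈ A` is a finite subset of `γ`; `d ∈ N` (`exists_fn` with values in the set of the finite
subsets of `γ`, `exists_fin`). `delta_system` (Tk7): `B ⊆ A` uncountable, `d(p) ∩ d(q) = r` for different `p, q ∈ B`, `r` finite. As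
`γ` is a limit there is `β < γ` with `r ⊆ β` (`r ⊆ d(p)` for a `p ∈ B`; use `IsIt.lt_of_limit` for this `p`: `p ∈ Q_β`, so `r ⊆ β`).
The restrictions `rs p β`, `p ∈ B`, are pairwise incompatible in `Q_β`: let `s ∈ Q_β`, `rs p β ⊆ s`, `rs q β ⊆ s`, `p ≠ q`. Then
`u = p ∪ s ∈ Q` (`IsIt.un`), and `u ∪ (q ∪ s) ∈ Q` by `IsIt.amalg` with `A = β ∪ d(q)` (`q ∪ s ∈ Q` by `un`; for `γ' ∈ β` the
coordinates of `u` are those of `s`; for `γ' ∈ d(q) ∖ β` we have `γ' ∉ d(p)`, because `r ⊆ β`, and `s` has domain in `β`, so there is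
nothing to check). It is a common extension of `p, q` in `Q_γ`: contradiction. So `p ↦ rs p β` is injective on `B` (as `rs p β` is
compatible with itself), its image is an antichain of `Q_β`, hence countable, and `B` is countable (`Ctb.image` with the
inverse map): contradiction.
-/

set_option autoImplicit false
set_option linter.unusedVariables false
set_option linter.unusedSectionVars false
set_option linter.unusedSimpArgs false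
set_option linter.unusedTactic false
set_option linter.unreachableTactic false

namespace Pool.Agent.H7.IG

open Pool.Agent.H17.Omega Pool.Agent.H17.Omega.CTM Pool.Agent.H52.GX Pool.Agent.H52.GC

variable {δ Λ : Ordinal.{0}} {𝓡 Q 𝓕 : ZFSet.{0}}

/-- The domain of a finite set of pairs, inside `c`. -/
theorem j10_dom_fin {p c : ZFSet.{0}} (hp : FinZ p) : FinZ (ZFSet.sep (fun β => ∃ x, ZFSet.pair β x ∈ p) c) := by
  classical
  obtain ⟨s, hs⟩ := hp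
  let f : ZFSet.{0} → ZFSet.{0} := fun z => if h : ∃ β x, z = ZFSet.pair β x then h.choose else ∅
  have hf : ∀ β x, f (ZFSet.pair β x) = β := by
    intro β x
    have h : ∃ β' x', ZFSet.pair β x = ZFSet.pair β' x' := ⟨β, x, rfl⟩
    show (if h : ∃ β' x', ZFSet.pair β x = ZFSet.pair β' x' then h.choose else ∅) = β
    rw [dif_pos h]
    obtain ⟨x', hx'⟩ := h.choose_spec
    rw [ZFSet.pair_inj] at hx'
    exact hx'.1.symm
  refine ⟨(s.image f).filter (fun β => β ∈ c ∧ ∃ x, ZFSet.pair β x ∈ p), fun z => ?_⟩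
  rw [ZFSet.mem_sep, Finset.mem_filter]
  constructor
  · rintro ⟨hz, x, hx⟩
    refine ⟨Finset.mem_image.2 ⟨_, (hs _).1 hx, hf _ _⟩, hz, x, hx⟩
  · rintro ⟨_, hz⟩
    exact hz

/-- Uniform definability of the restriction. -/
theorem j10_rs : UD CtmC (fun N (v : Fin 3 → N) => (v 0).1 = rs (v 1).1 (v 2).1) := by
  have h : UD CtmC (fun N (v : Fin 3 → N) => (∀ z ∈ (v 0).1, z ∈ (v 1).1 ∧ ∃ x ∈ (v 2).1, ∃ y : N,
      z = ZFSet.pair x y.1) ∧ (∀ z ∈ (v 1).1, (∃ x ∈ (v 2).1, ∃ y : N, z = ZFSet.pair x y.1) → z ∈ (v 0).1)) := by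
    (repeat' first
      | exact UT.var _ | exact UT.last | assumption
      | refine UD.pairMem ?_ ?_ ?_ | refine UD.isPair ?_ ?_ ?_ | refine UD.mem ?_ ?_
      | refine UD.eqv ?_ ?_ | refine UD.eq ?_ ?_ | refine UD.subset ?_ ?_
      | refine UD.isEmpty ?_ | refine UD.isTrans ?_ | refine UD.isOrd ?_ | refine UD.isNat ?_
      | refine UD.isUpair ?_ ?_ ?_ | refine UD.isInsert ?_ ?_ ?_ | refine UD.isUnion ?_ ?_ ?_
      | refine UD.and ?_ ?_ | refine UD.or ?_ ?_ | refine UD.iff ?_ ?_ | refine UD.not ?_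
      | refine UD.imp ?_ ?_ | refine UD.all ?_ | refine UD.ex ?_ | exact UD.false' | exact UD.true'
      | refine UD.ball ?_ ?_ | refine UD.bex ?_ ?_)
  refine h.congr fun N hN v => ?_
  have hN' : CTM N := hN
  constructor
  · rintro ⟨h1, h2⟩
    ext z
    rw [rs, ZFSet.mem_sep]
    constructor
    · intro hz
      obtain ⟨h3, x, hx, y, hy⟩ := h1 z hz
      exact ⟨h3, x, hx, y.1, hy⟩
    · rintro ⟨hz, x, hx, y, hy⟩
      have h4 : z ∈ N := hN'.mem_of_mem (v 1).2 hz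
      rw [hy] at h4
      exact h2 z hz ⟨x, hx, ⟨y, (hN'.of_pair_mem h4).2⟩, hy⟩
  · intro h
    rw [h]
    refine ⟨fun z hz => ?_, fun z hz h3 => ?_⟩
    · rw [rs, ZFSet.mem_sep] at hz
      obtain ⟨hz, x, hx, y, hy⟩ := hz
      have h4 : z ∈ N := hN'.mem_of_mem (v 1).2 hz
      rw [hy] at h4
      exact ⟨hz, x, hx, ⟨y, (hN'.of_pair_mem h4).2⟩, hy⟩
    · obtain ⟨x, hx, y, hy⟩ := h3
      rw [rs, ZFSet.mem_sep]
      exact ⟨hz, x, hx, y.1, hy⟩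

/-- Amalgamation of conditions whose domains meet inside `β` only. -/
theorem j10_amalg (h : IsIt δ.toZFSet Λ.toZFSet 𝓡 Q 𝓕) (hF : FinSub δ.toZFSet Λ.toZFSet 𝓕)
    {γ β : Ordinal.{0}} (hβγ : β ≤ γ) (hγ : γ ≤ Λ) {p q s : ZFSet.{0}}
    (hp : p ∈ lw δ.toZFSet Q γ.toZFSet) (hq : q ∈ lw δ.toZFSet Q γ.toZFSet) (hs : s ∈ lw δ.toZFSet Q β.toZFSet)
    (hd : ∀ ξ ∈ γ.toZFSet, ∀ x y, ZFSet.pair ξ x ∈ p → ZFSet.pair ξ y ∈ q → ξ ∈ β.toZFSet)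
    (hps : rs p β.toZFSet ⊆ s) (hqs : rs q β.toZFSet ⊆ s) :
    ∃ u ∈ lw δ.toZFSet Q γ.toZFSet, p ⊆ u ∧ q ⊆ u := by
  have hβ : β ≤ Λ := hβγ.trans hγ
  have hsub : β.toZFSet ⊆ γ.toZFSet := Ordinal.toZFSet_subset_toZFSet_iff.2 hβγ
  have hu := h.un hF (mem_lw.1 hp).1 hβ hs hps
  have hv := h.un hF (mem_lw.1 hq).1 hβ hs hqs
  have hpd := (mem_lw.1 hp).2
  have hqd := (mem_lw.1 hq).2
  have hsd := (mem_lw.1 hs).2
  let D : ZFSet.{0} := ZFSet.sep (fun ξ => ∃ x, ZFSet.pair ξ x ∈ q) γ.toZFSet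
  have hw := h.amalg hF (A := β.toZFSet ∪ D) hu hv ?_ ?_
  · refine ⟨_, mem_lw.2 ⟨hw, ?_⟩, fun z hz => ?_, fun z hz => ?_⟩
    · intro z hz
      rw [ZFSet.mem_union, ZFSet.mem_union, ZFSet.mem_union] at hz
      rcases hz with (hz | hz) | (hz | hz)
      · exact hpd z hz
      · exact hsd.mono hsub z hz
      · exact hqd z hz
      · exact hsd.mono hsub z hz
    · exact ZFSet.mem_union.2 (Or.inl (ZFSet.mem_union.2 (Or.inl hz)))
    · exact ZFSet.mem_union.2 (Or.inr (ZFSet.mem_union.2 (Or.inl hz)))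
  · intro z hz
    rcases ZFSet.mem_union.1 hz with hz | hz
    · obtain ⟨ξ, hξ, x, hx, rfl⟩ := hqd z hz
      exact ⟨ξ, ZFSet.mem_union.2 (Or.inr (ZFSet.mem_sep.2 ⟨hξ, x, hz⟩)), x, hx, rfl⟩
    · obtain ⟨ξ, hξ, x, hx, rfl⟩ := hsd z hz
      exact ⟨ξ, ZFSet.mem_union.2 (Or.inl hξ), x, hx, rfl⟩
  · intro ξ hξ x hx
    rcases ZFSet.mem_union.1 hx with hx | hx
    · apply ZFSet.mem_union.2
      right
      apply hps
      rw [pair_mem_rs]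
      refine ⟨?_, hx⟩
      rcases ZFSet.mem_union.1 hξ with hξ | hξ
      · exact hξ
      · obtain ⟨h1, y, hy⟩ := ZFSet.mem_sep.1 hξ
        exact hd ξ h1 x y hx hy
    · exact ZFSet.mem_union.2 (Or.inr hx)

theorem ccc_limit {N : Set ZFSet.{0}} (hN : CTM N) (h : IsIt δ.toZFSet Λ.toZFSet 𝓡 Q 𝓕)
    (hF : FinSub δ.toZFSet Λ.toZFSet 𝓕) (hQ : Q ∈ N) (hδ : δ.toZFSet ∈ N) (hΛ : Λ.toZFSet ∈ N)
    {γ : Ordinal.{0}} (hγ : γ ≤ Λ) (h0 : 0 < γ) (hlim : ∀ α < γ, α + 1 < γ)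
    (hc : ∀ β < γ, Ccc N (lw δ.toZFSet Q β.toZFSet)) : Ccc N (lw δ.toZFSet Q γ.toZFSet) := by
  intro A hA hAs hinc
  by_contra hunc
  have hon : ∀ β : Ordinal.{0}, β ≤ Λ → β.toZFSet ∈ N := by
    intro β hβ
    rcases hβ.lt_or_eq with hβ | rfl
    · exact hN.mem_of_mem hΛ (Ordinal.toZFSet_mem_toZFSet_iff.2 hβ)
    · exact hΛ
  have hγN := hon γ hγ
  obtain ⟨C, hC, hC'⟩ := exists_fin hN hγN
  have hAN : ∀ p ∈ A, p ∈ N := fun p hp => hN.mem_of_mem hA hp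
  -- the function of the domains
  obtain ⟨d, hd, hdfn, hd'⟩ := exists_fn hN (F := fun p e => ∀ β : N, β.1 ∈ e.1 ↔ β.1 ∈ (⟨_, hγN⟩ : N).1 ∧
    ∃ x : N, ZFSet.pair β.1 x.1 ∈ p.1) (by
      (repeat' first
      | exact DT.var _ | exact DT.last | exact DT.const _ | assumption
      | refine Dfn.pairMem ?_ ?_ ?_ | refine Dfn.isPair ?_ ?_ ?_ | refine Dfn.mem ?_ ?_
      | refine Dfn.eqv ?_ ?_ | refine Dfn.eq ?_ ?_ | refine Dfn.subset ?_ ?_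
      | refine Dfn.isEmpty ?_ | refine Dfn.isTrans ?_ | refine Dfn.isOrd ?_ | refine Dfn.isNat ?_
      | refine Dfn.isUpair ?_ ?_ ?_ | refine Dfn.isInsert ?_ ?_ ?_
      | refine Dfn.and ?_ ?_ | refine Dfn.or ?_ ?_ | refine Dfn.iff ?_ ?_ | refine Dfn.not ?_
      | refine Dfn.imp ?_ ?_ | refine Dfn.all ?_ | refine Dfn.ex ?_ | exact Dfn.false'
      | refine Dfn.ballZ ?_ ?_ | refine Dfn.bexZ ?_ ?_ | exact Dfn.const _)) hA hC (by
    intro p hp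
    have hpF := h.q_sub _ (mem_lw.1 (hAs hp)).1
    have hfin := ((hF _).1 hpF).1
    have h1 : ZFSet.sep (fun β => ∃ x, ZFSet.pair β x ∈ p.1) γ.toZFSet ∈ C :=
      (hC' _).2 ⟨fun z hz => (ZFSet.mem_sep.1 hz).1, j10_dom_fin hfin⟩
    refine ⟨⟨_, hN.mem_of_mem hC h1⟩, h1, fun β => ?_, fun y' hy' hy'' => ?_⟩
    · show β.1 ∈ ZFSet.sep (fun β => ∃ x, ZFSet.pair β x ∈ p.1) γ.toZFSet ↔ _
      rw [ZFSet.mem_sep]
      refine and_congr_right fun _ => ⟨fun ⟨x, hx⟩ => ?_, fun ⟨x, hx⟩ => ⟨x.1, hx⟩⟩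
      exact ⟨⟨x, (hN.of_pair_mem (hN.mem_of_mem p.2 hx)).2⟩, hx⟩
    · apply Subtype.ext
      apply hN.ext' y'.2 (hN.mem_of_mem hC h1)
      intro β
      rw [hy'' β, ZFSet.mem_sep]
      refine and_congr_right fun _ => ⟨fun ⟨x, hx⟩ => ⟨x.1, hx⟩, fun ⟨x, hx⟩ => ?_⟩
      exact ⟨⟨x, (hN.of_pair_mem (hN.mem_of_mem p.2 hx)).2⟩, hx⟩)
  have hdap : ∀ p ∈ A, ∀ β, β ∈ ap d p ↔ β ∈ γ.toZFSet ∧ ∃ x, ZFSet.pair β x ∈ p := by
    intro p hp β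
    have h1 := hdfn.ap_mem hp
    have h2 : ap d p ∈ N := hN.mem_of_mem hC h1.1
    have h3 := ((hd' ⟨p, hAN p hp⟩ ⟨_, h2⟩).1 h1.2).2.2
    constructor
    · intro hβ
      obtain ⟨h4, x, h5⟩ := (h3 ⟨β, hN.mem_of_mem h2 hβ⟩).1 hβ
      exact ⟨h4, x.1, h5⟩
    · rintro ⟨h4, x, h5⟩
      exact (h3 ⟨β, hN.mem_of_mem hγN h4⟩).2 ⟨h4, ⟨x, (hN.of_pair_mem (hN.mem_of_mem (hAN p hp) h5)).2⟩, h5⟩
  obtain ⟨B, hB, hBA, hBunc, r, hr, hr'⟩ := delta_system hN hA hC hd hdfn (fun c hc => ((hC' c).1 hc).2) hunc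
  obtain ⟨p₀, hp₀⟩ := tk7_ne hN hBunc
  obtain ⟨p₁, hp₁, hp₁'⟩ : ∃ p₁ ∈ B, p₁ ≠ p₀ := by
    by_contra hcon
    push Not at hcon
    refine hBunc (tk7_fin_ctb hN hB ⟨{p₀}, fun z => ?_⟩)
    rw [Finset.mem_singleton]
    exact ⟨fun hz => hcon z hz, fun hz => hz ▸ hp₀⟩
  obtain ⟨β, hβγ, hβ⟩ := h.lt_of_limit hF h0 hlim (hAs (hBA hp₀))
  have hβΛ : β ≤ Λ := hβγ.le.trans hγ
  have hrβ : r ⊆ β.toZFSet := by
    intro ξ hξ
    rw [← hr' p₀ hp₀ p₁ hp₁ hp₁'.symm, ZFSet.mem_inter, hdap p₀ (hBA hp₀)] at hξ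
    obtain ⟨⟨_, x, hx⟩, _⟩ := hξ
    obtain ⟨ξ', hξ', x', hx', he⟩ := (mem_lw.1 hβ).2 _ hx
    rw [ZFSet.pair_inj] at he
    exact he.1 ▸ hξ'
  -- compatible restrictions
  have hcomp : ∀ p ∈ B, ∀ q ∈ B, p ≠ q → ∀ s ∈ lw δ.toZFSet Q β.toZFSet, rs p β.toZFSet ⊆ s →
      ¬ rs q β.toZFSet ⊆ s := by
    intro p hp q hq hpq s hs h1 h2
    obtain ⟨u, hu, hpu, hqu⟩ := j10_amalg h hF hβγ.le hγ (hAs (hBA hp)) (hAs (hBA hq)) hs (by
      intro ξ hξ x y hx hy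
      apply hrβ
      rw [← hr' p hp q hq hpq, ZFSet.mem_inter, hdap p (hBA hp), hdap q (hBA hq)]
      exact ⟨⟨hξ, x, hx⟩, hξ, y, hy⟩) h1 h2
    exact hinc p (hBA hp) q (hBA hq) hpq u hu hpu hqu
  have hβN := hon β hβΛ
  have hlw : lw δ.toZFSet Q β.toZFSet ∈ N := lw_mem hN hδ hQ hβN
  have hrsmem : ∀ p ∈ B, rs p β.toZFSet ∈ lw δ.toZFSet Q β.toZFSet := fun p hp =>
    h.rs_mem hF (mem_lw.1 (hAs (hBA hp))).1 hβΛ
  -- the set of the restrictions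
  have hT := hN.exists_sep (P := fun u => ∃ p : N, p.1 ∈ (⟨B, hB⟩ : N).1 ∧ u.1 = rs p.1 (⟨_, hβN⟩ : N).1) (by
    refine Dfn.ex (Dfn.and (Dfn.mem DT.last (DT.const _)) ?_)
    exact UD.d3 (P := fun N a b c => a.1 = rs b.1 c.1) j10_rs hN (DT.var _) (DT.var _) (DT.const _)) hlw
  obtain ⟨T, hT, hT'⟩ := hT
  have hTc : Ctb N T := by
    refine hc β hβγ T hT (fun z hz => ((hT' z).1 hz).1) ?_
    intro a ha b hb hab
    obtain ⟨_, _, p, hp, hpa⟩ := (hT' a).1 ha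
    obtain ⟨_, _, q, hq, hqb⟩ := (hT' b).1 hb
    have hpq : p.1 ≠ q.1 := by
      intro he
      apply hab
      have h1 : a = rs p.1 β.toZFSet := hpa
      have h2 : b = rs q.1 β.toZFSet := hqb
      rw [h1, h2, he]
    intro s hs h1 h2
    have h3 : a = rs p.1 β.toZFSet := hpa
    have h4 : b = rs q.1 β.toZFSet := hqb
    rw [h3] at h1
    rw [h4] at h2
    exact hcomp _ hp _ hq hpq s hs h1 h2
  refine hBunc (Ctb.image hN hTc hT (F := fun u p => p.1 ∈ (⟨B, hB⟩ : N).1 ∧ u.1 = rs p.1 (⟨_, hβN⟩ : N).1) ?_ ?_ ?_)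
  · refine Dfn.and (Dfn.mem (DT.var _) (DT.const _)) ?_
    exact UD.d3 (P := fun N a b c => a.1 = rs b.1 c.1) j10_rs hN (DT.var _) (DT.var _) (DT.const _)
  · rintro u hu p q ⟨hp, hup⟩ ⟨hq, huq⟩
    by_contra hpq
    have hup' : u.1 = rs p.1 β.toZFSet := hup
    have huq' : u.1 = rs q.1 β.toZFSet := huq
    refine hcomp p.1 hp q.1 hq (fun he => hpq (Subtype.ext he)) _ (hrsmem p.1 hp) (fun z hz => hz) ?_
    rw [← huq', hup']
  · intro p hp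
    refine ⟨⟨_, hN.mem_of_mem hlw (hrsmem p hp)⟩, ⟨p, hN.mem_of_mem hB hp⟩, ?_, rfl, hp, rfl⟩
    exact (hT' _).2 ⟨hrsmem p hp, hN.mem_of_mem hlw (hrsmem p hp), ⟨p, hN.mem_of_mem hB hp⟩, hp, rfl⟩

end Pool.Agent.H7.IG
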