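import Pool.Agent.H19.IG.J9
import Pool.Agent.H19.IG.J10

/-!
# IG, Part 2: the iteration is ccc

`nx_empty_ccc`: the trivial step. `p ∈ nx q ∅ β`, `q = Q_β`: `rs p β ∈ Q_β` (it is the `p₀`), and the coordinate `β` is arbitrary
(`LbS` is vacuous for `b = ∅`). If `rs p β, rs p' β` have a common extension `s ∈ Q_β` then `s ∪ p ∪ p'` is in `nx q ∅ β` (it is finite,
`p₀ := s`). So an antichain `A ∈ N` of `nx` is mapped injectively by `p ↦ rs p β` onto an antichain of `Q_β`; `Ctb.image`.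
`ItB.ccc_lw`: induction on `β ≤ Λ` (`Ordinal.limitRecOn` or strong induction with the cases 0, successor, limit):
`Q_0 = {∅}` or `∅`; successor: `IsIt.succ` (J9) with `b = B(β)` if it is accepted (then it is ccc by `Acc`), otherwise with `b = ∅`,
`nx_empty_ccc`; limit: J10.
`ItB.small`: for `SmallNm`: if `b = B(β)` is accepted then the set of the `((β, z), (y, p))` with `((z, y), p) ∈ b` is the image of `b`
under a definable map, use `cvr_of_dfn` (with `Cvr.trans`); otherwise `∅`.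
-/

set_option autoImplicit false
set_option linter.unusedVariables false
set_option linter.unusedSectionVars false
set_option linter.unusedSimpArgs false
set_option linter.unusedTactic false
set_option linter.unreachableTactic false

namespace Pool.Agent.H7.IG

open Pool.Agent.H17.Omega Pool.Agent.H17.Omega.CTM Pool.Agent.H52.GX Pool.Agent.H52.GC

variable {N : Set ZFSet.{0}} {δ Λ : Ordinal.{0}} {𝓡 Q 𝓕 B : ZFSet.{0}}

/-- The relation `r = rs p β`, with quantifiers over the model. -/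
def j11Rs (N : Set ZFSet.{0}) (β : N) (p r : N) : Prop :=
  (∀ z ∈ r.1, z ∈ p.1 ∧ ∃ x ∈ β.1, ∃ y : N, z = ZFSet.pair x y.1) ∧
    ∀ z ∈ p.1, (∃ x ∈ β.1, ∃ y : N, z = ZFSet.pair x y.1) → z ∈ r.1

theorem j11_rs_iff (hN : CTM N) {β p r : N} : j11Rs N β p r ↔ r.1 = rs p.1 β.1 := by
  have key : ∀ z ∈ p.1, (∃ x ∈ β.1, ∃ y : N, z = ZFSet.pair x y.1) ↔
      ∃ x ∈ β.1, ∃ y, z = ZFSet.pair x y := by
    intro z hz
    constructor
    · rintro ⟨x, hx, y, h⟩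
      exact ⟨x, hx, y.1, h⟩
    · rintro ⟨x, hx, y, h⟩
      have h1 : z ∈ N := hN.mem_of_mem p.2 hz
      rw [h] at h1
      exact ⟨x, hx, ⟨y, (hN.of_pair_mem h1).2⟩, h⟩
  constructor
  · rintro ⟨h1, h2⟩
    ext z
    rw [rs, ZFSet.mem_sep]
    constructor
    · intro hz
      obtain ⟨h3, h4⟩ := h1 z hz
      exact ⟨h3, (key z h3).1 h4⟩
    · rintro ⟨h3, h4⟩
      exact h2 z h3 ((key z h3).2 h4)
  · intro h
    unfold j11Rs
    rw [h]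
    constructor
    · intro z hz
      rw [rs, ZFSet.mem_sep] at hz
      exact ⟨hz.1, (key z hz.1).2 hz.2⟩
    · intro z hz h4
      rw [rs, ZFSet.mem_sep]
      exact ⟨hz, (key z hz).1 h4⟩

theorem j11_rs_dfn (hN : CTM N) (β : N) : hN.Dfn (fun v : Fin 2 → N => j11Rs N β (v 0) (v 1)) := by
  unfold j11Rs
  (repeat' first
      | exact DT.var _ | exact DT.last | exact DT.const _ | assumption
      | refine Dfn.pairMem ?_ ?_ ?_ | refine Dfn.isPair ?_ ?_ ?_ | refine Dfn.mem ?_ ?_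
      | refine Dfn.eqv ?_ ?_ | refine Dfn.eq ?_ ?_ | refine Dfn.subset ?_ ?_
      | refine Dfn.isEmpty ?_ | refine Dfn.isTrans ?_ | refine Dfn.isOrd ?_ | refine Dfn.isNat ?_
      | refine Dfn.and ?_ ?_ | refine Dfn.or ?_ ?_ | refine Dfn.iff ?_ ?_ | refine Dfn.not ?_
      | refine Dfn.imp ?_ ?_ | refine Dfn.all ?_ | refine Dfn.ex ?_ | exact Dfn.false'
      | refine Dfn.ballZ ?_ ?_ | refine Dfn.bexZ ?_ ?_)

theorem nx_empty_ccc (hN : CTM N) (h : IsIt δ.toZFSet Λ.toZFSet 𝓡 Q 𝓕)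
    (hF : FinSub δ.toZFSet Λ.toZFSet 𝓕) (hQ : Q ∈ N) (hFN : 𝓕 ∈ N) (hδ : δ.toZFSet ∈ N) (hδ0 : 0 < δ)
    (hΛ : Λ.toZFSet ∈ N) {β : Ordinal.{0}} (hβ : β < Λ) (hc : Ccc N (lw δ.toZFSet Q β.toZFSet)) :
    Ccc N (nx δ.toZFSet 𝓕 (lw δ.toZFSet Q β.toZFSet) ∅ β.toZFSet) := by
  have hβN : β.toZFSet ∈ N := hN.toZFSet_mem_of_le hβ.le hΛ
  -- description of the conditions
  have hin : ∀ p, p ∈ nx δ.toZFSet 𝓕 (lw δ.toZFSet Q β.toZFSet) ∅ β.toZFSet ↔ p ∈ 𝓕 ∧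
      ∃ p₀ ∈ lw δ.toZFSet Q β.toZFSet, p₀ ⊆ p ∧
        ∀ z ∈ p, z ∈ p₀ ∨ ∃ x ∈ δ.toZFSet, z = ZFSet.pair β.toZFSet x := by
    intro p
    rw [mem_nx]
    refine and_congr_right fun _ => ?_
    constructor
    · rintro ⟨p₀, h1, h2, h3, -⟩
      exact ⟨p₀, h1, h2, h3⟩
    · rintro ⟨p₀, h1, h2, h3⟩
      refine ⟨p₀, h1, h2, h3, fun r hr _ => ⟨r, hr, fun z hz => hz, (0 : Ordinal.{0}).toZFSet,
        Ordinal.toZFSet_mem_toZFSet_iff.2 hδ0, ?_⟩⟩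
      intro y _ _ p' _ h4
      exact absurd h4 (ZFSet.notMem_empty _)
  have hrs : ∀ p, p ∈ nx δ.toZFSet 𝓕 (lw δ.toZFSet Q β.toZFSet) ∅ β.toZFSet →
      rs p β.toZFSet ∈ lw δ.toZFSet Q β.toZFSet ∧
      ∀ z ∈ p, z ∈ rs p β.toZFSet ∨ ∃ x ∈ δ.toZFSet, z = ZFSet.pair β.toZFSet x := by
    intro p hp
    obtain ⟨-, p₀, h1, h2, h3⟩ := (hin p).1 hp
    have h4 : rs p β.toZFSet = p₀ := by
      ext z
      constructor
      · intro hz
        have hz' := hz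
        rw [rs, ZFSet.mem_sep] at hz'
        obtain ⟨h5, x, hx, y, h6⟩ := hz'
        rcases h3 z h5 with h7 | ⟨x', hx', h7⟩
        · exact h7
        · rw [h6, ZFSet.pair_inj] at h7
          rw [h7.1, Ordinal.toZFSet_mem_toZFSet_iff] at hx
          exact absurd hx (lt_irrefl _)
      · intro hz
        obtain ⟨γ, hγ, x, hx, h6⟩ := (mem_lw.1 h1).2 z hz
        rw [rs, ZFSet.mem_sep]
        exact ⟨h2 hz, γ, hγ, x, h6⟩
    rw [h4]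
    exact ⟨h1, h3⟩
  -- amalgamation
  have ham : ∀ p p' u, p ∈ nx δ.toZFSet 𝓕 (lw δ.toZFSet Q β.toZFSet) ∅ β.toZFSet →
      p' ∈ nx δ.toZFSet 𝓕 (lw δ.toZFSet Q β.toZFSet) ∅ β.toZFSet →
      u ∈ lw δ.toZFSet Q β.toZFSet → rs p β.toZFSet ⊆ u → rs p' β.toZFSet ⊆ u →
      ∃ w ∈ nx δ.toZFSet 𝓕 (lw δ.toZFSet Q β.toZFSet) ∅ β.toZFSet, p ⊆ w ∧ p' ⊆ w := by
    intro p p' u hp hp' hu h1 h2
    have hpF := ((hF p).1 ((hin p).1 hp).1)
    have hpF' := ((hF p').1 ((hin p').1 hp').1)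
    have huF := ((hF u).1 (h.q_sub u (mem_lw.1 hu).1))
    refine ⟨u ∪ (p ∪ p'), (hin _).2 ⟨(hF _).2 ⟨itA_union huF.1 (itA_union hpF.1 hpF'.1), ?_⟩, u, hu, ?_, ?_⟩,
      ?_, ?_⟩
    · intro z hz
      rcases ZFSet.mem_union.1 hz with h3 | h3
      · exact huF.2 z h3
      · rcases ZFSet.mem_union.1 h3 with h4 | h4
        · exact hpF.2 z h4
        · exact hpF'.2 z h4
    · exact fun z hz => ZFSet.mem_union.2 (Or.inl hz)
    · intro z hz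
      rcases ZFSet.mem_union.1 hz with h3 | h3
      · exact Or.inl h3
      · rcases ZFSet.mem_union.1 h3 with h4 | h4
        · exact ((hrs p hp).2 z h4).imp (fun h5 => h1 h5) id
        · exact ((hrs p' hp').2 z h4).imp (fun h5 => h2 h5) id
    · exact fun z hz => ZFSet.mem_union.2 (Or.inr (ZFSet.mem_union.2 (Or.inl hz)))
    · exact fun z hz => ZFSet.mem_union.2 (Or.inr (ZFSet.mem_union.2 (Or.inr hz)))
  intro A hA hAs hac
  -- the image of the antichain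
  obtain ⟨A', hA', hA'2⟩ := hN.exists_repl (F := j11Rs N ⟨_, hβN⟩) (j11_rs_dfn hN _) hA (by
    intro p _ r r' h1 h2
    rw [j11_rs_iff hN] at h1 h2
    exact Subtype.ext (h1.trans h2.symm))
  have hinj : ∀ p ∈ A, ∀ p' ∈ A, ∀ u ∈ lw δ.toZFSet Q β.toZFSet, rs p β.toZFSet ⊆ u →
      rs p' β.toZFSet ⊆ u → p = p' := by
    intro p hp p' hp' u hu h1 h2
    by_contra hne
    obtain ⟨w, hw, h3, h4⟩ := ham p p' u (hAs hp) (hAs hp') hu h1 h2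
    exact hac p hp p' hp' hne w hw h3 h4
  have hA'e : ∀ s ∈ A', ∃ p ∈ A, s = rs p β.toZFSet := by
    intro s hs
    obtain ⟨p, hp, h1⟩ := (hA'2 ⟨s, hN.mem_of_mem hA' hs⟩).1 hs
    rw [j11_rs_iff hN] at h1
    exact ⟨p.1, hp, h1⟩
  have hcA' : Ctb N A' := by
    refine hc A' hA' ?_ ?_
    · intro s hs
      obtain ⟨p, hp, rfl⟩ := hA'e s hs
      exact (hrs p (hAs hp)).1
    · intro s hs s' hs' hne u hu h1 h2
      obtain ⟨p, hp, rfl⟩ := hA'e s hs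
      obtain ⟨p', hp', rfl⟩ := hA'e s' hs'
      exact hne (by rw [hinj p hp p' hp' u hu h1 h2])
  refine hcA'.image hN hA' (F := fun s p => p.1 ∈ (⟨A, hA⟩ : N).1 ∧ j11Rs N ⟨_, hβN⟩ p s) ?_ ?_ ?_
  · refine Dfn.and (Dfn.mem (DT.var _) (DT.const _)) ?_
    exact Dfn.subst2 (P := j11Rs N ⟨_, hβN⟩) (j11_rs_dfn hN _) (DT.var _) (DT.var _)
  · rintro s _ p p' ⟨h1, h2⟩ ⟨h3, h4⟩
    rw [j11_rs_iff hN] at h2 h4
    refine Subtype.ext (hinj p.1 h1 p'.1 h3 (rs p.1 β.toZFSet) (hrs p.1 (hAs h1)).1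
      (fun z hz => hz) ?_)
    have h5 : rs p'.1 β.toZFSet = rs p.1 β.toZFSet := h4.symm.trans h2
    rw [h5]
  · intro p hp
    have hpN := hN.mem_of_mem hA hp
    have h1 : rs p β.toZFSet ∈ N :=
      hN.mem_of_mem (lw_mem hN hδ hQ hβN) (hrs p (hAs hp)).1
    have h2 : j11Rs N ⟨_, hβN⟩ ⟨p, hpN⟩ ⟨_, h1⟩ := (j11_rs_iff hN).2 rfl
    exact ⟨⟨_, h1⟩, ⟨p, hpN⟩, (hA'2 ⟨_, h1⟩).2 ⟨⟨p, hpN⟩, hp, h2⟩, rfl, hp, h2⟩

theorem ItB.ccc_lw (hN : CTM N) (h : ItB N δ Λ 𝓡 Q 𝓕 B) (hδ : IsOm1 N δ) (hB : FnD B Λ.toZFSet)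
    {β : Ordinal.{0}} (hβ : β ≤ Λ) : Ccc N (lw δ.toZFSet Q β.toZFSet) := by
  have hδ0 : 0 < δ := by
    have := hδ.omega_lt hN 0
    simpa using this
  induction β using WellFoundedLT.induction with
  | ind β ih =>
    by_cases h0 : β = 0
    · subst h0
      intro A hA hAs _
      refine (ctb_om hN).mono fun p hp => ?_
      have h1 := (mem_lw.1 (hAs hp)).2
      have h2 : p = ∅ := by
        rw [ZFSet.eq_empty]
        intro z hz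
        obtain ⟨γ, hγ, -⟩ := h1 z hz
        rw [Ordinal.toZFSet_zero] at hγ
        exact ZFSet.notMem_empty _ hγ
      rw [h2]
      exact natZ_mem_omZ 0
    by_cases hs : ∃ α, β = α + 1
    · obtain ⟨α, rfl⟩ := hs
      have hα : α < Λ := lt_of_lt_of_le (Order.lt_add_one_iff.2 le_rfl) hβ
      have hcα := ih α (Order.lt_add_one_iff.2 le_rfl) hα.le
      obtain ⟨b, hb⟩ := hB.tot α.toZFSet (Ordinal.toZFSet_mem_toZFSet_iff.2 hα)
      by_cases hacc : Acc N δ.toZFSet 𝓕 (lw δ.toZFSet Q α.toZFSet) b α.toZFSet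
      · rw [h.it.succ h.fin hδ0 hα (h.yes α hα b hb hacc)]
        exact hacc.2.2
      · rw [h.it.succ h.fin hδ0 hα (b := ∅) (fun z y p =>
          ⟨fun h1 => absurd h1 (h.no α hα b hb hacc z y p), fun h1 => absurd h1 (ZFSet.notMem_empty _)⟩)]
        exact nx_empty_ccc hN h.it h.fin h.Q_mem h.F_mem hδ.mem hδ0 h.L_mem hα hcα
    · refine ccc_limit hN h.it h.fin h.Q_mem hδ.mem h.L_mem hβ (pos_iff_ne_zero.2 h0) ?_
        (fun γ hγ => ih γ hγ (hγ.le.trans hβ))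
      intro α hα
      rcases lt_or_eq_of_le (Order.add_one_le_of_lt hα) with h1 | h1
      · exact h1
      · exact absurd ⟨α, h1.symm⟩ hs

theorem ItB.ccc (hN : CTM N) (h : ItB N δ Λ 𝓡 Q 𝓕 B) (hδ : IsOm1 N δ) (hB : FnD B Λ.toZFSet) : Ccc N Q := by
  have := h.ccc_lw hN hδ hB le_rfl
  rwa [h.it.lw_top h.fin] at this

theorem ItB.small (hN : CTM N) (h : ItB N δ Λ 𝓡 Q 𝓕 B) (hδ : IsOm1 N δ) (hB : FnD B Λ.toZFSet) :
    SmallNm N δ.toZFSet Λ.toZFSet 𝓡 := by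
  intro β' hβ'
  obtain ⟨β, hβ, rfl⟩ := Ordinal.mem_toZFSet_iff.1 hβ'
  have hβN : β.toZFSet ∈ N := hN.toZFSet_mem_of_le hβ.le h.L_mem
  obtain ⟨b, hb⟩ := hB.tot β.toZFSet (Ordinal.toZFSet_mem_toZFSet_iff.2 hβ)
  by_cases hacc : Acc N δ.toZFSet 𝓕 (lw δ.toZFSet Q β.toZFSet) b β.toZFSet
  · have hyes := h.yes β hβ b hb hacc
    obtain ⟨f, hf, hf1, hf2⟩ := hacc.2.1
    obtain ⟨Y, hY, hY'⟩ := hN.exists_sep (P := fun w => ∃ z y p s t : N,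
        s.1 = ZFSet.pair (⟨_, hβN⟩ : N).1 z.1 ∧ t.1 = ZFSet.pair y.1 p.1 ∧ w.1 = ZFSet.pair s.1 t.1) (by
      (repeat' first
      | exact DT.var _ | exact DT.last | exact DT.const _ | assumption
      | refine Dfn.pairMem ?_ ?_ ?_ | refine Dfn.isPair ?_ ?_ ?_ | refine Dfn.mem ?_ ?_
      | refine Dfn.eqv ?_ ?_ | refine Dfn.eq ?_ ?_ | refine Dfn.subset ?_ ?_
      | refine Dfn.isEmpty ?_ | refine Dfn.isTrans ?_ | refine Dfn.isOrd ?_ | refine Dfn.isNat ?_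
      | refine Dfn.and ?_ ?_ | refine Dfn.or ?_ ?_ | refine Dfn.iff ?_ ?_ | refine Dfn.not ?_
      | refine Dfn.imp ?_ ?_ | refine Dfn.all ?_ | refine Dfn.ex ?_ | exact Dfn.false'
      | refine Dfn.ballZ ?_ ?_ | refine Dfn.bexZ ?_ ?_)) h.R_mem
    have hYe : ∀ w, w ∈ Y ↔ w ∈ 𝓡 ∧ ∃ z y p, w = ZFSet.pair (ZFSet.pair β.toZFSet z) (ZFSet.pair y p) := by
      intro w
      rw [hY']
      constructor
      · rintro ⟨h1, _, z, y, p, s, t, h3, h4, h5⟩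
        rw [h3, h4] at h5
        exact ⟨h1, z.1, y.1, p.1, h5⟩
      · rintro ⟨h1, z, y, p, h5⟩
        have h6 : w ∈ N := hN.mem_of_mem h.R_mem h1
        have h7 := h6
        rw [h5] at h7
        obtain ⟨h8, h9⟩ := hN.of_pair_mem h7
        exact ⟨h1, h6, ⟨z, (hN.of_pair_mem h8).2⟩, ⟨y, (hN.of_pair_mem h9).1⟩,
          ⟨p, (hN.of_pair_mem h9).2⟩, ⟨_, h8⟩, ⟨_, h9⟩, rfl, rfl, h5⟩
    refine ⟨Y, hY, ?_, fun z y p hz => (hYe _).2 ⟨hz, z, y, p, rfl⟩⟩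
    refine cvr_of_dfn hN (F := fun i w => ∃ z y p s t s' t' : N,
        s.1 = ZFSet.pair (⟨_, hβN⟩ : N).1 z.1 ∧ t.1 = ZFSet.pair y.1 p.1 ∧ w.1 = ZFSet.pair s.1 t.1 ∧
        s'.1 = ZFSet.pair z.1 y.1 ∧ t'.1 = ZFSet.pair s'.1 p.1 ∧
        ZFSet.pair i.1 t'.1 ∈ (⟨f, hf⟩ : N).1) (by
      (repeat' first
      | exact DT.var _ | exact DT.last | exact DT.const _ | assumption
      | refine Dfn.pairMem ?_ ?_ ?_ | refine Dfn.isPair ?_ ?_ ?_ | refine Dfn.mem ?_ ?_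
      | refine Dfn.eqv ?_ ?_ | refine Dfn.eq ?_ ?_ | refine Dfn.subset ?_ ?_
      | refine Dfn.isEmpty ?_ | refine Dfn.isTrans ?_ | refine Dfn.isOrd ?_ | refine Dfn.isNat ?_
      | refine Dfn.and ?_ ?_ | refine Dfn.or ?_ ?_ | refine Dfn.iff ?_ ?_ | refine Dfn.not ?_
      | refine Dfn.imp ?_ ?_ | refine Dfn.all ?_ | refine Dfn.ex ?_ | exact Dfn.false'
      | refine Dfn.ballZ ?_ ?_ | refine Dfn.bexZ ?_ ?_)) hδ.mem hY ?_ ?_
    · rintro i hi w w' ⟨z, y, p, s, t, s', t', h1, h2, h3, h4, h5, h6⟩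
        ⟨z2, y2, p2, s2, t2, s2', t2', k1, k2, k3, k4, k5, k6⟩
      have e := hf1 i.1 hi _ _ h6 k6
      rw [h5, k5, ZFSet.pair_inj, h4, k4, ZFSet.pair_inj] at e
      obtain ⟨⟨e1, e2⟩, e3⟩ := e
      apply Subtype.ext
      rw [h3, k3, h1, k1, h2, k2, e1, e2, e3]
    · intro w hw
      obtain ⟨h1, z, y, p, h5⟩ := (hYe _).1 hw
      have h6 : w.1 ∈ N := w.2
      have h7 := h6
      rw [h5] at h7
      obtain ⟨h8, h9⟩ := hN.of_pair_mem h7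
      have hz := (hN.of_pair_mem h8).2
      have hy := (hN.of_pair_mem h9).1
      have hp := (hN.of_pair_mem h9).2
      have h10 : R4 𝓡 β.toZFSet z y p := by
        unfold R4
        rw [← h5]
        exact h1
      obtain ⟨i, hi, h11⟩ := hf2 _ ((hyes z y p).1 h10)
      exact ⟨⟨i, hN.mem_of_mem hδ.mem hi⟩, hi, ⟨z, hz⟩, ⟨y, hy⟩, ⟨p, hp⟩, ⟨_, h8⟩, ⟨_, h9⟩,
        ⟨_, hN.pair_mem hz hy⟩, ⟨_, hN.pair_mem (hN.pair_mem hz hy) hp⟩, rfl, rfl, h5, rfl, rfl, h11⟩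
  · refine ⟨∅, hN.natZ_mem_N 0, cvr_of_subset hN hδ.mem (fun z hz => absurd hz (ZFSet.notMem_empty _)),
      fun z y p h1 => absurd h1 (h.no β hβ b hb hacc z y p)⟩

theorem ItB.empty_mem (hN : CTM N) (h : ItB N δ Λ 𝓡 Q 𝓕 B) : ∅ ∈ Q := by
  have h1 : (∅ : ZFSet.{0}) ∈ 𝓕 := (h.fin ∅).2 ⟨⟨∅, fun z =>
    ⟨fun h => absurd h (ZFSet.notMem_empty z), fun h => absurd h (Finset.notMem_empty z)⟩⟩,
    fun z hz => absurd hz (ZFSet.notMem_empty z)⟩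
  rw [h.it.q_iff _ h1]
  rintro β _ ⟨x, _, hx⟩
  exact absurd hx (ZFSet.notMem_empty _)

end Pool.Agent.H7.IG
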