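import Pool.Agent.H19.IG.J3

/-!
# IG, Part 2: restrictions in the iteration

`p ∈ Q` is a finite subset of `Λ × δ`. `rs p β` (Tk2) is the restriction of `p` to `β`, `lw δ Q β` = `Q_β` (J0). Everything follows
from `IsIt.down`, `IsIt.amalg` (H7/IG/ItA), `q_iff`.
* `IsIt.un`: `amalg` with `A = β`.
* `IsIt.compat`: for `p, q ∈ Q_β`, compatible in `Q`: take the restriction of the common extension.
* `IsIt.snoc`: `r ∈ Q_β`, `p = r ∪ {β} × F`, and `r` forces that `z` is a lower bound of `F`: then `p ∈ Q`. Use `q_iff`: for coordinates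
  `γ < β` the condition for `r ∈ Q`; for `γ = β` take `p₀ = r`, and for `q ⊇ r` take `q' = q` and the same `z`.
* `IsIt.lt_of_limit`: finite support.
* `Gen.low`: `Q_β` is a complete suborder: `D ⊆ Q_β` dense in `Q_β`: apply `Gen.gp` to `D' u :↔ ∃ d ∈ D, d ∈ Q_β, d ⊆ u` (for `p ∈ H` extend
  `rs p β` to `d ∈ D`; `p ∪ d ∈ Q` by `un`); then `d ∈ H`. Directedness: restrict a common extension.

Status: complete (helper26).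
-/

set_option autoImplicit false
set_option linter.unusedVariables false
set_option linter.unusedSectionVars false
set_option linter.unusedSimpArgs false
set_option linter.unusedTactic false
set_option linter.unreachableTactic false

namespace Pool.Agent.H7.IG

open Pool.Agent.H17.Omega Pool.Agent.H17.Omega.CTM Pool.Agent.H52.GX Pool.Agent.H52.GC

variable {δ Λ : Ordinal.{0}} {𝓡 Q 𝓕 : ZFSet.{0}}

theorem Dm.mono {δ p A A' : ZFSet.{0}} (hp : Dm δ p A) (h : A ⊆ A') : Dm δ p A' :=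
  fun z hz => by
    obtain ⟨β, hβ, x, hx, h1⟩ := hp z hz
    exact ⟨β, h hβ, x, hx, h1⟩

theorem lw_mono {δ Q A A' : ZFSet.{0}} (h : A ⊆ A') : lw δ Q A ⊆ lw δ Q A' :=
  fun p hp => mem_lw.2 ⟨(mem_lw.1 hp).1, (mem_lw.1 hp).2.mono h⟩

theorem rs_sub {g a : ZFSet.{0}} : rs g a ⊆ g := fun z hz => (ZFSet.mem_sep.1 hz).1

theorem rs_mono {g g' a : ZFSet.{0}} (h : g ⊆ g') : rs g a ⊆ rs g' a :=
  fun z hz => ZFSet.mem_sep.2 ⟨h (ZFSet.mem_sep.1 hz).1, (ZFSet.mem_sep.1 hz).2⟩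

theorem IsIt.dm (h : IsIt δ.toZFSet Λ.toZFSet 𝓡 Q 𝓕) (hF : FinSub δ.toZFSet Λ.toZFSet 𝓕) {p : ZFSet.{0}}
    (hp : p ∈ Q) : Dm δ.toZFSet p Λ.toZFSet :=
  ((hF p).1 (h.q_sub p hp)).2

theorem IsIt.lw_top (h : IsIt δ.toZFSet Λ.toZFSet 𝓡 Q 𝓕) (hF : FinSub δ.toZFSet Λ.toZFSet 𝓕) :
    lw δ.toZFSet Q Λ.toZFSet = Q := by
  ext p
  rw [mem_lw]
  exact ⟨fun h1 => h1.1, fun h1 => ⟨h1, h.dm hF h1⟩⟩

/-- Restrictions to `β`. -/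
theorem IsIt.rs_mem (h : IsIt δ.toZFSet Λ.toZFSet 𝓡 Q 𝓕) (hF : FinSub δ.toZFSet Λ.toZFSet 𝓕) {p : ZFSet.{0}}
    (hp : p ∈ Q) {β : Ordinal.{0}} (hβ : β ≤ Λ) : rs p β.toZFSet ∈ lw δ.toZFSet Q β.toZFSet := by
  refine mem_lw.2 ⟨h.down hF hp hβ, fun z hz => ?_⟩
  obtain ⟨ξ, hξ, x, hx, rfl⟩ := h.dm hF hp z (rs_sub hz)
  exact ⟨ξ, (pair_mem_rs.1 hz).1, x, hx, rfl⟩

/-- Members of `Q_β` are their own restrictions. -/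
theorem rs_eq_self {p A : ZFSet.{0}} {d : ZFSet.{0}} (hp : Dm d p A) : rs p A = p := by
  ext z
  constructor
  · exact fun hz => rs_sub hz
  · intro hz
    obtain ⟨ξ, hξ, x, hx, rfl⟩ := hp z hz
    exact pair_mem_rs.2 ⟨hξ, hz⟩

theorem IsIt.un (h : IsIt δ.toZFSet Λ.toZFSet 𝓡 Q 𝓕) (hF : FinSub δ.toZFSet Λ.toZFSet 𝓕) {p r : ZFSet.{0}}
    (hp : p ∈ Q) {β : Ordinal.{0}} (hβ : β ≤ Λ) (hr : r ∈ lw δ.toZFSet Q β.toZFSet)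
    (hpr : rs p β.toZFSet ⊆ r) : p ∪ r ∈ Q :=
  h.amalg hF hp (mem_lw.1 hr).1 (mem_lw.1 hr).2 fun γ hγ x hx => hpr (pair_mem_rs.2 ⟨hγ, hx⟩)

theorem IsIt.compat (h : IsIt δ.toZFSet Λ.toZFSet 𝓡 Q 𝓕) (hF : FinSub δ.toZFSet Λ.toZFSet 𝓕)
    {p q u : ZFSet.{0}} {β : Ordinal.{0}} (hβ : β ≤ Λ) (hp : p ∈ lw δ.toZFSet Q β.toZFSet)
    (hq : q ∈ lw δ.toZFSet Q β.toZFSet) (hu : u ∈ Q) (hpu : p ⊆ u) (hqu : q ⊆ u) :
    rs u β.toZFSet ∈ lw δ.toZFSet Q β.toZFSet ∧ p ⊆ rs u β.toZFSet ∧ q ⊆ rs u β.toZFSet := by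
  refine ⟨h.rs_mem hF hu hβ, ?_, ?_⟩
  · have h1 := rs_mono (a := β.toZFSet) hpu
    rwa [rs_eq_self (mem_lw.1 hp).2] at h1
  · have h1 := rs_mono (a := β.toZFSet) hqu
    rwa [rs_eq_self (mem_lw.1 hq).2] at h1

theorem IsIt.snoc (h : IsIt δ.toZFSet Λ.toZFSet 𝓡 Q 𝓕) (hF : FinSub δ.toZFSet Λ.toZFSet 𝓕)
    {p r z : ZFSet.{0}} {β : Ordinal.{0}} (hβ : β < Λ) (hr : r ∈ lw δ.toZFSet Q β.toZFSet) (hp : p ∈ 𝓕)
    (hrp : r ⊆ p) (hp' : ∀ w ∈ p, w ∈ r ∨ ∃ x ∈ δ.toZFSet, w = ZFSet.pair β.toZFSet x)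
    (hz : z ∈ δ.toZFSet) (hlb : LbF δ.toZFSet 𝓡 Q β.toZFSet p r z) : p ∈ Q := by
  obtain ⟨hrQ, hrD⟩ := mem_lw.1 hr
  rw [h.q_iff p hp]
  rintro γ hγ ⟨x, hx, hγx⟩
  -- pairs below stage β are in r
  have key : ∀ ξ ∈ β.toZFSet, ∀ y, ZFSet.pair ξ y ∈ p → ZFSet.pair ξ y ∈ r := by
    intro ξ hξ y hy
    rcases hp' _ hy with h1 | ⟨x', hx', h1⟩
    · exact h1
    · rw [ZFSet.pair_inj] at h1
      rw [h1.1] at hξ
      exact absurd hξ (ZFSet.mem_irrefl _)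
  rcases hp' _ hγx with h1 | ⟨x', hx', h1⟩
  · obtain ⟨ξ, hξ, y, hy, he⟩ := hrD _ h1
    have hγβ : γ ∈ β.toZFSet := by
      rw [ZFSet.pair_inj] at he
      rw [he.1]
      exact hξ
    obtain ⟨p₀, h2, h3, h4, h5, h6⟩ := (h.q_iff r (h.q_sub r hrQ)).1 hrQ γ hγ ⟨x, hx, h1⟩
    refine ⟨p₀, h2, fun w hw => hrp (h3 hw), h4, ?_, fun q hq h7 h8 => ?_⟩
    · rintro w hw ⟨ξ', hξ', y', hy', rfl⟩
      exact h5 _ (key ξ' (itA_trans hγβ hξ') y' hw) ⟨ξ', hξ', y', hy', rfl⟩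
    · obtain ⟨q', h9, h10, h11, z', hz', h12⟩ := h6 q hq h7 h8
      exact ⟨q', h9, h10, h11, z', hz', itA_lb h12 fun y' _ h13 => key γ hγβ y' h13⟩
  · have hγβ : γ = β.toZFSet := (ZFSet.pair_inj.1 h1).1
    subst hγβ
    refine ⟨r, hrQ, hrp, hrD, ?_, fun q hq h7 h8 => ⟨q, hq, h7, fun w hw => hw, z, hz, ?_⟩⟩
    · rintro w hw ⟨ξ', hξ', y', hy', rfl⟩
      exact key ξ' hξ' y' hw
    · intro y hy hyp p' hp'' hR s hs hsD hqs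
      exact hlb y hy hyp p' hp'' hR s hs hsD (fun w hw => hqs (h8 hw))

theorem IsIt.lt_of_limit (h : IsIt δ.toZFSet Λ.toZFSet 𝓡 Q 𝓕) (hF : FinSub δ.toZFSet Λ.toZFSet 𝓕)
    {p : ZFSet.{0}} {γ : Ordinal.{0}} (h0 : 0 < γ) (hγ : ∀ α < γ, α + 1 < γ)
    (hp : p ∈ lw δ.toZFSet Q γ.toZFSet) : ∃ α < γ, p ∈ lw δ.toZFSet Q α.toZFSet := by
  classical
  obtain ⟨hpQ, hpD⟩ := mem_lw.1 hp
  obtain ⟨s, hs⟩ := ((hF p).1 (h.q_sub p hpQ)).1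
  have key : ∀ t : Finset ZFSet.{0}, (∀ z ∈ t, ∃ β ∈ γ.toZFSet, ∃ x ∈ δ.toZFSet, z = ZFSet.pair β x) →
      ∃ α < γ, ∀ z ∈ t, ∃ β ∈ α.toZFSet, ∃ x ∈ δ.toZFSet, z = ZFSet.pair β x := by
    intro t
    induction t using Finset.induction_on with
    | empty => exact fun _ => ⟨0, h0, fun z hz => absurd hz (Finset.notMem_empty z)⟩
    | insert a t hat ih =>
      intro ht
      obtain ⟨α, hα, h1⟩ := ih fun z hz => ht z (Finset.mem_insert_of_mem hz)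
      obtain ⟨β, hβ, x, hx, rfl⟩ := ht a (Finset.mem_insert_self _ _)
      obtain ⟨β', hβ', rfl⟩ := Ordinal.mem_toZFSet_iff.1 hβ
      refine ⟨max α (β' + 1), max_lt hα (hγ β' hβ'), fun z hz => ?_⟩
      rcases Finset.mem_insert.1 hz with rfl | hz
      · exact ⟨β'.toZFSet, Ordinal.toZFSet_mem_toZFSet_iff.2
          (lt_of_lt_of_le (Order.lt_succ β') (le_max_right _ _)), x, hx, rfl⟩
      · obtain ⟨ξ, hξ, y, hy, h2⟩ := h1 z hz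
        obtain ⟨ξ', hξ', rfl⟩ := Ordinal.mem_toZFSet_iff.1 hξ
        exact ⟨ξ'.toZFSet, Ordinal.toZFSet_mem_toZFSet_iff.2
          (lt_of_lt_of_le hξ' (le_max_left _ _)), y, hy, h2⟩
  obtain ⟨α, hα, h1⟩ := key s fun z hz => hpD z ((hs z).2 hz)
  exact ⟨α, hα, mem_lw.2 ⟨hpQ, fun z hz => h1 z ((hs z).1 hz)⟩⟩

theorem Gen.low {N : Set ZFSet.{0}} (hN : CTM N) (h : IsIt δ.toZFSet Λ.toZFSet 𝓡 Q 𝓕)
    (hF : FinSub δ.toZFSet Λ.toZFSet 𝓕) (hQ : Q ∈ N) (hδ : δ.toZFSet ∈ N) (hΛ : Λ.toZFSet ∈ N) {H : ZFSet.{0}}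
    (hH : Gen N Q H) {β : Ordinal.{0}} (hβ : β ≤ Λ) :
    Gen N (lw δ.toZFSet Q β.toZFSet) (lw δ.toZFSet H β.toZFSet) := by
  have hrs : ∀ p ∈ H, rs p β.toZFSet ∈ lw δ.toZFSet H β.toZFSet := by
    intro p hp
    have h1 := h.rs_mem hF (hH.sub p hp) hβ
    exact mem_lw.2 ⟨hH.up p hp _ (mem_lw.1 h1).1 rs_sub, (mem_lw.1 h1).2⟩
  have hlN : lw δ.toZFSet Q β.toZFSet ∈ N := lw_mem hN hδ hQ (hN.toZFSet_mem_of_le hβ hΛ)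
  refine ⟨fun p hp => mem_lw.2 ⟨hH.sub p (mem_lw.1 hp).1, (mem_lw.1 hp).2⟩, ?_, ?_, ?_, ?_⟩
  · obtain ⟨p, hp⟩ := hH.ne
    exact ⟨_, hrs p hp⟩
  · intro p hp q hq hqp
    exact mem_lw.2 ⟨hH.up p (mem_lw.1 hp).1 q (mem_lw.1 hq).1 hqp, (mem_lw.1 hq).2⟩
  · intro p hp q hq
    obtain ⟨r, hr, h1, h2⟩ := hH.dir p (mem_lw.1 hp).1 q (mem_lw.1 hq).1
    refine ⟨_, hrs r hr, ?_, ?_⟩
    · have h3 := rs_mono (a := β.toZFSet) h1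
      rwa [rs_eq_self (mem_lw.1 hp).2] at h3
    · have h3 := rs_mono (a := β.toZFSet) h2
      rwa [rs_eq_self (mem_lw.1 hq).2] at h3
  · intro D hD hdense
    have hdfn : hN.Dfn (fun v : Fin 1 → N => ∃ d ∈ (⟨D, hD⟩ : N).1,
        d ∈ (⟨lw δ.toZFSet Q β.toZFSet, hlN⟩ : N).1 ∧ d ⊆ (v 0).1) := by
      (repeat' first
      | exact DT.var _ | exact DT.last | exact DT.const _ | assumption
      | refine Dfn.pairMem ?_ ?_ ?_ | refine Dfn.isPair ?_ ?_ ?_ | refine Dfn.mem ?_ ?_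
      | refine Dfn.eqv ?_ ?_ | refine Dfn.eq ?_ ?_ | refine Dfn.subset ?_ ?_
      | refine Dfn.and ?_ ?_ | refine Dfn.or ?_ ?_ | refine Dfn.iff ?_ ?_ | refine Dfn.not ?_
      | refine Dfn.imp ?_ ?_ | refine Dfn.all ?_ | refine Dfn.ex ?_ | exact Dfn.false'
      | refine Dfn.ballZ ?_ ?_ | refine Dfn.bexZ ?_ ?_ | exact Dfn.const _)
    obtain ⟨u, hu, d, hdD, hdl, hdu⟩ := hH.gp hN hQ (D := fun u => ∃ d ∈ D,
        d ∈ lw δ.toZFSet Q β.toZFSet ∧ d ⊆ u.1) hdfn (by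
      intro p hp
      obtain ⟨q, hq, h1, h2⟩ := hdense _ (h.rs_mem hF (hH.sub p hp) hβ)
      have h3 := h.un hF (hH.sub p hp) hβ hq h1
      exact ⟨⟨p ∪ q, hN.trans Q hQ _ h3⟩, h3, fun w hw => ZFSet.mem_union.2 (Or.inl hw), q, h2,
        hq, fun w hw => ZFSet.mem_union.2 (Or.inr hw)⟩)
    exact ⟨d, mem_lw.2 ⟨hH.up u.1 hu d (mem_lw.1 hdl).1 hdu, (mem_lw.1 hdl).2⟩, hdD⟩

theorem Ccc.low {N : Set ZFSet.{0}} (h : IsIt δ.toZFSet Λ.toZFSet 𝓡 Q 𝓕)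
    (hF : FinSub δ.toZFSet Λ.toZFSet 𝓕) (hc : Ccc N Q) {β : Ordinal.{0}} (hβ : β ≤ Λ) :
    Ccc N (lw δ.toZFSet Q β.toZFSet) := by
  intro A hA hAQ hanti
  refine hc A hA (fun a ha => (mem_lw.1 (hAQ ha)).1) fun a ha b hb hab q hq haq hbq => ?_
  obtain ⟨h1, h2, h3⟩ := h.compat hF hβ (hAQ ha) (hAQ hb) hq haq hbq
  exact hanti a ha b hb hab _ h1 h2 h3

end Pool.Agent.H7.IG
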