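import Pool.Agent.H19.IG.J3

/-!
# IG, Part 2: lower bounds and their forcing

`q` a poset in `N`, `K ⊆ q` generic, `b` a name. `LbS δ q b β p q' z` is equivalent to: `q'` forces `(z, y) ∉ Rv δ b K` for all
`y` with `(β, y) ∈ p`.
* `LbS.not_mem`: if `(z, y) ∈ Rv δ b K`, there is `p' ∈ K` with `((z, y), p') ∈ b`; take `r ∈ K` containing `q'` and `p'`.
* `exists_lbs`: the set of the `r ∈ q` such that `LbS δ q b β p r z` or `p' ⊆ r` for some `p' ∈ q`, `y ∈ δ` with `(β, y) ∈ p`,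
  `((z, y), p') ∈ b` is dense and definable (`ud_LbS`, `UD.subG`, `Dfn.subG`); `K` meets it (`Gen.meet`).
-/

set_option autoImplicit false
set_option linter.unusedVariables false
set_option linter.unusedSectionVars false
set_option linter.unusedSimpArgs false
set_option linter.unusedTactic false
set_option linter.unreachableTactic false

namespace Pool.Agent.H7.IG

open Pool.Agent.H17.Omega Pool.Agent.H17.Omega.CTM Pool.Agent.H52.GX Pool.Agent.H52.GC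

theorem LbS.mono {δ q b β p q' q'' z : ZFSet.{0}} (h : LbS δ q b β p q' z) (h' : q' ⊆ q'') :
    LbS δ q b β p q'' z :=
  fun y hy hp p' hp' hb r hr hr' => h y hy hp p' hp' hb r hr (fun _ hx => hr' (h' hx))

theorem LbS.anti {δ q b β p p₁ q' z : ZFSet.{0}} (h : LbS δ q b β p q' z) (h' : p₁ ⊆ p) :
    LbS δ q b β p₁ q' z :=
  fun y hy hp p' hp' hb r hr hr' => h y hy (h' hp) p' hp' hb r hr hr'

theorem LbS.not_mem {N : Set ZFSet.{0}} {δ q b β p q' z K : ZFSet.{0}} (hK : Gen N q K)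
    (h : LbS δ q b β p q' z) (hq' : q' ∈ K) : ∀ y ∈ δ, ZFSet.pair β y ∈ p → ZFSet.pair z y ∉ Rv δ b K := by
  intro y hy hyp hzy
  obtain ⟨-, p', hp'K, hp'b⟩ := mem_sc.1 hzy
  obtain ⟨r, hrK, h1, h2⟩ := hK.dir q' hq' p' hp'K
  exact h y hy hyp p' (hK.sub p' hp'K) hp'b r (hK.sub r hrK) h1 h2

theorem exists_lbs {N : Set ZFSet.{0}} (hN : CTM N) {δ q b β p z K : ZFSet.{0}} (hK : Gen N q K) (hδ : δ ∈ N)
    (hq : q ∈ N) (hb : b ∈ N) (hβ : β ∈ N) (hp : p ∈ N) (hz : z ∈ δ)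
    (h : ∀ y ∈ δ, ZFSet.pair β y ∈ p → ZFSet.pair z y ∉ Rv δ b K) : ∃ q' ∈ K, LbS δ q b β p q' z := by
  have hzN : z ∈ N := hN.mem_of_mem hδ hz
  have hD : hN.Dfn (fun v : Fin 1 → N => LbS (⟨δ, hδ⟩ : N).1 (⟨q, hq⟩ : N).1 (⟨b, hb⟩ : N).1 (⟨β, hβ⟩ : N).1
      (⟨p, hp⟩ : N).1 (v 0).1 (⟨z, hzN⟩ : N).1 ∨ ∃ y ∈ (⟨δ, hδ⟩ : N).1, ZFSet.pair (⟨β, hβ⟩ : N).1 y ∈ (⟨p, hp⟩ : N).1 ∧
        ∃ p' ∈ (⟨q, hq⟩ : N).1, ZFSet.pair (ZFSet.pair (⟨z, hzN⟩ : N).1 y) p' ∈ (⟨b, hb⟩ : N).1 ∧ p' ⊆ (v 0).1) := by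
    refine Dfn.or ?_ ?_
    · exact Dfn.subG (ud_LbS.dfn hN hN) (s := ![fun _ => ⟨δ, hδ⟩, fun _ => ⟨q, hq⟩, fun _ => ⟨b, hb⟩,
        fun _ => ⟨β, hβ⟩, fun _ => ⟨p, hp⟩, fun v => v 0, fun _ => ⟨z, hzN⟩])
        (by intro i; fin_cases i <;> first | exact DT.const _ | exact DT.var _)
    · (repeat' first
        | exact DT.var _ | exact DT.last | exact DT.const _ | assumption
        | exact UD.d4 (P := fun N a b c d => ZFSet.pair (ZFSet.pair a.1 b.1) c.1 ∈ d.1) j2_trm hN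
            (a := fun _ => ⟨z, hzN⟩) (d := fun _ => ⟨b, hb⟩)
            (DT.const _) (DT.var _) (DT.var _) (DT.const _)
        | refine Dfn.pairMem ?_ ?_ ?_ | refine Dfn.isPair ?_ ?_ ?_ | refine Dfn.mem ?_ ?_
        | refine Dfn.eqv ?_ ?_ | refine Dfn.eq ?_ ?_ | refine Dfn.subset ?_ ?_
        | refine Dfn.and ?_ ?_ | refine Dfn.or ?_ ?_ | refine Dfn.not ?_
        | refine Dfn.imp ?_ ?_ | refine Dfn.all ?_ | refine Dfn.ex ?_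
        | refine Dfn.ballZ ?_ ?_ | refine Dfn.bexZ ?_ ?_ | exact Dfn.const _)
  obtain ⟨p₀, hp₀⟩ := hK.ne
  obtain ⟨r, hrK, -, hr⟩ := hK.meet hN hq (D := fun r => LbS δ q b β p r.1 z ∨ ∃ y ∈ δ, ZFSet.pair β y ∈ p ∧
      ∃ p' ∈ q, ZFSet.pair (ZFSet.pair z y) p' ∈ b ∧ p' ⊆ r.1) hD hp₀ (by
    intro r hr hp₀r
    by_cases h1 : LbS δ q b β p r z
    · exact ⟨⟨r, hN.mem_of_mem hq hr⟩, hr, fun x hx => hx, Or.inl h1⟩
    · unfold LbS at h1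
      push Not at h1
      obtain ⟨y, hy, hyp, p', hp'q, hp'b, s, hs, hrs, hp's⟩ := h1
      exact ⟨⟨s, hN.mem_of_mem hq hs⟩, hs, hrs, Or.inr ⟨y, hy, hyp, p', hp'q, hp'b, hp's⟩⟩)
  rcases hr with hr | ⟨y, hy, hyp, p', hp'q, hp'b, hp'r⟩
  · exact ⟨r.1, hrK, hr⟩
  · exact absurd (mem_sc.2 ⟨ZFSet.mem_prod.2 ⟨z, hz, y, hy, rfl⟩, p', hK.up r.1 hrK p' hp'q hp'r, hp'b⟩)
      (h y hy hyp)

end Pool.Agent.H7.IG
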