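import Pool.Agent.H19.IG.J5
import Pool.Agent.H19.IG.J7
import Pool.Agent.H19.IG.J8

/-!
# IG, Part 2: names that are forced to be ccc are accepted

`pc_empty`: for `R = ∅` all elements are compatible, an antichain has at most one element.
`acc_of_forced`: let `b` be a name over `Q_β` of size `≤ δ` such that in all extensions by `Q`-generic `K` the value `Rv δ b K` is (the
complement of) a ccc preorder. Then `b` is accepted at stage `β`. Proof: let `q = Q_β = lw δ Q β`. Suppose `A ∈ N` is an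
uncountable antichain of `nx δ 𝓕 q b β`. Choose `f ∈ N` injective from `δ` to `A` (`exists_inj_om1`) and `f₀ ∈ N`, `f₀ : δ → Q`, with
`f₀(ξ) = p₀` as in `InSt` for `p = f(ξ)` (`exists_choice`). By `Ccc.unb` (for `Q`, `f₀`) there is a `Q`-generic `K` (`exists_gen`) such that
`f₀(ξ) ∈ K` for unboundedly many `ξ < δ`. `W = Xt N K` is a ctm and `δ` is its `ω₁` (`hom1`). `K' = lw δ K β` is `Q_β`-generic (`Gen.low`)
and `R := Rv δ b K = Rv δ b K'` as `b` is a name over `Q_β`. For `ξ ∈ Ξ = {ξ < δ : f₀(ξ) ∈ K}` there is `z < δ` with `(z, y) ∉ R` for all `y`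
with `(β, y) ∈ f(ξ)`: by `InSt` and `Gen.meet` for `K'` (below `f₀(ξ)`) there is `q' ∈ K'` and `z` with `LbS δ q b β (f ξ) q' z`; `LbS.not_mem`.
In `W` choose a function `ζ : Ξ → δ` selecting such `z` (`exists_choice`). There are `ξ ≠ ξ'` in `Ξ` and `w < δ` with `(w, ζ ξ) ∉ R`,
`(w, ζ ξ') ∉ R`: if `ζ` is not injective clear (reflexivity); otherwise `A' = ζ[Ξ]` is not countable in `W` (`Ξ` is unbounded in `δ`, hence
uncountable by `ctb_iff_bdd`, and it is the image of `A'`), so by `PC.ccc` two different elements have a common lower bound. By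
transitivity `(w, y) ∉ R` for all `y` with `(β, y) ∈ p := f(ξ) ∪ f(ξ')`. By `exists_lbs` (for `q, K'`) there is `q' ∈ K'` with
`LbS δ q b β p q' w`, and we may take `q' ⊇ f₀(ξ), f₀(ξ')`. Then `u = q' ∪ p` is in `𝓕` and in `nx δ 𝓕 q b β` (`p₀ := q'`, `LbS.mono`;
the coordinates at `β` of `u` are those of `p`, because `Dm q' β`), a common extension of `f(ξ) ≠ f(ξ')`: contradiction.
-/

set_option autoImplicit false
set_option linter.unusedVariables false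
set_option linter.unusedSectionVars false
set_option linter.unusedSimpArgs false
set_option linter.unusedTactic false
set_option linter.unreachableTactic false

namespace Pool.Agent.H7.IG

open Pool.Agent.H17.Omega Pool.Agent.H17.Omega.CTM Pool.Agent.H52.GX Pool.Agent.H52.GC

variable {N : Set ZFSet.{0}} {δ Λ : Ordinal.{0}} {𝓡 Q 𝓕 : ZFSet.{0}}

theorem pc_empty {N : Set ZFSet.{0}} (hN : CTM N) {δ : ZFSet.{0}} (hδ : δ ∈ N) : PC N δ ∅ := by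
  classical
  refine ⟨⟨fun z _ h => ZFSet.notMem_empty _ h, fun x _ y _ z _ _ _ h => ZFSet.notMem_empty _ h⟩, ?_⟩
  intro A hA hAδ h
  have hsub : ∀ a ∈ A, ∀ b ∈ A, a = b := by
    intro a ha b hb
    by_contra hne
    exact ZFSet.notMem_empty _ (h a ha b hb hne a (hAδ ha) (ZFSet.notMem_empty _))
  refine tk7_fin_ctb hN hA ?_
  by_cases hex : ∃ a, a ∈ A
  · obtain ⟨a, ha⟩ := hex
    refine ⟨{a}, fun z => ?_⟩
    rw [Finset.mem_singleton]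
    exact ⟨fun hz => hsub z hz a ha, fun hz => hz ▸ ha⟩
  · refine ⟨∅, fun z => ?_⟩
    exact ⟨fun hz => (hex ⟨z, hz⟩).elim, fun hz => absurd hz (Finset.notMem_empty z)⟩

theorem rv_low {δ Q b K : ZFSet.{0}} {β : Ordinal.{0}} (hb : NmS δ (lw δ Q β.toZFSet) b) :
    Rv δ b K = Rv δ b (lw δ K β.toZFSet) := by
  ext x
  rw [Rv, Rv, mem_sc, mem_sc]
  refine and_congr_right fun _ => ?_
  constructor
  · rintro ⟨p, hp, hxp⟩
    obtain ⟨z, _, y, _, p', hp', he⟩ := hb _ hxp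
    rw [ZFSet.pair_inj] at he
    exact ⟨p, mem_lw.2 ⟨hp, he.2 ▸ (mem_lw.1 hp').2⟩, hxp⟩
  · rintro ⟨p, hp, hxp⟩
    exact ⟨p, (mem_lw.1 hp).1, hxp⟩

/-- `y` witnesses that `p` satisfies `InSt`. -/
def J12In (N : Set ZFSet.{0}) (δ q b β p y : N) : Prop :=
  y.1 ⊆ p.1 ∧ (∀ z ∈ p.1, z ∈ y.1 ∨ ∃ x ∈ δ.1, z = ZFSet.pair β.1 x) ∧
    ∀ r ∈ q.1, y.1 ⊆ r → ∃ q' ∈ q.1, r ⊆ q' ∧ ∃ z ∈ δ.1, LbS δ.1 q.1 b.1 β.1 p.1 q' z

theorem j12_ud : UD CtmC (fun N (v : Fin 6 → N) => J12In N (v 0) (v 1) (v 2) (v 3) (v 4) (v 5)) := by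
  unfold J12In
  (repeat' first
      | exact UT.var _ | exact UT.last | assumption
      | exact UD.sub7 (P := fun N a b c d e f g => LbS a.1 b.1 c.1 d.1 e.1 f.1 g.1) ud_LbS (UT.var _) (UT.var _) (UT.var _) (UT.var _) (UT.var _) (UT.var _) (UT.var _)
      | refine UD.pairMem ?_ ?_ ?_ | refine UD.isPair ?_ ?_ ?_ | refine UD.mem ?_ ?_
      | refine UD.eqv ?_ ?_ | refine UD.eq ?_ ?_ | refine UD.subset ?_ ?_
      | refine UD.isEmpty ?_ | refine UD.isTrans ?_ | refine UD.isOrd ?_ | refine UD.isNat ?_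
      | refine UD.isUpair ?_ ?_ ?_ | refine UD.isInsert ?_ ?_ ?_ | refine UD.isUnion ?_ ?_ ?_
      | refine UD.and ?_ ?_ | refine UD.or ?_ ?_ | refine UD.iff ?_ ?_ | refine UD.not ?_
      | refine UD.imp ?_ ?_ | refine UD.all ?_ | refine UD.ex ?_ | exact UD.false' | exact UD.true'
      | refine UD.ball ?_ ?_ | refine UD.bex ?_ ?_)

/-- A function of `N` choosing the witnesses. -/
theorem j12_choose (hN : CTM N) {d q b β f A : ZFSet.{0}} (hd : d ∈ N) (hq : q ∈ N) (hb : b ∈ N) (hβ : β ∈ N)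
    (hf : f ∈ N) (hfn : Fn f d A) (hA : A ∈ N) (hA' : ∀ p ∈ A, InSt d q b β p) :
    ∃ g ∈ N, Fn g d q ∧ ∀ x p y : N, ZFSet.pair x.1 p.1 ∈ f → ZFSet.pair x.1 y.1 ∈ g →
      J12In N ⟨d, hd⟩ ⟨q, hq⟩ ⟨b, hb⟩ ⟨β, hβ⟩ p y := by
  obtain ⟨g, hg, hgn, hg'⟩ := exists_choice hN (F := fun x y => ∀ p : N, ZFSet.pair x.1 p.1 ∈ (⟨f, hf⟩ : N).1 →
    J12In N ⟨d, hd⟩ ⟨q, hq⟩ ⟨b, hb⟩ ⟨β, hβ⟩ p y) (by
      refine Dfn.all (Dfn.imp (Dfn.pairMem (DT.var _) (DT.var _) (DT.const _)) ?_)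
      exact UD.d6 (P := fun N a b c d e f => J12In N a b c d e f) j12_ud hN (DT.const _) (DT.const _) (DT.const _)
        (DT.const _) (DT.var _) (DT.var _)) hd hq (by
      intro x hx
      obtain ⟨h1, h2⟩ := hfn.ap_mem hx
      obtain ⟨p₀, hp₀, h3, h4, h5⟩ := hA' _ h1
      refine ⟨⟨p₀, hN.mem_of_mem hq hp₀⟩, hp₀, ?_⟩
      intro p hp
      have e : p.1 = ap f x.1 := (hfn.ap_eq hp).symm
      refine ⟨?_, ?_, ?_⟩
      · rw [e]; exact h3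
      · rw [e]; exact h4
      · rw [e]; exact h5)
  exact ⟨g, hg, hgn, fun x p y h1 h2 => hg' x y h2 p h1⟩

/-- Two elements of the value with a common lower bound. -/
theorem j12_two {W : Set ZFSet.{0}} (hW : CTM W) (hδ : IsOm1 W δ) {R Ξ ζ : ZFSet.{0}} (hPC : PC W δ.toZFSet R)
    (hΞ : Ξ ∈ W) (hΞs : Ξ ⊆ δ.toZFSet) (hΞu : ∀ α < δ, ∃ ξ, α ≤ ξ ∧ ξ < δ ∧ ξ.toZFSet ∈ Ξ) (hζ : ζ ∈ W)
    (hζn : Fn ζ Ξ δ.toZFSet) : ∃ ξ ∈ Ξ, ∃ ξ' ∈ Ξ, ξ ≠ ξ' ∧ ∃ w ∈ δ.toZFSet, ZFSet.pair w (ap ζ ξ) ∉ R ∧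
      ZFSet.pair w (ap ζ ξ') ∉ R := by
  classical
  by_cases hinj : ∃ ξ ∈ Ξ, ∃ ξ' ∈ Ξ, ξ ≠ ξ' ∧ ap ζ ξ = ap ζ ξ'
  · obtain ⟨ξ, hξ, ξ', hξ', hne, he⟩ := hinj
    have h1 := (hζn.ap_mem hξ).1
    refine ⟨ξ, hξ, ξ', hξ', hne, ap ζ ξ, h1, hPC.pre.refl _ h1, ?_⟩
    rw [← he]
    exact hPC.pre.refl _ h1
  · obtain ⟨A', hA', hA''⟩ := hW.exists_sep (P := fun z => ∃ x : W, x.1 ∈ (⟨Ξ, hΞ⟩ : W).1 ∧
      ZFSet.pair x.1 z.1 ∈ (⟨ζ, hζ⟩ : W).1) (by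
        (repeat' first
          | exact DT.var _ | exact DT.last | exact DT.const _ | assumption
          | refine Dfn.pairMem ?_ ?_ ?_ | refine Dfn.isPair ?_ ?_ ?_ | refine Dfn.mem ?_ ?_
          | refine Dfn.and ?_ ?_ | refine Dfn.or ?_ ?_ | refine Dfn.iff ?_ ?_ | refine Dfn.not ?_
          | refine Dfn.imp ?_ ?_ | refine Dfn.all ?_ | refine Dfn.ex ?_)) hδ.mem
    have hmem : ∀ z, z ∈ A' → ∃ ξ ∈ Ξ, ap ζ ξ = z := by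
      intro z hz
      obtain ⟨_, hzW, x, hx, hxz⟩ := (hA'' z).1 hz
      exact ⟨x.1, hx, hζn.ap_eq hxz⟩
    have hmem' : ∀ ξ ∈ Ξ, ap ζ ξ ∈ A' := by
      intro ξ hξ
      obtain ⟨h1, h2⟩ := hζn.ap_mem hξ
      exact (hA'' _).2 ⟨h1, hW.mem_of_mem hδ.mem h1, ⟨ξ, hW.mem_of_mem hΞ hξ⟩, hξ, h2⟩
    have hunc : ¬ Ctb W A' := by
      intro hc
      have h1 : Ctb W Ξ := by
        refine Ctb.image hW hc hA' (F := fun z x => ZFSet.pair x.1 z.1 ∈ (⟨ζ, hζ⟩ : W).1) (by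
          (repeat' first
            | exact DT.var _ | exact DT.last | exact DT.const _ | assumption
            | refine Dfn.pairMem ?_ ?_ ?_ | refine Dfn.mem ?_ ?_)) ?_ ?_
        · intro z _ x x' h2 h3
          by_contra hne
          apply hinj
          obtain ⟨a, ha, c, _, he⟩ := hζn.sub _ h2
          obtain ⟨a', ha', c', _, he'⟩ := hζn.sub _ h3
          rw [ZFSet.pair_inj] at he he'
          refine ⟨x.1, he.1 ▸ ha, x'.1, he'.1 ▸ ha', fun h => hne (Subtype.ext h), ?_⟩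
          rw [hζn.ap_eq h2, hζn.ap_eq h3]
        · intro x hx
          obtain ⟨h2, h3⟩ := hζn.ap_mem hx
          exact ⟨⟨ap ζ x, hW.mem_of_mem hδ.mem h2⟩, ⟨x, hW.mem_of_mem hΞ hx⟩, hmem' x hx, rfl, h3⟩
      obtain ⟨α, hα, h2⟩ := (ctb_iff_bdd hW hδ hΞ hΞs).1 h1
      obtain ⟨ξ, h3, h4, h5⟩ := hΞu α hα
      have h6 := Ordinal.toZFSet_mem_toZFSet_iff.1 (h2 h5)
      exact absurd h6 (not_lt.2 h3)
    by_contra hcon
    apply hunc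
    refine hPC.ccc A' hA' (fun z hz => ((hA'' z).1 hz).1) ?_
    intro a ha b hb hne z hz hza
    obtain ⟨ξ, hξ, rfl⟩ := hmem a ha
    obtain ⟨ξ', hξ', rfl⟩ := hmem b hb
    by_contra hzb
    exact hcon ⟨ξ, hξ, ξ', hξ', fun h => hne (by rw [h]), z, hz, hza, hzb⟩

theorem acc_of_forced (hN : CTM N) (h : IsIt δ.toZFSet Λ.toZFSet 𝓡 Q 𝓕)
    (hF : FinSub δ.toZFSet Λ.toZFSet 𝓕) (hQ : Q ∈ N) (hFN : 𝓕 ∈ N) (hδ : IsOm1 N δ) (hΛ : Λ.toZFSet ∈ N)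
    (hc : Ccc N Q) {β : Ordinal.{0}} (hβ : β < Λ) {b : ZFSet.{0}} (hb : b ∈ N)
    (hnm : NmS δ.toZFSet (lw δ.toZFSet Q β.toZFSet) b) (hsm : Cvr N δ.toZFSet b)
    (hom1 : ∀ K, Gen N Q K → IsOm1 (Xt N K) δ)
    (hpc : ∀ K, Gen N Q K → PC (Xt N K) δ.toZFSet (Rv δ.toZFSet b K)) :
    Acc N δ.toZFSet 𝓕 (lw δ.toZFSet Q β.toZFSet) b β.toZFSet := by
  classical
  refine ⟨hnm, hsm, ?_⟩
  intro A hA hAs hAc
  by_contra hunc
  have hβN : β.toZFSet ∈ N := hN.toZFSet_mem_of_le hβ.le hΛ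
  have hβΛ : β.toZFSet ∈ Λ.toZFSet := Ordinal.toZFSet_mem_toZFSet_iff.2 hβ
  have hq : lw δ.toZFSet Q β.toZFSet ∈ N := lw_mem hN hδ.mem hQ hβN
  obtain ⟨f, hf, hfn, hfi⟩ := exists_inj_om1 hN hδ hA hunc
  obtain ⟨g, hg, hgn, hg'⟩ := j12_choose hN hδ.mem hq hb hβN hf hfn hA
    (fun p hp => (mem_nx.1 (hAs hp)).2)
  have hgn' : Fn g δ.toZFSet Q := by
    refine ⟨fun z hz => ?_, fun x hx => ?_, fun x hx y _ y' _ h1 h2 => ?_⟩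
    · obtain ⟨x, hx, y, hy, he⟩ := hgn.sub z hz
      exact ⟨x, hx, y, (mem_lw.1 hy).1, he⟩
    · obtain ⟨y, hy, hxy⟩ := hgn.tot x hx
      exact ⟨y, (mem_lw.1 hy).1, hxy⟩
    · exact (hgn.ap_eq h1).symm.trans (hgn.ap_eq h2)
  obtain ⟨q₀, hq₀, hunb⟩ := hc.unb hN hQ hδ hg hgn'
  obtain ⟨K, hK, hq₀K⟩ := exists_gen hN hQ hq₀
  have hunb' := hunb K hK hq₀K
  have hW : CTM (Xt N K) := hK.ctm hN hQ
  have hNW : N ⊆ Xt N K := hK.sub_xt hN hQ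
  have hKW : K ∈ Xt N K := hK.mem_xt hN hQ
  have hδW := hom1 K hK
  have hPC := hpc K hK
  have hK' : Gen N (lw δ.toZFSet Q β.toZFSet) (lw δ.toZFSet K β.toZFSet) :=
    Gen.low hN h hF hQ hδ.mem hΛ hK hβ.le
  have hRW : Rv δ.toZFSet b K ∈ Xt N K := sc_mem hW (hNW hb) hKW (hW.prod_mem hδW.mem hδW.mem)
  have hRlow : Rv δ.toZFSet b K = Rv δ.toZFSet b (lw δ.toZFSet K β.toZFSet) := rv_low hnm
  -- the set of the indices
  obtain ⟨Ξ, hΞ, hΞ'⟩ := hW.exists_sep (P := fun x => ∃ p : Xt N K, p.1 ∈ (⟨K, hKW⟩ : Xt N K).1 ∧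
      ZFSet.pair x.1 p.1 ∈ (⟨g, hNW hg⟩ : Xt N K).1) (by
        (repeat' first
          | exact DT.var _ | exact DT.last | exact DT.const _ | assumption
          | refine Dfn.pairMem ?_ ?_ ?_ | refine Dfn.isPair ?_ ?_ ?_ | refine Dfn.mem ?_ ?_
          | refine Dfn.and ?_ ?_ | refine Dfn.or ?_ ?_ | refine Dfn.iff ?_ ?_ | refine Dfn.not ?_
          | refine Dfn.imp ?_ ?_ | refine Dfn.all ?_ | refine Dfn.ex ?_)) hδW.mem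
  have hΞs : Ξ ⊆ δ.toZFSet := fun z hz => ((hΞ' z).1 hz).1
  have hΞK : ∀ ξ ∈ Ξ, ap g ξ ∈ K := by
    intro ξ hξ
    obtain ⟨_, _, p, hp, hxp⟩ := (hΞ' ξ).1 hξ
    rw [hgn.ap_eq hxp]
    exact hp
  have hΞK' : ∀ ξ ∈ Ξ, ap g ξ ∈ lw δ.toZFSet K β.toZFSet := fun ξ hξ =>
    mem_lw.2 ⟨hΞK ξ hξ, (mem_lw.1 (hgn.ap_mem (hΞs hξ)).1).2⟩
  have hIn : ∀ ξ ∈ Ξ, ap g ξ ⊆ ap f ξ ∧ (∀ z ∈ ap f ξ, z ∈ ap g ξ ∨ ∃ x ∈ δ.toZFSet, z = ZFSet.pair β.toZFSet x) ∧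
      ∀ r ∈ lw δ.toZFSet Q β.toZFSet, ap g ξ ⊆ r → ∃ q' ∈ lw δ.toZFSet Q β.toZFSet, r ⊆ q' ∧
        ∃ z ∈ δ.toZFSet, LbS δ.toZFSet (lw δ.toZFSet Q β.toZFSet) b β.toZFSet (ap f ξ) q' z := by
    intro ξ hξ
    have hξδ := hΞs hξ
    obtain ⟨h1, h2⟩ := hfn.ap_mem hξδ
    obtain ⟨h3, h4⟩ := hgn.ap_mem hξδ
    exact hg' ⟨ξ, hN.mem_of_mem hδ.mem hξδ⟩ ⟨_, hN.mem_of_mem hA h1⟩ ⟨_, hN.mem_of_mem hq h3⟩ h2 h4
  -- lower bounds in the extension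
  have hlow : ∀ ξ ∈ Ξ, ∃ z ∈ δ.toZFSet, ∀ y ∈ δ.toZFSet, ZFSet.pair β.toZFSet y ∈ ap f ξ →
      ZFSet.pair z y ∉ Rv δ.toZFSet b K := by
    intro ξ hξ
    have hpN : ap f ξ ∈ N := hN.mem_of_mem hA (hfn.ap_mem (hΞs hξ)).1
    obtain ⟨-, -, h3⟩ := hIn ξ hξ
    obtain ⟨q', hq', -, z, hz, hlb⟩ := hK'.meet hN hq (D := fun q' => ∃ z : N, z.1 ∈ (⟨_, hδ.mem⟩ : N).1 ∧
      LbS (⟨_, hδ.mem⟩ : N).1 (⟨_, hq⟩ : N).1 (⟨b, hb⟩ : N).1 (⟨_, hβN⟩ : N).1 (⟨_, hpN⟩ : N).1 q'.1 z.1) (by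
        refine Dfn.ex (Dfn.and (Dfn.mem (DT.var _) (DT.const _)) ?_)
        exact Dfn.subG (ud_LbS.dfn hN hN) (s := ![fun _ => ⟨_, hδ.mem⟩, fun _ => ⟨_, hq⟩, fun _ => ⟨b, hb⟩,
          fun _ => ⟨_, hβN⟩, fun _ => ⟨_, hpN⟩, fun v : Fin 2 → N => v 0, fun v : Fin 2 → N => v 1]) (by
            intro i
            fin_cases i
            · exact DT.const _
            · exact DT.const _
            · exact DT.const _
            · exact DT.const _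
            · exact DT.const _
            · exact DT.var _
            · exact DT.var _)) (hΞK' ξ hξ) (by
        intro r hr hsub
        obtain ⟨q', hq', h4, z, hz, h5⟩ := h3 r hr hsub
        exact ⟨⟨q', hN.mem_of_mem hq hq'⟩, hq', h4, ⟨z, hN.mem_of_mem hδ.mem hz⟩, hz, h5⟩)
    refine ⟨z.1, hz, fun y hy hyp => ?_⟩
    rw [hRlow]
    exact LbS.not_mem hK' hlb hq' y hy hyp
  obtain ⟨ζ, hζ, hζn, hζ'⟩ := exists_choice hW (F := fun x z => ∀ y : Xt N K, y.1 ∈ (⟨_, hδW.mem⟩ : Xt N K).1 →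
      ∀ p : Xt N K, ZFSet.pair x.1 p.1 ∈ (⟨f, hNW hf⟩ : Xt N K).1 →
      ZFSet.pair (⟨_, hNW hβN⟩ : Xt N K).1 y.1 ∈ p.1 → ¬ ZFSet.pair z.1 y.1 ∈ (⟨_, hRW⟩ : Xt N K).1) (by
        (repeat' first
          | exact DT.var _ | exact DT.last | exact DT.const _ | assumption
          | refine Dfn.pairMem ?_ ?_ ?_ | refine Dfn.isPair ?_ ?_ ?_ | refine Dfn.mem ?_ ?_
          | refine Dfn.and ?_ ?_ | refine Dfn.or ?_ ?_ | refine Dfn.iff ?_ ?_ | refine Dfn.not ?_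
          | refine Dfn.imp ?_ ?_ | refine Dfn.all ?_ | refine Dfn.ex ?_)) hΞ hδW.mem (by
      intro x hx
      obtain ⟨z, hz, h1⟩ := hlow x.1 hx
      refine ⟨⟨z, hW.mem_of_mem hδW.mem hz⟩, hz, fun y hy p hxp hyp => ?_⟩
      have e : ap f x.1 = p.1 := hfn.ap_eq hxp
      exact h1 y.1 hy (e.symm ▸ hyp))
  have hζlow : ∀ ξ ∈ Ξ, ∀ y ∈ δ.toZFSet, ZFSet.pair β.toZFSet y ∈ ap f ξ →
      ZFSet.pair (ap ζ ξ) y ∉ Rv δ.toZFSet b K := by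
    intro ξ hξ y hy hyp
    obtain ⟨h1, h2⟩ := hfn.ap_mem (hΞs hξ)
    obtain ⟨h3, h4⟩ := hζn.ap_mem hξ
    exact hζ' ⟨ξ, hW.mem_of_mem hΞ hξ⟩ ⟨_, hW.mem_of_mem hδW.mem h3⟩ h4 ⟨y, hW.mem_of_mem hδW.mem hy⟩ hy
      ⟨_, hNW (hN.mem_of_mem hA h1)⟩ h2 hyp
  obtain ⟨ξ, hξ, ξ', hξ', hne, w, hw, hw1, hw2⟩ := j12_two hW hδW hPC hΞ hΞs (by
    intro α hα
    obtain ⟨ξ, h1, h2, p, hp, hxp⟩ := hunb' α hα
    refine ⟨ξ, h1, h2, (hΞ' _).2 ⟨Ordinal.toZFSet_mem_toZFSet_iff.2 h2,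
      hW.toZFSet_mem_of_le h2.le hδW.mem, ⟨p, hW.mem_of_mem hKW hp⟩, hp, hxp⟩⟩) hζ hζn
  have hm : ∀ ξ ∈ Ξ, ap f ξ ∈ A := fun ξ hξ => (hfn.ap_mem (hΞs hξ)).1
  have hmN : ∀ ξ ∈ Ξ, ap f ξ ∈ N := fun ξ hξ => hN.mem_of_mem hA (hm ξ hξ)
  have hζδ : ∀ ξ ∈ Ξ, ap ζ ξ ∈ δ.toZFSet := fun ξ hξ => (hζn.ap_mem hξ).1
  obtain ⟨q', hq', hlb⟩ := exists_lbs hN hK' hδ.mem hq hb hβN (p := ap f ξ ∪ ap f ξ')
    (hN.union_mem (hmN ξ hξ) (hmN ξ' hξ')) hw (by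
      intro y hy hyp
      rw [← hRlow]
      rcases ZFSet.mem_union.1 hyp with hyp | hyp
      · exact hPC.pre.trans w hw _ (hζδ ξ hξ) y hy hw1 (hζlow ξ hξ y hy hyp)
      · exact hPC.pre.trans w hw _ (hζδ ξ' hξ') y hy hw2 (hζlow ξ' hξ' y hy hyp))
  obtain ⟨r₁, hr₁, h1, h2⟩ := hK'.dir _ (hΞK' ξ hξ) _ (hΞK' ξ' hξ')
  obtain ⟨r, hr, h3, h4⟩ := hK'.dir _ hr₁ _ hq'
  have hrq := hK'.sub r hr
  have hlb' : LbS δ.toZFSet (lw δ.toZFSet Q β.toZFSet) b β.toZFSet (ap f ξ ∪ ap f ξ') r w := hlb.mono h4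
  have hrF := (hF r).1 (h.q_sub r (mem_lw.1 hrq).1)
  have hf1 := (hF _).1 (mem_nx.1 (hAs (hm ξ hξ))).1
  have hf2 := (hF _).1 (mem_nx.1 (hAs (hm ξ' hξ'))).1
  have huF : r ∪ (ap f ξ ∪ ap f ξ') ∈ 𝓕 := by
    refine (hF _).2 ⟨itA_union hrF.1 (itA_union hf1.1 hf2.1), fun z hz => ?_⟩
    rcases ZFSet.mem_union.1 hz with hz | hz
    · exact hrF.2 z hz
    · rcases ZFSet.mem_union.1 hz with hz | hz
      · exact hf1.2 z hz
      · exact hf2.2 z hz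
  have hun : r ∪ (ap f ξ ∪ ap f ξ') ∈ nx δ.toZFSet 𝓕 (lw δ.toZFSet Q β.toZFSet) b β.toZFSet := by
    refine mem_nx.2 ⟨huF, r, hrq, fun z hz => ZFSet.mem_union.2 (Or.inl hz), ?_, ?_⟩
    · intro z hz
      rcases ZFSet.mem_union.1 hz with hz | hz
      · exact Or.inl hz
      · rcases ZFSet.mem_union.1 hz with hz | hz
        · rcases (hIn ξ hξ).2.1 z hz with h5 | h5
          · exact Or.inl (h3 (h1 h5))
          · exact Or.inr h5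
        · rcases (hIn ξ' hξ').2.1 z hz with h5 | h5
          · exact Or.inl (h3 (h2 h5))
          · exact Or.inr h5
    · intro s hs hrs
      refine ⟨s, hs, fun z hz => hz, w, hw, ?_⟩
      intro y hy hyp p' hp' hb' r' hr' hsr'
      rcases ZFSet.mem_union.1 hyp with hyp | hyp
      · obtain ⟨γ, hγ, x, _, he⟩ := (mem_lw.1 hrq).2 _ hyp
        rw [ZFSet.pair_inj] at he
        exact (ZFSet.mem_irrefl _ (he.1 ▸ hγ)).elim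
      · exact hlb' y hy hyp p' hp' hb' r' hr' (fun z hz => hsr' (hrs hz))
  have hne' : ap f ξ ≠ ap f ξ' := by
    intro he
    apply hne
    refine hfi ξ ξ' (ap f ξ) (hfn.ap_mem (hΞs hξ)).2 ?_
    rw [he]
    exact (hfn.ap_mem (hΞs hξ')).2
  exact hAc _ (hm ξ hξ) _ (hm ξ' hξ') hne' _ hun
    (fun z hz => ZFSet.mem_union.2 (Or.inr (ZFSet.mem_union.2 (Or.inl hz))))
    (fun z hz => ZFSet.mem_union.2 (Or.inr (ZFSet.mem_union.2 (Or.inr hz))))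

end Pool.Agent.H7.IG
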