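import Pool.Agent.H19.IG.J9
import Pool.Agent.H19.IG.J8

/-!
# IG, Part 2: the generic object added at an accepted stage

`β < Λ`, `b` the name used at stage `β` (`hb`), `H` generic for `Q`, `K = lw δ H β` (generic for `Q_β`, `Gen.low`), `R = Rv δ b H`
(`= Rv δ b K`: by `hb` and `h.nm` the `p'` with `((z, y), p') ∈ b` are in `Q_β`).
* `stg_lb`: for `p ∈ H` some `z < δ` is a lower bound of `p(β)`: if `p` has a coordinate at `β`, by `q_iff` (`p₀ ⊆ p`, so `p₀ ∈ K`) and `Gen.meet`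
  for `K` below `p₀` there are `q' ∈ K` and `z` with `LbF`, i.e. `LbS` (`lbF_iff_lbS`); `LbS.not_mem`. Otherwise any `z`.
* `stg_ext`: `p ∈ Q`, `q ∈ Q_β`, `rs p β ⊆ q`, `F` a finite subset of `δ` with `(β, y) ∈ p → y ∈ F`, and `q` forces that `z` is a lower bound
  of `F`. Then `p ∪ q ∪ {β} × F ∈ Q`: `r := q ∪ {β} × F ∈ Q` by `IsIt.snoc`, it is in `Q_{β+1}` and contains `rs p (β+1)`, so `p ∪ r ∈ Q` by
  `IsIt.un`.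
* `stg_meet`: `g = {x : (β, x) ∈ p for some p ∈ H}` meets `D ∈ N[K]` if every `p(β)`, `p ∈ H` has a lower bound in `D`: `D = vl K τ`; for
  `p ∈ H` let `x ∈ D` be a lower bound of `p(β)`; some `q ∈ K` forces `x ∈ τ` (`Frc.truth` for `Q_β`) and satisfies
  `LbS δ Q_β b β (p ∪ {(β, x)}) q x` (`exists_lbs`, using `(x, x) ∉ R`) and `rs p β ⊆ q` (directedness of `K`, `rs p β ∈ K`). Then
  `u = p ∪ q ∪ {(β, x)} ∈ Q` by `stg_ext`. So every `p ∈ H` has an extension `u ∈ Q` such that for some `x`: `(β, x) ∈ u` and some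
  `q ∈ Q_β`, `q ⊆ u` forces `x ∈ τ`. By `Gen.gp` some `u ∈ H` is of this kind (definable by `Frc.dfn3`); then `q ∈ K`, `x ∈ D`, `x ∈ g`.
* `stg_dir`: for `x, y ∈ g` there is `z ∈ g` with `(z, x), (z, y) ∉ R`: `stg_meet` with `D = {z ∈ δ : (z, x) ∉ R ∧ (z, y) ∉ R} ∈ N[K]`: for
  `p ∈ H` take a common extension of `p` and the conditions that contain `(β, x)`, `(β, y)`, and a lower bound by `stg_lb`.
-/

set_option autoImplicit false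
set_option linter.unusedVariables false
set_option linter.unusedSectionVars false
set_option linter.unusedSimpArgs false
set_option linter.unusedTactic false
set_option linter.unreachableTactic false

namespace Pool.Agent.H7.IG

open Pool.Agent.H17.Omega Pool.Agent.H17.Omega.CTM Pool.Agent.H52.GX Pool.Agent.H52.GC

variable {N : Set ZFSet.{0}} {δ Λ : Ordinal.{0}} {𝓡 Q 𝓕 : ZFSet.{0}}

/-! ## Auxiliary lemmas -/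

theorem j13_nm (h : IsIt δ.toZFSet Λ.toZFSet 𝓡 Q 𝓕) {β : Ordinal.{0}}
    {b : ZFSet.{0}} (hb : ∀ z y p, R4 𝓡 β.toZFSet z y p ↔ ZFSet.pair (ZFSet.pair z y) p ∈ b)
    {z y p : ZFSet.{0}} (hp : ZFSet.pair (ZFSet.pair z y) p ∈ b) : Dm δ.toZFSet p β.toZFSet := by
  obtain ⟨β', hβ', z', hz', y', hy', p', hp', hd, he⟩ := h.nm _ ((hb z y p).2 hp)
  rw [ZFSet.pair_inj, ZFSet.pair_inj, ZFSet.pair_inj] at he
  obtain ⟨⟨rfl, rfl⟩, rfl, rfl⟩ := he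
  exact hd

theorem j13_rv (h : IsIt δ.toZFSet Λ.toZFSet 𝓡 Q 𝓕) {β : Ordinal.{0}}
    {b : ZFSet.{0}} (hb : ∀ z y p, R4 𝓡 β.toZFSet z y p ↔ ZFSet.pair (ZFSet.pair z y) p ∈ b)
    (H : ZFSet.{0}) : Rv δ.toZFSet b H = Rv δ.toZFSet b (lw δ.toZFSet H β.toZFSet) := by
  ext w
  rw [Rv, Rv, mem_sc, mem_sc]
  constructor
  · rintro ⟨h1, p, hp, hpb⟩
    refine ⟨h1, p, mem_lw.2 ⟨hp, ?_⟩, hpb⟩
    obtain ⟨z, hz, y, hy, rfl⟩ := ZFSet.mem_prod.1 h1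
    exact j13_nm h hb hpb
  · rintro ⟨h1, p, hp, hpb⟩
    exact ⟨h1, p, (mem_lw.1 hp).1, hpb⟩

theorem j13_irr {β : Ordinal.{0}} {D q y : ZFSet.{0}} (hq : Dm D q β.toZFSet) :
    ZFSet.pair β.toZFSet y ∉ q := by
  intro h1
  obtain ⟨γ, hγ, x, hx, h2⟩ := hq _ h1
  rw [ZFSet.pair_inj] at h2
  rw [← h2.1, Ordinal.toZFSet_mem_toZFSet_iff] at hγ
  exact lt_irrefl _ hγ

theorem stg_lb (hN : CTM N) (h : IsIt δ.toZFSet Λ.toZFSet 𝓡 Q 𝓕) (hF : FinSub δ.toZFSet Λ.toZFSet 𝓕)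
    (hQ : Q ∈ N) (hR : 𝓡 ∈ N) (hδ : δ.toZFSet ∈ N) (hδ0 : 0 < δ) (hΛ : Λ.toZFSet ∈ N) {β : Ordinal.{0}} (hβ : β < Λ)
    {b : ZFSet.{0}} (hbN : b ∈ N) (hb : ∀ z y p, R4 𝓡 β.toZFSet z y p ↔ ZFSet.pair (ZFSet.pair z y) p ∈ b)
    {H : ZFSet.{0}} (hH : Gen N Q H) {p : ZFSet.{0}} (hp : p ∈ H) :
    ∃ z ∈ δ.toZFSet, ∀ y ∈ δ.toZFSet, ZFSet.pair β.toZFSet y ∈ p → ZFSet.pair z y ∉ Rv δ.toZFSet b H := by
  have hpQ := hH.sub p hp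
  have hβN : β.toZFSet ∈ N := hN.mem_of_mem hΛ (Ordinal.toZFSet_mem_toZFSet_iff.2 hβ)
  by_cases hx : ∃ x ∈ δ.toZFSet, ZFSet.pair β.toZFSet x ∈ p
  · obtain ⟨p₀, hp₀, h1, h2, h3, h4⟩ := (h.q_iff p (h.q_sub p hpQ)).1 hpQ β.toZFSet
      (Ordinal.toZFSet_mem_toZFSet_iff.2 hβ) hx
    have hK := Gen.low hN h hF hQ hδ hΛ hH hβ.le
    have hp₀K : p₀ ∈ lw δ.toZFSet H β.toZFSet := mem_lw.2 ⟨hH.up p hp p₀ hp₀ h1, h2⟩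
    have hQβ : lw δ.toZFSet Q β.toZFSet ∈ N := lw_mem hN hδ hQ hβN
    have hpN : p ∈ N := hN.mem_of_mem hQ hpQ
    have hdf : hN.Dfn (fun v : Fin 1 → N => ∃ z : N, z.1 ∈ (⟨δ.toZFSet, hδ⟩ : N).1 ∧
        LbS (⟨δ.toZFSet, hδ⟩ : N).1 (⟨lw δ.toZFSet Q β.toZFSet, hQβ⟩ : N).1 (⟨b, hbN⟩ : N).1
          (⟨β.toZFSet, hβN⟩ : N).1 (⟨p, hpN⟩ : N).1 (v 0).1 z.1) := by
      refine Dfn.ex ((Dfn.mem (DT.var _) (DT.const _)).and ?_)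
      exact Dfn.subG (ud_LbS.dfn hN hN) (s := ![fun _ => ⟨δ.toZFSet, hδ⟩,
        fun _ => ⟨lw δ.toZFSet Q β.toZFSet, hQβ⟩, fun _ => ⟨b, hbN⟩, fun _ => ⟨β.toZFSet, hβN⟩,
        fun _ => ⟨p, hpN⟩, fun v => v 0, fun v => v (Fin.last 1)]) (by
          intro i
          fin_cases i
          · exact DT.const _
          · exact DT.const _
          · exact DT.const _
          · exact DT.const _
          · exact DT.const _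
          · exact DT.var _
          · exact DT.var _)
    obtain ⟨q, hq, h5, z, hz, h6⟩ := hK.meet hN hQβ (D := fun u : N => ∃ z : N, z.1 ∈ δ.toZFSet ∧
      LbS δ.toZFSet (lw δ.toZFSet Q β.toZFSet) b β.toZFSet p u.1 z.1) hdf hp₀K (by
      intro r hr hpr
      obtain ⟨hr1, hr2⟩ := mem_lw.1 hr
      obtain ⟨q', h5, h6, h7, z, hz, h8⟩ := h4 r hr1 hr2 hpr
      refine ⟨⟨q', hN.mem_of_mem hQ h5⟩, mem_lw.2 ⟨h5, h6⟩, h7, ⟨z, hN.mem_of_mem hδ hz⟩, hz, ?_⟩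
      exact (lbF_iff_lbS h hβ hb).1 h8)
    refine ⟨z.1, hz, fun y hy h7 => ?_⟩
    rw [j13_rv h hb]
    exact h6.not_mem hK hq y hy h7
  · refine ⟨(0 : Ordinal.{0}).toZFSet, Ordinal.toZFSet_mem_toZFSet_iff.2 hδ0, fun y hy h1 => ?_⟩
    exact (hx ⟨y, hy, h1⟩).elim

theorem stg_ext (hN : CTM N) (h : IsIt δ.toZFSet Λ.toZFSet 𝓡 Q 𝓕) (hF : FinSub δ.toZFSet Λ.toZFSet 𝓕)
    {β : Ordinal.{0}} (hβ : β < Λ)
    {b : ZFSet.{0}} (hb : ∀ z y p, R4 𝓡 β.toZFSet z y p ↔ ZFSet.pair (ZFSet.pair z y) p ∈ b)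
    {p q r z : ZFSet.{0}} (hp : p ∈ Q) (hq : q ∈ lw δ.toZFSet Q β.toZFSet) (hpq : rs p β.toZFSet ⊆ q)
    (hr : r ∈ 𝓕) (hr' : ∀ w ∈ r, ∃ x ∈ δ.toZFSet, w = ZFSet.pair β.toZFSet x)
    (hpr : ∀ x, ZFSet.pair β.toZFSet x ∈ p → ZFSet.pair β.toZFSet x ∈ r) (hz : z ∈ δ.toZFSet)
    (hlb : LbS δ.toZFSet (lw δ.toZFSet Q β.toZFSet) b β.toZFSet r q z) : p ∪ (q ∪ r) ∈ Q := by
  obtain ⟨hq1, hq2⟩ := mem_lw.1 hq
  obtain ⟨f1, f2⟩ := (hF q).1 (h.q_sub q hq1)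
  obtain ⟨g1, g2⟩ := (hF r).1 hr
  have hs : q ∪ r ∈ 𝓕 := by
    refine (hF _).2 ⟨itA_union f1 g1, fun w hw => ?_⟩
    rcases ZFSet.mem_union.1 hw with h1 | h1
    · exact f2 w h1
    · exact g2 w h1
  have hsQ : q ∪ r ∈ Q := by
    refine h.snoc hF hβ hq hs (fun w hw => ZFSet.mem_union.2 (Or.inl hw)) (fun w hw => ?_) hz ?_
    · rcases ZFSet.mem_union.1 hw with h1 | h1
      · exact Or.inl h1
      · exact Or.inr (hr' w h1)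
    · rw [lbF_iff_lbS h hβ hb]
      intro y hy h1
      rcases ZFSet.mem_union.1 h1 with h2 | h2
      · exact (j13_irr hq2 h2).elim
      · exact hlb y hy h2
  have hβ1 : β + 1 ≤ Λ := by exact Order.add_one_le_of_lt hβ
  have hss : q ∪ r ∈ lw δ.toZFSet Q (β + 1).toZFSet := by
    refine mem_lw.2 ⟨hsQ, fun w hw => ?_⟩
    rcases ZFSet.mem_union.1 hw with h1 | h1
    · obtain ⟨γ, hγ, x, hx, h2⟩ := hq2 w h1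
      obtain ⟨γ', hγ', rfl⟩ := Ordinal.mem_toZFSet_iff.1 hγ
      exact ⟨γ'.toZFSet, Ordinal.toZFSet_mem_toZFSet_iff.2 (hγ'.trans (Order.lt_add_one_iff.2 le_rfl)), x, hx, h2⟩
    · obtain ⟨x, hx, h2⟩ := hr' w h1
      exact ⟨β.toZFSet, Ordinal.toZFSet_mem_toZFSet_iff.2 (Order.lt_add_one_iff.2 le_rfl), x, hx, h2⟩
  refine h.un hF hp hβ1 hss fun w hw => ?_
  have hw1 := rs_sub hw
  obtain ⟨γ, hγ, x, hx, rfl⟩ := h.dm hF hp w hw1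
  rw [pair_mem_rs] at hw
  obtain ⟨γ', hγ', rfl⟩ := Ordinal.mem_toZFSet_iff.1 hw.1
  rcases (Order.lt_add_one_iff.1 hγ').lt_or_eq with h1 | h1
  · refine ZFSet.mem_union.2 (Or.inl (hpq ?_))
    rw [pair_mem_rs]
    exact ⟨Ordinal.toZFSet_mem_toZFSet_iff.2 h1, hw1⟩
  · subst h1
    exact ZFSet.mem_union.2 (Or.inr (hpr x hw1))

theorem stg_meet (hN : CTM N) (h : IsIt δ.toZFSet Λ.toZFSet 𝓡 Q 𝓕) (hF : FinSub δ.toZFSet Λ.toZFSet 𝓕)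
    (hQ : Q ∈ N) (hR : 𝓡 ∈ N) (hδ : δ.toZFSet ∈ N) (hδ0 : 0 < δ) (hΛ : Λ.toZFSet ∈ N) {β : Ordinal.{0}} (hβ : β < Λ)
    {b : ZFSet.{0}} (hbN : b ∈ N) (hb : ∀ z y p, R4 𝓡 β.toZFSet z y p ↔ ZFSet.pair (ZFSet.pair z y) p ∈ b)
    {H : ZFSet.{0}} (hH : Gen N Q H) (hrefl : ∀ x ∈ δ.toZFSet, ZFSet.pair x x ∉ Rv δ.toZFSet b H)
    {D : ZFSet.{0}} (hD : D ∈ Xt N (lw δ.toZFSet H β.toZFSet)) (hDs : D ⊆ δ.toZFSet)
    (hden : ∀ p ∈ H, ∃ x ∈ D, ∀ y ∈ δ.toZFSet, ZFSet.pair β.toZFSet y ∈ p → ZFSet.pair x y ∉ Rv δ.toZFSet b H) :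
    ∃ x ∈ D, ∃ p ∈ H, ZFSet.pair β.toZFSet x ∈ p := by
  have hβN : β.toZFSet ∈ N := hN.mem_of_mem hΛ (Ordinal.toZFSet_mem_toZFSet_iff.2 hβ)
  have hK := Gen.low hN h hF hQ hδ hΛ hH hβ.le
  have hQβ : lw δ.toZFSet Q β.toZFSet ∈ N := lw_mem hN hδ hQ hβN
  have hKx := hK.mem_xt hN hQβ
  obtain ⟨τ, hτ, hτD⟩ := hD
  have hud : UD CtmC (fun N (v : Fin 2 → N) => (v 0).1 ∈ (v 1).1) := UD.mem (UT.var _) (UT.var _)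
  have hdf : hN.Dfn (fun v : Fin 1 → N => ∃ x : N, ∃ q : N, q.1 ∈ (⟨lw δ.toZFSet Q β.toZFSet, hQβ⟩ : N).1 ∧
      q.1 ⊆ (v 0).1 ∧ ZFSet.pair (⟨β.toZFSet, hβN⟩ : N).1 x.1 ∈ (v 0).1 ∧
      Frc N (lw δ.toZFSet Q β.toZFSet) (fun N (v : Fin 2 → N) => (v 0).1 ∈ (v 1).1) q.1
        ![Ar.g x, Ar.n ⟨τ, hτ⟩]) := by
    refine Dfn.ex (Dfn.ex ((Dfn.mem (DT.var _) (DT.const _)).and ((Dfn.subset (DT.var _) (DT.var _)).and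
      ((Dfn.pairMem (DT.const _) (DT.var _) (DT.var _)).and ?_))))
    exact Frc.dfn2 hud hQβ (DT.var _) (AT.g (DT.var _)) (AT.n (DT.const _))
  obtain ⟨u, hu, x, q, hq, hqu, hxu, hfr⟩ := hH.gp hN hQ (D := fun u : N => ∃ x : N, ∃ q : N,
      q.1 ∈ lw δ.toZFSet Q β.toZFSet ∧ q.1 ⊆ u.1 ∧ ZFSet.pair β.toZFSet x.1 ∈ u.1 ∧
      Frc N (lw δ.toZFSet Q β.toZFSet) (fun N (v : Fin 2 → N) => (v 0).1 ∈ (v 1).1) q.1
        ![Ar.g x, Ar.n ⟨τ, hτ⟩]) hdf (by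
    intro p hp
    obtain ⟨x, hxD, hx⟩ := hden p hp
    have hxδ := hDs hxD
    have hpQ := hH.sub p hp
    have hxN : x ∈ N := hN.mem_of_mem hδ hxδ
    have hxX : x ∈ Xt N (lw δ.toZFSet H β.toZFSet) := hK.sub_xt hN hQβ hxN
    obtain ⟨q₁, hq₁, hf₁⟩ := (Frc.truth hud hN hQβ hK ![Ar.g ⟨x, hxN⟩, Ar.n ⟨τ, hτ⟩]
      ![⟨x, hxX⟩, ⟨D, ⟨τ, hτ, hτD⟩⟩] (by
        intro i
        fin_cases i
        · rfl
        · exact hτD.symm)).1 hxD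
    -- the new coordinate
    have hpF := h.q_sub p hpQ
    obtain ⟨f1, f2⟩ := (hF p).1 hpF
    let r : ZFSet.{0} := rs p {β.toZFSet} ∪ {ZFSet.pair β.toZFSet x}
    have hrm : ∀ w, w ∈ r ↔ w ∈ rs p {β.toZFSet} ∨ w = ZFSet.pair β.toZFSet x := by
      intro w
      show w ∈ rs p {β.toZFSet} ∪ {ZFSet.pair β.toZFSet x} ↔ _
      rw [ZFSet.mem_union, ZFSet.mem_singleton]
    have hr' : ∀ w ∈ r, ∃ x ∈ δ.toZFSet, w = ZFSet.pair β.toZFSet x := by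
      intro w hw
      rcases (hrm w).1 hw with h1 | h1
      · obtain ⟨γ, hγ, y, hy, rfl⟩ := f2 w (rs_sub h1)
        rw [pair_mem_rs, ZFSet.mem_singleton] at h1
        exact ⟨y, hy, by rw [h1.1]⟩
      · exact ⟨x, hxδ, h1⟩
    have hrF : r ∈ 𝓕 := by
      refine (hF _).2 ⟨itA_union (itA_fin f1 rs_sub) ⟨{ZFSet.pair β.toZFSet x}, fun z => ?_⟩, fun w hw => ?_⟩
      · rw [Finset.mem_singleton, ZFSet.mem_singleton]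
      · obtain ⟨y, hy, h1⟩ := hr' w hw
        exact ⟨β.toZFSet, Ordinal.toZFSet_mem_toZFSet_iff.2 hβ, y, hy, h1⟩
    have hpr : ∀ y, ZFSet.pair β.toZFSet y ∈ p → ZFSet.pair β.toZFSet y ∈ r := by
      intro y hy
      refine (hrm _).2 (Or.inl ?_)
      rw [pair_mem_rs, ZFSet.mem_singleton]
      exact ⟨rfl, hy⟩
    have hrN : r ∈ N := hN.union_mem (rs_mem hN (hN.mem_of_mem hQ hpQ) (hN.singleton_mem hβN)) (hN.singleton_mem (hN.pair_mem hβN hxN))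
    obtain ⟨q₂, hq₂, hl⟩ := exists_lbs hN (p := r) hK hδ hQβ hbN hβN hrN hxδ (by
      intro y hy h1
      rw [← j13_rv h hb]
      rcases (hrm _).1 h1 with h2 | h2
      · exact hx y hy (rs_sub h2)
      · rw [ZFSet.pair_inj] at h2
        rw [h2.2]
        exact hrefl x hxδ)
    have hpK : rs p β.toZFSet ∈ lw δ.toZFSet H β.toZFSet := by
      obtain ⟨h1, h2⟩ := mem_lw.1 (h.rs_mem hF hpQ hβ.le)
      exact mem_lw.2 ⟨hH.up p hp _ h1 rs_sub, h2⟩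
    obtain ⟨q₃, hq₃, h13, h23⟩ := hK.dir q₁ hq₁ q₂ hq₂
    obtain ⟨q, hq, h3, h4⟩ := hK.dir q₃ hq₃ _ hpK
    have hqQ := hK.sub q hq
    have hmain := stg_ext hN h hF hβ hb hpQ hqQ h4 hrF hr' hpr hxδ
      (hl.mono (fun w hw => h3 (h23 hw)))
    refine ⟨⟨p ∪ (q ∪ r), hN.mem_of_mem hQ hmain⟩, hmain, fun w hw => ZFSet.mem_union.2 (Or.inl hw),
      ⟨x, hxN⟩, ⟨q, hN.mem_of_mem hQβ hqQ⟩, hqQ, fun w hw => ZFSet.mem_union.2 (Or.inr (ZFSet.mem_union.2 (Or.inl hw))),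
      ZFSet.mem_union.2 (Or.inr (ZFSet.mem_union.2 (Or.inr ((hrm _).2 (Or.inr rfl))))), ?_⟩
    exact hf₁.mono (hK.sub _ hq₁) (fun w hw => h3 (h13 hw)))
  have hqK : q.1 ∈ lw δ.toZFSet H β.toZFSet :=
    mem_lw.2 ⟨hH.up u.1 hu q.1 (mem_lw.1 hq).1 hqu, (mem_lw.1 hq).2⟩
  refine ⟨x.1, ?_, u.1, hu, hxu⟩
  have := hfr _ hK hqK ![⟨x.1, hK.sub_xt hN hQβ x.2⟩, ⟨D, ⟨τ, hτ, hτD⟩⟩] (by
    intro i
    fin_cases i
    · rfl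
    · exact hτD.symm)
  exact this

theorem stg_dir (hN : CTM N) (h : IsIt δ.toZFSet Λ.toZFSet 𝓡 Q 𝓕) (hF : FinSub δ.toZFSet Λ.toZFSet 𝓕)
    (hQ : Q ∈ N) (hR : 𝓡 ∈ N) (hδ : δ.toZFSet ∈ N) (hδ0 : 0 < δ) (hΛ : Λ.toZFSet ∈ N) {β : Ordinal.{0}} (hβ : β < Λ)
    {b : ZFSet.{0}} (hbN : b ∈ N) (hb : ∀ z y p, R4 𝓡 β.toZFSet z y p ↔ ZFSet.pair (ZFSet.pair z y) p ∈ b)
    {H : ZFSet.{0}} (hH : Gen N Q H) (hrefl : ∀ x ∈ δ.toZFSet, ZFSet.pair x x ∉ Rv δ.toZFSet b H)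
    {x y : ZFSet.{0}} (hx : ∃ p ∈ H, ZFSet.pair β.toZFSet x ∈ p) (hy : ∃ p ∈ H, ZFSet.pair β.toZFSet y ∈ p) :
    ∃ z ∈ δ.toZFSet, (∃ p ∈ H, ZFSet.pair β.toZFSet z ∈ p) ∧ ZFSet.pair z x ∉ Rv δ.toZFSet b H ∧
      ZFSet.pair z y ∉ Rv δ.toZFSet b H := by
  have hβN : β.toZFSet ∈ N := hN.mem_of_mem hΛ (Ordinal.toZFSet_mem_toZFSet_iff.2 hβ)
  have hK := Gen.low hN h hF hQ hδ hΛ hH hβ.le
  have hQβ : lw δ.toZFSet Q β.toZFSet ∈ N := lw_mem hN hδ hQ hβN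
  have hX := hK.ctm hN hQβ
  have hKx := hK.mem_xt hN hQβ
  have hsub := hK.sub_xt hN hQβ
  obtain ⟨p₁, hp₁, hx⟩ := hx
  obtain ⟨p₂, hp₂, hy⟩ := hy
  have hco : ∀ p ∈ H, ∀ x, ZFSet.pair β.toZFSet x ∈ p → x ∈ δ.toZFSet := by
    intro p hp x hx
    obtain ⟨γ, hγ, x', hx', h1⟩ := h.dm hF (hH.sub p hp) _ hx
    rw [ZFSet.pair_inj] at h1
    rw [h1.2]
    exact hx'
  have hxδ := hco p₁ hp₁ x hx
  have hyδ := hco p₂ hp₂ y hy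
  have hRX : Rv δ.toZFSet b H ∈ Xt N (lw δ.toZFSet H β.toZFSet) := by
    rw [j13_rv h hb]
    exact sc_mem hX (hsub hbN) hKx (hsub (hN.prod_mem hδ hδ))
  have hxX := hsub (hN.mem_of_mem hδ hxδ)
  have hyX := hsub (hN.mem_of_mem hδ hyδ)
  have hDX : ZFSet.sep (fun z => ZFSet.pair z x ∉ Rv δ.toZFSet b H ∧ ZFSet.pair z y ∉ Rv δ.toZFSet b H)
      δ.toZFSet ∈ Xt N (lw δ.toZFSet H β.toZFSet) := by
    refine hX.sep_mem ?_ (hsub hδ)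
    exact (Dfn.pairMem (DT.var 0) (DT.const (⟨x, hxX⟩ : Xt N (lw δ.toZFSet H β.toZFSet)))
      (DT.const (⟨_, hRX⟩ : Xt N (lw δ.toZFSet H β.toZFSet)))).not.and
      (Dfn.pairMem (DT.var 0) (DT.const (⟨y, hyX⟩ : Xt N (lw δ.toZFSet H β.toZFSet)))
      (DT.const (⟨_, hRX⟩ : Xt N (lw δ.toZFSet H β.toZFSet)))).not
  obtain ⟨z, hz, hzp⟩ := stg_meet hN h hF hQ hR hδ hδ0 hΛ hβ hbN hb hH hrefl hDX
    (fun z hz => (ZFSet.mem_sep.1 hz).1) (by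
      intro p hp
      obtain ⟨p₃, hp₃, h1, h2⟩ := hH.dir p hp p₁ hp₁
      obtain ⟨p₄, hp₄, h3, h4⟩ := hH.dir p₃ hp₃ p₂ hp₂
      obtain ⟨z, hz, hz'⟩ := stg_lb hN h hF hQ hR hδ hδ0 hΛ hβ hbN hb hH hp₄
      exact ⟨z, ZFSet.mem_sep.2 ⟨hz, hz' x hxδ (h3 (h2 hx)), hz' y hyδ (h4 hy)⟩,
        fun w hw hwp => hz' w hw (h3 (h1 hwp))⟩)
  obtain ⟨h1, h2, h3⟩ := ZFSet.mem_sep.1 hz
  exact ⟨z, h1, hzp, h2, h3⟩

end Pool.Agent.H7.IG
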