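import Pool.Agent.H19.IG.J3

/-!
# IG, Part 2: nice names of size at most `ω₁`

`X ∈ M[G]`, `X ⊆ Y ∈ M`, `Y` of size `≤ δ` in `M`, and `Ψ (M[G]) X c` holds (`Ψ` uniformly definable, `c ∈ M` a parameter).
Then `X = sc E G Y` for some `E ∈ M`, `E ⊆ Y × P` of size `≤ δ`, such that for every generic `K` the value `sc E K Y` satisfies
`Ψ` in `M[K]`, provided that `∅` does.
Proof: `X = vl G τ`; some `h ∈ G` forces `Ψ(τ, c)` and `τ ⊆ Y` (`Frc.truth` for the conjunction, arguments `.n τ, .g c, .g Y`).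
In `M` let `S = {(x, p) : x ∈ Y, p ∈ P, h ⊆ p, p forces x ∈ τ}` and let `E ⊆ S` be a maximal subset such that different
elements `(x, p), (x', p')` of `E` satisfy `x ≠ x'` or `p, p'` incompatible (`exists_max`, Tk3, for this definable symmetric
relation). The sections of `E` are antichains, so countable; `E` has size `≤ δ` (`cvr_union_om1`, `ctb_cvr_om1`).
Let `K` be generic. If `h ∉ K` then `sc E K Y = ∅` (all `p` in `E` contain `h`, `Gen.up`). If `h ∈ K` then `sc E K Y = vl K τ`: if `(x, p) ∈ E`,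
`p ∈ K` then `x ∈ vl K τ`. Conversely let `x ∈ vl K τ` (`⊆ Y`): some `p ∈ K`, `h ⊆ p` forces `x ∈ τ`, so `(x, p) ∈ S`. By maximality for all
`s ∈ P`, `p ⊆ s` we have `(x, s) ∈ S` and there are `(x, a) ∈ E` and `r ∈ P` with `a ⊆ r`, `s ⊆ r`; so by `Gen.meet` some `r ∈ K`
contains an `a` with `(x, a) ∈ E`.
-/

set_option autoImplicit false
set_option linter.unusedVariables false
set_option linter.unusedSectionVars false
set_option linter.unusedSimpArgs false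
set_option linter.unusedTactic false
set_option linter.unreachableTactic false

namespace Pool.Agent.H7.IG

open Pool.Agent.H17.Omega Pool.Agent.H17.Omega.CTM Pool.Agent.H52.GX Pool.Agent.H52.GC

variable {M : Set ZFSet.{0}} {P G : ZFSet.{0}}

theorem j6_ud_mem : UD CtmC (fun N (v : Fin 2 → N) => (v 0).1 ∈ (v 1).1) :=
  UD.mem (UT.var 0) (UT.var 1)

/-- The elements of `P` with the same first coordinate are incompatible. -/
def J6R (P z z' : M) : Prop :=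
  ∀ x p p' : M, z.1 = ZFSet.pair x.1 p.1 → z'.1 = ZFSet.pair x.1 p'.1 →
    ∀ r : M, r.1 ∈ P.1 → p.1 ⊆ r.1 → ¬ p'.1 ⊆ r.1

theorem j6R_dfn (hM : CTM M) : hM.Dfn (fun v : Fin 3 → M => J6R (v 0) (v 1) (v 2)) := by
  unfold J6R
  (repeat' first
      | exact DT.var _ | exact DT.last | exact DT.const _ | assumption
      | refine Dfn.pairMem ?_ ?_ ?_ | refine Dfn.isPair ?_ ?_ ?_ | refine Dfn.mem ?_ ?_
      | refine Dfn.eqv ?_ ?_ | refine Dfn.eq ?_ ?_ | refine Dfn.subset ?_ ?_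
      | refine Dfn.isEmpty ?_ | refine Dfn.isTrans ?_ | refine Dfn.isOrd ?_ | refine Dfn.isNat ?_
      | refine Dfn.and ?_ ?_ | refine Dfn.or ?_ ?_ | refine Dfn.iff ?_ ?_ | refine Dfn.not ?_
      | refine Dfn.imp ?_ ?_ | refine Dfn.all ?_ | refine Dfn.ex ?_ | exact Dfn.false')

theorem exists_nice (hM : CTM M) (hP : P ∈ M) (hc : Ccc M P) (hG : Gen M P G) {δ : Ordinal.{0}}
    (hδ : IsOm1 M δ) {Ψ : Set ZFSet.{0} → ZFSet.{0} → ZFSet.{0} → Prop}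
    (hΨ : UD CtmC (fun N (v : Fin 2 → N) => Ψ N (v 0).1 (v 1).1)) {X Y c : ZFSet.{0}} (hX : X ∈ Xt M G)
    (hY : Y ∈ M) (hXY : X ⊆ Y) (hYδ : Cvr M δ.toZFSet Y) (hcM : c ∈ M) (h : Ψ (Xt M G) X c)
    (h0 : ∀ K, Gen M P K → Ψ (Xt M K) ∅ c) :
    ∃ E ∈ M, (∀ w ∈ E, ∃ x ∈ Y, ∃ p ∈ P, w = ZFSet.pair x p) ∧ Cvr M δ.toZFSet E ∧ X = sc E G Y ∧
      ∀ K, Gen M P K → Ψ (Xt M K) (sc E K Y) c := by
  obtain ⟨τ, hτ, rfl⟩ := hX
  have hΨ₁ : UD CtmC (fun N (v : Fin 3 → N) => Ψ N (v 0).1 (v 1).1 ∧ (v 0).1 ⊆ (v 2).1) :=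
    (UD.sub2 (P := fun N x y => Ψ N x.1 y.1) hΨ (UT.var 0) (UT.var 1)).and
      (UD.subset (UT.var 0) (UT.var 2))
  have hcX : ∀ K, Gen M P K → c ∈ Xt M K := fun K hK => hK.sub_xt hM hP hcM
  have hYX : ∀ K, Gen M P K → Y ∈ Xt M K := fun K hK => hK.sub_xt hM hP hY
  have hτX : ∀ K, vl K τ ∈ Xt M K := fun K => ⟨τ, hτ, rfl⟩
  -- a condition that forces the statement
  obtain ⟨h₀, hh₀G, hh₀⟩ := (Frc.truth hΨ₁ hM hP hG ![.n ⟨τ, hτ⟩, .g ⟨c, hcM⟩, .g ⟨Y, hY⟩]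
    ![⟨vl G τ, hτX G⟩, ⟨c, hcX G hG⟩, ⟨Y, hYX G hG⟩] (by intro i; fin_cases i <;> rfl)).1 ⟨h, hXY⟩
  have hh₀P : h₀ ∈ P := hG.sub _ hh₀G
  have hh₀M : h₀ ∈ M := hM.mem_of_mem hP hh₀P
  have hforce : ∀ K, Gen M P K → h₀ ∈ K → Ψ (Xt M K) (vl K τ) c ∧ vl K τ ⊆ Y := by
    intro K hK hhK
    exact hh₀ K hK hhK ![⟨vl K τ, hτX K⟩, ⟨c, hcX K hK⟩, ⟨Y, hYX K hK⟩]
      (by intro i; fin_cases i <;> rfl)
  -- the set S
  have hSd : hM.Dfn (fun v : Fin 1 → M => ∃ x p : M, (v 0).1 = ZFSet.pair x.1 p.1 ∧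
      (⟨h₀, hh₀M⟩ : M).1 ⊆ p.1 ∧ Frc M P (fun N (v : Fin 2 → N) => (v 0).1 ∈ (v 1).1) p.1
        ![.g x, .n ⟨τ, hτ⟩]) := by
    refine Dfn.ex (Dfn.ex (Dfn.and (Dfn.isPair (DT.var _) (DT.var _) (DT.var _))
      (Dfn.and (Dfn.subset (DT.const _) (DT.var _)) ?_)))
    exact Frc.dfn2 j6_ud_mem hP (DT.var _) (AT.g (DT.var _)) (AT.n (DT.const _))
  obtain ⟨S, hS, hS'⟩ := hM.exists_sep (P := fun z => ∃ x p : M, z.1 = ZFSet.pair x.1 p.1 ∧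
      (⟨h₀, hh₀M⟩ : M).1 ⊆ p.1 ∧ Frc M P (fun N (v : Fin 2 → N) => (v 0).1 ∈ (v 1).1) p.1
        ![.g x, .n ⟨τ, hτ⟩]) hSd (hM.prod_mem hY hP)
  have hSp : ∀ x p : M, ZFSet.pair x.1 p.1 ∈ S ↔ x.1 ∈ Y ∧ p.1 ∈ P ∧ h₀ ⊆ p.1 ∧
      Frc M P (fun N (v : Fin 2 → N) => (v 0).1 ∈ (v 1).1) p.1 ![.g x, .n ⟨τ, hτ⟩] := by
    intro x p
    rw [hS']
    constructor
    · rintro ⟨h1, _, x', p', h2, h3, h4⟩
      have h2' : ZFSet.pair x.1 p.1 = ZFSet.pair x'.1 p'.1 := h2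
      rw [ZFSet.pair_inj] at h2'
      have e1 : x = x' := Subtype.ext h2'.1
      have e2 : p = p' := Subtype.ext h2'.2
      subst e1
      subst e2
      rw [ZFSet.pair_mem_prod] at h1
      exact ⟨h1.1, h1.2, h3, h4⟩
    · rintro ⟨h1, h2, h3, h4⟩
      exact ⟨ZFSet.pair_mem_prod.2 ⟨h1, h2⟩, hM.pair_mem x.2 p.2, x, p, rfl, h3, h4⟩
  -- the maximal subset
  have hRd : hM.Dfn (fun v : Fin 2 → M => J6R (⟨P, hP⟩ : M) (v 0) (v 1)) :=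
    Dfn.subst3 (P := fun a b c => J6R a b c) (j6R_dfn hM) (DT.const _) (DT.var _) (DT.var _)
  obtain ⟨E, hE, hES, hE1, hE2⟩ := exists_max hM (E := fun z z' => J6R (⟨P, hP⟩ : M) z z') hRd (by
    intro z z' hz x p p' h1 h2 r hr h3 h4
    exact hz x p' p h2 h1 r hr h4 h3) hS
  have hEY : ∀ w ∈ E, ∃ x p : M, x.1 ∈ Y ∧ p.1 ∈ P ∧ w = ZFSet.pair x.1 p.1 ∧ h₀ ⊆ p.1 ∧
      Frc M P (fun N (v : Fin 2 → N) => (v 0).1 ∈ (v 1).1) p.1 ![.g x, .n ⟨τ, hτ⟩] := by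
    intro w hw
    obtain ⟨_, _, x, p, h2, _, _⟩ := (hS' w).1 (hES hw)
    have h2' : w = ZFSet.pair x.1 p.1 := h2
    have h3 := hES hw
    rw [h2'] at h3
    obtain ⟨h4, h5, h6, h7⟩ := (hSp x p).1 h3
    exact ⟨x, p, h4, h5, h2', h6, h7⟩
  have hEp : ∀ x p : ZFSet.{0}, ZFSet.pair x p ∈ E → x ∈ Y ∧ p ∈ P ∧ h₀ ⊆ p := by
    intro x p hxp
    obtain ⟨x', p', h1, h2, h3, h4, _⟩ := hEY _ hxp
    rw [ZFSet.pair_inj] at h3
    rw [h3.1, h3.2]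
    exact ⟨h1, h2, h4⟩
  -- the values
  have hval : ∀ K, Gen M P K → h₀ ∈ K → sc E K Y = vl K τ := by
    intro K hK hhK
    ext x
    rw [mem_sc]
    constructor
    · rintro ⟨hxY, p, hpK, hxp⟩
      obtain ⟨x', p', h1, h2, h3, h4, h5⟩ := hEY _ hxp
      rw [ZFSet.pair_inj] at h3
      rw [h3.2] at hpK
      have h6 := h5 K hK hpK ![⟨x'.1, hK.sub_xt hM hP x'.2⟩, ⟨vl K τ, hτX K⟩]
        (by intro i; fin_cases i <;> rfl)
      rw [h3.1]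
      exact h6
    · intro hx
      have hxY : x ∈ Y := (hforce K hK hhK).2 hx
      have hxM : x ∈ M := hM.mem_of_mem hY hxY
      refine ⟨hxY, ?_⟩
      obtain ⟨p₁, hp₁K, hp₁⟩ := (Frc.truth j6_ud_mem hM hP hK ![.g ⟨x, hxM⟩, .n ⟨τ, hτ⟩]
        ![⟨x, hK.sub_xt hM hP hxM⟩, ⟨vl K τ, hτX K⟩] (by intro i; fin_cases i <;> rfl)).1 hx
      obtain ⟨p₂, hp₂K, h1, h2⟩ := hK.dir p₁ hp₁K h₀ hhK
      have hDd : hM.Dfn (fun v : Fin 1 → M => ∃ a : M,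
          ZFSet.pair (⟨x, hxM⟩ : M).1 a.1 ∈ (⟨E, hE⟩ : M).1 ∧ a.1 ⊆ (v 0).1) := by
        (repeat' first
      | exact DT.var _ | exact DT.last | exact DT.const _ | assumption
      | refine Dfn.pairMem ?_ ?_ ?_ | refine Dfn.isPair ?_ ?_ ?_ | refine Dfn.mem ?_ ?_
      | refine Dfn.eqv ?_ ?_ | refine Dfn.eq ?_ ?_ | refine Dfn.subset ?_ ?_
      | refine Dfn.isEmpty ?_ | refine Dfn.isTrans ?_ | refine Dfn.isOrd ?_ | refine Dfn.isNat ?_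
      | refine Dfn.and ?_ ?_ | refine Dfn.or ?_ ?_ | refine Dfn.iff ?_ ?_ | refine Dfn.not ?_
      | refine Dfn.imp ?_ ?_ | refine Dfn.all ?_ | refine Dfn.ex ?_ | exact Dfn.false')
      obtain ⟨q, hqK, _, a, ha, haq⟩ := hK.meet hM hP (D := fun q => ∃ a : M,
        ZFSet.pair (⟨x, hxM⟩ : M).1 a.1 ∈ (⟨E, hE⟩ : M).1 ∧ a.1 ⊆ q.1) hDd hp₂K (by
          intro r hr hpr
          have hrM : r ∈ M := hM.mem_of_mem hP hr
          have hrS : ZFSet.pair x r ∈ S := (hSp ⟨x, hxM⟩ ⟨r, hrM⟩).2 ⟨hxY, hr,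
            fun z hz => hpr (h2 hz), Frc.mono hp₁ (hK.sub _ hp₁K) (fun z hz => hpr (h1 hz))⟩
          by_cases hrE : ZFSet.pair x r ∈ E
          · exact ⟨⟨r, hrM⟩, hr, fun z hz => hz, ⟨r, hrM⟩, hrE, fun z hz => hz⟩
          · obtain ⟨y, hyE, hy⟩ := hE2 ⟨_, hM.pair_mem hxM hrM⟩ hrS hrE
            unfold J6R at hy
            push Not at hy
            obtain ⟨x', p, p', h3, h4, t, ht, h5, h6⟩ := hy
            have h3' : ZFSet.pair x r = ZFSet.pair x'.1 p.1 := h3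
            rw [ZFSet.pair_inj] at h3'
            refine ⟨t, ht, by rw [h3'.2]; exact h5, p', ?_, h6⟩
            have h7 : ZFSet.pair x p'.1 = y.1 := by rw [h4, h3'.1]
            show ZFSet.pair x p'.1 ∈ E
            rw [h7]
            exact hyE)
      exact ⟨a.1, hK.up q.1 hqK a.1 (hEp _ _ ha).2.1 haq, ha⟩
  have hval0 : ∀ K, Gen M P K → h₀ ∉ K → sc E K Y = ∅ := by
    intro K hK hhK
    rw [ZFSet.eq_empty]
    intro x hx
    obtain ⟨_, p, hpK, hxp⟩ := mem_sc.1 hx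
    exact hhK (hK.up p hpK h₀ hh₀P (hEp _ _ hxp).2.2)
  refine ⟨E, hE, ?_, ?_, (hval G hG hh₀G).symm, ?_⟩
  · intro w hw
    obtain ⟨x, p, h1, h2, h3, _⟩ := hEY w hw
    exact ⟨x.1, h1, p.1, h2, h3⟩
  · -- the size
    obtain ⟨r, hr, hr'⟩ := hM.exists_sep (P := fun z => ∃ i x p : M, z.1 = ZFSet.pair i.1 x.1 ∧
      x.1 = ZFSet.pair i.1 p.1) (by
      (repeat' first
      | exact DT.var _ | exact DT.last | exact DT.const _ | assumption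
      | refine Dfn.pairMem ?_ ?_ ?_ | refine Dfn.isPair ?_ ?_ ?_ | refine Dfn.mem ?_ ?_
      | refine Dfn.eqv ?_ ?_ | refine Dfn.eq ?_ ?_ | refine Dfn.subset ?_ ?_
      | refine Dfn.isEmpty ?_ | refine Dfn.isTrans ?_ | refine Dfn.isOrd ?_ | refine Dfn.isNat ?_
      | refine Dfn.and ?_ ?_ | refine Dfn.or ?_ ?_ | refine Dfn.iff ?_ ?_ | refine Dfn.not ?_
      | refine Dfn.imp ?_ ?_ | refine Dfn.all ?_ | refine Dfn.ex ?_ | exact Dfn.false')) (hM.prod_mem hY hE)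
    have hrp : ∀ i x : M, ZFSet.pair i.1 x.1 ∈ r ↔ i.1 ∈ Y ∧ x.1 ∈ E ∧ ∃ p : M, x.1 = ZFSet.pair i.1 p.1 := by
      intro i x
      rw [hr']
      constructor
      · rintro ⟨h1, _, i', x', p, h2, h3⟩
        have h2' : ZFSet.pair i.1 x.1 = ZFSet.pair i'.1 x'.1 := h2
        rw [ZFSet.pair_inj] at h2'
        rw [ZFSet.pair_mem_prod] at h1
        exact ⟨h1.1, h1.2, p, by rw [h2'.1, h2'.2]; exact h3⟩
      · rintro ⟨h1, h2, p, h3⟩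
        exact ⟨ZFSet.pair_mem_prod.2 ⟨h1, h2⟩, hM.pair_mem i.2 x.2, i, x, p, rfl, h3⟩
    refine cvr_union_om1 hM hδ hY hr hE hYδ ?_ ?_
    · intro i hi
      have hiM : i ∈ M := hM.mem_of_mem hY hi
      obtain ⟨A, hA, hA'⟩ := hM.exists_sep (P := fun p => ZFSet.pair (⟨i, hiM⟩ : M).1 p.1 ∈ (⟨E, hE⟩ : M).1)
        (by
        (repeat' first
      | exact DT.var _ | exact DT.last | exact DT.const _ | assumption
      | refine Dfn.pairMem ?_ ?_ ?_ | refine Dfn.isPair ?_ ?_ ?_ | refine Dfn.mem ?_ ?_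
      | refine Dfn.eqv ?_ ?_ | refine Dfn.eq ?_ ?_ | refine Dfn.subset ?_ ?_
      | refine Dfn.isEmpty ?_ | refine Dfn.isTrans ?_ | refine Dfn.isOrd ?_ | refine Dfn.isNat ?_
      | refine Dfn.and ?_ ?_ | refine Dfn.or ?_ ?_ | refine Dfn.iff ?_ ?_ | refine Dfn.not ?_
      | refine Dfn.imp ?_ ?_ | refine Dfn.all ?_ | refine Dfn.ex ?_ | exact Dfn.false')) hP
      have hAc : Ctb M A := by
        refine hc A hA (fun z hz => ((hA' z).1 hz).1) ?_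
        intro a ha b hb hab q hq h1 h2
        obtain ⟨_, haM, ha3⟩ := (hA' a).1 ha
        obtain ⟨_, hbM, hb3⟩ := (hA' b).1 hb
        refine hE1 ⟨_, hM.pair_mem hiM haM⟩ ⟨_, hM.pair_mem hiM hbM⟩ ha3 hb3 ?_ ⟨i, hiM⟩ ⟨a, haM⟩ ⟨b, hbM⟩
          rfl rfl ⟨q, hM.mem_of_mem hP hq⟩ hq h1 h2
        intro he
        have he' : ZFSet.pair i a = ZFSet.pair i b := congrArg Subtype.val he
        rw [ZFSet.pair_inj] at he'
        exact hab he'.2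
      obtain ⟨Z, hZ, hZ'⟩ := hM.exists_sep (P := fun x => ∃ p : M, x.1 = ZFSet.pair (⟨i, hiM⟩ : M).1 p.1)
        (by
        (repeat' first
      | exact DT.var _ | exact DT.last | exact DT.const _ | assumption
      | refine Dfn.pairMem ?_ ?_ ?_ | refine Dfn.isPair ?_ ?_ ?_ | refine Dfn.mem ?_ ?_
      | refine Dfn.eqv ?_ ?_ | refine Dfn.eq ?_ ?_ | refine Dfn.subset ?_ ?_
      | refine Dfn.isEmpty ?_ | refine Dfn.isTrans ?_ | refine Dfn.isOrd ?_ | refine Dfn.isNat ?_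
      | refine Dfn.and ?_ ?_ | refine Dfn.or ?_ ?_ | refine Dfn.iff ?_ ?_ | refine Dfn.not ?_
      | refine Dfn.imp ?_ ?_ | refine Dfn.all ?_ | refine Dfn.ex ?_ | exact Dfn.false')) hE
      refine ⟨Z, hZ, ctb_cvr_om1 hM hδ ?_, ?_⟩
      · refine Ctb.image hM hAc hA (F := fun p x => x.1 = ZFSet.pair (⟨i, hiM⟩ : M).1 p.1) (by
          (repeat' first
      | exact DT.var _ | exact DT.last | exact DT.const _ | assumption
      | refine Dfn.pairMem ?_ ?_ ?_ | refine Dfn.isPair ?_ ?_ ?_ | refine Dfn.mem ?_ ?_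
      | refine Dfn.eqv ?_ ?_ | refine Dfn.eq ?_ ?_ | refine Dfn.subset ?_ ?_
      | refine Dfn.isEmpty ?_ | refine Dfn.isTrans ?_ | refine Dfn.isOrd ?_ | refine Dfn.isNat ?_
      | refine Dfn.and ?_ ?_ | refine Dfn.or ?_ ?_ | refine Dfn.iff ?_ ?_ | refine Dfn.not ?_
      | refine Dfn.imp ?_ ?_ | refine Dfn.all ?_ | refine Dfn.ex ?_ | exact Dfn.false')) ?_ ?_
        · intro p _ y y' h1 h2
          exact Subtype.ext (h1.trans h2.symm)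
        · intro y hy
          obtain ⟨h1, hyM, p, h2⟩ := (hZ' y).1 hy
          have h2' : y = ZFSet.pair i p.1 := h2
          rw [h2'] at h1
          exact ⟨p, ⟨y, hyM⟩, (hA' _).2 ⟨(hEp _ _ h1).2.1, p.2, h1⟩, rfl, h2⟩
      · intro x hx hxr
        have hxM : x ∈ M := hM.mem_of_mem hE hx
        obtain ⟨_, _, p, h3⟩ := (hrp ⟨i, hiM⟩ ⟨x, hxM⟩).1 hxr
        exact (hZ' x).2 ⟨hx, hxM, p, h3⟩
    · intro x hx
      obtain ⟨y, p, h1, h2, h3, _⟩ := hEY x hx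
      have hxM : x ∈ M := hM.mem_of_mem hE hx
      exact ⟨y.1, h1, (hrp y ⟨x, hxM⟩).2 ⟨h1, hx, p, h3⟩⟩
  · intro K hK
    by_cases hhK : h₀ ∈ K
    · rw [hval K hK hhK]
      exact (hforce K hK hhK).1
    · rw [hval0 K hK hhK]
      exact h0 K hK

end Pool.Agent.H7.IG
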