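import Pool.Agent.H19.IG.J4
import Pool.Agent.H19.IG.J6
import Pool.Agent.H19.IG.J11
import Pool.Agent.H19.IG.J12
import Pool.Agent.H19.IG.J13

/-!
# IG, Part 2: Martin's axiom for coded posets

* `nm_bdd`: a name `E` of size `≤ δ` over `Q` is a name over `Q_α` for some `α < Λ`: the set `X` of all `γ < Λ` such that `(γ, x) ∈ p` for some
  `((z, y), p) ∈ E` has size `≤ δ` (`cvr_union_om1`: index set `E`, countable (finite) sections; finite sets are countable), so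
  `X ⊆ α` by `BK.bdd`.
* `ma_code`: `R, D ∈ N[H]`, `R ⊆ δ × δ` (the complement of) a ccc preorder, `D ⊆ δ × δ` with all nonempty sections `D_i` dense.
  `exists_nice` (J6) with `Ψ W X c := PC W c X`, `c = δ`, `Y = δ × δ` (`cvr_prod_om1`, `pc_empty`) gives `E` with `R = Rv δ E H` and
  `PC (Xt N K) δ (Rv δ E K)` for all generic `K`; again (with `Ψ := True`) `E'` with `D = sc E' H (δ × δ)`. By `nm_bdd` both are names
  over `Q_α`, `α < Λ`. By `BK.rep` (with `Z = {β.toZFSet : α ≤ β < Λ, (β, E) ∈ B}`; the empty set is covered) there is `β ≥ α`,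
  `β < Λ` with `B(β) = E`. `acc_of_forced`: `E` is accepted at `β`, so `E` is the name used at stage `β` (`ItB.yes`). Let
  `g = {x ∈ δ : ∃ p ∈ H, (β, x) ∈ p}`. The sections `D_i` are in `N[K]`, `K = lw δ H β` (`E'` is a name over `Q_β`). `stg_meet`,
  `stg_dir`; for `p ∈ H` a lower bound of `p(β)` in `D_i` is found with `stg_lb`, density and transitivity. `g ≠ ∅`: `stg_meet` with
  `D = δ`.
-/

set_option autoImplicit false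
set_option linter.unusedVariables false
set_option linter.unusedSectionVars false
set_option linter.unusedSimpArgs false
set_option linter.unusedTactic false
set_option linter.unreachableTactic false

namespace Pool.Agent.H7.IG

open Pool.Agent.H17.Omega Pool.Agent.H17.Omega.CTM Pool.Agent.H52.GX Pool.Agent.H52.GC

variable {N : Set ZFSet.{0}} {δ Λ κ : Ordinal.{0}} {𝓡 Q 𝓕 B : ZFSet.{0}}

/-- The domain of a finite set of pairs is finite. -/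
theorem j14_dom_fin {p Y : ZFSet.{0}} (hp : FinZ p) (hY : ∀ γ ∈ Y, ∃ x, ZFSet.pair γ x ∈ p) : FinZ Y := by
  classical
  obtain ⟨s, hs⟩ := hp
  let ft : ZFSet.{0} → ZFSet.{0} := fun z => if h : ∃ γ x, z = ZFSet.pair γ x then h.choose else ∅
  have hft : ∀ γ x, ft (ZFSet.pair γ x) = γ := by
    intro γ x
    have h : ∃ γ' x', ZFSet.pair γ x = ZFSet.pair γ' x' := ⟨γ, x, rfl⟩
    have h1 : ft (ZFSet.pair γ x) = h.choose := by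
      show (if h : ∃ γ' x', ZFSet.pair γ x = ZFSet.pair γ' x' then h.choose else ∅) = _
      rw [dif_pos h]
    obtain ⟨x', hx'⟩ := h.choose_spec
    rw [h1]
    exact (ZFSet.pair_inj.1 hx').1.symm
  refine ⟨(s.image ft).filter (fun z => z ∈ Y), fun z => ?_⟩
  rw [Finset.mem_filter, Finset.mem_image]
  constructor
  · intro hz
    obtain ⟨x, hx⟩ := hY z hz
    exact ⟨⟨_, (hs _).1 hx, hft z x⟩, hz⟩
  · exact fun h => h.2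

theorem nm_bdd (hN : CTM N) (h : ItB N δ Λ 𝓡 Q 𝓕 B) (hδ : IsOm1 N δ) (hB : BK N δ Λ κ B) {E : ZFSet.{0}}
    (hE : E ∈ N) (hnm : NmS δ.toZFSet Q E) (hsm : Cvr N δ.toZFSet E) :
    ∃ α < Λ, NmS δ.toZFSet (lw δ.toZFSet Q α.toZFSet) E := by
  have hX : ZFSet.sep (fun γ => ∃ w ∈ E, ∃ s : N, ∃ p : N, ∃ x ∈ δ.toZFSet, w = ZFSet.pair s.1 p.1 ∧
      ZFSet.pair γ x ∈ p.1) Λ.toZFSet ∈ N := by
    refine hN.sep_mem (p := fun γ => ∃ w ∈ E, ∃ s : N, ∃ p : N, ∃ x ∈ δ.toZFSet, w = ZFSet.pair s.1 p.1 ∧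
      ZFSet.pair γ x ∈ p.1) ?_ h.L_mem
    show hN.Dfn (fun v : Fin 1 → N => ∃ w ∈ ((⟨E, hE⟩ : N)).1, ∃ s : N, ∃ p : N,
      ∃ x ∈ ((⟨δ.toZFSet, hδ.mem⟩ : N)).1, w = ZFSet.pair s.1 p.1 ∧ ZFSet.pair (v 0).1 x ∈ p.1)
    (repeat' first
        | exact DT.var _ | exact DT.last | exact DT.const _ | assumption
        | refine Dfn.pairMem ?_ ?_ ?_ | refine Dfn.isPair ?_ ?_ ?_ | refine Dfn.mem ?_ ?_
        | refine Dfn.eqv ?_ ?_ | refine Dfn.eq ?_ ?_ | refine Dfn.subset ?_ ?_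
        | refine Dfn.isEmpty ?_ | refine Dfn.isTrans ?_ | refine Dfn.isOrd ?_ | refine Dfn.isNat ?_
        | refine Dfn.isUpair ?_ ?_ ?_ | refine Dfn.isInsert ?_ ?_ ?_
        | refine Dfn.and ?_ ?_ | refine Dfn.or ?_ ?_ | refine Dfn.iff ?_ ?_ | refine Dfn.not ?_
        | refine Dfn.imp ?_ ?_ | refine Dfn.all ?_ | refine Dfn.ex ?_ | exact Dfn.false'
        | refine Dfn.ballZ ?_ ?_ | refine Dfn.bexZ ?_ ?_ | exact Dfn.const _)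
  have hr : ZFSet.sep (fun u => ∃ w γ : N, u = ZFSet.pair w.1 γ.1 ∧ ∃ s : N, ∃ p : N, ∃ x ∈ δ.toZFSet,
      w.1 = ZFSet.pair s.1 p.1 ∧ ZFSet.pair γ.1 x ∈ p.1) (ZFSet.prod E Λ.toZFSet) ∈ N := by
    refine hN.sep_mem (p := fun u => ∃ w γ : N, u = ZFSet.pair w.1 γ.1 ∧ ∃ s : N, ∃ p : N, ∃ x ∈ δ.toZFSet,
      w.1 = ZFSet.pair s.1 p.1 ∧ ZFSet.pair γ.1 x ∈ p.1) ?_ (hN.prod_mem hE h.L_mem)
    show hN.Dfn (fun v : Fin 1 → N => ∃ w γ : N, (v 0).1 = ZFSet.pair w.1 γ.1 ∧ ∃ s : N, ∃ p : N,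
      ∃ x ∈ ((⟨δ.toZFSet, hδ.mem⟩ : N)).1, w.1 = ZFSet.pair s.1 p.1 ∧ ZFSet.pair γ.1 x ∈ p.1)
    (repeat' first
        | exact DT.var _ | exact DT.last | exact DT.const _ | assumption
        | refine Dfn.pairMem ?_ ?_ ?_ | refine Dfn.isPair ?_ ?_ ?_ | refine Dfn.mem ?_ ?_
        | refine Dfn.eqv ?_ ?_ | refine Dfn.eq ?_ ?_ | refine Dfn.subset ?_ ?_
        | refine Dfn.isEmpty ?_ | refine Dfn.isTrans ?_ | refine Dfn.isOrd ?_ | refine Dfn.isNat ?_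
        | refine Dfn.isUpair ?_ ?_ ?_ | refine Dfn.isInsert ?_ ?_ ?_
        | refine Dfn.and ?_ ?_ | refine Dfn.or ?_ ?_ | refine Dfn.iff ?_ ?_ | refine Dfn.not ?_
        | refine Dfn.imp ?_ ?_ | refine Dfn.all ?_ | refine Dfn.ex ?_ | exact Dfn.false'
        | refine Dfn.ballZ ?_ ?_ | refine Dfn.bexZ ?_ ?_ | exact Dfn.const _)
  have hcv : Cvr N δ.toZFSet (ZFSet.sep (fun γ => ∃ w ∈ E, ∃ s : N, ∃ p : N, ∃ x ∈ δ.toZFSet,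
      w = ZFSet.pair s.1 p.1 ∧ ZFSet.pair γ x ∈ p.1) Λ.toZFSet) := by
    refine cvr_union_om1 hN hδ hE hr hX hsm ?_ ?_
    · intro w hw
      obtain ⟨z, hz, y, hy, p, hp, rfl⟩ := hnm w hw
      have hpN := hN.mem_of_mem h.Q_mem hp
      have hpF := (h.fin p).1 (h.it.q_sub p hp)
      have hYN : ZFSet.sep (fun γ => ∃ x ∈ δ.toZFSet, ZFSet.pair γ x ∈ p) Λ.toZFSet ∈ N := by
        refine hN.sep_mem (p := fun γ => ∃ x ∈ δ.toZFSet, ZFSet.pair γ x ∈ p) ?_ h.L_mem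
        show hN.Dfn (fun v : Fin 1 → N => ∃ x ∈ ((⟨δ.toZFSet, hδ.mem⟩ : N)).1,
          ZFSet.pair (v 0).1 x ∈ ((⟨p, hpN⟩ : N)).1)
        (repeat' first
            | exact DT.var _ | exact DT.last | exact DT.const _ | assumption
            | refine Dfn.pairMem ?_ ?_ ?_ | refine Dfn.isPair ?_ ?_ ?_ | refine Dfn.mem ?_ ?_
            | refine Dfn.eqv ?_ ?_ | refine Dfn.eq ?_ ?_ | refine Dfn.subset ?_ ?_
            | refine Dfn.isEmpty ?_ | refine Dfn.isTrans ?_ | refine Dfn.isOrd ?_ | refine Dfn.isNat ?_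
            | refine Dfn.isUpair ?_ ?_ ?_ | refine Dfn.isInsert ?_ ?_ ?_
            | refine Dfn.and ?_ ?_ | refine Dfn.or ?_ ?_ | refine Dfn.iff ?_ ?_ | refine Dfn.not ?_
            | refine Dfn.imp ?_ ?_ | refine Dfn.all ?_ | refine Dfn.ex ?_ | exact Dfn.false'
            | refine Dfn.ballZ ?_ ?_ | refine Dfn.bexZ ?_ ?_ | exact Dfn.const _)
      refine ⟨_, hYN, ctb_cvr_om1 hN hδ (tk7_fin_ctb hN hYN (j14_dom_fin hpF.1 fun γ hγ => ?_)), ?_⟩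
      · obtain ⟨_, x, hx, h1⟩ := ZFSet.mem_sep.1 hγ
        exact ⟨x, h1⟩
      · intro γ hγ hr1
        obtain ⟨_, w', γ', h1, s, p', x, hx, h2, h3⟩ := ZFSet.mem_sep.1 hr1
        rw [ZFSet.pair_inj] at h1
        rw [← h1.1, ZFSet.pair_inj] at h2
        rw [← h1.2, ← h2.2] at h3
        exact ZFSet.mem_sep.2 ⟨(ZFSet.mem_sep.1 hγ).1, x, hx, h3⟩
    · intro γ hγ
      obtain ⟨hγΛ, w, hw, s, p, x, hx, h1, h2⟩ := ZFSet.mem_sep.1 hγ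
      refine ⟨w, hw, ZFSet.mem_sep.2 ⟨ZFSet.pair_mem_prod.2 ⟨hw, hγΛ⟩, ⟨w, hN.mem_of_mem hE hw⟩,
        ⟨γ, hN.mem_of_mem h.L_mem hγΛ⟩, rfl, s, p, x, hx, h1, h2⟩⟩
  obtain ⟨α, hα, hXα⟩ := hB.bdd _ hX (fun γ hγ => (ZFSet.mem_sep.1 hγ).1) hcv
  refine ⟨α, hα, fun w hw => ?_⟩
  obtain ⟨z, hz, y, hy, p, hp, h1⟩ := hnm w hw
  refine ⟨z, hz, y, hy, p, mem_lw.2 ⟨hp, fun u hu => ?_⟩, h1⟩
  have hpF := (h.fin p).1 (h.it.q_sub p hp)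
  obtain ⟨γ, hγ, x, hx, h2⟩ := hpF.2 u hu
  refine ⟨γ, hXα (ZFSet.mem_sep.2 ⟨hγ, w, hw, ?_⟩), x, hx, h2⟩
  have hwN := hN.mem_of_mem hE hw
  rw [h1] at hwN
  exact ⟨⟨_, (hN.of_pair_mem hwN).1⟩, ⟨p, (hN.of_pair_mem hwN).2⟩, x, hx, h1, h2 ▸ hu⟩

theorem ma_code (hN : CTM N) (h : ItB N δ Λ 𝓡 Q 𝓕 B) (hδ : IsOm1 N δ) (hB : BK N δ Λ κ B) {H : ZFSet.{0}}
    (hH : Gen N Q H) {R D : ZFSet.{0}} (hR : R ∈ Xt N H) (hRs : R ⊆ ZFSet.prod δ.toZFSet δ.toZFSet)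
    (hpc : PC (Xt N H) δ.toZFSet R) (hD : D ∈ Xt N H) (hDs : D ⊆ ZFSet.prod δ.toZFSet δ.toZFSet)
    (hden : ∀ i ∈ δ.toZFSet, (∃ y, ZFSet.pair i y ∈ D) →
      ∀ y ∈ δ.toZFSet, ∃ x ∈ δ.toZFSet, ZFSet.pair i x ∈ D ∧ ZFSet.pair x y ∉ R) :
    ∃ g ∈ Xt N H, g ⊆ δ.toZFSet ∧ (∃ x, x ∈ g) ∧
      (∀ x ∈ g, ∀ y ∈ g, ∃ z ∈ g, ZFSet.pair z x ∉ R ∧ ZFSet.pair z y ∉ R) ∧
      ∀ i ∈ δ.toZFSet, (∃ y, ZFSet.pair i y ∈ D) → ∃ x ∈ g, ZFSet.pair i x ∈ D := by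
  have hcQ : Ccc N Q := h.ccc hN hδ hB.fn
  have hδ0 : 0 < δ := by
    have := hδ.omega_lt hN 0
    simpa using this
  have hPN := hN.prod_mem hδ.mem hδ.mem
  obtain ⟨E, hE, hE1, hE2, hE3, hE4⟩ := exists_nice hN h.Q_mem hcQ hH hδ (Ψ := fun W X c => PC W c X)
    (UD.sub2 (P := fun N a b => PC N a.1 b.1) ud_PC (UT.var _) (UT.var _)) hR hPN hRs (cvr_prod_om1 hN hδ)
    hδ.mem hpc (fun K hK => pc_empty (hK.ctm hN h.Q_mem) (hK.sub_xt hN h.Q_mem hδ.mem))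
  obtain ⟨E', hE', hE1', hE2', hE3', _⟩ := exists_nice hN h.Q_mem hcQ hH hδ (Ψ := fun W X c => True)
    UD.true' hD hPN hDs (cvr_prod_om1 hN hδ) hδ.mem trivial (fun K hK => trivial)
  have hnm : ∀ E₀ : ZFSet.{0}, (∀ w ∈ E₀, ∃ x ∈ ZFSet.prod δ.toZFSet δ.toZFSet, ∃ p ∈ Q, w = ZFSet.pair x p) →
      NmS δ.toZFSet Q E₀ := by
    intro E₀ h1 w hw
    obtain ⟨x, hx, p, hp, h2⟩ := h1 w hw
    obtain ⟨a, ha, b, hb, h3⟩ := ZFSet.mem_prod.1 hx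
    exact ⟨a, ha, b, hb, p, hp, by rw [h2, h3]⟩
  obtain ⟨α₁, hα₁, hn1⟩ := nm_bdd hN h hδ hB hE (hnm E hE1) hE2
  obtain ⟨α₂, hα₂, hn2⟩ := nm_bdd hN h hδ hB hE' (hnm E' hE1') hE2'
  have hnmono : ∀ {E₀ : ZFSet.{0}} {a b : Ordinal.{0}}, a ≤ b →
      NmS δ.toZFSet (lw δ.toZFSet Q a.toZFSet) E₀ → NmS δ.toZFSet (lw δ.toZFSet Q b.toZFSet) E₀ := by
    intro E₀ a b hab h1 w hw
    obtain ⟨z, hz, y, hy, p, hp, h2⟩ := h1 w hw
    refine ⟨z, hz, y, hy, p, lw_mono (fun x hx => ?_) hp, h2⟩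
    obtain ⟨c, hc, rfl⟩ := Ordinal.mem_toZFSet_iff.1 hx
    exact Ordinal.toZFSet_mem_toZFSet_iff.2 (hc.trans_le hab)
  have hα : max α₁ α₂ < Λ := max_lt hα₁ hα₂
  have hn1' := hnmono (le_max_left α₁ α₂) hn1
  have hn2' := hnmono (le_max_right α₁ α₂) hn2
  obtain ⟨β, hβ, hαβ, hβE⟩ : ∃ β, β < Λ ∧ max α₁ α₂ ≤ β ∧ ZFSet.pair β.toZFSet E ∈ B := by
    by_contra hcon
    refine hB.rep E hE _ hα (fun w hw => ?_) ∅ hN.empty_mem (fun β hβ h1 h2 => ?_) ?_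
    · obtain ⟨z, hz, y, hy, p, hp, h2⟩ := hn1' w hw
      exact ⟨z, hz, y, hy, p, h2, (mem_lw.1 hp).2⟩
    · exact (hcon ⟨β, hβ, h1, h2⟩).elim
    · exact ⟨∅, hN.empty_mem, fun y _ x x' h1 => (ZFSet.notMem_empty _ h1).elim,
        fun x hx => (ZFSet.notMem_empty _ hx).elim⟩
  have hE1β := hnmono hαβ hn1'
  have hE2β := hnmono hαβ hn2'
  have hacc := acc_of_forced hN h.it h.fin h.Q_mem h.F_mem hδ h.L_mem hcQ hβ hE hE1β hE2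
    (fun K hK => hcQ.om1 hN h.Q_mem hK hδ) hE4
  have hb := h.yes β hβ E hβE hacc
  have hRE : R = Rv δ.toZFSet E H := hE3
  have hctm := hH.ctm hN h.Q_mem
  have hβN : β.toZFSet ∈ N := hN.toZFSet_mem_of_le hβ.le h.L_mem
  have hrefl : ∀ x ∈ δ.toZFSet, ZFSet.pair x x ∉ Rv δ.toZFSet E H := by
    rw [← hRE]
    exact hpc.pre.refl
  have hK := Gen.low hN h.it h.fin h.Q_mem hδ.mem h.L_mem hH hβ.le
  have hQβ := lw_mem hN hδ.mem h.Q_mem hβN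
  have hKc := hK.ctm hN hQβ
  have hδK := hK.sub_xt hN hQβ hδ.mem
  have hDK : D ∈ Xt N (lw δ.toZFSet H β.toZFSet) := by
    have h1 : D = Rv δ.toZFSet E' (lw δ.toZFSet H β.toZFSet) := hE3'.trans (rv_low hE2β)
    rw [h1]
    exact sc_mem hKc (hK.sub_xt hN hQβ hE') (hK.mem_xt hN hQβ) (hKc.prod_mem hδK hδK)
  have hHX := hH.mem_xt hN h.Q_mem
  have hβX := hH.sub_xt hN h.Q_mem hβN
  have hgX : ZFSet.sep (fun x => ∃ p ∈ H, ZFSet.pair β.toZFSet x ∈ p) δ.toZFSet ∈ Xt N H := by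
    refine hctm.sep_mem (p := fun x => ∃ p ∈ H, ZFSet.pair β.toZFSet x ∈ p) ?_ (hH.sub_xt hN h.Q_mem hδ.mem)
    show hctm.Dfn (fun v : Fin 1 → Xt N H => ∃ p ∈ ((⟨H, hHX⟩ : Xt N H)).1,
      ZFSet.pair ((⟨β.toZFSet, hβX⟩ : Xt N H)).1 (v 0).1 ∈ p)
    (repeat' first
        | exact DT.var _ | exact DT.last | exact DT.const _ | assumption
        | refine Dfn.pairMem ?_ ?_ ?_ | refine Dfn.isPair ?_ ?_ ?_ | refine Dfn.mem ?_ ?_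
        | refine Dfn.eqv ?_ ?_ | refine Dfn.eq ?_ ?_ | refine Dfn.subset ?_ ?_
        | refine Dfn.isEmpty ?_ | refine Dfn.isTrans ?_ | refine Dfn.isOrd ?_ | refine Dfn.isNat ?_
        | refine Dfn.isUpair ?_ ?_ ?_ | refine Dfn.isInsert ?_ ?_ ?_
        | refine Dfn.and ?_ ?_ | refine Dfn.or ?_ ?_ | refine Dfn.iff ?_ ?_ | refine Dfn.not ?_
        | refine Dfn.imp ?_ ?_ | refine Dfn.all ?_ | refine Dfn.ex ?_ | exact Dfn.false'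
        | refine Dfn.ballZ ?_ ?_ | refine Dfn.bexZ ?_ ?_ | exact Dfn.const _)
  refine ⟨_, hgX, fun x hx => (ZFSet.mem_sep.1 hx).1, ?_, ?_, ?_⟩
  · obtain ⟨x, hx, p, hp, h1⟩ := stg_meet hN h.it h.fin h.Q_mem h.R_mem hδ.mem hδ0 h.L_mem hβ hE hb hH hrefl hδK
      (fun x hx => hx) (fun p hp => stg_lb hN h.it h.fin h.Q_mem h.R_mem hδ.mem hδ0 h.L_mem hβ hE hb hH hp)
    exact ⟨x, ZFSet.mem_sep.2 ⟨hx, p, hp, h1⟩⟩
  · intro x hx y hy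
    obtain ⟨z, hz, h1, h2, h3⟩ := stg_dir hN h.it h.fin h.Q_mem h.R_mem hδ.mem hδ0 h.L_mem hβ hE hb hH hrefl
      (ZFSet.mem_sep.1 hx).2 (ZFSet.mem_sep.1 hy).2
    rw [← hRE] at h2 h3
    exact ⟨z, ZFSet.mem_sep.2 ⟨hz, h1⟩, h2, h3⟩
  · intro i hi hiD
    have hiK : i ∈ Xt N (lw δ.toZFSet H β.toZFSet) := hKc.mem_of_mem hδK hi
    have hDi : ZFSet.sep (fun x => ZFSet.pair i x ∈ D) δ.toZFSet ∈ Xt N (lw δ.toZFSet H β.toZFSet) := by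
      refine hKc.sep_mem (p := fun x => ZFSet.pair i x ∈ D) ?_ hδK
      show hKc.Dfn (fun v : Fin 1 → Xt N (lw δ.toZFSet H β.toZFSet) =>
        ZFSet.pair ((⟨i, hiK⟩ : Xt N (lw δ.toZFSet H β.toZFSet))).1 (v 0).1 ∈
          ((⟨D, hDK⟩ : Xt N (lw δ.toZFSet H β.toZFSet))).1)
      (repeat' first
          | exact DT.var _ | exact DT.last | exact DT.const _ | assumption
          | refine Dfn.pairMem ?_ ?_ ?_ | refine Dfn.isPair ?_ ?_ ?_ | refine Dfn.mem ?_ ?_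
          | refine Dfn.eqv ?_ ?_ | refine Dfn.eq ?_ ?_ | refine Dfn.subset ?_ ?_
          | refine Dfn.isEmpty ?_ | refine Dfn.isTrans ?_ | refine Dfn.isOrd ?_ | refine Dfn.isNat ?_
          | refine Dfn.isUpair ?_ ?_ ?_ | refine Dfn.isInsert ?_ ?_ ?_
          | refine Dfn.and ?_ ?_ | refine Dfn.or ?_ ?_ | refine Dfn.iff ?_ ?_ | refine Dfn.not ?_
          | refine Dfn.imp ?_ ?_ | refine Dfn.all ?_ | refine Dfn.ex ?_ | exact Dfn.false'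
          | refine Dfn.ballZ ?_ ?_ | refine Dfn.bexZ ?_ ?_ | exact Dfn.const _)
    obtain ⟨x, hx, p, hp, h1⟩ := stg_meet hN h.it h.fin h.Q_mem h.R_mem hδ.mem hδ0 h.L_mem hβ hE hb hH hrefl hDi
      (fun x hx => (ZFSet.mem_sep.1 hx).1) (by
        intro p hp
        obtain ⟨z, hz, h2⟩ := stg_lb hN h.it h.fin h.Q_mem h.R_mem hδ.mem hδ0 h.L_mem hβ hE hb hH hp
        obtain ⟨x, hx, h3, h4⟩ := hden i hi hiD z hz
        refine ⟨x, ZFSet.mem_sep.2 ⟨hx, h3⟩, fun y hy h5 => ?_⟩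
        have h6 := h2 y hy h5
        rw [← hRE] at h6 ⊢
        exact hpc.pre.trans x hx z hz y hy h4 h6)
    exact ⟨x, ZFSet.mem_sep.2 ⟨(ZFSet.mem_sep.1 hx).1, p, hp, h1⟩, (ZFSet.mem_sep.1 hx).2⟩

end Pool.Agent.H7.IG
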