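import Pool.Agent.H19.IG.J0
import Pool.Agent.H7.IG.Stat
import Pool.Agent.H7.IG.Tk6
import Pool.Agent.H7.IG.Tk8

/-!
# IG, Part 2: Martin's axiom from Martin's axiom for coded posets (inside one model `W`)

`MAc W δ`: the conclusion of `ma_code` for all codes of `W`. `MAc W δ → MA1 W δ`: let `P, R₀, D₀` be as in `MA1` (`(p, q) ∈ R₀` means `p ≤ q`).
1. Small subposet: let `Y` be a level of `W` (`exists_Lv` at a limit ordinal above the ranks of `P, R₀, D₀`; closed under finite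
   subsets by `finZ_mem_Lv`). `Φ y z`: (`y = pair ∅ (pair p q)`, `p, q, z ∈ P`, `(z, p), (z, q) ∈ R₀`) or (`y = pair {∅} (pair d p)`, `d ∈ D₀`, `p ∈ P`,
   `z ∈ d`, `(z, p) ∈ R₀`). `exists_hull_om1` with `A = D₀ ∪ {p*}`, `p* ∈ P`: `Z` of size `≤ δ`; `P' = Z ∩ P` is nonempty, compatible elements of `P'`
   have a common lower bound in `P'` and for `d ∈ D₀`, `p ∈ P'` there is `q ∈ d ∩ P'`, `(q, p) ∈ R₀` (pairs of elements of `Z` are in `Z`: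
   `Z` is closed under finite subsets, `pair x y = {{x}, {x, y}}`).
2. `π ∈ W` maps `δ` onto `P'` (`cvr_onto`), and, if `D₀ ≠ ∅`, `e ∈ W` maps `δ` onto `D₀`. `R = {(z, y) ∈ δ × δ : (π z, π y) ∉ R₀}`,
   `D = {(i, x) ∈ δ × δ : π x ∈ e(i)}` (`D = ∅` if `D₀ = ∅`). `PC W δ R`: preorder clear; for an antichain `A ⊆ δ` of `R`, `π` is
   injective on `A` and `π[A]` is an antichain of `P` (compatible elements of `P'` are compatible in `P'`), so countable; hence `A` is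
   countable (`Ctb.image`).
3. `g` from `MAc`; `F = {q ∈ P : ∃ x ∈ g, (π x, q) ∈ R₀}`.
-/

set_option autoImplicit false
set_option linter.unusedVariables false
set_option linter.unusedSectionVars false
set_option linter.unusedSimpArgs false
set_option linter.unusedTactic false
set_option linter.unreachableTactic false

namespace Pool.Agent.H7.IG

open Pool.Agent.H17.Omega Pool.Agent.H17.Omega.CTM Pool.Agent.H52.GX Pool.Agent.H52.GC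

/-- Martin's axiom for `δ` many dense sets, for coded posets: `z ≤ y :↔ (z, y) ∉ R`. -/
def MAc (W : Set ZFSet.{0}) (δ : Ordinal.{0}) : Prop :=
  ∀ R ∈ W, R ⊆ ZFSet.prod δ.toZFSet δ.toZFSet → PC W δ.toZFSet R → ∀ D ∈ W, D ⊆ ZFSet.prod δ.toZFSet δ.toZFSet →
    (∀ i ∈ δ.toZFSet, (∃ y, ZFSet.pair i y ∈ D) →
      ∀ y ∈ δ.toZFSet, ∃ x ∈ δ.toZFSet, ZFSet.pair i x ∈ D ∧ ZFSet.pair x y ∉ R) →
    ∃ g ∈ W, g ⊆ δ.toZFSet ∧ (∃ x, x ∈ g) ∧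
      (∀ x ∈ g, ∀ y ∈ g, ∃ z ∈ g, ZFSet.pair z x ∉ R ∧ ZFSet.pair z y ∉ R) ∧
      ∀ i ∈ δ.toZFSet, (∃ y, ZFSet.pair i y ∈ D) → ∃ x ∈ g, ZFSet.pair i x ∈ D

theorem j15_pair {Z : ZFSet.{0}} (hZ : ∀ a, FinZ a → a ⊆ Z → a ∈ Z) {x y : ZFSet.{0}} (hx : x ∈ Z)
    (hy : y ∈ Z) : ZFSet.pair x y ∈ Z := by
  classical
  have h1 : ({x} : ZFSet.{0}) ∈ Z := hZ _ ⟨{x}, fun z => by simp⟩ fun z hz => by
    rw [ZFSet.mem_singleton] at hz; rw [hz]; exact hx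
  have h2 : ({x, y} : ZFSet.{0}) ∈ Z := hZ _ ⟨{x, y}, fun z => by simp⟩ fun z hz => by
    rw [ZFSet.mem_pair] at hz
    rcases hz with rfl | rfl <;> assumption
  refine hZ _ ⟨{{x}, {x, y}}, fun z => by simp [ZFSet.pair]⟩ fun z hz => ?_
  rw [ZFSet.pair, ZFSet.mem_pair] at hz
  rcases hz with rfl | rfl <;> assumption

theorem j15_nat {Z : ZFSet.{0}} (hZ : ∀ a, FinZ a → a ⊆ Z → a ∈ Z) (n : ℕ) : natZ n ∈ Z := by
  classical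
  induction n using Nat.strong_induction_on with
  | _ n ih =>
    refine hZ _ ⟨(Finset.range n).image natZ, fun z => ?_⟩ fun z hz => ?_
    · rw [mem_natZ, Finset.mem_image]
      constructor
      · rintro ⟨m, hm, rfl⟩; exact ⟨m, Finset.mem_range.2 hm, rfl⟩
      · rintro ⟨m, hm, rfl⟩; exact ⟨m, Finset.mem_range.1 hm, rfl⟩
    · obtain ⟨m, hm, rfl⟩ := mem_natZ.1 hz
      exact ih m hm

/-- A set is contained in a set that is closed under finite subsets. -/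
theorem j15_Y {W : Set ZFSet.{0}} (hW : CTM W) {A : ZFSet.{0}} (hA : A ∈ W) :
    ∃ Y ∈ W, A ⊆ Y ∧ ∀ a, FinZ a → a ⊆ Y → a ∈ Y := by
  obtain ⟨o, ho, h1, h2, -⟩ := hW.exists_closed (Φ := fun z w => w = z) (by
    exact Dfn.eq (DT.var _) (DT.var _)) (fun z => ⟨z, rfl⟩) ⟨A, hA⟩
  obtain ⟨Y, hY, hY'⟩ := exists_Lv hW ho
  have h0 : (0 : Ordinal.{0}) < o := lt_of_le_of_lt zero_le h1
  refine ⟨Y, hY, fun x hx => (hY' x).2 ⟨hW.mem_of_mem hA hx, (ZFSet.rank_lt_of_mem hx).trans h1⟩,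
    fun a ha haY => (hY' a).2 (finZ_mem_Lv hW h2 h0 ha fun x hx => (hY' x).1 (haY hx))⟩

/-- The restriction of a definable relation to a product. -/
theorem j15_rel {W : Set ZFSet.{0}} (hW : CTM W) {F : W → W → Prop}
    (hF : hW.Dfn (fun v : Fin 2 → W => F (v 0) (v 1))) {A B : ZFSet.{0}} (hA : A ∈ W) (hB : B ∈ W) :
    ∃ r ∈ W, r ⊆ ZFSet.prod A B ∧
      ∀ x y : W, ZFSet.pair x.1 y.1 ∈ r ↔ x.1 ∈ A ∧ y.1 ∈ B ∧ F x y := by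
  obtain ⟨r, hr, hr'⟩ := hW.exists_sep (P := fun z => ∃ x y : W, z.1 = ZFSet.pair x.1 y.1 ∧ F x y) (by
    (repeat' first
        | exact DT.var _ | exact DT.last | exact DT.const _ | assumption
        | refine Dfn.pairMem ?_ ?_ ?_ | refine Dfn.isPair ?_ ?_ ?_ | refine Dfn.mem ?_ ?_
        | refine Dfn.eqv ?_ ?_ | refine Dfn.eq ?_ ?_ | refine Dfn.subset ?_ ?_
        | refine Dfn.isEmpty ?_ | refine Dfn.isTrans ?_ | refine Dfn.isOrd ?_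
        | refine Dfn.isNat ?_ | refine Dfn.and ?_ ?_ | refine Dfn.or ?_ ?_ | refine Dfn.iff ?_ ?_
        | refine Dfn.not ?_ | refine Dfn.imp ?_ ?_ | refine Dfn.all ?_ | refine Dfn.ex ?_
        | exact Dfn.false')
    all_goals exact Dfn.subst2 hF (DT.var _) (DT.var _)) (hW.prod_mem hA hB)
  refine ⟨r, hr, fun z hz => ((hr' z).1 hz).1, fun x y => ?_⟩
  rw [hr', ZFSet.pair_mem_prod]
  constructor
  · rintro ⟨⟨h1, h2⟩, _, x', y', h3, h4⟩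
    have h3 : ZFSet.pair x.1 y.1 = ZFSet.pair x'.1 y'.1 := h3
    rw [ZFSet.pair_inj] at h3
    have e1 : x = x' := Subtype.ext h3.1
    have e2 : y = y' := Subtype.ext h3.2
    rw [e1, e2]
    exact ⟨e1 ▸ h1, e2 ▸ h2, h4⟩
  · rintro ⟨h1, h2, h3⟩
    exact ⟨⟨h1, h2⟩, hW.pair_mem x.2 y.2, x, y, rfl, h3⟩

theorem j15_pair_ne {x y : ZFSet.{0}} : ZFSet.pair x y ≠ ∅ := by
  intro h
  have h1 : ({x} : ZFSet.{0}) ∈ ZFSet.pair x y := by rw [ZFSet.pair, ZFSet.mem_pair]; exact Or.inl rfl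
  rw [h] at h1
  exact ZFSet.notMem_empty _ h1

/-- A poset `P` with a family `D₀` of dense sets has a subposet of size at most `ω₁` that reflects compatibility and
density. -/
theorem exists_small {W : Set ZFSet.{0}} (hW : CTM W) {δ : Ordinal.{0}} (hδ : IsOm1 W δ) {P R₀ D₀ : ZFSet.{0}}
    (hP : P ∈ W) (hR : R₀ ∈ W) (hD : D₀ ∈ W) (hDc : Cvr W δ.toZFSet D₀) (hne : ∃ p, p ∈ P)
    (hden : ∀ d ∈ D₀, d ⊆ P ∧ ∀ p ∈ P, ∃ q ∈ d, ZFSet.pair q p ∈ R₀) :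
    ∃ P' ∈ W, P' ⊆ P ∧ (∃ p, p ∈ P') ∧ Cvr W δ.toZFSet P' ∧
      (∀ p ∈ P', ∀ q ∈ P', (∃ z ∈ P, ZFSet.pair z p ∈ R₀ ∧ ZFSet.pair z q ∈ R₀) →
        ∃ z ∈ P', ZFSet.pair z p ∈ R₀ ∧ ZFSet.pair z q ∈ R₀) ∧
      ∀ d ∈ D₀, ∀ p ∈ P', ∃ q ∈ P', q ∈ d ∧ ZFSet.pair q p ∈ R₀ := by
  obtain ⟨Y, hY, hAY, hYf⟩ := j15_Y hW (hW.union_mem hP hD)
  have hPY : ∀ x ∈ P, x ∈ Y := fun x hx => hAY (ZFSet.mem_union.2 (Or.inl hx))
  have hDY : ∀ x ∈ D₀, x ∈ Y := fun x hx => hAY (ZFSet.mem_union.2 (Or.inr hx))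
  let c0 : W := ⟨natZ 0, hW.natZ_mem_N 0⟩
  let c1 : W := ⟨natZ 1, hW.natZ_mem_N 1⟩
  let PW : W := ⟨P, hP⟩
  let RW : W := ⟨R₀, hR⟩
  let Φ : W → W → Prop := fun y z =>
    (∃ p q u : W, y.1 = ZFSet.pair c0.1 u.1 ∧ u.1 = ZFSet.pair p.1 q.1 ∧ z.1 ∈ PW.1 ∧
      ZFSet.pair z.1 p.1 ∈ RW.1 ∧ ZFSet.pair z.1 q.1 ∈ RW.1) ∨
    (∃ d p u : W, y.1 = ZFSet.pair c1.1 u.1 ∧ u.1 = ZFSet.pair d.1 p.1 ∧ z.1 ∈ PW.1 ∧ z.1 ∈ d.1 ∧
      ZFSet.pair z.1 p.1 ∈ RW.1) ∨ (y.1 = ∅ ∧ z.1 ∈ PW.1)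
  have hΦ : hW.Dfn (fun v : Fin 2 → W => Φ (v 0) (v 1)) := by
    (repeat' first
        | exact DT.var _ | exact DT.last | exact DT.const _ | assumption
        | refine Dfn.pairMem ?_ ?_ ?_ | refine Dfn.isPair ?_ ?_ ?_ | refine Dfn.mem ?_ ?_
        | refine Dfn.eqv ?_ ?_ | refine Dfn.eq ?_ ?_ | refine Dfn.subset ?_ ?_
        | refine Dfn.isEmpty ?_ | refine Dfn.isTrans ?_ | refine Dfn.isOrd ?_
        | refine Dfn.isNat ?_ | refine Dfn.and ?_ ?_ | refine Dfn.or ?_ ?_ | refine Dfn.iff ?_ ?_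
        | refine Dfn.not ?_ | refine Dfn.imp ?_ ?_ | refine Dfn.all ?_ | refine Dfn.ex ?_
        | exact Dfn.false')
  obtain ⟨Z, hZ, hDZ, hZY, hZc, hZf, hcl⟩ := exists_hull_om1 hW hδ hΦ hY hYf hD hDY hDc
  have hZW : ∀ z ∈ Z, z ∈ W := fun z hz => hW.mem_of_mem hZ hz
  have hPW : ∀ z ∈ P, z ∈ W := fun z hz => hW.mem_of_mem hP hz
  have hpr : ∀ {x y}, x ∈ Z → y ∈ Z → ZFSet.pair x y ∈ Z := fun hx hy => j15_pair hZf hx hy
  obtain ⟨P', hP', hPm⟩ := hW.exists_sep (P := fun x => x.1 ∈ (⟨Z, hZ⟩ : W).1)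
    (Dfn.mem (DT.var _) (DT.const _)) hP
  have hPm : ∀ x, x ∈ P' ↔ x ∈ P ∧ x ∈ Z := fun x => by
    rw [hPm]
    exact and_congr_right fun h1 => ⟨fun h2 => h2.2, fun h2 => ⟨hPW x h1, h2⟩⟩
  have h01 : natZ.{0} 0 ≠ natZ 1 := fun h => absurd (natZ_inj.1 h) (by omega)
  refine ⟨P', hP', fun x hx => ((hPm x).1 hx).1, ?_, hZc.mono fun x hx => ((hPm x).1 hx).2, ?_, ?_⟩
  · obtain ⟨p, hp⟩ := hne
    have h0 : (∅ : ZFSet.{0}) ∈ Z := hZf ∅ ⟨∅, fun z => by simp⟩ (ZFSet.empty_subset _)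
    obtain ⟨z', hz', h1⟩ := hcl ⟨∅, hW.empty_mem⟩ ⟨p, hPW p hp⟩ h0 (hPY p hp) (Or.inr (Or.inr ⟨rfl, hp⟩))
    refine ⟨z'.1, (hPm _).2 ⟨?_, hz'⟩⟩
    rcases h1 with ⟨p', q', u', h2, h3, h4, h5⟩ | ⟨p', q', u', h2, h3, h4, h5⟩ | h1
    · exact h4
    · exact h4
    · exact h1.2
  · rintro p hp q hq ⟨z, hz, h1, h2⟩
    have hp1 := ((hPm p).1 hp)
    have hq1 := ((hPm q).1 hq)
    have hpq := hW.pair_mem (hPW p hp1.1) (hPW q hq1.1)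
    obtain ⟨z', hz', h3⟩ := hcl ⟨ZFSet.pair (natZ 0) (ZFSet.pair p q),
      hW.pair_mem (hW.natZ_mem_N 0) hpq⟩ ⟨z, hPW z hz⟩ (hpr (j15_nat hZf 0) (hpr hp1.2 hq1.2)) (hPY z hz)
      (Or.inl ⟨⟨p, hPW p hp1.1⟩, ⟨q, hPW q hq1.1⟩, ⟨_, hpq⟩, rfl, rfl, hz, h1, h2⟩)
    rcases h3 with ⟨p', q', u', h4, h5, h6, h7, h8⟩ | ⟨p', q', u', h4, h5, h6, h7⟩ | h4
    · have h4 : ZFSet.pair (natZ 0) (ZFSet.pair p q) = ZFSet.pair (natZ 0) u'.1 := h4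
      rw [ZFSet.pair_inj] at h4
      have h5 : ZFSet.pair p q = ZFSet.pair p'.1 q'.1 := h4.2.trans h5
      rw [ZFSet.pair_inj] at h5
      rw [← h5.1] at h7
      rw [← h5.2] at h8
      exact ⟨z'.1, (hPm _).2 ⟨h6, hz'⟩, h7, h8⟩
    · have h4 : ZFSet.pair (natZ 0) (ZFSet.pair p q) = ZFSet.pair (natZ 1) u'.1 := h4
      rw [ZFSet.pair_inj] at h4
      exact (h01 h4.1).elim
    · exact (j15_pair_ne h4.1).elim
  · intro d hd p hp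
    have hp1 := ((hPm p).1 hp)
    obtain ⟨hdP, hdd⟩ := hden d hd
    obtain ⟨z, hz, h1⟩ := hdd p hp1.1
    have hdW := hZW d (hDZ hd)
    have hpq := hW.pair_mem hdW (hPW p hp1.1)
    obtain ⟨z', hz', h3⟩ := hcl ⟨ZFSet.pair (natZ 1) (ZFSet.pair d p),
      hW.pair_mem (hW.natZ_mem_N 1) hpq⟩ ⟨z, hPW z (hdP hz)⟩ (hpr (j15_nat hZf 1) (hpr (hDZ hd) hp1.2))
      (hPY z (hdP hz)) (Or.inr (Or.inl ⟨⟨d, hdW⟩, ⟨p, hPW p hp1.1⟩, ⟨_, hpq⟩, rfl, rfl, hdP hz, hz, h1⟩))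
    rcases h3 with ⟨p', q', u', h4, h5, h6, h7, h8⟩ | ⟨p', q', u', h4, h5, h6, h7, h8⟩ | h4
    · have h4 : ZFSet.pair (natZ 1) (ZFSet.pair d p) = ZFSet.pair (natZ 0) u'.1 := h4
      rw [ZFSet.pair_inj] at h4
      exact (h01 h4.1.symm).elim
    · have h4 : ZFSet.pair (natZ 1) (ZFSet.pair d p) = ZFSet.pair (natZ 1) u'.1 := h4
      rw [ZFSet.pair_inj] at h4
      have h5 : ZFSet.pair d p = ZFSet.pair p'.1 q'.1 := h4.2.trans h5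
      rw [ZFSet.pair_inj] at h5
      rw [← h5.1] at h7
      rw [← h5.2] at h8
      exact ⟨z'.1, (hPm _).2 ⟨h6, hz'⟩, h7, h8⟩
    · exact (j15_pair_ne h4.1).elim

theorem ma_of_mac {W : Set ZFSet.{0}} (hW : CTM W) {δ : Ordinal.{0}} (hδ : IsOm1 W δ) (h : MAc W δ) : MA1 W δ := by
  intro P hP R₀ hR₀ hPO hne hccc D₀ hD₀ hDc hden
  obtain ⟨P', hP', hP'P, hne', hc', hcompat, hdens⟩ := exists_small hW hδ hP hR₀ hD₀ hDc hne hden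
  obtain ⟨π, hπ, hπo⟩ := cvr_onto hW hδ.mem hP' hc' hne'
  obtain ⟨f, hf, hfu, hfc⟩ := hDc
  have hδW : ∀ x ∈ δ.toZFSet, x ∈ W := fun x hx => hW.mem_of_mem hδ.mem hx
  have hP'W : ∀ x ∈ P', x ∈ W := fun x hx => hW.mem_of_mem hP' hx
  have hπf : Fn π δ.toZFSet P' := hπo.1
  have hm : ∀ x ∈ δ.toZFSet, ap π x ∈ P' := fun x hx => (hπf.ap_mem hx).1
  have hpi : ∀ x ∈ δ.toZFSet, ∀ a, ZFSet.pair x a ∈ π ↔ a = ap π x := by
    intro x hx a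
    constructor
    · intro h1; exact (hπf.ap_eq h1).symm
    · rintro rfl; exact (hπf.ap_mem hx).2
  have hsurj : ∀ p ∈ P', ∃ x ∈ δ.toZFSet, ap π x = p := by
    intro p hp
    obtain ⟨x, hx, h1⟩ := hπo.2 p hp
    exact ⟨x, hx, hπf.ap_eq h1⟩
  let πW : W := ⟨π, hπ⟩
  let RW : W := ⟨R₀, hR₀⟩
  let DW : W := ⟨D₀, hD₀⟩
  let fW : W := ⟨f, hf⟩
  -- the coded order
  obtain ⟨R, hR, hRs, hRm⟩ := j15_rel hW (F := fun z y => ∃ a b : W, ZFSet.pair z.1 a.1 ∈ πW.1 ∧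
    ZFSet.pair y.1 b.1 ∈ πW.1 ∧ ¬ ZFSet.pair a.1 b.1 ∈ RW.1) (by
    (repeat' first
        | exact DT.var _ | exact DT.last | exact DT.const _ | assumption
        | refine Dfn.pairMem ?_ ?_ ?_ | refine Dfn.isPair ?_ ?_ ?_ | refine Dfn.mem ?_ ?_
        | refine Dfn.eqv ?_ ?_ | refine Dfn.eq ?_ ?_ | refine Dfn.subset ?_ ?_
        | refine Dfn.isEmpty ?_ | refine Dfn.isTrans ?_ | refine Dfn.isOrd ?_
        | refine Dfn.isNat ?_ | refine Dfn.and ?_ ?_ | refine Dfn.or ?_ ?_ | refine Dfn.iff ?_ ?_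
        | refine Dfn.not ?_ | refine Dfn.imp ?_ ?_ | refine Dfn.all ?_ | refine Dfn.ex ?_
        | exact Dfn.false')) hδ.mem hδ.mem
  have hRi : ∀ x ∈ δ.toZFSet, ∀ y ∈ δ.toZFSet,
      (ZFSet.pair x y ∉ R ↔ ZFSet.pair (ap π x) (ap π y) ∈ R₀) := by
    intro x hx y hy
    rw [hRm ⟨x, hδW x hx⟩ ⟨y, hδW y hy⟩]
    constructor
    · intro h1
      by_contra h2
      exact h1 ⟨hx, hy, ⟨_, hP'W _ (hm x hx)⟩, ⟨_, hP'W _ (hm y hy)⟩, (hpi x hx _).2 rfl, (hpi y hy _).2 rfl, h2⟩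
    · rintro h1 ⟨_, _, a, b, h2, h3, h4⟩
      have h2 : a.1 = ap π x := (hpi x hx _).1 h2
      have h3 : b.1 = ap π y := (hpi y hy _).1 h3
      rw [h2, h3] at h4
      exact h4 h1
  -- the coded dense sets
  obtain ⟨D, hD, hDs, hDm⟩ := j15_rel hW (F := fun i x => ∃ d a : W, d.1 ∈ DW.1 ∧
    ZFSet.pair i.1 d.1 ∈ fW.1 ∧ ZFSet.pair x.1 a.1 ∈ πW.1 ∧ a.1 ∈ d.1) (by
    (repeat' first
        | exact DT.var _ | exact DT.last | exact DT.const _ | assumption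
        | refine Dfn.pairMem ?_ ?_ ?_ | refine Dfn.isPair ?_ ?_ ?_ | refine Dfn.mem ?_ ?_
        | refine Dfn.eqv ?_ ?_ | refine Dfn.eq ?_ ?_ | refine Dfn.subset ?_ ?_
        | refine Dfn.isEmpty ?_ | refine Dfn.isTrans ?_ | refine Dfn.isOrd ?_
        | refine Dfn.isNat ?_ | refine Dfn.and ?_ ?_ | refine Dfn.or ?_ ?_ | refine Dfn.iff ?_ ?_
        | refine Dfn.not ?_ | refine Dfn.imp ?_ ?_ | refine Dfn.all ?_ | refine Dfn.ex ?_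
        | exact Dfn.false')) hδ.mem hδ.mem
  have hDi : ∀ i ∈ δ.toZFSet, ∀ x ∈ δ.toZFSet, (ZFSet.pair i x ∈ D ↔
      ∃ d ∈ D₀, ZFSet.pair i d ∈ f ∧ ap π x ∈ d) := by
    intro i hi x hx
    rw [hDm ⟨i, hδW i hi⟩ ⟨x, hδW x hx⟩]
    constructor
    · rintro ⟨_, _, d, a, h1, h2, h3, h4⟩
      have h3 : a.1 = ap π x := (hpi x hx _).1 h3
      rw [h3] at h4
      exact ⟨d.1, h1, h2, h4⟩
    · rintro ⟨d, h1, h2, h3⟩
      exact ⟨hi, hx, ⟨d, hW.mem_of_mem hD₀ h1⟩, ⟨_, hP'W _ (hm x hx)⟩, h1, h2, (hpi x hx _).2 rfl, h3⟩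
  have hPC : PC W δ.toZFSet R := by
    refine ⟨⟨fun z hz => ?_, fun x hx y hy z hz h1 h2 => ?_⟩, fun A hA hAs hAa => ?_⟩
    · rw [hRi z hz z hz]
      exact hPO.refl _ (hP'P (hm z hz))
    · rw [hRi _ hx _ hy] at h1
      rw [hRi _ hy _ hz] at h2
      rw [hRi _ hx _ hz]
      exact hPO.trans _ _ _ h1 h2
    · obtain ⟨A', hA', hAm⟩ := hW.exists_sep (P := fun p => ∃ a : W, a.1 ∈ (⟨A, hA⟩ : W).1 ∧
        ZFSet.pair a.1 p.1 ∈ πW.1) (by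
        (repeat' first
        | exact DT.var _ | exact DT.last | exact DT.const _ | assumption
        | refine Dfn.pairMem ?_ ?_ ?_ | refine Dfn.isPair ?_ ?_ ?_ | refine Dfn.mem ?_ ?_
        | refine Dfn.eqv ?_ ?_ | refine Dfn.eq ?_ ?_ | refine Dfn.subset ?_ ?_
        | refine Dfn.isEmpty ?_ | refine Dfn.isTrans ?_ | refine Dfn.isOrd ?_
        | refine Dfn.isNat ?_ | refine Dfn.and ?_ ?_ | refine Dfn.or ?_ ?_ | refine Dfn.iff ?_ ?_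
        | refine Dfn.not ?_ | refine Dfn.imp ?_ ?_ | refine Dfn.all ?_ | refine Dfn.ex ?_
        | exact Dfn.false')) hP'
      have hAm2 : ∀ p, p ∈ A' → ∃ a ∈ A, ap π a = p := by
        intro p hp
        obtain ⟨_, _, a, h1, h2⟩ := (hAm p).1 hp
        exact ⟨a.1, h1, hπf.ap_eq h2⟩
      have hA'c : Ctb W A' := by
        refine hccc A' hA' (fun p hp => hP'P ((hAm p).1 hp).1) ?_
        intro p hp q hq hpq r hr h1 h2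
        obtain ⟨a, ha, rfl⟩ := hAm2 p hp
        obtain ⟨b, hb, rfl⟩ := hAm2 q hq
        have hab : a ≠ b := fun h3 => hpq (by rw [h3])
        obtain ⟨z', hz', h3, h4⟩ := hcompat _ (hm a (hAs ha)) _ (hm b (hAs hb)) ⟨r, hr, h1, h2⟩
        obtain ⟨z, hz, rfl⟩ := hsurj z' hz'
        exact (hRi z hz b (hAs hb)).2 h4 (hAa a ha b hb hab z hz ((hRi z hz a (hAs ha)).2 h3))
      refine Ctb.image hW hA'c hA' (F := fun p a => a.1 ∈ (⟨A, hA⟩ : W).1 ∧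
        ZFSet.pair a.1 p.1 ∈ πW.1) (by
        (repeat' first
        | exact DT.var _ | exact DT.last | exact DT.const _ | assumption
        | refine Dfn.pairMem ?_ ?_ ?_ | refine Dfn.isPair ?_ ?_ ?_ | refine Dfn.mem ?_ ?_
        | refine Dfn.eqv ?_ ?_ | refine Dfn.eq ?_ ?_ | refine Dfn.subset ?_ ?_
        | refine Dfn.isEmpty ?_ | refine Dfn.isTrans ?_ | refine Dfn.isOrd ?_
        | refine Dfn.isNat ?_ | refine Dfn.and ?_ ?_ | refine Dfn.or ?_ ?_ | refine Dfn.iff ?_ ?_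
        | refine Dfn.not ?_ | refine Dfn.imp ?_ ?_ | refine Dfn.all ?_ | refine Dfn.ex ?_
        | exact Dfn.false')) ?_ ?_
      · rintro p hp a b ⟨h1, h2⟩ ⟨h3, h4⟩
        by_contra hab
        have h1 : a.1 ∈ A := h1
        have h3 : b.1 ∈ A := h3
        have h5 := hAa a.1 h1 b.1 h3 (fun h => hab (Subtype.ext h)) a.1 (hAs h1)
          ((hRi _ (hAs h1) _ (hAs h1)).2 (hPO.refl _ (hP'P (hm _ (hAs h1)))))
        have h6 : ap π a.1 = ap π b.1 := (hπf.ap_eq h2).trans (hπf.ap_eq h4).symm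
        refine (hRi _ (hAs h1) _ (hAs h3)).2 ?_ h5
        rw [← h6]
        exact hPO.refl _ (hP'P (hm _ (hAs h1)))
      · intro a ha
        have haW := hδW a (hAs ha)
        refine ⟨⟨ap π a, hP'W _ (hm a (hAs ha))⟩, ⟨a, haW⟩, ?_, rfl, ha, (hπf.ap_mem (hAs ha)).2⟩
        exact (hAm _).2 ⟨hm a (hAs ha), hP'W _ (hm a (hAs ha)), ⟨a, haW⟩, ha, (hπf.ap_mem (hAs ha)).2⟩
  have hDd : ∀ i ∈ δ.toZFSet, ∀ d ∈ D₀, ZFSet.pair i d ∈ f →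
      ∀ y ∈ δ.toZFSet, ∃ x ∈ δ.toZFSet, ZFSet.pair i x ∈ D ∧ ZFSet.pair x y ∉ R := by
    intro i hi d hd hid y hy
    obtain ⟨q, hq, h1, h2⟩ := hdens d hd _ (hm y hy)
    obtain ⟨x, hx, rfl⟩ := hsurj q hq
    exact ⟨x, hx, (hDi i hi x hx).2 ⟨d, hd, hid, h1⟩, (hRi x hx y hy).2 h2⟩
  obtain ⟨g, hg, hgs, ⟨x0, hx0⟩, hgd, hgm⟩ := h R hR hRs hPC D hD hDs (by
    rintro i hi ⟨y0, hy0⟩ y hy
    have h1 := hDs hy0
    rw [ZFSet.pair_mem_prod] at h1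
    obtain ⟨d, hd, hid, -⟩ := (hDi i hi y0 h1.2).1 hy0
    exact hDd i hi d hd hid y hy)
  obtain ⟨F, hF, hFm⟩ := hW.exists_sep (P := fun q => ∃ x a : W, x.1 ∈ (⟨g, hg⟩ : W).1 ∧
    ZFSet.pair x.1 a.1 ∈ πW.1 ∧ ZFSet.pair a.1 q.1 ∈ RW.1) (by
    (repeat' first
        | exact DT.var _ | exact DT.last | exact DT.const _ | assumption
        | refine Dfn.pairMem ?_ ?_ ?_ | refine Dfn.isPair ?_ ?_ ?_ | refine Dfn.mem ?_ ?_
        | refine Dfn.eqv ?_ ?_ | refine Dfn.eq ?_ ?_ | refine Dfn.subset ?_ ?_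
        | refine Dfn.isEmpty ?_ | refine Dfn.isTrans ?_ | refine Dfn.isOrd ?_
        | refine Dfn.isNat ?_ | refine Dfn.and ?_ ?_ | refine Dfn.or ?_ ?_ | refine Dfn.iff ?_ ?_
        | refine Dfn.not ?_ | refine Dfn.imp ?_ ?_ | refine Dfn.all ?_ | refine Dfn.ex ?_
        | exact Dfn.false')) hP
  have hFi : ∀ q, q ∈ F ↔ q ∈ P ∧ ∃ x ∈ g, ZFSet.pair (ap π x) q ∈ R₀ := by
    intro q
    rw [hFm]
    refine and_congr_right fun hq => ?_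
    constructor
    · rintro ⟨_, x, a, h1, h2, h3⟩
      have h2 : a.1 = ap π x.1 := (hpi x.1 (hgs h1) _).1 h2
      rw [h2] at h3
      exact ⟨x.1, h1, h3⟩
    · rintro ⟨x, h1, h2⟩
      exact ⟨hW.mem_of_mem hP hq, ⟨x, hW.mem_of_mem hg h1⟩, ⟨_, hP'W _ (hm x (hgs h1))⟩, h1,
        (hpi x (hgs h1) _).2 rfl, h2⟩
  have hgF : ∀ x ∈ g, ap π x ∈ F := fun x hx =>
    (hFi _).2 ⟨hP'P (hm x (hgs hx)), x, hx, hPO.refl _ (hP'P (hm x (hgs hx)))⟩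
  refine ⟨F, hF, fun q hq => ((hFi q).1 hq).1, ⟨_, hgF x0 hx0⟩, ?_, ?_, ?_⟩
  · intro p hp q hq hpq
    obtain ⟨_, x, hx, h1⟩ := (hFi p).1 hp
    exact (hFi q).2 ⟨hq, x, hx, hPO.trans _ _ _ h1 hpq⟩
  · intro p hp q hq
    obtain ⟨_, x, hx, h1⟩ := (hFi p).1 hp
    obtain ⟨_, y, hy, h2⟩ := (hFi q).1 hq
    obtain ⟨z, hz, h3, h4⟩ := hgd x hx y hy
    rw [hRi z (hgs hz) x (hgs hx)] at h3
    rw [hRi z (hgs hz) y (hgs hy)] at h4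
    exact ⟨_, hgF z hz, hPO.trans _ _ _ h3 h1, hPO.trans _ _ _ h4 h2⟩
  · intro d hd
    obtain ⟨i, hi, hid⟩ := hfc d hd
    obtain ⟨x1, hx1, h1, -⟩ := hDd i hi d hd hid x0 (hgs hx0)
    obtain ⟨x, hx, h2⟩ := hgm i hi ⟨x1, h1⟩
    obtain ⟨d', hd', hid', h3⟩ := (hDi i hi x (hgs hx)).1 h2
    have h4 : d' = d := hfu i hi d' d hid' hid
    rw [h4] at h3
    exact ⟨_, h3, hgF x hx⟩

end Pool.Agent.H7.IG
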