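import Pool.Agent.H19.IG.J2
import Pool.Agent.H7.IG.Tk2

/-!
# IG, Part 2: the recursion that defines the iteration

`qa 𝓕 g α`: the set of all `p ∈ 𝓕` with `p = ∅` or `p ∈ g(γ)` for some `γ ∈ α`; here `g(γ) = Q_{γ+1}`, so `qa 𝓕 g α = Q_α`.
`IsNx N δ 𝓕 B q α y`: `y = nx δ 𝓕 q b α` if `b = B(α)` is accepted, `y = nx δ 𝓕 q ∅ α` otherwise.
`exists_recQ`: `exists_rec` (Tk2) with `Φ g y :↔ ∃ α : N, α is an ordinal, FnD g α, IsNx N δ 𝓕 B (qa 𝓕 g α) α y` (`α` is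
determined by `g`: the domain; `qa 𝓕 (rs g α) α = qa 𝓕 g α`). Definability: `ud_Acc`, `ud_nx`, `ud_FnD` and the block; write
`IsNx` with quantifiers over `N`: `∃ q : N, q = qa 𝓕 g α ∧ ∃ b : N, ...`.
-/

set_option autoImplicit false
set_option linter.unusedVariables false
set_option linter.unusedSectionVars false
set_option linter.unusedSimpArgs false
set_option linter.unusedTactic false
set_option linter.unreachableTactic false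

namespace Pool.Agent.H7.IG

open Pool.Agent.H17.Omega Pool.Agent.H17.Omega.CTM Pool.Agent.H52.GX Pool.Agent.H52.GC

/-- `Q_α`, where `g(γ) = Q_{γ+1}`. -/
noncomputable def qa (𝓕 g α : ZFSet.{0}) : ZFSet.{0} :=
  ZFSet.sep (fun p => p = ∅ ∨ ∃ γ ∈ α, ∃ y, ZFSet.pair γ y ∈ g ∧ p ∈ y) 𝓕

theorem mem_qa {𝓕 g α p : ZFSet.{0}} :
    p ∈ qa 𝓕 g α ↔ p ∈ 𝓕 ∧ (p = ∅ ∨ ∃ γ ∈ α, ∃ y, ZFSet.pair γ y ∈ g ∧ p ∈ y) := ZFSet.mem_sep

/-- The next step, following the bookkeeping function `B`. -/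
def IsNx (N : Set ZFSet.{0}) (δ 𝓕 B q α y : ZFSet.{0}) : Prop :=
  ∃ b ∈ N, ZFSet.pair α b ∈ B ∧
    ((Acc N δ 𝓕 q b α ∧ y = nx δ 𝓕 q b α) ∨ (¬ Acc N δ 𝓕 q b α ∧ y = nx δ 𝓕 q ∅ α))

/-- The clause that defines `qa`, with quantifiers over `N`. -/
def J16_cl {N : Set ZFSet.{0}} (F g α p : N) : Prop :=
  p.1 ∈ F.1 ∧ (p.1 = ∅ ∨ ∃ γ : N, γ.1 ∈ α.1 ∧ ∃ y : N, ZFSet.pair γ.1 y.1 ∈ g.1 ∧ p.1 ∈ y.1)

theorem J16_cl_iff {N : Set ZFSet.{0}} (hN : CTM N) {F g α p : N} : J16_cl F g α p ↔ p.1 ∈ qa F.1 g.1 α.1 := by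
  rw [mem_qa]
  refine and_congr_right fun _ => or_congr_right ?_
  constructor
  · rintro ⟨γ, hγ, y, hy, hp⟩
    exact ⟨γ.1, hγ, y.1, hy, hp⟩
  · rintro ⟨γ, hγ, y, hy, hp⟩
    have h := hN.of_pair_mem (hN.mem_of_mem g.2 hy)
    exact ⟨⟨γ, h.1⟩, hγ, ⟨y, h.2⟩, hy, hp⟩

theorem qa_mem {N : Set ZFSet.{0}} (hN : CTM N) {𝓕 g α : ZFSet.{0}} (hF : 𝓕 ∈ N) (hg : g ∈ N) (hα : α ∈ N) :
    qa 𝓕 g α ∈ N := by
  obtain ⟨q, hq, hq'⟩ := hN.exists_sep (P := fun p => J16_cl ⟨𝓕, hF⟩ ⟨g, hg⟩ ⟨α, hα⟩ p) (by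
    unfold J16_cl
    (repeat' first
      | exact DT.var _ | exact DT.last | exact DT.const _ | assumption
      | refine Dfn.pairMem ?_ ?_ ?_ | refine Dfn.isPair ?_ ?_ ?_ | refine Dfn.mem ?_ ?_
      | refine Dfn.eqv ?_ ?_ | refine Dfn.eq ?_ ?_ | refine Dfn.subset ?_ ?_
      | refine Dfn.isEmpty ?_ | refine Dfn.isTrans ?_ | refine Dfn.isOrd ?_ | refine Dfn.isNat ?_
      | refine Dfn.isUpair ?_ ?_ ?_ | refine Dfn.isInsert ?_ ?_ ?_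
      | refine Dfn.and ?_ ?_ | refine Dfn.or ?_ ?_ | refine Dfn.iff ?_ ?_ | refine Dfn.not ?_
      | refine Dfn.imp ?_ ?_ | refine Dfn.all ?_ | refine Dfn.ex ?_ | exact Dfn.false'
      | refine Dfn.ballZ ?_ ?_ | refine Dfn.bexZ ?_ ?_ | exact Dfn.const _)) hF
  have e : q = qa 𝓕 g α := by
    ext p
    rw [hq']
    constructor
    · rintro ⟨_, h1, h2⟩
      exact (J16_cl_iff hN).1 h2
    · intro h
      have hpF : p ∈ 𝓕 := (mem_qa.1 h).1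
      exact ⟨hpF, hN.mem_of_mem hF hpF, (J16_cl_iff hN).2 h⟩
  exact e ▸ hq

theorem J16_dom {g A A' : ZFSet.{0}} (h : FnD g A) (h' : FnD g A') : A = A' := by
  have key : ∀ {A A' : ZFSet.{0}}, FnD g A → FnD g A' → ∀ z ∈ A, z ∈ A' := by
    intro A A' h h' z hz
    obtain ⟨y, hy⟩ := h.tot z hz
    obtain ⟨x, hx, y', he⟩ := h'.sub _ hy
    rw [ZFSet.pair_inj] at he
    exact he.1 ▸ hx
  ext z
  exact ⟨key h h' z, key h' h z⟩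

/-- The step function of the recursion. -/
def J16_Phi (N : Set ZFSet.{0}) (δ F B : N) (g y : N) : Prop :=
  ∃ α : N, FnD g.1 α.1 ∧ ∃ q : N, (∀ p : N, p.1 ∈ q.1 ↔ J16_cl F g α p) ∧ ∃ b : N,
    ZFSet.pair α.1 b.1 ∈ B.1 ∧
    ((Acc N δ.1 F.1 q.1 b.1 α.1 ∧ y.1 = nx δ.1 F.1 q.1 b.1 α.1) ∨
      (¬ Acc N δ.1 F.1 q.1 b.1 α.1 ∧ ∃ e : N, e.1 = ∅ ∧ y.1 = nx δ.1 F.1 q.1 e.1 α.1))

theorem J16_Phi_dfn {N : Set ZFSet.{0}} (hN : CTM N) (δ F B : N) :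
    hN.Dfn (fun v : Fin 2 → N => J16_Phi N δ F B (v 0) (v 1)) := by
  have hc : N ∈ CtmC := hN
  unfold J16_Phi J16_cl
  refine Dfn.ex (Dfn.and ?_ (Dfn.ex (Dfn.and ?_ (Dfn.ex (Dfn.and ?_ (Dfn.or (Dfn.and ?_ ?_)
    (Dfn.and (Dfn.not ?_) (Dfn.ex (Dfn.and ?_ ?_)))))))))
  · exact UD.d2 (P := fun N a b => FnD a.1 b.1) ud_FnD hc (DT.var _) (DT.var _)
  · (repeat' first
      | exact DT.var _ | exact DT.last | exact DT.const _ | assumption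
      | refine Dfn.pairMem ?_ ?_ ?_ | refine Dfn.isPair ?_ ?_ ?_ | refine Dfn.mem ?_ ?_
      | refine Dfn.eqv ?_ ?_ | refine Dfn.eq ?_ ?_ | refine Dfn.subset ?_ ?_
      | refine Dfn.isEmpty ?_ | refine Dfn.isTrans ?_ | refine Dfn.isOrd ?_ | refine Dfn.isNat ?_
      | refine Dfn.isUpair ?_ ?_ ?_ | refine Dfn.isInsert ?_ ?_ ?_
      | refine Dfn.and ?_ ?_ | refine Dfn.or ?_ ?_ | refine Dfn.iff ?_ ?_ | refine Dfn.not ?_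
      | refine Dfn.imp ?_ ?_ | refine Dfn.all ?_ | refine Dfn.ex ?_ | exact Dfn.false'
      | refine Dfn.ballZ ?_ ?_ | refine Dfn.bexZ ?_ ?_ | exact Dfn.const _)
  · (repeat' first
      | exact DT.var _ | exact DT.last | exact DT.const _ | assumption
      | refine Dfn.pairMem ?_ ?_ ?_ | refine Dfn.isPair ?_ ?_ ?_ | refine Dfn.mem ?_ ?_
      | refine Dfn.eqv ?_ ?_ | refine Dfn.eq ?_ ?_ | refine Dfn.subset ?_ ?_
      | refine Dfn.isEmpty ?_ | refine Dfn.isTrans ?_ | refine Dfn.isOrd ?_ | refine Dfn.isNat ?_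
      | refine Dfn.isUpair ?_ ?_ ?_ | refine Dfn.isInsert ?_ ?_ ?_
      | refine Dfn.and ?_ ?_ | refine Dfn.or ?_ ?_ | refine Dfn.iff ?_ ?_ | refine Dfn.not ?_
      | refine Dfn.imp ?_ ?_ | refine Dfn.all ?_ | refine Dfn.ex ?_ | exact Dfn.false'
      | refine Dfn.ballZ ?_ ?_ | refine Dfn.bexZ ?_ ?_ | exact Dfn.const _)
  · exact UD.d5 (P := fun N a b c d e => Acc N a.1 b.1 c.1 d.1 e.1) ud_Acc hc (DT.const _) (DT.const _)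
      (DT.var _) (DT.var _) (DT.var _)
  · exact UD.d6 (P := fun N a b c d e f => f.1 = nx a.1 b.1 c.1 d.1 e.1) ud_nx hc (DT.const _) (DT.const _)
      (DT.var _) (DT.var _) (DT.var _) (DT.var _)
  · exact UD.d5 (P := fun N a b c d e => Acc N a.1 b.1 c.1 d.1 e.1) ud_Acc hc (DT.const _) (DT.const _)
      (DT.var _) (DT.var _) (DT.var _)
  · (repeat' first
      | exact DT.var _ | exact DT.last | exact DT.const _ | assumption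
      | refine Dfn.pairMem ?_ ?_ ?_ | refine Dfn.isPair ?_ ?_ ?_ | refine Dfn.mem ?_ ?_
      | refine Dfn.eqv ?_ ?_ | refine Dfn.eq ?_ ?_ | refine Dfn.subset ?_ ?_
      | refine Dfn.isEmpty ?_ | refine Dfn.isTrans ?_ | refine Dfn.isOrd ?_ | refine Dfn.isNat ?_
      | refine Dfn.isUpair ?_ ?_ ?_ | refine Dfn.isInsert ?_ ?_ ?_
      | refine Dfn.and ?_ ?_ | refine Dfn.or ?_ ?_ | refine Dfn.iff ?_ ?_ | refine Dfn.not ?_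
      | refine Dfn.imp ?_ ?_ | refine Dfn.all ?_ | refine Dfn.ex ?_ | exact Dfn.false'
      | refine Dfn.ballZ ?_ ?_ | refine Dfn.bexZ ?_ ?_ | exact Dfn.const _)
  · exact UD.d6 (P := fun N a b c d e f => f.1 = nx a.1 b.1 c.1 d.1 e.1) ud_nx hc (DT.const _) (DT.const _)
      (DT.var _) (DT.var _) (DT.var _) (DT.var _)

theorem J16_Phi_iff {N : Set ZFSet.{0}} (hN : CTM N) {δ F B g y α : N} (hg : FnD g.1 α.1) :
    J16_Phi N δ F B g y ↔ IsNx N δ.1 F.1 B.1 (qa F.1 g.1 α.1) α.1 y.1 := by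
  have hqa : ∀ q : N, (∀ p : N, p.1 ∈ q.1 ↔ J16_cl F g α p) ↔ q.1 = qa F.1 g.1 α.1 := by
    intro q
    constructor
    · intro h
      exact hN.ext' q.2 (qa_mem hN F.2 g.2 α.2) fun z => (h z).trans (J16_cl_iff hN)
    · intro h p
      rw [h]
      exact (J16_cl_iff hN).symm
  constructor
  · rintro ⟨α', hα', q, hq, b, hb, h⟩
    have e : α' = α := Subtype.ext (J16_dom hα' hg)
    subst e
    have hq := (hqa q).1 hq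
    rw [hq] at h
    refine ⟨b.1, b.2, hb, ?_⟩
    rcases h with h | ⟨h, e, he, h'⟩
    · exact Or.inl h
    · rw [he] at h'
      exact Or.inr ⟨h, h'⟩
  · rintro ⟨b, hbN, hb, h⟩
    refine ⟨α, hg, ⟨_, qa_mem hN F.2 g.2 α.2⟩, (hqa _).2 rfl, ⟨b, hbN⟩, hb, ?_⟩
    rcases h with h | ⟨h, h'⟩
    · exact Or.inl h
    · exact Or.inr ⟨h, ⟨∅, hN.empty_mem⟩, rfl, h'⟩

theorem exists_recQ {N : Set ZFSet.{0}} (hN : CTM N) {δ Λ : Ordinal.{0}} {𝓕 B : ZFSet.{0}} (hδ : δ.toZFSet ∈ N)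
    (hΛ : Λ.toZFSet ∈ N) (hF : 𝓕 ∈ N) (hB : B ∈ N) (hBf : FnD B Λ.toZFSet) :
    ∃ g ∈ N, FnD g Λ.toZFSet ∧ ∀ α < Λ, ∀ y, ZFSet.pair α.toZFSet y ∈ g →
      IsNx N δ.toZFSet 𝓕 B (qa 𝓕 g α.toZFSet) α.toZFSet y := by
  have hαM : ∀ {α : Ordinal.{0}}, α < Λ → α.toZFSet ∈ N := fun h => hN.toZFSet_mem_of_le h.le hΛ
  obtain ⟨g, hg, hg'⟩ := exists_rec hN (Φ := J16_Phi N ⟨_, hδ⟩ ⟨_, hF⟩ ⟨_, hB⟩) (J16_Phi_dfn hN _ _ _) hΛ (by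
    intro α hα g hg _
    obtain ⟨b, hb⟩ := hBf.tot α.toZFSet (Ordinal.toZFSet_mem_toZFSet_iff.2 hα)
    have hbN : b ∈ N := (hN.of_pair_mem (hN.mem_of_mem hB hb)).2
    have hiff := fun y => J16_Phi_iff hN (δ := ⟨_, hδ⟩) (F := ⟨_, hF⟩) (B := ⟨_, hB⟩) (g := g) (y := y)
      (α := ⟨_, hαM hα⟩) hg
    have hqN := qa_mem hN hF g.2 (hαM hα)
    by_cases hacc : Acc N δ.toZFSet 𝓕 (qa 𝓕 g.1 α.toZFSet) b α.toZFSet
    · refine ⟨⟨_, nx_mem hN hδ hF hqN hbN (hαM hα)⟩, (hiff _).2 ⟨b, hbN, hb, Or.inl ⟨hacc, rfl⟩⟩, ?_⟩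
      intro y' hy'
      obtain ⟨b', _, hb', h⟩ := (hiff _).1 hy'
      have e := hBf.uni _ _ _ hb' hb
      subst e
      rcases h with ⟨_, h⟩ | ⟨h, _⟩
      · exact Subtype.ext h
      · exact absurd hacc h
    · refine ⟨⟨_, nx_mem hN hδ hF hqN hN.empty_mem (hαM hα)⟩,
        (hiff _).2 ⟨b, hbN, hb, Or.inr ⟨hacc, rfl⟩⟩, ?_⟩
      intro y' hy'
      obtain ⟨b', _, hb', h⟩ := (hiff _).1 hy'
      have e := hBf.uni _ _ _ hb' hb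
      subst e
      rcases h with ⟨h, _⟩ | ⟨_, h⟩
      · exact absurd h hacc
      · exact Subtype.ext h)
  refine ⟨g.1, g.2, hg, fun α hα y hy => ?_⟩
  have hyN : y ∈ N := (hN.of_pair_mem (hN.mem_of_mem g.2 hy)).2
  have hrN : rs g.1 α.toZFSet ∈ N := rs_mem hN g.2 (hαM hα)
  have hrs : FnD (rs g.1 α.toZFSet) α.toZFSet := by
    refine ⟨fun z hz => ?_, fun x hx => ?_, fun x y y' h1 h2 => ?_⟩
    · rw [rs, ZFSet.mem_sep] at hz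
      exact hz.2
    · obtain ⟨ξ, hξ, rfl⟩ := Ordinal.mem_toZFSet_iff.1 hx
      obtain ⟨y, hy⟩ := hg.tot ξ.toZFSet (Ordinal.toZFSet_mem_toZFSet_iff.2 (hξ.trans hα))
      exact ⟨y, pair_mem_rs.2 ⟨hx, hy⟩⟩
    · exact hg.uni _ _ _ (pair_mem_rs.1 h1).2 (pair_mem_rs.1 h2).2
  have h1 := (J16_Phi_iff hN (α := ⟨_, hαM hα⟩) hrs).1 (hg' α hα ⟨_, hrN⟩ ⟨y, hyN⟩ rfl hy)
  have h2 : qa 𝓕 (rs g.1 α.toZFSet) α.toZFSet = qa 𝓕 g.1 α.toZFSet := by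
    ext p
    rw [mem_qa, mem_qa]
    refine and_congr_right fun _ => or_congr_right ?_
    constructor
    · rintro ⟨γ, hγ, y, hy, hp⟩
      exact ⟨γ, hγ, y, (pair_mem_rs.1 hy).2, hp⟩
    · rintro ⟨γ, hγ, y, hy, hp⟩
      exact ⟨γ, hγ, y, pair_mem_rs.2 ⟨hγ, hy⟩, hp⟩
  rw [← h2]
  exact h1

end Pool.Agent.H7.IG
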