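import Pool.Agent.H19.IG.J16
import Pool.Agent.H19.IG.J7

/-!
# IG, Part 2: from the recursion to the iteration

`g` as in `exists_recQ`. `Q := qa 𝓕 g Λ`, `𝓡 := {((β, z), (y, p)) : β < Λ, b = B(β) is accepted for Q_β := qa 𝓕 g β, ((z, y), p) ∈ b}`
(by separation from `(Λ × δ) × (δ × 𝓕)`, `ud_Acc`). Claims:
(i) `p ∈ qa 𝓕 g α` implies `Dm δ p α` (induction on `α ≤ Λ`: `p ∈ g(γ)`, `γ < α`: `p = p₀ ∪ (coordinates at γ)` with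
    `p₀ ∈ qa 𝓕 g γ`); (ii) `qa` is increasing; (iii) `p ∈ qa 𝓕 g γ → p ∈ g(γ)` (`p₀ := p`, `LbS` is vacuous, `0 < δ`; `𝓕` contains `p`);
(iv) `qa 𝓕 g β = lw δ Q β` for `β ≤ Λ`: if `p ∈ Q`, `Dm δ p β`, let `γ` be least with `p ∈ g(γ)` (if `p ≠ ∅`); if `γ ≥ β` then `p₀ = p` because
    `p` has no coordinate `γ`, so `p ∈ qa 𝓕 g γ`, and `p ∈ g(γ')` for some `γ' < γ`: contradiction.
(v) `q_iff`. (→) By induction on `α`: for `p ∈ qa 𝓕 g α` and a coordinate `β` of `p`: `p ∈ g(γ)`, `γ < α`, `p₀ ∈ qa 𝓕 g γ`. If `β = γ` the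
    condition of `InSt` is the one of `q_iff` (with `q = lw δ Q β`, `LbF` and `LbS` agree because the `p'` in names are in `Q_β`). If
    `β < γ` use the induction hypothesis for `p₀` (the coordinates below `γ` of `p` and `p₀` are the same).
    (←) `p ∈ 𝓕` is finite. If `p = ∅` fine. Otherwise let `β` be the largest coordinate of `p`; `p₀ ∈ Q`, `Dm p₀ β`, so `p₀ ∈ qa 𝓕 g β`, and
    `p = p₀ ∪ (coordinates at β)`; so `p ∈ g(β)`.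
-/

set_option autoImplicit false
set_option linter.unusedVariables false
set_option linter.unusedSectionVars false
set_option linter.unusedSimpArgs false
set_option linter.unusedTactic false
set_option linter.unreachableTactic false

namespace Pool.Agent.H7.IG

open Pool.Agent.H17.Omega Pool.Agent.H17.Omega.CTM Pool.Agent.H52.GX Pool.Agent.H52.GC

/-- The predicate that defines `𝓡`. -/
def j17P (N : Set ZFSet.{0}) (δ 𝓕 B g w : ZFSet.{0}) : Prop :=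
  ∃ β : N, ∃ z : N, ∃ y : N, ∃ p : N, ∃ b : N, ∃ q : N, (∃ s : N, ∃ t : N, s.1 = ZFSet.pair β.1 z.1 ∧ t.1 = ZFSet.pair y.1 p.1 ∧
    w = ZFSet.pair s.1 t.1) ∧ (∀ x : N, x.1 ∈ q.1 ↔ (x.1 ∈ 𝓕 ∧ (x.1 = ∅ ∨ ∃ γ ∈ β.1, ∃ y : N, ZFSet.pair γ y.1 ∈ g ∧
      x.1 ∈ y.1))) ∧ ZFSet.pair β.1 b.1 ∈ B ∧ Acc N δ 𝓕 q.1 b.1 β.1 ∧ ZFSet.pair (ZFSet.pair z.1 y.1) p.1 ∈ b.1

theorem j17_qa {N : Set ZFSet.{0}} (hN : CTM N) {𝓕 g β : ZFSet.{0}} (hF : 𝓕 ∈ N) (hg : g ∈ N) (hβ : β ∈ N)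
    {q : ZFSet.{0}} (hq : q ∈ N) : (∀ x : N, x.1 ∈ q ↔ (x.1 ∈ 𝓕 ∧ (x.1 = ∅ ∨ ∃ γ ∈ β, ∃ y : N,
      ZFSet.pair γ y.1 ∈ g ∧ x.1 ∈ y.1))) ↔ q = qa 𝓕 g β := by
  constructor
  · intro h
    ext x
    rw [mem_qa]
    constructor
    · intro hx
      obtain ⟨h1, h2⟩ := (h ⟨x, hN.mem_of_mem hq hx⟩).1 hx
      refine ⟨h1, h2.imp id ?_⟩
      rintro ⟨γ, hγ, y, hy⟩
      exact ⟨γ, hγ, y.1, hy⟩
    · rintro ⟨h1, h2⟩
      refine (h ⟨x, hN.mem_of_mem hF h1⟩).2 ⟨h1, h2.imp id ?_⟩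
      rintro ⟨γ, hγ, y, hy, h3⟩
      exact ⟨γ, hγ, ⟨y, (hN.of_pair_mem (hN.mem_of_mem hg hy)).2⟩, hy, h3⟩
  · rintro rfl x
    rw [mem_qa]
    refine and_congr Iff.rfl (or_congr Iff.rfl ?_)
    constructor
    · rintro ⟨γ, hγ, y, hy, h3⟩
      exact ⟨γ, hγ, ⟨y, (hN.of_pair_mem (hN.mem_of_mem hg hy)).2⟩, hy, h3⟩
    · rintro ⟨γ, hγ, y, hy⟩
      exact ⟨γ, hγ, y.1, hy⟩

theorem j17P_iff {N : Set ZFSet.{0}} (hN : CTM N) {δ 𝓕 B g w : ZFSet.{0}} (hF : 𝓕 ∈ N) (hg : g ∈ N) (hw : w ∈ N)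
    (hB : B ∈ N) :
    j17P N δ 𝓕 B g w ↔ ∃ β z y p b, w = ZFSet.pair (ZFSet.pair β z) (ZFSet.pair y p) ∧ ZFSet.pair β b ∈ B ∧
      Acc N δ 𝓕 (qa 𝓕 g β) b β ∧ ZFSet.pair (ZFSet.pair z y) p ∈ b := by
  constructor
  · rintro ⟨β, z, y, p, b, q, ⟨s, t, h1, h2, h3⟩, h4, h5, h6, h7⟩
    have h8 := (j17_qa hN hF hg β.2 q.2).1 h4
    rw [h8] at h6
    rw [h1, h2] at h3
    exact ⟨β.1, z.1, y.1, p.1, b.1, h3, h5, h6, h7⟩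
  · rintro ⟨β, z, y, p, b, h1, h2, h3, h4⟩
    rw [h1] at hw
    obtain ⟨h5, h6⟩ := hN.of_pair_mem hw
    obtain ⟨hβ, hz⟩ := hN.of_pair_mem h5
    obtain ⟨hy, hp⟩ := hN.of_pair_mem h6
    have hb := (hN.of_pair_mem (hN.mem_of_mem hB h2)).2
    have hq := qa_mem hN hF hg hβ
    exact ⟨⟨β, hβ⟩, ⟨z, hz⟩, ⟨y, hy⟩, ⟨p, hp⟩, ⟨b, hb⟩, ⟨_, hq⟩, ⟨⟨_, h5⟩, ⟨_, h6⟩, rfl, rfl, h1⟩,
      (j17_qa hN hF hg hβ hq).2 rfl, h2, h3, h4⟩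

theorem ud_j17P : UD CtmC (fun N (v : Fin 5 → N) => j17P N (v 0).1 (v 1).1 (v 2).1 (v 3).1 (v 4).1) := by
  unfold j17P
  (repeat' first
      | exact UT.var _ | exact UT.last | assumption
      | exact UD.sub5 (P := fun N a b c d e => Acc N a.1 b.1 c.1 d.1 e.1) ud_Acc (UT.var _) (UT.var _) (UT.var _) (UT.var _) (UT.var _)
      | exact UD.sub4 (P := fun N a b c d => ZFSet.pair (ZFSet.pair a.1 b.1) c.1 ∈ d.1) j2_trm (UT.var _) (UT.var _) (UT.var _) (UT.var _)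
      | refine UD.pairMem ?_ ?_ ?_ | refine UD.isPair ?_ ?_ ?_ | refine UD.mem ?_ ?_
      | refine UD.eqv ?_ ?_ | refine UD.eq ?_ ?_ | refine UD.subset ?_ ?_
      | refine UD.isEmpty ?_ | refine UD.isTrans ?_ | refine UD.isOrd ?_ | refine UD.isNat ?_
      | refine UD.isUpair ?_ ?_ ?_ | refine UD.isInsert ?_ ?_ ?_ | refine UD.isUnion ?_ ?_ ?_
      | refine UD.and ?_ ?_ | refine UD.or ?_ ?_ | refine UD.iff ?_ ?_ | refine UD.not ?_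
      | refine UD.imp ?_ ?_ | refine UD.all ?_ | refine UD.ex ?_ | exact UD.false' | exact UD.true'
      | refine UD.ball ?_ ?_ | refine UD.bex ?_ ?_)

theorem j17_R {N : Set ZFSet.{0}} (hN : CTM N) {δ Λ 𝓕 B g : ZFSet.{0}} (hδ : δ ∈ N) (hΛ : Λ ∈ N) (hF : 𝓕 ∈ N)
    (hB : B ∈ N) (hg : g ∈ N) : ∃ 𝓡 ∈ N, ∀ w, w ∈ 𝓡 ↔ w ∈ ZFSet.prod (ZFSet.prod Λ δ) (ZFSet.prod δ 𝓕) ∧
      ∃ β z y p b, w = ZFSet.pair (ZFSet.pair β z) (ZFSet.pair y p) ∧ ZFSet.pair β b ∈ B ∧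
      Acc N δ 𝓕 (qa 𝓕 g β) b β ∧ ZFSet.pair (ZFSet.pair z y) p ∈ b := by
  have hX : ZFSet.prod (ZFSet.prod Λ δ) (ZFSet.prod δ 𝓕) ∈ N :=
    hN.prod_mem (hN.prod_mem hΛ hδ) (hN.prod_mem hδ hF)
  refine ⟨ZFSet.sep (fun w => j17P N δ 𝓕 B g w) (ZFSet.prod (ZFSet.prod Λ δ) (ZFSet.prod δ 𝓕)), ?_, fun w => ?_⟩
  · refine hN.sep_mem (p := fun w => j17P N δ 𝓕 B g w) ?_ hX
    exact UD.d5 (P := fun N a b c d e => j17P N a.1 b.1 c.1 d.1 e.1) (a := fun _ => ⟨δ, hδ⟩) (b := fun _ => ⟨𝓕, hF⟩)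
      (c := fun _ => ⟨B, hB⟩) (d := fun _ => ⟨g, hg⟩) ud_j17P hN (DT.const _) (DT.const _) (DT.const _) (DT.const _)
      (DT.var 0)
  · rw [ZFSet.mem_sep]
    constructor
    · rintro ⟨h1, h2⟩
      exact ⟨h1, (j17P_iff hN hF hg (hN.mem_of_mem hX h1) hB).1 h2⟩
    · rintro ⟨h1, h2⟩
      exact ⟨h1, (j17P_iff hN hF hg (hN.mem_of_mem hX h1) hB).2 h2⟩

/-- The combinatorial part. `G β` is the function value, `an β` the active name. -/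
structure J17 (D 𝓕 g : ZFSet.{0}) (Λ : Ordinal.{0}) (an : Ordinal.{0} → ZFSet.{0}) : Prop where
  nm : ∀ β < Λ, NmS D (qa 𝓕 g β.toZFSet) (an β)
  nxt : ∀ β < Λ, ∀ p, (∃ y, ZFSet.pair β.toZFSet y ∈ g ∧ p ∈ y) ↔ p ∈ nx D 𝓕 (qa 𝓕 g β.toZFSet) (an β) β.toZFSet

section

variable {D 𝓕 g : ZFSet.{0}} {Λ : Ordinal.{0}} {an : Ordinal.{0} → ZFSet.{0}}

theorem qa_mono {a b : ZFSet.{0}} (h : a ⊆ b) : qa 𝓕 g a ⊆ qa 𝓕 g b := by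
  intro p hp
  rw [mem_qa] at hp ⊢
  refine ⟨hp.1, hp.2.imp id ?_⟩
  rintro ⟨γ, hγ, y, hy⟩
  exact ⟨γ, h hγ, y, hy⟩

theorem J17.cases (h : J17 D 𝓕 g Λ an) {α : Ordinal.{0}} (hα : α ≤ Λ) {p : ZFSet.{0}} (hp : p ∈ qa 𝓕 g α.toZFSet) :
    p = ∅ ∨ ∃ γ < α, p ∈ nx D 𝓕 (qa 𝓕 g γ.toZFSet) (an γ) γ.toZFSet := by
  rw [mem_qa] at hp
  refine hp.2.imp id ?_
  rintro ⟨γ, hγ, y, hy⟩
  obtain ⟨γ', hγ', rfl⟩ := Ordinal.mem_toZFSet_iff.1 hγ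
  exact ⟨γ', hγ', (h.nxt γ' (hγ'.trans_le hα) p).1 ⟨y, hy⟩⟩

theorem J17.of_nx (h : J17 D 𝓕 g Λ an) {α γ : Ordinal.{0}} (hα : α ≤ Λ) (hγ : γ < α) {p : ZFSet.{0}}
    (hp : p ∈ nx D 𝓕 (qa 𝓕 g γ.toZFSet) (an γ) γ.toZFSet) : p ∈ qa 𝓕 g α.toZFSet := by
  rw [mem_qa]
  refine ⟨(mem_nx.1 hp).1, Or.inr ⟨γ.toZFSet, Ordinal.toZFSet_mem_toZFSet_iff.2 hγ, ?_⟩⟩
  exact (h.nxt γ (hγ.trans_le hα) p).2 hp

theorem J17.dm (h : J17 D 𝓕 g Λ an) {α : Ordinal.{0}} : α ≤ Λ → ∀ p ∈ qa 𝓕 g α.toZFSet, Dm D p α.toZFSet := by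
  induction α using WellFoundedLT.induction with
  | ind α ih =>
    intro hα p hp
    rcases h.cases hα hp with rfl | ⟨γ, hγ, hp⟩
    · intro z hz
      exact absurd hz (ZFSet.notMem_empty _)
    · obtain ⟨h1, p₀, h2, h3, h4, h5⟩ := mem_nx.1 hp
      intro z hz
      rcases h4 z hz with h6 | ⟨x, hx, rfl⟩
      · obtain ⟨ξ, hξ, x, hx, rfl⟩ := ih γ hγ (hγ.le.trans hα) p₀ h2 z h6
        refine ⟨ξ, ?_, x, hx, rfl⟩
        obtain ⟨ξ', hξ', rfl⟩ := Ordinal.mem_toZFSet_iff.1 hξ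
        exact Ordinal.toZFSet_mem_toZFSet_iff.2 (hξ'.trans hγ)
      · exact ⟨_, Ordinal.toZFSet_mem_toZFSet_iff.2 hγ, x, hx, rfl⟩

theorem J17.low (h : J17 D 𝓕 g Λ an) {β α : Ordinal.{0}} : α ≤ Λ → β ≤ α → ∀ p ∈ qa 𝓕 g α.toZFSet,
    Dm D p β.toZFSet → p ∈ qa 𝓕 g β.toZFSet := by
  induction α using WellFoundedLT.induction with
  | ind α ih =>
    intro hα hβ p hp hd
    rcases h.cases hα hp with rfl | ⟨γ, hγ, hp'⟩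
    · rw [mem_qa] at hp ⊢
      exact ⟨hp.1, Or.inl rfl⟩
    · by_cases hc : γ < β
      · exact h.of_nx (hβ.trans hα) hc hp'
      · push Not at hc
        obtain ⟨h1, p₀, h2, h3, h4, h5⟩ := mem_nx.1 hp'
        have h6 : p = p₀ := by
          ext z
          constructor
          · intro hz
            rcases h4 z hz with h6 | ⟨x, hx, rfl⟩
            · exact h6
            · exfalso
              obtain ⟨ξ, hξ, x', hx', he⟩ := hd _ hz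
              rw [ZFSet.pair_inj] at he
              rw [← he.1] at hξ
              exact absurd (Ordinal.toZFSet_mem_toZFSet_iff.1 hξ) (not_lt.2 hc)
          · exact fun hz => h3 hz
        rw [← h6] at h2
        exact ih γ hγ (hγ.le.trans hα) hc p h2 hd

theorem J17.lw_eq (h : J17 D 𝓕 g Λ an) {β : Ordinal.{0}} (hβ : β ≤ Λ) :
    qa 𝓕 g β.toZFSet = lw D (qa 𝓕 g Λ.toZFSet) β.toZFSet := by
  ext p
  rw [mem_lw]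
  constructor
  · intro hp
    exact ⟨qa_mono (by
      intro z hz
      obtain ⟨ξ', hξ', rfl⟩ := Ordinal.mem_toZFSet_iff.1 hz
      exact Ordinal.toZFSet_mem_toZFSet_iff.2 (hξ'.trans_le hβ)) hp, h.dm hβ p hp⟩
  · rintro ⟨h1, h2⟩
    exact h.low le_rfl hβ p h1 h2

/-- The condition of `q_iff`. -/
def j17C (D 𝓡 Q β p : ZFSet.{0}) : Prop :=
  ∃ p₀ ∈ Q, p₀ ⊆ p ∧ Dm D p₀ β ∧ (∀ z ∈ p, (∃ γ ∈ β, ∃ x ∈ D, z = ZFSet.pair γ x) → z ∈ p₀) ∧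
      ∀ q ∈ Q, Dm D q β → p₀ ⊆ q → ∃ q' ∈ Q, Dm D q' β ∧ q ⊆ q' ∧ ∃ z ∈ D, LbF D 𝓡 Q β p q' z

theorem J17.to (h : J17 D 𝓕 g Λ an) {𝓡 : ZFSet.{0}}
    (hR : ∀ β < Λ, ∀ z y p, R4 𝓡 β.toZFSet z y p ↔ ZFSet.pair (ZFSet.pair z y) p ∈ an β) {α : Ordinal.{0}} :
    α ≤ Λ → ∀ p ∈ qa 𝓕 g α.toZFSet, ∀ β < Λ, (∃ x ∈ D, ZFSet.pair β.toZFSet x ∈ p) →
      j17C D 𝓡 (qa 𝓕 g Λ.toZFSet) β.toZFSet p := by
  induction α using WellFoundedLT.induction with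
  | ind α ih =>
    rintro hα p hp β hβ ⟨x, hx, hxp⟩
    rcases h.cases hα hp with rfl | ⟨γ, hγ, hp'⟩
    · exact absurd hxp (ZFSet.notMem_empty _)
    · obtain ⟨h1, p₀, h2, h3, h4, h5⟩ := mem_nx.1 hp'
      have hγΛ : γ < Λ := hγ.trans_le hα
      have hd := h.dm hγΛ.le p₀ h2
      have hle : γ.toZFSet ⊆ Λ.toZFSet := by
        intro z hz
        obtain ⟨ξ', hξ', rfl⟩ := Ordinal.mem_toZFSet_iff.1 hz
        exact Ordinal.toZFSet_mem_toZFSet_iff.2 (hξ'.trans hγΛ)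
      rcases lt_trichotomy β γ with hc | hc | hc
      · have h6 : ZFSet.pair β.toZFSet x ∈ p₀ := by
          rcases h4 _ hxp with h6 | ⟨x', hx', he⟩
          · exact h6
          · rw [ZFSet.pair_inj] at he
            exact absurd (Ordinal.toZFSet_injective he.1) hc.ne
        obtain ⟨p₁, h7, h8, h9, h10, h11⟩ := ih γ hγ hγΛ.le p₀ h2 β hβ ⟨x, hx, h6⟩
        refine ⟨p₁, h7, fun z hz => h3 (h8 hz), h9, fun z hz h12 => ?_, fun q hq h12 h13 => ?_⟩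
        · rcases h4 _ hz with h6 | ⟨x', hx', he⟩
          · exact h10 z h6 h12
          · obtain ⟨ξ, hξ, x'', hx'', rfl⟩ := h12
            rw [ZFSet.pair_inj] at he
            rw [he.1] at hξ
            exact absurd (Ordinal.toZFSet_mem_toZFSet_iff.1 hξ) (not_lt.2 hc.le)
        · obtain ⟨q', h14, h15, h16, z, hz, h17⟩ := h11 q hq h12 h13
          refine ⟨q', h14, h15, h16, z, hz, fun y hy hyp => h17 y hy ?_⟩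
          rcases h4 _ hyp with h6 | ⟨x', hx', he⟩
          · exact h6
          · rw [ZFSet.pair_inj] at he
            exact absurd (Ordinal.toZFSet_injective he.1) hc.ne
      · subst hc
        refine ⟨p₀, qa_mono hle h2, h3, hd, ?_, fun q hq h12 h13 => ?_⟩
        · rintro z hz ⟨ξ, hξ, x', hx', rfl⟩
          rcases h4 _ hz with h6 | ⟨x'', hx'', he⟩
          · exact h6
          · rw [ZFSet.pair_inj] at he
            rw [he.1] at hξ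
            exact absurd (Ordinal.toZFSet_mem_toZFSet_iff.1 hξ) (lt_irrefl _)
        · have hq' : q ∈ qa 𝓕 g β.toZFSet := by
            rw [h.lw_eq hγΛ.le, mem_lw]
            exact ⟨hq, h12⟩
          obtain ⟨q', h14, h15, z, hz, h16⟩ := h5 q hq' h13
          refine ⟨q', qa_mono hle h14, h.dm hγΛ.le q' h14, h15, z, hz, ?_⟩
          intro y hy hyp p' hp' hr r hr' hrd hqr
          rw [hR β hγΛ] at hr
          obtain ⟨z₁, _, y₁, _, p₁, h17, he⟩ := h.nm β hγΛ _ hr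
          rw [ZFSet.pair_inj] at he
          rw [← he.2] at h17
          exact h16 y hy hyp p' h17 hr r (by rw [h.lw_eq hγΛ.le, mem_lw]; exact ⟨hr', hrd⟩) hqr
      · exfalso
        rcases h4 _ hxp with h6 | ⟨x', hx', he⟩
        · obtain ⟨ξ, hξ, x', hx', he⟩ := hd _ h6
          rw [ZFSet.pair_inj] at he
          rw [← he.1] at hξ
          exact absurd (Ordinal.toZFSet_mem_toZFSet_iff.1 hξ) (not_lt.2 hc.le)
        · rw [ZFSet.pair_inj] at he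
          exact absurd (Ordinal.toZFSet_injective he.1) hc.ne'

theorem J17.from (h : J17 D 𝓕 g Λ an) {𝓡 : ZFSet.{0}}
    (hR : ∀ β < Λ, ∀ z y p, R4 𝓡 β.toZFSet z y p ↔ ZFSet.pair (ZFSet.pair z y) p ∈ an β)
    (hFs : FinSub D Λ.toZFSet 𝓕) {p : ZFSet.{0}} (hp : p ∈ 𝓕)
    (hc : ∀ β < Λ, (∃ x ∈ D, ZFSet.pair β.toZFSet x ∈ p) → j17C D 𝓡 (qa 𝓕 g Λ.toZFSet) β.toZFSet p) :
    p ∈ qa 𝓕 g Λ.toZFSet := by
  classical
  obtain ⟨⟨s, hs⟩, hd⟩ := (hFs p).1 hp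
  by_cases he : p = ∅
  · rw [mem_qa]
    exact ⟨hp, Or.inl he⟩
  · have h1 : ∀ z ∈ p, ∃ β : Ordinal.{0}, β < Λ ∧ ∃ x ∈ D, z = ZFSet.pair β.toZFSet x := by
      intro z hz
      obtain ⟨ξ, hξ, x, hx, hzx⟩ := hd z hz
      obtain ⟨β, hβ, rfl⟩ := Ordinal.mem_toZFSet_iff.1 hξ
      exact ⟨β, hβ, x, hx, hzx⟩
    choose! c hc1 hc2 using h1
    obtain ⟨w, hw⟩ : ∃ w, w ∈ p := by
      by_contra hcon
      push Not at hcon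
      exact he ((ZFSet.eq_empty _).2 hcon)
    obtain ⟨m, hm, hmax⟩ := s.exists_max_image c ⟨w, (hs w).1 hw⟩
    have hmp : m ∈ p := (hs m).2 hm
    obtain ⟨x, hx, hmx⟩ := hc2 m hmp
    obtain ⟨p₀, h2, h3, h4, h5, h6⟩ := hc (c m) (hc1 m hmp) ⟨x, hx, hmx ▸ hmp⟩
    have hlt := hc1 m hmp
    have hle : (c m).toZFSet ⊆ Λ.toZFSet := by
      intro z hz
      obtain ⟨ξ', hξ', rfl⟩ := Ordinal.mem_toZFSet_iff.1 hz
      exact Ordinal.toZFSet_mem_toZFSet_iff.2 (hξ'.trans hlt)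
    refine h.of_nx le_rfl hlt (mem_nx.2 ⟨hp, p₀, ?_, h3, fun z hz => ?_, fun r hr h7 => ?_⟩)
    · rw [h.lw_eq hlt.le, mem_lw]
      exact ⟨h2, h4⟩
    · obtain ⟨x', hx', hz'⟩ := hc2 z hz
      rcases (hmax z ((hs z).1 hz)).lt_or_eq with h8 | h8
      · exact Or.inl (h5 z hz ⟨_, Ordinal.toZFSet_mem_toZFSet_iff.2 h8, x', hx', hz'⟩)
      · rw [h8] at hz'
        exact Or.inr ⟨x', hx', hz'⟩
    · have hr' := hr
      rw [h.lw_eq hlt.le, mem_lw] at hr'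
      obtain ⟨q', h8, h9, h10, z, hz, h11⟩ := h6 r hr'.1 hr'.2 h7
      refine ⟨q', ?_, h10, z, hz, ?_⟩
      · rw [h.lw_eq hlt.le, mem_lw]
        exact ⟨h8, h9⟩
      · intro y hy hyp p' hp' hb r' hr'' hqr
        have hr3 := hr''
        rw [h.lw_eq hlt.le, mem_lw] at hr3
        exact h11 y hy hyp p' (qa_mono hle hp') ((hR _ hlt _ _ _).2 hb) r' hr3.1 hr3.2 hqr

end

theorem exists_itB {N : Set ZFSet.{0}} (hN : CTM N) {δ Λ : Ordinal.{0}} {𝓕 B : ZFSet.{0}} (hδ : δ.toZFSet ∈ N)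
    (hδ0 : 0 < δ) (hΛ : Λ.toZFSet ∈ N) (hF : 𝓕 ∈ N) (hFs : FinSub δ.toZFSet Λ.toZFSet 𝓕) (hB : B ∈ N)
    (hBf : FnD B Λ.toZFSet) : ∃ 𝓡 Q, ItB N δ Λ 𝓡 Q 𝓕 B := by
  classical
  obtain ⟨g, hg, hgf, hgn⟩ := exists_recQ hN hδ hΛ hF hB hBf
  obtain ⟨𝓡, hR, hRm⟩ := j17_R hN hδ hΛ hF hB hg
  -- the active names
  have hex : ∀ β : Ordinal.{0}, β < Λ → ∃ c : ZFSet.{0}, (∃ b, ZFSet.pair β.toZFSet b ∈ B ∧
      ((Acc N δ.toZFSet 𝓕 (qa 𝓕 g β.toZFSet) b β.toZFSet ∧ c = b) ∨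
        (¬ Acc N δ.toZFSet 𝓕 (qa 𝓕 g β.toZFSet) b β.toZFSet ∧ c = ∅))) ∧
      ∀ p, (∃ y, ZFSet.pair β.toZFSet y ∈ g ∧ p ∈ y) ↔ p ∈ nx δ.toZFSet 𝓕 (qa 𝓕 g β.toZFSet) c β.toZFSet := by
    intro β hβ
    obtain ⟨y, hy⟩ := hgf.tot β.toZFSet (Ordinal.toZFSet_mem_toZFSet_iff.2 hβ)
    obtain ⟨b, hbN, hb, h1⟩ := hgn β hβ y hy
    have h2 : ∀ p, (∃ y', ZFSet.pair β.toZFSet y' ∈ g ∧ p ∈ y') ↔ p ∈ y := by
      intro p
      constructor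
      · rintro ⟨y', hy', hp⟩
        rwa [hgf.uni _ _ _ hy hy']
      · intro hp
        exact ⟨y, hy, hp⟩
    rcases h1 with ⟨h3, h4⟩ | ⟨h3, h4⟩
    · exact ⟨b, ⟨b, hb, Or.inl ⟨h3, rfl⟩⟩, fun p => by rw [h2, h4]⟩
    · exact ⟨∅, ⟨b, hb, Or.inr ⟨h3, rfl⟩⟩, fun p => by rw [h2, h4]⟩
  choose! an han1 han2 using hex
  have hyes : ∀ β < Λ, ∀ b, ZFSet.pair β.toZFSet b ∈ B →
      Acc N δ.toZFSet 𝓕 (qa 𝓕 g β.toZFSet) b β.toZFSet → an β = b := by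
    intro β hβ b hb hA
    obtain ⟨b', hb', h1⟩ := han1 β hβ
    have := hBf.uni _ _ _ hb hb'
    subst this
    rcases h1 with ⟨h1, h2⟩ | ⟨h1, h2⟩
    · exact h2
    · exact absurd hA h1
  have hno : ∀ β < Λ, ∀ b, ZFSet.pair β.toZFSet b ∈ B →
      ¬ Acc N δ.toZFSet 𝓕 (qa 𝓕 g β.toZFSet) b β.toZFSet → an β = ∅ := by
    intro β hβ b hb hA
    obtain ⟨b', hb', h1⟩ := han1 β hβ
    have := hBf.uni _ _ _ hb hb'
    subst this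
    rcases h1 with ⟨h1, h2⟩ | ⟨h1, h2⟩
    · exact absurd h1 hA
    · exact h2
  have hJ : J17 δ.toZFSet 𝓕 g Λ an := by
    refine ⟨fun β hβ => ?_, han2⟩
    obtain ⟨b', hb', h1⟩ := han1 β hβ
    rcases h1 with ⟨h1, h2⟩ | ⟨h1, h2⟩
    · rw [h2]
      exact h1.1
    · rw [h2]
      intro w hw
      exact absurd hw (ZFSet.notMem_empty _)
  have hR4 : ∀ β < Λ, ∀ z y p, R4 𝓡 β.toZFSet z y p ↔ ZFSet.pair (ZFSet.pair z y) p ∈ an β := by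
    intro β hβ z y p
    unfold R4
    rw [hRm]
    constructor
    · rintro ⟨h1, β', z', y', p', b, he, hb, hA, h2⟩
      rw [ZFSet.pair_inj, ZFSet.pair_inj, ZFSet.pair_inj] at he
      obtain ⟨⟨rfl, rfl⟩, rfl, rfl⟩ := he
      rw [hyes β hβ b hb hA]
      exact h2
    · intro h1
      obtain ⟨z₁, hz₁, y₁, hy₁, p₁, hp₁, he⟩ := hJ.nm β hβ _ h1
      rw [ZFSet.pair_inj, ZFSet.pair_inj] at he
      obtain ⟨⟨rfl, rfl⟩, rfl⟩ := he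
      refine ⟨?_, ?_⟩
      · simp only [ZFSet.pair_mem_prod]
        exact ⟨⟨Ordinal.toZFSet_mem_toZFSet_iff.2 hβ, hz₁⟩, hy₁, (mem_qa.1 hp₁).1⟩
      · obtain ⟨b', hb', h2⟩ := han1 β hβ
        rcases h2 with ⟨h2, h3⟩ | ⟨h2, h3⟩
        · exact ⟨_, z, y, p, b', rfl, hb', h2, h3 ▸ h1⟩
        · rw [h3] at h1
          exact absurd h1 (ZFSet.notMem_empty _)
  refine ⟨𝓡, qa 𝓕 g Λ.toZFSet, hΛ, hR, qa_mem hN hF hg hΛ, hF, hFs, ⟨?_, ?_, ?_⟩, ?_, ?_⟩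
  · intro p hp
    exact (mem_qa.1 hp).1
  · intro p hp
    constructor
    · intro hq β hβ hx
      obtain ⟨β', hβ', rfl⟩ := Ordinal.mem_toZFSet_iff.1 hβ
      exact hJ.to hR4 le_rfl p hq β' hβ' hx
    · intro hc
      exact hJ.from hR4 hFs hp fun β hβ hx => hc _ (Ordinal.toZFSet_mem_toZFSet_iff.2 hβ) hx
  · intro w hw
    obtain ⟨h1, β', z', y', p', b, he, hb, hA, h2⟩ := (hRm w).1 hw
    rw [he, ZFSet.pair_mem_prod, ZFSet.pair_mem_prod, ZFSet.pair_mem_prod] at h1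
    obtain ⟨⟨hβ, hz⟩, hy, hp⟩ := h1
    obtain ⟨β, hβ', rfl⟩ := Ordinal.mem_toZFSet_iff.1 hβ
    have h3 : R4 𝓡 β.toZFSet z' y' p' := by
      unfold R4
      rw [← he]
      exact hw
    rw [hR4 β hβ'] at h3
    obtain ⟨z₁, hz₁, y₁, hy₁, p₁, hp₁, he'⟩ := hJ.nm β hβ' _ h3
    rw [ZFSet.pair_inj, ZFSet.pair_inj] at he'
    obtain ⟨⟨rfl, rfl⟩, rfl⟩ := he'
    rw [hJ.lw_eq hβ'.le, mem_lw] at hp₁
    exact ⟨_, hβ, z', hz, y', hy, p', hp₁.1, hp₁.2, he⟩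
  · intro β hβ b hb hA z y p
    rw [← hJ.lw_eq hβ.le] at hA
    rw [hR4 β hβ, hyes β hβ b hb hA]
  · intro β hβ b hb hA z y p
    rw [← hJ.lw_eq hβ.le] at hA
    rw [hR4 β hβ, hno β hβ b hb hA]
    exact ZFSet.notMem_empty _

end Pool.Agent.H7.IG
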