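import Pool.Agent.H19.IG.J2
import Pool.Agent.H7.IG.Tk2
import Pool.Agent.H7.IG.Tk5
import Pool.Agent.H7.IG.Tk8

/-!
# IG, Part 2: bookkeeping, the length of the iteration

`IsCd N δ α C`: `C` is the set of all codes over `α` (J0, `Cnd`). `exists_cd`: power set of `(δ × δ) × P(α × δ)` (`exists_pow`) and
separation. `L : Ordinal → Ordinal`, coded by `g ∈ N`, is strictly increasing on `ν` such that for `ξ' < ξ < ν` the interval
`[L ξ', L ξ)` covers `C_{L ξ'} × m`.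
`exists_blocks`: `exists_rec` (Tk2) with `Φ g y` := `y` is the least ordinal such that for all ordinals `α ∈ ran g`: `α ∈ y` and for all
`C` with `IsCd N δ α C`, `Cvr N (y ∖ α) (C × m)` (definable: `ud_Cnd`, `ud_Cvr`; express `ZFSet.diff`, `ZFSet.prod` by their
elements). Existence of such `y` (then the least one exists): let `S ∈ N` be an ordinal above all ordinals in `ran g`
(e.g. replacement and `rank_mem`), `C` with `IsCd N δ S C` (it contains `C_α` for `α ≤ S`), `X = ({∅} × S) ∪ ({{∅}} × (C × m))`, and let `y` be the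
Hartogs number of `X` (`exists_hartogs`, Tk8). `S < y` as `X` covers every ordinal `≤ S`. If `y ∖ S` does not cover `C × m` then (`cvr_total`)
`C × m` covers `y ∖ S` and `X` covers `y`: contradiction. So `y ∖ S` and a fortiori `y ∖ α ⊇ y ∖ S` covers `C × m ⊇ C_α × m`
(restrict the function to `y ∖ S`). Uniqueness: least ordinal. `L ξ` := the ordinal `α` with `(ξ, α) ∈ g`.
-/

set_option autoImplicit false
set_option linter.unusedVariables false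
set_option linter.unusedSectionVars false
set_option linter.unusedSimpArgs false
set_option linter.unusedTactic false
set_option linter.unreachableTactic false

namespace Pool.Agent.H7.IG

open Pool.Agent.H17.Omega Pool.Agent.H17.Omega.CTM Pool.Agent.H52.GX Pool.Agent.H52.GC

/-- `C` is the set of all codes over `α`. -/
def IsCd (N : Set ZFSet.{0}) (δ α C : ZFSet.{0}) : Prop := ∀ c, c ∈ C ↔ c ∈ N ∧ Cnd δ α c

theorem exists_cd {N : Set ZFSet.{0}} (hN : CTM N) {δ α : ZFSet.{0}} (hδ : δ ∈ N) (hα : α ∈ N) :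
    ∃ C ∈ N, IsCd N δ α C := by
  obtain ⟨P, hP, hP'⟩ := hN.exists_pow (hN.prod_mem hα hδ)
  obtain ⟨K, hK, hK'⟩ := hN.exists_pow (hN.prod_mem (hN.prod_mem hδ hδ) hP)
  obtain ⟨C, hC, hC'⟩ := hN.exists_sep (P := fun c => Cnd (⟨δ, hδ⟩ : N).1 (⟨α, hα⟩ : N).1 c.1)
    (UD.d3 (P := fun N a b c => Cnd a.1 b.1 c.1) ud_Cnd hN (DT.const _) (DT.const _) (DT.var _)) hK
  refine ⟨C, hC, fun c => ?_⟩
  rw [hC', hK']
  constructor
  · rintro ⟨⟨h1, h2⟩, h3, h4⟩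
    exact ⟨h1, h4⟩
  · rintro ⟨h1, h2⟩
    refine ⟨⟨h1, fun w hw => ?_⟩, h1, h2⟩
    obtain ⟨z, hz, y, hy, p, rfl, hp⟩ := h2 w hw
    have hpN := (hN.of_pair_mem (hN.mem_of_mem h1 hw)).2
    rw [ZFSet.pair_mem_prod, ZFSet.pair_mem_prod, hP']
    refine ⟨⟨hz, hy⟩, hpN, fun t ht => ?_⟩
    obtain ⟨β, hβ, x, hx, rfl⟩ := hp t ht
    rw [ZFSet.pair_mem_prod]
    exact ⟨hβ, hx⟩

theorem j18_cnd {δ α β c : ZFSet.{0}} (h : Cnd δ α c) (hs : α ⊆ β) : Cnd δ β c := by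
  intro w hw
  obtain ⟨z, hz, y, hy, p, hp, hd⟩ := h w hw
  refine ⟨z, hz, y, hy, p, hp, fun t ht => ?_⟩
  obtain ⟨b, hb, x, hx, hb2⟩ := hd t ht
  exact ⟨b, hs hb, x, hx, hb2⟩

/-- the requirement for one ordinal -/
def j18QB (N : Set ZFSet.{0}) (δ m α y : N) : Prop :=
  α.1 ∈ y.1 ∧ ∀ C e d : N, (∀ c : N, c.1 ∈ C.1 ↔ Cnd δ.1 α.1 c.1) →
    (∀ x : N, x.1 ∈ e.1 ↔ (x.1 ∈ y.1 ∧ ¬ x.1 ∈ α.1)) →
    (∀ w : N, w.1 ∈ d.1 ↔ ∃ a b : N, a.1 ∈ C.1 ∧ b.1 ∈ m.1 ∧ w.1 = ZFSet.pair a.1 b.1) →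
    Cvr N e.1 d.1

theorem ud_j18QB : UD CtmC (fun N (v : Fin 4 → N) => j18QB N (v 0) (v 1) (v 2) (v 3)) := by
  unfold j18QB
  (repeat' first
      | exact UT.var _ | exact UT.last | assumption
      | exact UD.sub3 (P := fun N a b c => Cnd a.1 b.1 c.1) ud_Cnd (UT.var _) (UT.var _) (UT.var _)
      | exact UD.sub2 (P := fun N a b => Cvr N a.1 b.1) ud_Cvr (UT.var _) (UT.var _)
      | refine UD.pairMem ?_ ?_ ?_ | refine UD.isPair ?_ ?_ ?_ | refine UD.mem ?_ ?_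
      | refine UD.eqv ?_ ?_ | refine UD.eq ?_ ?_ | refine UD.subset ?_ ?_
      | refine UD.isEmpty ?_ | refine UD.isTrans ?_ | refine UD.isOrd ?_ | refine UD.isNat ?_
      | refine UD.isUpair ?_ ?_ ?_ | refine UD.isInsert ?_ ?_ ?_ | refine UD.isUnion ?_ ?_ ?_
      | refine UD.and ?_ ?_ | refine UD.or ?_ ?_ | refine UD.iff ?_ ?_ | refine UD.not ?_
      | refine UD.imp ?_ ?_ | refine UD.all ?_ | refine UD.ex ?_ | exact UD.false' | exact UD.true'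
      | refine UD.ball ?_ ?_ | refine UD.bex ?_ ?_)

/-- the requirement for all ordinals in the range of `g` -/
def j18P (N : Set ZFSet.{0}) (δ m g y : N) : Prop :=
  ∀ α : N, α.1.IsOrdinal → (∃ ξ : N, ZFSet.pair ξ.1 α.1 ∈ g.1) → j18QB N δ m α y

theorem ud_j18P : UD CtmC (fun N (v : Fin 4 → N) => j18P N (v 0) (v 1) (v 2) (v 3)) := by
  unfold j18P
  (repeat' first
      | exact UT.var _ | exact UT.last | assumption
      | exact UD.sub4 (P := fun N a b c d => j18QB N a b c d) ud_j18QB (UT.var _) (UT.var _) (UT.var _) (UT.var _)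
      | refine UD.pairMem ?_ ?_ ?_ | refine UD.isPair ?_ ?_ ?_ | refine UD.mem ?_ ?_
      | refine UD.eqv ?_ ?_ | refine UD.eq ?_ ?_ | refine UD.subset ?_ ?_
      | refine UD.isEmpty ?_ | refine UD.isTrans ?_ | refine UD.isOrd ?_ | refine UD.isNat ?_
      | refine UD.isUpair ?_ ?_ ?_ | refine UD.isInsert ?_ ?_ ?_ | refine UD.isUnion ?_ ?_ ?_
      | refine UD.and ?_ ?_ | refine UD.or ?_ ?_ | refine UD.iff ?_ ?_ | refine UD.not ?_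
      | refine UD.imp ?_ ?_ | refine UD.all ?_ | refine UD.ex ?_ | exact UD.false' | exact UD.true'
      | refine UD.ball ?_ ?_ | refine UD.bex ?_ ?_)

/-- `y` is the least ordinal with the requirement -/
def j18F (N : Set ZFSet.{0}) (δ m g y : N) : Prop :=
  y.1.IsOrdinal ∧ j18P N δ m g y ∧ ∀ y' : N, y'.1 ∈ y.1 → ¬ j18P N δ m g y'

theorem ud_j18F : UD CtmC (fun N (v : Fin 4 → N) => j18F N (v 0) (v 1) (v 2) (v 3)) := by
  unfold j18F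
  (repeat' first
      | exact UT.var _ | exact UT.last | assumption
      | exact UD.sub4 (P := fun N a b c d => j18P N a b c d) ud_j18P (UT.var _) (UT.var _) (UT.var _) (UT.var _)
      | refine UD.pairMem ?_ ?_ ?_ | refine UD.isPair ?_ ?_ ?_ | refine UD.mem ?_ ?_
      | refine UD.eqv ?_ ?_ | refine UD.eq ?_ ?_ | refine UD.subset ?_ ?_
      | refine UD.isEmpty ?_ | refine UD.isTrans ?_ | refine UD.isOrd ?_ | refine UD.isNat ?_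
      | refine UD.isUpair ?_ ?_ ?_ | refine UD.isInsert ?_ ?_ ?_ | refine UD.isUnion ?_ ?_ ?_
      | refine UD.and ?_ ?_ | refine UD.or ?_ ?_ | refine UD.iff ?_ ?_ | refine UD.not ?_
      | refine UD.imp ?_ ?_ | refine UD.all ?_ | refine UD.ex ?_ | exact UD.false' | exact UD.true'
      | refine UD.ball ?_ ?_ | refine UD.bex ?_ ?_)

theorem j18_rank {ξ α g : ZFSet.{0}} (h : ZFSet.pair ξ α ∈ g) : α.rank < g.rank := by
  have h1 : ({ξ, α} : ZFSet.{0}) ∈ ZFSet.pair ξ α := by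
    rw [ZFSet.pair, ZFSet.mem_pair]; exact Or.inr rfl
  have h2 : α ∈ ({ξ, α} : ZFSet.{0}) := by rw [ZFSet.mem_pair]; exact Or.inr rfl
  exact (ZFSet.rank_lt_of_mem h2).trans ((ZFSet.rank_lt_of_mem h1).trans (ZFSet.rank_lt_of_mem h))

theorem j18_ex {N : Set ZFSet.{0}} (hN : CTM N) (δ m g : N) :
    ∃ μ : Ordinal.{0}, ∃ h : μ.toZFSet ∈ N, j18P N δ m g ⟨μ.toZFSet, h⟩ := by
  have hS : g.1.rank.toZFSet ∈ N := hN.rank_mem g.2
  set S : Ordinal.{0} := g.1.rank with hSdef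
  obtain ⟨C, hC, hCd⟩ := exists_cd hN δ.2 hS
  let c0 : N := ⟨natZ 0, hN.natZ_mem_N 0⟩
  let c1 : N := ⟨natZ 1, hN.natZ_mem_N 1⟩
  have h01 : natZ.{0} 0 ≠ natZ 1 := fun h => absurd (natZ_inj.1 h) (by omega)
  let SW : N := ⟨S.toZFSet, hS⟩
  have hCm : ZFSet.prod C m.1 ∈ N := hN.prod_mem hC m.2
  let CmW : N := ⟨ZFSet.prod C m.1, hCm⟩
  have hX1 : ZFSet.prod {natZ 0} S.toZFSet ∈ N :=
    hN.prod_mem (hN.singleton_mem (hN.natZ_mem_N 0)) hS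
  have hX2 : ZFSet.prod {natZ 1} (ZFSet.prod C m.1) ∈ N :=
    hN.prod_mem (hN.singleton_mem (hN.natZ_mem_N 1)) hCm
  have hX := hN.union_mem hX1 hX2
  obtain ⟨μ, hμ, hμ1, hμ2⟩ := exists_hartogs hN hX
  have hSX : ∀ x ∈ S.toZFSet, ZFSet.pair (natZ 0) x ∈
      ZFSet.prod {natZ 0} S.toZFSet ∪ ZFSet.prod {natZ 1} (ZFSet.prod C m.1) := by
    intro x hx
    rw [ZFSet.mem_union, ZFSet.pair_mem_prod]
    exact Or.inl ⟨ZFSet.mem_singleton.2 rfl, hx⟩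
  have hcS : Cvr N (ZFSet.prod {natZ 0} S.toZFSet ∪ ZFSet.prod {natZ 1} (ZFSet.prod C m.1))
      S.toZFSet := by
    refine cvr_of_dfn hN (F := fun w x => w.1 = ZFSet.pair c0.1 x.1)
      (Dfn.isPair (DT.var _) (DT.const _) (DT.var _)) hX hS ?_ ?_
    · intro y _ x x' h1 h2
      rw [h1, ZFSet.pair_inj] at h2
      exact Subtype.ext h2.2
    · intro x hx
      exact ⟨⟨ZFSet.pair (natZ 0) x.1, hN.pair_mem (hN.natZ_mem_N 0) x.2⟩, hSX _ hx, rfl⟩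
  have hSμ : S < μ := by
    by_contra hcon
    exact hμ1 (hcS.mono (Ordinal.toZFSet_subset_toZFSet_iff.2 (not_lt.1 hcon)))
  obtain ⟨e0, he0, he0'⟩ := hN.exists_sep (P := fun x => ¬ x.1 ∈ SW.1)
    (Dfn.not (Dfn.mem (DT.var _) (DT.const _))) hμ
  have he0m : ∀ x, x ∈ e0 ↔ x ∈ μ.toZFSet ∧ x ∉ S.toZFSet := by
    intro x
    rw [he0']
    exact and_congr_right fun h1 => ⟨fun h2 => h2.2, fun h2 => ⟨hN.mem_of_mem hμ h1, h2⟩⟩
  have hcov : Cvr N e0 (ZFSet.prod C m.1) := by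
    rcases cvr_total hN he0 hCm with h | ⟨f, hf, hf1, hf2⟩
    · exact h
    · exfalso
      apply hμ1
      refine cvr_of_dfn hN (F := fun w x => (w.1 = ZFSet.pair c0.1 x.1 ∧ x.1 ∈ SW.1) ∨
        ∃ u : N, w.1 = ZFSet.pair c1.1 u.1 ∧ u.1 ∈ CmW.1 ∧ ZFSet.pair u.1 x.1 ∈ (⟨f, hf⟩ : N).1) (by
        (repeat' first
        | exact DT.var _ | exact DT.last | exact DT.const _ | assumption
        | refine Dfn.pairMem ?_ ?_ ?_ | refine Dfn.isPair ?_ ?_ ?_ | refine Dfn.mem ?_ ?_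
        | refine Dfn.eqv ?_ ?_ | refine Dfn.eq ?_ ?_ | refine Dfn.subset ?_ ?_
        | refine Dfn.isEmpty ?_ | refine Dfn.isTrans ?_ | refine Dfn.isOrd ?_
        | refine Dfn.isNat ?_ | refine Dfn.and ?_ ?_ | refine Dfn.or ?_ ?_ | refine Dfn.iff ?_ ?_
        | refine Dfn.not ?_ | refine Dfn.imp ?_ ?_ | refine Dfn.all ?_ | refine Dfn.ex ?_
        | exact Dfn.false')) hX hμ ?_ ?_
      · rintro w _ x x' (⟨h1, h2⟩ | ⟨u, h1, h2, h3⟩) (⟨h4, h5⟩ | ⟨u', h4, h5, h6⟩)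
        · rw [h1, ZFSet.pair_inj] at h4
          exact Subtype.ext h4.2
        · rw [h1, ZFSet.pair_inj] at h4
          exact (h01 h4.1).elim
        · rw [h1, ZFSet.pair_inj] at h4
          exact (h01 h4.1.symm).elim
        · rw [h1, ZFSet.pair_inj] at h4
          rw [← h4.2] at h6
          exact Subtype.ext (hf1 _ h2 _ _ h3 h6)
      · intro x hx
        by_cases hxS : x.1 ∈ S.toZFSet
        · exact ⟨⟨ZFSet.pair (natZ 0) x.1, hN.pair_mem (hN.natZ_mem_N 0) x.2⟩, hSX _ hxS,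
            Or.inl ⟨rfl, hxS⟩⟩
        · obtain ⟨u, hu, hux⟩ := hf2 x.1 ((he0m _).2 ⟨hx, hxS⟩)
          have huN := hN.mem_of_mem hCm hu
          refine ⟨⟨ZFSet.pair (natZ 1) u, hN.pair_mem (hN.natZ_mem_N 1) huN⟩, ?_,
            Or.inr ⟨⟨u, huN⟩, rfl, hu, hux⟩⟩
          rw [ZFSet.mem_union]
          exact Or.inr (ZFSet.pair_mem_prod.2 ⟨ZFSet.mem_singleton.2 rfl, hu⟩)
  refine ⟨μ, hμ, ?_⟩
  rintro α hα ⟨ξ, hξ⟩
  have hr : α.1.rank < S := j18_rank hξ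
  have hαS : α.1 ⊆ S.toZFSet := by
    rw [← hα.toZFSet_rank_eq]
    exact Ordinal.toZFSet_subset_toZFSet_iff.2 hr.le
  refine ⟨?_, ?_⟩
  · show α.1 ∈ μ.toZFSet
    rw [← hα.toZFSet_rank_eq]
    exact Ordinal.toZFSet_mem_toZFSet_iff.2 (hr.trans hSμ)
  · intro C' e d hC' he hd
    have h1 : Cvr N e.1 e0 := cvr_of_subset hN e.2 fun x hx => by
      have h2 := (he0m x).1 hx
      exact (he ⟨x, hN.mem_of_mem hμ h2.1⟩).2 ⟨h2.1, fun h3 => h2.2 (hαS h3)⟩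
    have h2 : Cvr N e0 d.1 := hcov.mono fun w hw => by
      obtain ⟨a, b, ha, hb, hw'⟩ := (hd ⟨w, hN.mem_of_mem d.2 hw⟩).1 hw
      have hw' : w = ZFSet.pair a.1 b.1 := hw'
      rw [hw', ZFSet.pair_mem_prod]
      exact ⟨(hCd _).2 ⟨a.2, j18_cnd ((hC' a).1 ha) hαS⟩, hb⟩
    exact Cvr.trans hN e.2 he0 d.2 h1 h2

theorem j18_uniq {N : Set ZFSet.{0}} (hN : CTM N) (δ m g : N) :
    ∃ y : N, j18F N δ m g y ∧ ∀ y' : N, j18F N δ m g y' → y' = y := by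
  have hne : {μ : Ordinal.{0} | ∃ h : μ.toZFSet ∈ N, j18P N δ m g ⟨μ.toZFSet, h⟩}.Nonempty :=
    j18_ex hN δ m g
  obtain ⟨h1, h2⟩ := csInf_mem hne
  set μ := sInf {μ : Ordinal.{0} | ∃ h : μ.toZFSet ∈ N, j18P N δ m g ⟨μ.toZFSet, h⟩} with hμ
  have h3 : ∀ y' : N, y'.1 ∈ μ.toZFSet → ¬ j18P N δ m g y' := by
    intro y' hy' h4
    obtain ⟨b, hb, hby⟩ := Ordinal.mem_toZFSet_iff.1 hy'
    have h5 : b.toZFSet ∈ N := by rw [hby]; exact y'.2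
    refine notMem_of_lt_csInf hb (OrderBot.bddBelow _) ⟨h5, ?_⟩
    have h6 : (⟨b.toZFSet, h5⟩ : N) = y' := Subtype.ext hby
    rw [h6]
    exact h4
  refine ⟨⟨μ.toZFSet, h1⟩, ⟨ZFSet.isOrdinal_toZFSet _, h2, h3⟩, ?_⟩
  rintro y' ⟨h4, h5, h6⟩
  rcases h4.mem_trichotomous (ZFSet.isOrdinal_toZFSet μ) with h | h | h
  · exact (h3 y' h h5).elim
  · exact Subtype.ext h
  · exact (h6 ⟨μ.toZFSet, h1⟩ h h2).elim

structure Blk (N : Set ZFSet.{0}) (δ : Ordinal.{0}) (m : ZFSet.{0}) (ν : Ordinal.{0})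
    (L : Ordinal.{0} → Ordinal.{0}) : Prop where
  gr : ∃ g ∈ N, ∀ z, z ∈ g ↔ ∃ ξ < ν, z = ZFSet.pair ξ.toZFSet (L ξ).toZFSet
  mono : ∀ ξ < ν, ∀ ξ' < ξ, L ξ' < L ξ
  cov : ∀ ξ < ν, ∀ ξ' < ξ, ∀ C ∈ N, IsCd N δ.toZFSet (L ξ').toZFSet C →
    Cvr N ((L ξ).toZFSet \ (L ξ').toZFSet) (ZFSet.prod C m)

theorem exists_blocks {N : Set ZFSet.{0}} (hN : CTM N) {δ ν : Ordinal.{0}} (hδ : δ.toZFSet ∈ N)
    (hν : ν.toZFSet ∈ N) {m : ZFSet.{0}} (hm : m ∈ N) : ∃ L, Blk N δ m ν L := by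
  let δW : N := ⟨δ.toZFSet, hδ⟩
  let mW : N := ⟨m, hm⟩
  obtain ⟨g, hgf, hg⟩ := exists_rec hN (Φ := fun g y => j18F N δW mW g y)
    (UD.d4 (P := fun N a b c d => j18F N a b c d) ud_j18F hN (DT.const _) (DT.const _) (DT.var _)
      (DT.var _)) hν (fun α _ g _ _ => j18_uniq hN δW mW g)
  have hξN : ∀ ξ < ν, ξ.toZFSet ∈ N := fun ξ hξ => hN.toZFSet_mem_of_le hξ.le hν
  have hex : ∀ ξ : Ordinal.{0}, ∃ b : Ordinal.{0}, ∀ hξ : ξ < ν, ∃ hb : b.toZFSet ∈ N,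
      ZFSet.pair ξ.toZFSet b.toZFSet ∈ g.1 ∧
      j18F N δW mW ⟨rs g.1 ξ.toZFSet, rs_mem hN g.2 (hξN ξ hξ)⟩ ⟨b.toZFSet, hb⟩ := by
    intro ξ
    by_cases hξ : ξ < ν
    · obtain ⟨y, hy⟩ := hgf.tot ξ.toZFSet (Ordinal.toZFSet_mem_toZFSet_iff.2 hξ)
      have hyN := (hN.of_pair_mem (hN.mem_of_mem g.2 hy)).2
      have h1 := hg ξ hξ ⟨rs g.1 ξ.toZFSet, rs_mem hN g.2 (hξN ξ hξ)⟩ ⟨y, hyN⟩ rfl hy
      have h2 : y.rank.toZFSet = y := (show y.IsOrdinal from h1.1).toZFSet_rank_eq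
      refine ⟨y.rank, fun _ => ⟨by rw [h2]; exact hyN, by rw [h2]; exact hy, ?_⟩⟩
      have h3 : (⟨y.rank.toZFSet, by rw [h2]; exact hyN⟩ : N) = ⟨y, hyN⟩ := Subtype.ext h2
      rw [h3]
      exact h1
    · exact ⟨0, fun h => (hξ h).elim⟩
  choose L hL using hex
  have hP : ∀ ξ (hξ : ξ < ν), ∀ ξ' < ξ, ∃ (hb : (L ξ).toZFSet ∈ N) (hb' : (L ξ').toZFSet ∈ N),
      j18QB N δW mW ⟨(L ξ').toZFSet, hb'⟩ ⟨(L ξ).toZFSet, hb⟩ := by
    intro ξ hξ ξ' hξ'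
    obtain ⟨hb, h1, h2⟩ := hL ξ hξ
    obtain ⟨hb', h1', -⟩ := hL ξ' (hξ'.trans hξ)
    refine ⟨hb, hb', h2.2.1 ⟨(L ξ').toZFSet, hb'⟩ (ZFSet.isOrdinal_toZFSet _)
      ⟨⟨ξ'.toZFSet, hξN ξ' (hξ'.trans hξ)⟩, ?_⟩⟩
    exact pair_mem_rs.2 ⟨Ordinal.toZFSet_mem_toZFSet_iff.2 hξ', h1'⟩
  refine ⟨L, ⟨⟨g.1, g.2, fun z => ?_⟩, fun ξ hξ ξ' hξ' => ?_, fun ξ hξ ξ' hξ' C hC hCd => ?_⟩⟩
  · constructor
    · intro hz
      obtain ⟨x, hx, y, rfl⟩ := hgf.sub z hz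
      obtain ⟨ξ, hξ, rfl⟩ := Ordinal.mem_toZFSet_iff.1 hx
      obtain ⟨hb, h1, -⟩ := hL ξ hξ
      exact ⟨ξ, hξ, by rw [hgf.uni _ _ _ hz h1]⟩
    · rintro ⟨ξ, hξ, rfl⟩
      exact (hL ξ hξ).2.1
  · obtain ⟨hb, hb', h1, -⟩ := hP ξ hξ ξ' hξ'
    exact Ordinal.toZFSet_mem_toZFSet_iff.1 h1
  · obtain ⟨hb, hb', -, h1⟩ := hP ξ hξ ξ' hξ'
    have he : (L ξ).toZFSet \ (L ξ').toZFSet ∈ N := by
      obtain ⟨e, he, he'⟩ := hN.exists_sep (P := fun x => ¬ x.1 ∈ (⟨(L ξ').toZFSet, hb'⟩ : N).1)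
        (Dfn.not (Dfn.mem (DT.var _) (DT.const _))) hb
      have h2 : (L ξ).toZFSet \ (L ξ').toZFSet = e := by
        ext x
        rw [ZFSet.mem_sdiff, he']
        exact and_congr_right fun h1 => ⟨fun h2 => ⟨hN.mem_of_mem hb h1, h2⟩, fun h2 => h2.2⟩
      rw [h2]
      exact he
    refine h1 ⟨C, hC⟩ ⟨_, he⟩ ⟨ZFSet.prod C m, hN.prod_mem hC hm⟩ ?_ ?_ ?_
    · intro c
      rw [hCd]
      exact ⟨fun h => h.2, fun h => ⟨c.2, h⟩⟩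
    · intro x
      exact ZFSet.mem_sdiff
    · intro w
      constructor
      · intro hw
        have hw : w.1 ∈ ZFSet.prod C m := hw
        rw [ZFSet.mem_prod] at hw
        obtain ⟨a, ha, b, hb, hw⟩ := hw
        exact ⟨⟨a, hN.mem_of_mem hC ha⟩, ⟨b, hN.mem_of_mem hm hb⟩, ha, hb, hw⟩
      · rintro ⟨a, b, ha, hb, hw⟩
        show w.1 ∈ ZFSet.prod C m
        rw [hw, ZFSet.pair_mem_prod]
        exact ⟨ha, hb⟩

end Pool.Agent.H7.IG
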