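import Pool.Agent.H19.IG.J18

/-!
# IG, Part 2: the bookkeeping function

Let `ν` be the Hartogs number of `δ` (`exists_hartogs`): `ν` is a limit, and every `X ∈ N`, `X ⊆ ν` of size `≤ δ` is bounded in `ν`
(`hartogs_reg`: otherwise `ν = ⋃ X` has size `≤ δ` by `cvr_union_om1`; `ν` is a limit: if `ν = α + 1` then `δ` covers `α` and so `α + 1`).
Let `m` be the Hartogs number of `κ × ω` (as a set), `L` from `exists_blocks`, `Λ := sup_{ξ<ν} L ξ` (`Λ ∈ N`: e.g. by the union of the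
range of `g`). `Λ` is a limit of cofinality `> δ`: for `X ⊆ Λ` of size `≤ δ` the set of the least `ξ` with `x < L ξ`, `x ∈ X`, has size `≤ δ`, so it
is bounded in `ν`. For `ξ < ν` there is a function `f_ξ ∈ N`, single valued on `[L ξ, L (ξ+1))`, covering `C_{L ξ} × m`; choose them
(`exists_coll`, `exists_choice`): `ξ ↦ f_ξ` in `N`. `B := {(β, c) : β < Λ, and ∃ ξ < ν, L ξ ≤ β < L (ξ+1), ∃ i ∈ m, (β, (c, i)) ∈ f_ξ, c ∈ C_{L ξ},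
or there is no such c and c = ∅}`. `B` is a function on `Λ` (the intervals are disjoint).
`rep`: let `c` be a code over `α < Λ`, `α ≤ L ξ` for some `ξ < ν`; `c ∈ C_{L ξ}`. If `Z ∈ N` contains all `β ≥ α` with `B(β) = c`, then the map
`β ↦ i` for `(β, (c, i)) ∈ f_ξ`, `β ∈ Z` covers `m`; so if `κ × ω` covered `Z` it would cover `m` (`Cvr.trans`), contradiction.
-/

set_option autoImplicit false
set_option linter.unusedVariables false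
set_option linter.unusedSectionVars false
set_option linter.unusedSimpArgs false
set_option linter.unusedTactic false
set_option linter.unreachableTactic false

namespace Pool.Agent.H7.IG

open Pool.Agent.H17.Omega Pool.Agent.H17.Omega.CTM Pool.Agent.H52.GX Pool.Agent.H52.GC

/-- The relation given by a definable predicate. -/
theorem j19_rel {N : Set ZFSet.{0}} (hN : CTM N) {F : N → N → Prop}
    (hF : hN.Dfn (fun v : Fin 2 → N => F (v 0) (v 1))) {A B : ZFSet.{0}}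
    (hA : A ∈ N) (hB : B ∈ N) :
    ∃ r ∈ N, (∀ z ∈ r, ∃ x ∈ A, ∃ y ∈ B, z = ZFSet.pair x y) ∧
      ∀ x y : N, ZFSet.pair x.1 y.1 ∈ r ↔ x.1 ∈ A ∧ y.1 ∈ B ∧ F x y := by
  obtain ⟨r, hr, hr'⟩ := hN.exists_sep (P := fun z => ∃ x y : N, z.1 = ZFSet.pair x.1 y.1 ∧ F x y)
    (Dfn.exPair (P := fun v x y => F x y) (DT.var _) (Dfn.subst2 hF (DT.var _) (DT.var _)))
    (hN.prod_mem hA hB)
  refine ⟨r, hr, ?_, fun x y => ?_⟩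
  · intro z hz
    exact ZFSet.mem_prod.1 ((hr' z).1 hz).1
  rw [hr', ZFSet.pair_mem_prod]
  constructor
  · rintro ⟨⟨h1, h2⟩, _, x', y', h3, h4⟩
    have h3 : ZFSet.pair x.1 y.1 = ZFSet.pair x'.1 y'.1 := h3
    rw [ZFSet.pair_inj] at h3
    have e1 : x = x' := Subtype.ext h3.1
    have e2 : y = y' := Subtype.ext h3.2
    rw [e1, e2]
    exact ⟨e1 ▸ h1, e2 ▸ h2, h4⟩
  · rintro ⟨h1, h2, h3⟩
    exact ⟨⟨h1, h2⟩, hN.pair_mem x.2 y.2, x, y, rfl, h3⟩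

/-- A union of `≤ δ` many sets of size `≤ δ`. -/
theorem j19_union {N : Set ZFSet.{0}} (hN : CTM N) {δ : Ordinal.{0}} (hδ : IsOm1 N δ) {F : N → N → Prop}
    (hF : hN.Dfn (fun v : Fin 2 → N => F (v 0) (v 1))) {I X : ZFSet.{0}}
    (hI : I ∈ N) (hX : X ∈ N) (hc : Cvr N δ.toZFSet I)
    (h : ∀ i : N, i.1 ∈ I → ∃ Y ∈ N, Cvr N δ.toZFSet Y ∧ ∀ x : N, x.1 ∈ X → F i x → x.1 ∈ Y)
    (hcov : ∀ x : N, x.1 ∈ X → ∃ i : N, i.1 ∈ I ∧ F i x) : Cvr N δ.toZFSet X := by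
  obtain ⟨r, hr, -, hr'⟩ := j19_rel hN hF hI hX
  refine cvr_union_om1 hN hδ hI hr hX hc ?_ ?_
  · intro i hi
    obtain ⟨Y, hY, hYc, hY'⟩ := h ⟨i, hN.mem_of_mem hI hi⟩ hi
    refine ⟨Y, hY, hYc, fun x hx hix => ?_⟩
    exact hY' ⟨x, hN.mem_of_mem hX hx⟩ hx
      ((hr' ⟨i, hN.mem_of_mem hI hi⟩ ⟨x, hN.mem_of_mem hX hx⟩).1 hix).2.2
  · intro x hx
    obtain ⟨i, hi, hix⟩ := hcov ⟨x, hN.mem_of_mem hX hx⟩ hx
    exact ⟨i.1, hi, (hr' i ⟨x, hN.mem_of_mem hX hx⟩).2 ⟨hi, hx, hix⟩⟩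

theorem hartogs_reg {N : Set ZFSet.{0}} (hN : CTM N) {δ : Ordinal.{0}} (hδ : IsOm1 N δ) {ν : Ordinal.{0}}
    (hν : ν.toZFSet ∈ N) (h : ¬ Cvr N δ.toZFSet ν.toZFSet) (h' : ∀ α < ν, Cvr N δ.toZFSet α.toZFSet) :
    (∀ α < ν, α + 1 < ν) ∧ ∀ X ∈ N, X ⊆ ν.toZFSet → Cvr N δ.toZFSet X → ∃ α < ν, X ⊆ α.toZFSet := by
  have hlim : ∀ α < ν, α + 1 < ν := by
    intro α hα
    by_contra hcon
    have hle : α + 1 ≤ ν := Order.add_one_le_of_lt hα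
    have he : ν = α + 1 := le_antisymm (not_lt.1 hcon) hle
    apply h
    have hαN : α.toZFSet ∈ N := hN.toZFSet_mem_of_le hα.le hν
    refine j19_union hN hδ (F := fun i x => (i.1 = ∅ ∧ x.1 ∈ (⟨_, hαN⟩ : N).1) ∨
      (¬ i.1 = ∅ ∧ x.1 = (⟨_, hαN⟩ : N).1)) (by
      (repeat' first
      | exact DT.var _ | exact DT.last | exact DT.const _ | assumption
      | refine Dfn.mem ?_ ?_ | refine Dfn.eqv ?_ ?_ | refine Dfn.isEmpty ?_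
      | refine Dfn.and ?_ ?_ | refine Dfn.or ?_ ?_ | refine Dfn.not ?_))
      (I := δ.toZFSet) hδ.mem hν (tk5_refl hN hδ) ?_ ?_
    · intro i hi
      by_cases hi0 : i.1 = ∅
      · refine ⟨_, hαN, h' α hα, ?_⟩
        rintro x hx (⟨h1, h2⟩ | ⟨h1, h2⟩)
        · exact h2
        · exact (h1 hi0).elim
      · refine ⟨{α.toZFSet}, ?_, ?_, ?_⟩
        · have h1 : ({α.toZFSet} : ZFSet.{0}) = ZFSet.sep (fun z => z = (⟨_, hαN⟩ : N).1) ν.toZFSet := by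
            ext z
            rw [ZFSet.mem_sep, ZFSet.mem_singleton]
            constructor
            · rintro rfl
              exact ⟨Ordinal.toZFSet_mem_toZFSet_iff.2 hα, rfl⟩
            · exact fun h => h.2
          rw [h1]
          exact hN.sep_mem (p := fun z => z = (⟨_, hαN⟩ : N).1) (Dfn.eqv (DT.var _) (DT.const _)) hν
        · refine cvr_of_dfn hN (F := fun _ x => x.1 = (⟨_, hαN⟩ : N).1) (Dfn.eqv (DT.var _) (DT.const _))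
            hδ.mem ?_ ?_ ?_
          · have h1 : ({α.toZFSet} : ZFSet.{0}) = ZFSet.sep (fun z => z = (⟨_, hαN⟩ : N).1) ν.toZFSet := by
              ext z
              rw [ZFSet.mem_sep, ZFSet.mem_singleton]
              constructor
              · rintro rfl
                exact ⟨Ordinal.toZFSet_mem_toZFSet_iff.2 hα, rfl⟩
              · exact fun h => h.2
            rw [h1]
            exact hN.sep_mem (p := fun z => z = (⟨_, hαN⟩ : N).1) (Dfn.eqv (DT.var _) (DT.const _)) hν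
          · intro y _ x x' h1 h2
            exact Subtype.ext (h1.trans h2.symm)
          · intro x hx
            exact ⟨i, hi, ZFSet.mem_singleton.1 hx⟩
        · rintro x hx (⟨h1, h2⟩ | ⟨h1, h2⟩)
          · exact (hi0 h1).elim
          · exact ZFSet.mem_singleton.2 h2
    · intro x hx
      have h0 : (0 : Ordinal.{0}) < δ := by have := hδ.omega_lt hN 0; simpa using this
      have h1 : (1 : Ordinal.{0}) < δ := by have := hδ.omega_lt hN 1; simpa using this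
      obtain ⟨β, hβ, hβx⟩ := Ordinal.mem_toZFSet_iff.1 hx
      rw [he, Order.lt_add_one_iff] at hβ
      rcases hβ.lt_or_eq with hβ | hβ
      · refine ⟨⟨_, hN.toZFSet_mem_of_le h0.le hδ.mem⟩, Ordinal.toZFSet_mem_toZFSet_iff.2 h0, Or.inl ⟨Ordinal.toZFSet_zero, ?_⟩⟩
        show x.1 ∈ α.toZFSet
        rw [← hβx]
        exact Ordinal.toZFSet_mem_toZFSet_iff.2 hβ
      · refine ⟨⟨_, hN.toZFSet_mem_of_le h1.le hδ.mem⟩, Ordinal.toZFSet_mem_toZFSet_iff.2 h1, Or.inr ⟨?_, ?_⟩⟩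
        · intro h2
          have h3 : (0 : Ordinal.{0}).toZFSet ∈ (1 : Ordinal.{0}).toZFSet :=
            Ordinal.toZFSet_mem_toZFSet_iff.2 zero_lt_one
          have h2 : (1 : Ordinal.{0}).toZFSet = ∅ := h2
          rw [h2] at h3
          exact ZFSet.notMem_empty _ h3
        · show x.1 = α.toZFSet
          rw [← hβx, hβ]
  refine ⟨hlim, fun X hX hXν hXc => ?_⟩
  by_contra hcon
  push Not at hcon
  apply h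
  refine j19_union hN hδ (F := fun i x => x.1 ∈ i.1) (Dfn.mem (DT.var _) (DT.var _)) hX hν hXc ?_ ?_
  · intro i hi
    obtain ⟨α, hα, hαi⟩ := Ordinal.mem_toZFSet_iff.1 (hXν hi)
    refine ⟨i.1, i.2, ?_, fun x _ h => h⟩
    rw [← hαi]
    exact h' α hα
  · intro x hx
    obtain ⟨β, hβ, hβx⟩ := Ordinal.mem_toZFSet_iff.1 hx
    have h1 := hcon (β + 1) (hlim β hβ)
    rw [ZFSet.subset_def] at h1
    push Not at h1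
    obtain ⟨z, hz, hz'⟩ := h1
    refine ⟨⟨z, hN.mem_of_mem hX hz⟩, hz, ?_⟩
    obtain ⟨γ, hγ, hγz⟩ := Ordinal.mem_toZFSet_iff.1 (hXν hz)
    rw [← hγz, Ordinal.toZFSet_mem_toZFSet_iff, Order.lt_add_one_iff, not_le] at hz'
    show x.1 ∈ z
    rw [← hγz, ← hβx]
    exact Ordinal.toZFSet_mem_toZFSet_iff.2 hz'

theorem j19_cnd_mono {δ α β c : ZFSet.{0}} (h : Cnd δ α c) (hs : α ⊆ β) : Cnd δ β c := by
  intro w hw
  obtain ⟨z, hz, y, hy, p, h1, h2⟩ := h w hw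
  refine ⟨z, hz, y, hy, p, h1, fun t ht => ?_⟩
  obtain ⟨b, hb, x, hx, h3⟩ := h2 t ht
  exact ⟨b, hs hb, x, hx, h3⟩

/-- The function chosen for the interval of index `x`. -/
def j19F {N : Set ZFSet.{0}} (δ m g x f : N) : Prop := ∃ l η l' : N, ZFSet.pair x.1 l.1 ∈ g.1 ∧
  η.1 = insert x.1 x.1 ∧ ZFSet.pair η.1 l'.1 ∈ g.1 ∧
  (∀ β : N, β.1 ∈ l'.1 → ¬ β.1 ∈ l.1 → ∀ u u' : N, ZFSet.pair β.1 u.1 ∈ f.1 → ZFSet.pair β.1 u'.1 ∈ f.1 → u = u') ∧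
  ∀ c : N, Cnd δ.1 l.1 c.1 → ∀ i : N, i.1 ∈ m.1 → ∃ β : N, β.1 ∈ l'.1 ∧ ¬ β.1 ∈ l.1 ∧ ∃ u : N,
    u.1 = ZFSet.pair c.1 i.1 ∧ ZFSet.pair β.1 u.1 ∈ f.1

/-- `c` is listed at `β`. -/
def j19P {N : Set ZFSet.{0}} (m g h β c : N) : Prop := ∃ x f l η l' : N, ZFSet.pair x.1 f.1 ∈ h.1 ∧
  ZFSet.pair x.1 l.1 ∈ g.1 ∧ η.1 = insert x.1 x.1 ∧ ZFSet.pair η.1 l'.1 ∈ g.1 ∧ β.1 ∈ l'.1 ∧ ¬ β.1 ∈ l.1 ∧
  ∃ i u : N, i.1 ∈ m.1 ∧ u.1 = ZFSet.pair c.1 i.1 ∧ ZFSet.pair β.1 u.1 ∈ f.1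

theorem j19F_dfn {N : Set ZFSet.{0}} (hN : CTM N) (δ m g : N) :
    hN.Dfn (fun v : Fin 2 → N => j19F δ m g (v 0) (v 1)) := by
  unfold j19F
  (repeat' first
      | exact DT.var _ | exact DT.last | exact DT.const _ | assumption
      | exact UD.d3 (P := fun N a b c => Cnd a.1 b.1 c.1) (a := fun _ => δ) ud_Cnd hN (DT.const _) (DT.var _) (DT.var _)
      | refine Dfn.pairMem ?_ ?_ ?_ | refine Dfn.isPair ?_ ?_ ?_ | refine Dfn.mem ?_ ?_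
      | refine Dfn.isInsert ?_ ?_ ?_
      | refine Dfn.eqv ?_ ?_ | refine Dfn.eq ?_ ?_
      | refine Dfn.and ?_ ?_ | refine Dfn.or ?_ ?_ | refine Dfn.not ?_
      | refine Dfn.imp ?_ ?_ | refine Dfn.all ?_ | refine Dfn.ex ?_)

theorem j19P_dfn {N : Set ZFSet.{0}} (hN : CTM N) (m g h : N) :
    hN.Dfn (fun v : Fin 2 → N => j19P m g h (v 0) (v 1)) := by
  unfold j19P
  (repeat' first
      | exact DT.var _ | exact DT.last | exact DT.const _ | assumption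
      | refine Dfn.pairMem ?_ ?_ ?_ | refine Dfn.isPair ?_ ?_ ?_ | refine Dfn.mem ?_ ?_
      | refine Dfn.isInsert ?_ ?_ ?_
      | refine Dfn.eqv ?_ ?_ | refine Dfn.eq ?_ ?_
      | refine Dfn.and ?_ ?_ | refine Dfn.or ?_ ?_ | refine Dfn.not ?_
      | refine Dfn.imp ?_ ?_ | refine Dfn.all ?_ | refine Dfn.ex ?_)

theorem j19_succ (ξ : Ordinal.{0}) : (ξ + 1).toZFSet = insert ξ.toZFSet ξ.toZFSet := Ordinal.toZFSet_add_one ξ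

/-- The relation `c` is listed at `β` in terms of ordinals. -/
theorem j19P_iff {N : Set ZFSet.{0}} (hN : CTM N) {ν : Ordinal.{0}} {L : Ordinal.{0} → Ordinal.{0}} {m g h : N}
    (hlim : ∀ α < ν, α + 1 < ν) (hg : ∀ z, z ∈ g.1 ↔ ∃ ξ < ν, z = ZFSet.pair ξ.toZFSet (L ξ).toZFSet)
    {β : Ordinal.{0}} (hβ : β.toZFSet ∈ N) (c : N) :
    j19P m g h ⟨β.toZFSet, hβ⟩ c ↔ ∃ ξ < ν, ∃ f, ZFSet.pair ξ.toZFSet f ∈ h.1 ∧ L ξ ≤ β ∧ β < L (ξ + 1) ∧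
      ∃ i ∈ m.1, ZFSet.pair β.toZFSet (ZFSet.pair c.1 i) ∈ f := by
  have hmem : ∀ ξ < ν, (L ξ).toZFSet ∈ N ∧ ξ.toZFSet ∈ N := by
    intro ξ hξ
    have h1 := hN.mem_of_mem g.2 ((hg _).2 ⟨ξ, hξ, rfl⟩)
    exact ⟨(hN.of_pair_mem h1).2, (hN.of_pair_mem h1).1⟩
  constructor
  · rintro ⟨x, f, l, η, l', h1, h2, h3, h4, h5, h6, i, u, h7, h8, h9⟩
    obtain ⟨ξ, hξ, h10⟩ := (hg _).1 h2
    obtain ⟨ξ', hξ', h11⟩ := (hg _).1 h4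
    rw [ZFSet.pair_inj] at h10 h11
    have h12 : ξ' = ξ + 1 := by
      apply Ordinal.toZFSet_injective
      rw [← h11.1, h3, h10.1, j19_succ]
    have h5 : β.toZFSet ∈ l'.1 := h5
    have h6 : ¬ β.toZFSet ∈ l.1 := h6
    rw [h11.2, h12, Ordinal.toZFSet_mem_toZFSet_iff] at h5
    rw [h10.2, Ordinal.toZFSet_mem_toZFSet_iff, not_lt] at h6
    refine ⟨ξ, hξ, f.1, h10.1 ▸ h1, h6, h5, i.1, h7, ?_⟩
    rw [← h8]
    exact h9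
  · rintro ⟨ξ, hξ, f, h1, h2, h3, i, h4, h5⟩
    have h6 := hN.mem_of_mem h.2 h1
    have hfN := (hN.of_pair_mem h6).2
    have hiN := hN.mem_of_mem m.2 h4
    refine ⟨⟨_, (hmem ξ hξ).2⟩, ⟨f, hfN⟩, ⟨_, (hmem ξ hξ).1⟩, ⟨_, (hmem _ (hlim ξ hξ)).2⟩,
      ⟨_, (hmem _ (hlim ξ hξ)).1⟩, h1, (hg _).2 ⟨ξ, hξ, rfl⟩, j19_succ ξ, (hg _).2 ⟨_, hlim ξ hξ, rfl⟩,
      Ordinal.toZFSet_mem_toZFSet_iff.2 h3, ?_, ⟨i, hiN⟩, ⟨_, hN.pair_mem c.2 hiN⟩, h4, rfl, h5⟩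
    show ¬ β.toZFSet ∈ (L ξ).toZFSet
    rw [Ordinal.toZFSet_mem_toZFSet_iff, not_lt]
    exact h2

/-- The properties of the chosen functions in terms of ordinals. -/
theorem j19F_out {N : Set ZFSet.{0}} (hN : CTM N) {ν : Ordinal.{0}} {L : Ordinal.{0} → Ordinal.{0}} {δ m g : N}
    (hg : ∀ z, z ∈ g.1 ↔ ∃ ξ < ν, z = ZFSet.pair ξ.toZFSet (L ξ).toZFSet)
    {ξ : Ordinal.{0}} (hξ : ξ.toZFSet ∈ N) {f : N} (h : j19F δ m g ⟨ξ.toZFSet, hξ⟩ f) :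
    (∀ β, L ξ ≤ β → β < L (ξ + 1) → ∀ u u', ZFSet.pair β.toZFSet u ∈ f.1 →
      ZFSet.pair β.toZFSet u' ∈ f.1 → u = u') ∧
    ∀ c ∈ N, Cnd δ.1 (L ξ).toZFSet c → ∀ i ∈ m.1, ∃ β, L ξ ≤ β ∧ β < L (ξ + 1) ∧
      ZFSet.pair β.toZFSet (ZFSet.pair c i) ∈ f.1 := by
  obtain ⟨l, η, l', h1, h2, h3, h4, h5⟩ := h
  obtain ⟨ξ₁, hξ₁, h6⟩ := (hg _).1 h1
  obtain ⟨ξ₂, hξ₂, h7⟩ := (hg _).1 h3
  rw [ZFSet.pair_inj] at h6 h7
  have h8 : ξ₁ = ξ := Ordinal.toZFSet_injective h6.1.symm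
  have h2 : η.1 = insert ξ.toZFSet ξ.toZFSet := h2
  have h9 : ξ₂ = ξ + 1 := by
    apply Ordinal.toZFSet_injective
    rw [← h7.1, h2, j19_succ]
  subst h8 h9
  constructor
  · intro β hβ1 hβ2 u u' hu hu'
    have h10 := hN.mem_of_mem f.2 hu
    have h11 := hN.mem_of_mem f.2 hu'
    have h12 := hN.of_pair_mem h10
    have h13 := hN.of_pair_mem h11
    have h14 := h4 ⟨_, h12.1⟩ (by rw [h7.2]; exact Ordinal.toZFSet_mem_toZFSet_iff.2 hβ2) (by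
      rw [h6.2]
      show ¬ β.toZFSet ∈ (L ξ₁).toZFSet
      rw [Ordinal.toZFSet_mem_toZFSet_iff, not_lt]
      exact hβ1) ⟨u, h12.2⟩ ⟨u', h13.2⟩ hu hu'
    exact congrArg Subtype.val h14
  · intro c hcN hc i hi
    obtain ⟨β, h10, h11, u, h12, h13⟩ := h5 ⟨c, hcN⟩ (by rw [h6.2]; exact hc) ⟨i, hN.mem_of_mem m.2 hi⟩ hi
    rw [h7.2] at h10
    rw [h6.2] at h11
    obtain ⟨b, hb, hbβ⟩ := Ordinal.mem_toZFSet_iff.1 h10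
    rw [← hbβ, Ordinal.toZFSet_mem_toZFSet_iff, not_lt] at h11
    refine ⟨b, h11, hb, ?_⟩
    have h12 : u.1 = ZFSet.pair c i := h12
    rw [hbβ, ← h12]
    exact h13

theorem exists_bk {N : Set ZFSet.{0}} (hN : CTM N) {δ : Ordinal.{0}} (hδ : IsOm1 N δ) {κ : Ordinal.{0}}
    (hκ : κ.toZFSet ∈ N) : ∃ (Λ : Ordinal.{0}) (B : ZFSet.{0}), BK N δ Λ κ B := by
  have hPN : ZFSet.prod κ.toZFSet omZ ∈ N := hN.prod_mem hκ hN.omZ_mem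
  obtain ⟨m, hmN, hm, -⟩ := exists_hartogs hN hPN
  obtain ⟨ν, hνN, hν, hν'⟩ := exists_hartogs hN hδ.mem
  obtain ⟨hlim, hreg⟩ := hartogs_reg hN hδ hνN hν hν'
  obtain ⟨L, hL⟩ := exists_blocks hN (δ := δ) hδ.mem hνN hmN
  obtain ⟨g, hgN, hg⟩ := hL.gr
  have hδν : δ < ν := by
    by_contra hcon
    exact hν (cvr_of_subset hN hδ.mem (Ordinal.toZFSet_subset_toZFSet_iff.2 (not_lt.1 hcon)))
  have hν0 : 0 < ν := (zero_le (a := δ)).trans_lt hδν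
  have hmem : ∀ ξ < ν, (L ξ).toZFSet ∈ N ∧ ξ.toZFSet ∈ N := by
    intro ξ hξ
    have h1 := hN.mem_of_mem hgN ((hg _).2 ⟨ξ, hξ, rfl⟩)
    exact ⟨(hN.of_pair_mem h1).2, (hN.of_pair_mem h1).1⟩
  have hpg : ∀ ξ : Ordinal.{0}, ∀ y, ZFSet.pair ξ.toZFSet y ∈ g ↔ ξ < ν ∧ y = (L ξ).toZFSet := by
    intro ξ y
    rw [hg]
    constructor
    · rintro ⟨ξ', hξ', h1⟩
      rw [ZFSet.pair_inj] at h1
      have h2 : ξ = ξ' := Ordinal.toZFSet_injective h1.1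
      subst h2
      exact ⟨hξ', h1.2⟩
    · rintro ⟨h1, rfl⟩
      exact ⟨ξ, h1, rfl⟩
  have hmono : ∀ ξ' ξ, ξ < ν → ξ' ≤ ξ → L ξ' ≤ L ξ := by
    intro ξ' ξ hξ h
    rcases h.lt_or_eq with h | rfl
    · exact (hL.mono ξ hξ ξ' h).le
    · exact le_rfl
  -- the length
  have hrk : ∀ ξ < ν, L ξ ≤ g.rank := by
    intro ξ hξ
    have h1 : ZFSet.pair ξ.toZFSet (L ξ).toZFSet ∈ g := (hg _).2 ⟨ξ, hξ, rfl⟩
    have h2 : (L ξ).toZFSet ∈ ({ξ.toZFSet, (L ξ).toZFSet} : ZFSet.{0}) := by simp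
    have h3 : ({ξ.toZFSet, (L ξ).toZFSet} : ZFSet.{0}) ∈ ZFSet.pair ξ.toZFSet (L ξ).toZFSet := by
      rw [ZFSet.pair]; simp
    have h4 := ((ZFSet.rank_lt_of_mem h2).trans (ZFSet.rank_lt_of_mem h3)).trans (ZFSet.rank_lt_of_mem h1)
    rw [Ordinal.rank_toZFSet] at h4
    exact h4.le
  obtain ⟨Λ, hΛ1, hΛ2, hΛr⟩ : ∃ Λ : Ordinal.{0}, (∀ ξ < ν, L ξ ≤ Λ) ∧ (∀ x < Λ, ∃ ξ < ν, x < L ξ) ∧
      Λ ≤ g.rank := by
    refine ⟨sInf {o : Ordinal.{0} | ∀ ξ < ν, L ξ ≤ o}, ?_, ?_, csInf_le' hrk⟩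
    · exact csInf_mem (s := {o : Ordinal.{0} | ∀ ξ < ν, L ξ ≤ o}) ⟨_, hrk⟩
    · intro x hx
      by_contra hcon
      push Not at hcon
      exact absurd hx (not_lt.2 (csInf_le' hcon))
  have hΛN : Λ.toZFSet ∈ N := hN.toZFSet_mem_of_le hΛr (hN.rank_mem hgN)
  have hLlt : ∀ ξ < ν, L ξ < Λ := fun ξ hξ =>
    (hL.mono _ (hlim ξ hξ) ξ (Order.lt_add_one_iff.2 le_rfl)).trans_le (hΛ1 _ (hlim ξ hξ))
  -- the functions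
  obtain ⟨B0, hB0, hB0'⟩ := exists_coll hN (j19F_dfn hN ⟨_, hδ.mem⟩ ⟨_, hmN⟩ ⟨g, hgN⟩) hνN (by
    intro x hx
    obtain ⟨ξ, hξ, hξx⟩ := Ordinal.mem_toZFSet_iff.1 hx
    obtain ⟨C, hC, hCd⟩ := exists_cd hN hδ.mem (hmem ξ hξ).1
    obtain ⟨f, hf, h1, h2⟩ := hL.cov (ξ + 1) (hlim ξ hξ) ξ (Order.lt_add_one_iff.2 le_rfl) C hC hCd
    refine ⟨⟨f, hf⟩, ⟨_, (hmem ξ hξ).1⟩, ⟨_, (hmem _ (hlim ξ hξ)).2⟩, ⟨_, (hmem _ (hlim ξ hξ)).1⟩, ?_, ?_, ?_, ?_, ?_⟩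
    · rw [← hξx]
      exact (hpg _ _).2 ⟨hξ, rfl⟩
    · rw [← hξx]
      exact j19_succ ξ
    · exact (hpg _ _).2 ⟨hlim ξ hξ, rfl⟩
    · intro β hβ hβ' u u' hu hu'
      exact Subtype.ext (h1 β.1 (ZFSet.mem_sdiff.2 ⟨hβ, hβ'⟩) u.1 u'.1 hu hu')
    · intro c hc i hi
      obtain ⟨b, hb, hbf⟩ := h2 (ZFSet.pair c.1 i.1) (ZFSet.pair_mem_prod.2 ⟨(hCd _).2 ⟨c.2, hc⟩, hi⟩)
      rw [ZFSet.mem_sdiff] at hb
      exact ⟨⟨b, hN.mem_of_mem (hmem _ (hlim ξ hξ)).1 hb.1⟩, hb.1, hb.2, ⟨_, hN.pair_mem c.2 i.2⟩, rfl, hbf⟩)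
  obtain ⟨h, hhN, hhfn, hhF⟩ := exists_choice hN (j19F_dfn hN ⟨_, hδ.mem⟩ ⟨_, hmN⟩ ⟨g, hgN⟩) hνN hB0 hB0'
  have hF : ∀ ξ < ν, ∀ f, ZFSet.pair ξ.toZFSet f ∈ h →
      (∀ β, L ξ ≤ β → β < L (ξ + 1) → ∀ u u', ZFSet.pair β.toZFSet u ∈ f →
        ZFSet.pair β.toZFSet u' ∈ f → u = u') ∧
      ∀ c ∈ N, Cnd δ.toZFSet (L ξ).toZFSet c → ∀ i ∈ m.toZFSet, ∃ β, L ξ ≤ β ∧ β < L (ξ + 1) ∧
        ZFSet.pair β.toZFSet (ZFSet.pair c i) ∈ f := by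
    intro ξ hξ f hf
    have h1 := hN.of_pair_mem (hN.mem_of_mem hhN hf)
    exact j19F_out hN (g := ⟨g, hgN⟩) (m := ⟨_, hmN⟩) (δ := ⟨_, hδ.mem⟩) hg h1.1
      (hhF ⟨_, h1.1⟩ ⟨f, h1.2⟩ hf)
  -- the codes
  obtain ⟨D, hDN, hD⟩ := exists_cd hN hδ.mem hΛN
  have hD0 : (∅ : ZFSet.{0}) ∈ D :=
    (hD _).2 ⟨hN.empty_mem, fun w hw => absurd hw (ZFSet.notMem_empty w)⟩
  obtain ⟨B, hBN, hB1, hB2⟩ := j19_rel hN (F := fun β c => j19P (⟨_, hmN⟩ : N) ⟨g, hgN⟩ ⟨h, hhN⟩ β c ∨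
      (c.1 = ∅ ∧ ∀ c' : N, c'.1 ∈ (⟨D, hDN⟩ : N).1 → ¬ j19P (⟨_, hmN⟩ : N) ⟨g, hgN⟩ ⟨h, hhN⟩ β c')) (by
      have hP := j19P_dfn hN (⟨_, hmN⟩ : N) ⟨g, hgN⟩ ⟨h, hhN⟩
      refine Dfn.or (Dfn.subst2 hP (DT.var _) (DT.var _)) (Dfn.and (Dfn.isEmpty (DT.var _)) (Dfn.all
        (Dfn.imp (Dfn.mem (DT.var _) (DT.const _)) (Dfn.not (Dfn.subst2 hP (DT.var _) (DT.var _))))))) hΛN hDN
  have hPu : ∀ (β : Ordinal.{0}) (hβ : β.toZFSet ∈ N) (c c' : N), j19P (⟨_, hmN⟩ : N) ⟨g, hgN⟩ ⟨h, hhN⟩ ⟨_, hβ⟩ c →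
      j19P (⟨_, hmN⟩ : N) ⟨g, hgN⟩ ⟨h, hhN⟩ ⟨_, hβ⟩ c' → c = c' := by
    intro β hβ c c' h1 h2
    obtain ⟨ξ, hξ, f, h3, h4, h5, i, hi, h6⟩ := (j19P_iff hN hlim hg hβ c).1 h1
    obtain ⟨ξ', hξ', f', h3', h4', h5', i', hi', h6'⟩ := (j19P_iff hN hlim hg hβ c').1 h2
    have h7 : ∀ ξ ξ', ξ' < ν → β < L (ξ + 1) → L ξ' ≤ β → ¬ ξ < ξ' := by
      intro ξ ξ' hξ' h5 h4' hlt
      exact absurd (h5.trans_le ((hmono _ _ hξ' (Order.add_one_le_of_lt hlt)).trans h4')) (lt_irrefl _)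
    have h8 : ξ = ξ' := le_antisymm (not_lt.1 (h7 ξ' ξ hξ h5' h4)) (not_lt.1 (h7 ξ ξ' hξ' h5 h4'))
    subst h8
    have h9 : f = f' := (hhfn.ap_eq h3).symm.trans (hhfn.ap_eq h3')
    subst h9
    have h10 := (hF ξ hξ f h3).1 β h4 h5 _ _ h6 h6'
    rw [ZFSet.pair_inj] at h10
    exact Subtype.ext h10.1
  refine ⟨Λ, B, hΛN, hBN, ?_, ?_, ⟨?_, ?_, ?_⟩, ?_, ?_⟩
  · exact (zero_le (a := L 0)).trans_lt (hLlt 0 hν0)
  · intro α hα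
    obtain ⟨ξ, hξ, h1⟩ := hΛ2 α hα
    exact (Order.add_one_le_of_lt h1).trans_lt (hLlt ξ hξ)
  · intro z hz
    obtain ⟨x, hx, y, hy, h1⟩ := hB1 z hz
    exact ⟨x, hx, y, h1⟩
  · intro x hx
    have hxN := hN.mem_of_mem hΛN hx
    by_cases hex : ∃ c' : N, c'.1 ∈ D ∧ j19P (⟨_, hmN⟩ : N) ⟨g, hgN⟩ ⟨h, hhN⟩ ⟨x, hxN⟩ c'
    · obtain ⟨c', h1, h2⟩ := hex
      exact ⟨c'.1, (hB2 ⟨x, hxN⟩ c').2 ⟨hx, h1, Or.inl h2⟩⟩
    · refine ⟨∅, (hB2 ⟨x, hxN⟩ ⟨∅, hN.empty_mem⟩).2 ⟨hx, hD0, Or.inr ⟨rfl, ?_⟩⟩⟩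
      intro c' h1 h2
      exact hex ⟨c', h1, h2⟩
  · intro x y y' h1 h2
    have h3 := hN.of_pair_mem (hN.mem_of_mem hBN h1)
    have h4 := hN.of_pair_mem (hN.mem_of_mem hBN h2)
    obtain ⟨hx, hy, h5⟩ := (hB2 ⟨x, h3.1⟩ ⟨y, h3.2⟩).1 h1
    obtain ⟨-, hy', h6⟩ := (hB2 ⟨x, h3.1⟩ ⟨y', h4.2⟩).1 h2
    obtain ⟨β, hβ, hβx⟩ := Ordinal.mem_toZFSet_iff.1 hx
    have hβx : β.toZFSet = x := hβx
    subst hβx
    rcases h5 with h5 | ⟨h5, h5'⟩ <;> rcases h6 with h6 | ⟨h6, h6'⟩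
    · exact congrArg Subtype.val (hPu β h3.1 _ _ h5 h6)
    · exact (h6' _ hy h5).elim
    · exact (h5' _ hy' h6).elim
    · exact h5.trans h6.symm
  · -- cofinality
    intro X hX hXΛ hXc
    obtain ⟨Y, hYN, hY⟩ := hN.exists_sep (P := fun ξ => ∃ x l : N, x.1 ∈ (⟨X, hX⟩ : N).1 ∧
      ZFSet.pair ξ.1 l.1 ∈ (⟨g, hgN⟩ : N).1 ∧ x.1 ∈ l.1 ∧ ∀ ξ' l' : N, ξ'.1 ∈ ξ.1 →
        ZFSet.pair ξ'.1 l'.1 ∈ (⟨g, hgN⟩ : N).1 → ¬ x.1 ∈ l'.1) (by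
      (repeat' first
      | exact DT.var _ | exact DT.last | exact DT.const _ | assumption
      | refine Dfn.pairMem ?_ ?_ ?_ | refine Dfn.mem ?_ ?_
      | refine Dfn.and ?_ ?_ | refine Dfn.not ?_
      | refine Dfn.imp ?_ ?_ | refine Dfn.all ?_ | refine Dfn.ex ?_)) hνN
    have hYc : Cvr N X Y := by
      refine cvr_of_dfn hN (F := fun x ξ => ∃ l : N, ZFSet.pair ξ.1 l.1 ∈ (⟨g, hgN⟩ : N).1 ∧ x.1 ∈ l.1 ∧
        ∀ ξ' l' : N, ξ'.1 ∈ ξ.1 → ZFSet.pair ξ'.1 l'.1 ∈ (⟨g, hgN⟩ : N).1 → ¬ x.1 ∈ l'.1) (by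
      (repeat' first
      | exact DT.var _ | exact DT.last | exact DT.const _ | assumption
      | refine Dfn.pairMem ?_ ?_ ?_ | refine Dfn.mem ?_ ?_
      | refine Dfn.and ?_ ?_ | refine Dfn.not ?_
      | refine Dfn.imp ?_ ?_ | refine Dfn.all ?_ | refine Dfn.ex ?_)) hX hYN ?_ ?_
      · rintro x _ ξ₁ ξ₂ ⟨l₁, h1, h2, h3⟩ ⟨l₂, h4, h5, h6⟩
        obtain ⟨a, ha, ha'⟩ := (hg _).1 h1
        obtain ⟨b, hb, hb'⟩ := (hg _).1 h4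
        rw [ZFSet.pair_inj] at ha' hb'
        have h7 : ¬ a < b := by
          intro hlt
          refine h6 ξ₁ l₁ ?_ h1 h2
          rw [ha'.1, hb'.1]
          exact Ordinal.toZFSet_mem_toZFSet_iff.2 hlt
        have h8 : ¬ b < a := by
          intro hlt
          refine h3 ξ₂ l₂ ?_ h4 h5
          rw [ha'.1, hb'.1]
          exact Ordinal.toZFSet_mem_toZFSet_iff.2 hlt
        have h9 : a = b := le_antisymm (not_lt.1 h8) (not_lt.1 h7)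
        exact Subtype.ext (by rw [ha'.1, hb'.1, h9])
      · intro ξ hξ
        obtain ⟨-, hξN, x, l, h1, h2, h3, h4⟩ := (hY _).1 hξ
        exact ⟨x, h1, l, h2, h3, h4⟩
    obtain ⟨α, hα, hα'⟩ := hreg Y hYN (fun z hz => ((hY z).1 hz).1) (Cvr.trans hN hδ.mem hX hYN hXc hYc)
    refine ⟨L α, hLlt α hα, fun x hx => ?_⟩
    obtain ⟨b, hb, hbx⟩ := Ordinal.mem_toZFSet_iff.1 (hXΛ hx)
    obtain ⟨ξ, ⟨hξ, hξ'⟩, hmin⟩ := WellFounded.has_min (r := (· < ·)) Ordinal.lt_wf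
      {ξ : Ordinal.{0} | ξ < ν ∧ b < L ξ} (by obtain ⟨ξ, h1, h2⟩ := hΛ2 b hb; exact ⟨ξ, h1, h2⟩)
    have hξY : ξ.toZFSet ∈ Y := by
      refine (hY _).2 ⟨Ordinal.toZFSet_mem_toZFSet_iff.2 hξ, (hmem ξ hξ).2, ⟨x, hN.mem_of_mem hX hx⟩,
        ⟨_, (hmem ξ hξ).1⟩, hx, (hpg _ _).2 ⟨hξ, rfl⟩, ?_, ?_⟩
      · show x ∈ (L ξ).toZFSet
        rw [← hbx]
        exact Ordinal.toZFSet_mem_toZFSet_iff.2 hξ'
      · intro ξ₂ l₂ h1 h2 h3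
        obtain ⟨c, hc, hc'⟩ := (hg _).1 h2
        rw [ZFSet.pair_inj] at hc'
        have h1 : ξ₂.1 ∈ ξ.toZFSet := h1
        have h3 : x ∈ l₂.1 := h3
        rw [hc'.1, Ordinal.toZFSet_mem_toZFSet_iff] at h1
        rw [hc'.2, ← hbx, Ordinal.toZFSet_mem_toZFSet_iff] at h3
        exact hmin c ⟨hc, h3⟩ h1
    have h1 := hα' hξY
    rw [Ordinal.toZFSet_mem_toZFSet_iff] at h1
    rw [← hbx]
    exact Ordinal.toZFSet_mem_toZFSet_iff.2 (hξ'.trans_le (hmono _ _ hα h1.le))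
  · -- every code is listed often
    intro c hcN α hα hc Z hZN hZ hcv
    obtain ⟨ξ, hξ, hξα⟩ := hΛ2 α hα
    obtain ⟨f, hfB, hf⟩ := hhfn.tot ξ.toZFSet (Ordinal.toZFSet_mem_toZFSet_iff.2 hξ)
    have hfN := hN.mem_of_mem hB0 hfB
    have hcL : Cnd δ.toZFSet (L ξ).toZFSet c :=
      j19_cnd_mono hc (Ordinal.toZFSet_subset_toZFSet_iff.2 hξα.le)
    have hcD : c ∈ D := (hD _).2 ⟨hcN, j19_cnd_mono hc (Ordinal.toZFSet_subset_toZFSet_iff.2 hα.le)⟩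
    have hZ' : ∀ β, L ξ ≤ β → β < L (ξ + 1) → ∀ i ∈ m.toZFSet, ZFSet.pair β.toZFSet (ZFSet.pair c i) ∈ f →
        β.toZFSet ∈ Z := by
      intro β h1 h2 i hi h3
      have hβΛ : β < Λ := h2.trans_le (hΛ1 _ (hlim ξ hξ))
      have hβN := hN.toZFSet_mem_of_le hβΛ.le hΛN
      refine hZ β hβΛ (hξα.le.trans h1) ((hB2 ⟨_, hβN⟩ ⟨c, hcN⟩).2 ⟨Ordinal.toZFSet_mem_toZFSet_iff.2 hβΛ, hcD,
        Or.inl ((j19P_iff hN hlim hg hβN _).2 ⟨ξ, hξ, f, hf, h1, h2, i, hi, h3⟩)⟩)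
    apply hm
    refine Cvr.trans hN hPN hZN hmN hcv ?_
    refine cvr_of_dfn hN (F := fun β i => β.1 ∈ (⟨_, (hmem _ (hlim ξ hξ)).1⟩ : N).1 ∧ ¬ β.1 ∈ (⟨_, (hmem ξ hξ).1⟩ : N).1 ∧
      ∃ u : N, u.1 = ZFSet.pair (⟨c, hcN⟩ : N).1 i.1 ∧ ZFSet.pair β.1 u.1 ∈ (⟨f, hfN⟩ : N).1) (by
      (repeat' first
      | exact DT.var _ | exact DT.last | exact DT.const _ | assumption
      | refine Dfn.pairMem ?_ ?_ ?_ | refine Dfn.isPair ?_ ?_ ?_ | refine Dfn.mem ?_ ?_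
      | refine Dfn.and ?_ ?_ | refine Dfn.not ?_
      | refine Dfn.imp ?_ ?_ | refine Dfn.all ?_ | refine Dfn.ex ?_)) hZN hmN ?_ ?_
    · rintro β _ i i' ⟨h1, h2, u, h3, h4⟩ ⟨-, -, u', h5, h6⟩
      obtain ⟨b, hb, hbβ⟩ := Ordinal.mem_toZFSet_iff.1 h1
      have h2 : ¬ β.1 ∈ (L ξ).toZFSet := h2
      rw [← hbβ, Ordinal.toZFSet_mem_toZFSet_iff, not_lt] at h2
      rw [← hbβ] at h4 h6
      have h7 := (hF ξ hξ f hf).1 b h2 hb _ _ h4 h6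
      rw [h3, h5, ZFSet.pair_inj] at h7
      exact Subtype.ext h7.2
    · intro i hi
      obtain ⟨β, h1, h2, h3⟩ := (hF ξ hξ f hf).2 c hcN hcL i.1 hi
      have hβN := hN.toZFSet_mem_of_le h2.le (hmem _ (hlim ξ hξ)).1
      refine ⟨⟨_, hβN⟩, hZ' β h1 h2 i.1 hi h3, Ordinal.toZFSet_mem_toZFSet_iff.2 h2, ?_,
        ⟨_, hN.pair_mem hcN i.2⟩, rfl, h3⟩
      show ¬ β.toZFSet ∈ (L ξ).toZFSet
      rw [Ordinal.toZFSet_mem_toZFSet_iff, not_lt]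
      exact h1

end Pool.Agent.H7.IG
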