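import Pool.Agent.H19.IG.J1
import Pool.Agent.H7.IG.Tk4

/-!
# IG, Part 2: uniform definability of the notions of J0

Paste the `UD` block (header of H7/IG/UD.lean) after unfolding; structures: first rewrite with an `iff` lemma
(like `Fn.iff` in Defs.lean). Remaining goals: substitution instances, e.g. `exact UD.sub3 ud_NmS (UT.var _) ...`, or
`UD.sub2 ud_Cvr ...` (Tk4), `UD.sub5`, `UD.sub6` (J1). Earlier `TraC` lemmas are used via `UD.mono _ ctmC_sub`.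
In `NmS`, `Cnd` the triple `((z, y), p)`: `w = pair (pair z y) p ↔ ∃ s : N, w = pair s p ∧ s = pair z y` (`s ∈ N` by
transitivity / `of_pair_mem`); in `LbS`: `pair (pair z y) p' ∈ b ↔ ∃ w : N, w ∈ b ∧ ∃ s : N, w = pair s p' ∧ s = pair z y`.
In `Cnd` the quantifier `∃ p` can be restricted to `p : N` for `c ∈ N`.
-/

set_option autoImplicit false
set_option linter.unusedVariables false
set_option linter.unusedSectionVars false
set_option linter.unusedSimpArgs false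
set_option linter.unusedTactic false
set_option linter.unreachableTactic false

namespace Pool.Agent.H7.IG

open Pool.Agent.H17.Omega Pool.Agent.H17.Omega.CTM Pool.Agent.H52.GX Pool.Agent.H52.GC

theorem j2_Dm : UD CtmC (fun N (v : Fin 3 → N) => Dm (v 0).1 (v 1).1 (v 2).1) := UD.mono ud_Dm ctmC_sub

theorem j2_tr : UD CtmC (fun N (v : Fin 4 → N) => (v 0).1 = ZFSet.pair (ZFSet.pair (v 1).1 (v 2).1) (v 3).1) := by
  have h : UD CtmC (fun N (v : Fin 4 → N) => ∃ s : N, s.1 = ZFSet.pair (v 1).1 (v 2).1 ∧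
      (v 0).1 = ZFSet.pair s.1 (v 3).1) := by
    (repeat' first
      | exact UT.var _ | exact UT.last | assumption
      | refine UD.pairMem ?_ ?_ ?_ | refine UD.isPair ?_ ?_ ?_ | refine UD.mem ?_ ?_
      | refine UD.eqv ?_ ?_ | refine UD.eq ?_ ?_ | refine UD.subset ?_ ?_
      | refine UD.isEmpty ?_ | refine UD.isTrans ?_ | refine UD.isOrd ?_ | refine UD.isNat ?_
      | refine UD.isUpair ?_ ?_ ?_ | refine UD.isInsert ?_ ?_ ?_ | refine UD.isUnion ?_ ?_ ?_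
      | refine UD.and ?_ ?_ | refine UD.or ?_ ?_ | refine UD.iff ?_ ?_ | refine UD.not ?_
      | refine UD.imp ?_ ?_ | refine UD.all ?_ | refine UD.ex ?_ | exact UD.false' | exact UD.true'
      | refine UD.ball ?_ ?_ | refine UD.bex ?_ ?_)
  refine h.congr fun N hN v => ?_
  have hN' : CTM N := hN
  constructor
  · rintro ⟨s, hs, h⟩
    rwa [hs] at h
  · intro h
    exact ⟨⟨_, hN'.pair_mem (v 1).2 (v 2).2⟩, rfl, h⟩

theorem j2_trm : UD CtmC (fun N (v : Fin 4 → N) => ZFSet.pair (ZFSet.pair (v 0).1 (v 1).1) (v 2).1 ∈ (v 3).1) := by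
  have h : UD CtmC (fun N (v : Fin 4 → N) => ∃ s : N, s.1 = ZFSet.pair (v 0).1 (v 1).1 ∧
      ZFSet.pair s.1 (v 2).1 ∈ (v 3).1) := by
    (repeat' first
      | exact UT.var _ | exact UT.last | assumption
      | refine UD.pairMem ?_ ?_ ?_ | refine UD.isPair ?_ ?_ ?_ | refine UD.mem ?_ ?_
      | refine UD.eqv ?_ ?_ | refine UD.eq ?_ ?_ | refine UD.subset ?_ ?_
      | refine UD.isEmpty ?_ | refine UD.isTrans ?_ | refine UD.isOrd ?_ | refine UD.isNat ?_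
      | refine UD.isUpair ?_ ?_ ?_ | refine UD.isInsert ?_ ?_ ?_ | refine UD.isUnion ?_ ?_ ?_
      | refine UD.and ?_ ?_ | refine UD.or ?_ ?_ | refine UD.iff ?_ ?_ | refine UD.not ?_
      | refine UD.imp ?_ ?_ | refine UD.all ?_ | refine UD.ex ?_ | exact UD.false' | exact UD.true'
      | refine UD.ball ?_ ?_ | refine UD.bex ?_ ?_)
  refine h.congr fun N hN v => ?_
  have hN' : CTM N := hN
  constructor
  · rintro ⟨s, hs, h⟩
    rwa [hs] at h
  · intro h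
    exact ⟨⟨_, hN'.pair_mem (v 0).2 (v 1).2⟩, rfl, h⟩

theorem ud_Ccc : UD CtmC (fun N (v : Fin 1 → N) => Ccc N (v 0).1) := by
  have h : UD CtmC (fun N (v : Fin 1 → N) => ∀ A : N, A.1 ⊆ (v 0).1 →
      (∀ a ∈ A.1, ∀ b ∈ A.1, ¬ a = b → ∀ q ∈ (v 0).1, a ⊆ q → ¬ b ⊆ q) → Ctb N A.1) := by
    (repeat' first
      | exact UT.var _ | exact UT.last | assumption
      | exact UD.sub1 (P := fun N a => Ctb N a.1) ud_Ctb (UT.var _)
      | refine UD.pairMem ?_ ?_ ?_ | refine UD.isPair ?_ ?_ ?_ | refine UD.mem ?_ ?_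
      | refine UD.eqv ?_ ?_ | refine UD.eq ?_ ?_ | refine UD.subset ?_ ?_
      | refine UD.isEmpty ?_ | refine UD.isTrans ?_ | refine UD.isOrd ?_ | refine UD.isNat ?_
      | refine UD.isUpair ?_ ?_ ?_ | refine UD.isInsert ?_ ?_ ?_ | refine UD.isUnion ?_ ?_ ?_
      | refine UD.and ?_ ?_ | refine UD.or ?_ ?_ | refine UD.iff ?_ ?_ | refine UD.not ?_
      | refine UD.imp ?_ ?_ | refine UD.all ?_ | refine UD.ex ?_ | exact UD.false' | exact UD.true'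
      | refine UD.ball ?_ ?_ | refine UD.bex ?_ ?_)
  exact h.congr fun N hN v => ⟨fun h A hA => h ⟨A, hA⟩, fun h A => h A.1 A.2⟩

theorem ud_NmS : UD CtmC (fun N (v : Fin 3 → N) => NmS (v 0).1 (v 1).1 (v 2).1) := by
  unfold NmS
  (repeat' first
      | exact UT.var _ | exact UT.last | assumption
      | exact UD.sub4 (P := fun N a b c d => a.1 = ZFSet.pair (ZFSet.pair b.1 c.1) d.1) j2_tr (UT.var _) (UT.var _) (UT.var _) (UT.var _)
      | refine UD.pairMem ?_ ?_ ?_ | refine UD.isPair ?_ ?_ ?_ | refine UD.mem ?_ ?_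
      | refine UD.eqv ?_ ?_ | refine UD.eq ?_ ?_ | refine UD.subset ?_ ?_
      | refine UD.isEmpty ?_ | refine UD.isTrans ?_ | refine UD.isOrd ?_ | refine UD.isNat ?_
      | refine UD.isUpair ?_ ?_ ?_ | refine UD.isInsert ?_ ?_ ?_ | refine UD.isUnion ?_ ?_ ?_
      | refine UD.and ?_ ?_ | refine UD.or ?_ ?_ | refine UD.iff ?_ ?_ | refine UD.not ?_
      | refine UD.imp ?_ ?_ | refine UD.all ?_ | refine UD.ex ?_ | exact UD.false' | exact UD.true'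
      | refine UD.ball ?_ ?_ | refine UD.bex ?_ ?_)

theorem ud_LbS : UD CtmC (fun N (v : Fin 7 → N) =>
    LbS (v 0).1 (v 1).1 (v 2).1 (v 3).1 (v 4).1 (v 5).1 (v 6).1) := by
  unfold LbS
  (repeat' first
      | exact UT.var _ | exact UT.last | assumption
      | exact UD.sub4 (P := fun N a b c d => ZFSet.pair (ZFSet.pair a.1 b.1) c.1 ∈ d.1) j2_trm (UT.var _) (UT.var _) (UT.var _) (UT.var _)
      | refine UD.pairMem ?_ ?_ ?_ | refine UD.isPair ?_ ?_ ?_ | refine UD.mem ?_ ?_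
      | refine UD.eqv ?_ ?_ | refine UD.eq ?_ ?_ | refine UD.subset ?_ ?_
      | refine UD.isEmpty ?_ | refine UD.isTrans ?_ | refine UD.isOrd ?_ | refine UD.isNat ?_
      | refine UD.isUpair ?_ ?_ ?_ | refine UD.isInsert ?_ ?_ ?_ | refine UD.isUnion ?_ ?_ ?_
      | refine UD.and ?_ ?_ | refine UD.or ?_ ?_ | refine UD.iff ?_ ?_ | refine UD.not ?_
      | refine UD.imp ?_ ?_ | refine UD.all ?_ | refine UD.ex ?_ | exact UD.false' | exact UD.true'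
      | refine UD.ball ?_ ?_ | refine UD.bex ?_ ?_)

theorem ud_InSt : UD CtmC (fun N (v : Fin 5 → N) => InSt (v 0).1 (v 1).1 (v 2).1 (v 3).1 (v 4).1) := by
  unfold InSt
  (repeat' first
      | exact UT.var _ | exact UT.last | assumption
      | exact UD.sub7 (P := fun N a b c d e f g => LbS a.1 b.1 c.1 d.1 e.1 f.1 g.1) ud_LbS (UT.var _) (UT.var _) (UT.var _) (UT.var _) (UT.var _) (UT.var _) (UT.var _)
      | refine UD.pairMem ?_ ?_ ?_ | refine UD.isPair ?_ ?_ ?_ | refine UD.mem ?_ ?_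
      | refine UD.eqv ?_ ?_ | refine UD.eq ?_ ?_ | refine UD.subset ?_ ?_
      | refine UD.isEmpty ?_ | refine UD.isTrans ?_ | refine UD.isOrd ?_ | refine UD.isNat ?_
      | refine UD.isUpair ?_ ?_ ?_ | refine UD.isInsert ?_ ?_ ?_ | refine UD.isUnion ?_ ?_ ?_
      | refine UD.and ?_ ?_ | refine UD.or ?_ ?_ | refine UD.iff ?_ ?_ | refine UD.not ?_
      | refine UD.imp ?_ ?_ | refine UD.all ?_ | refine UD.ex ?_ | exact UD.false' | exact UD.true'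
      | refine UD.ball ?_ ?_ | refine UD.bex ?_ ?_)

theorem ud_nx : UD CtmC (fun N (v : Fin 6 → N) => (v 5).1 = nx (v 0).1 (v 1).1 (v 2).1 (v 3).1 (v 4).1) := by
  have h : UD CtmC (fun N (v : Fin 6 → N) => (∀ p ∈ (v 5).1, p ∈ (v 1).1 ∧
      InSt (v 0).1 (v 2).1 (v 3).1 (v 4).1 p) ∧
      (∀ p ∈ (v 1).1, InSt (v 0).1 (v 2).1 (v 3).1 (v 4).1 p → p ∈ (v 5).1)) := by
    (repeat' first
      | exact UT.var _ | exact UT.last | assumption
      | exact UD.sub5 (P := fun N a b c d e => InSt a.1 b.1 c.1 d.1 e.1) ud_InSt (UT.var _) (UT.var _) (UT.var _) (UT.var _) (UT.var _)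
      | refine UD.pairMem ?_ ?_ ?_ | refine UD.isPair ?_ ?_ ?_ | refine UD.mem ?_ ?_
      | refine UD.eqv ?_ ?_ | refine UD.eq ?_ ?_ | refine UD.subset ?_ ?_
      | refine UD.isEmpty ?_ | refine UD.isTrans ?_ | refine UD.isOrd ?_ | refine UD.isNat ?_
      | refine UD.isUpair ?_ ?_ ?_ | refine UD.isInsert ?_ ?_ ?_ | refine UD.isUnion ?_ ?_ ?_
      | refine UD.and ?_ ?_ | refine UD.or ?_ ?_ | refine UD.iff ?_ ?_ | refine UD.not ?_
      | refine UD.imp ?_ ?_ | refine UD.all ?_ | refine UD.ex ?_ | exact UD.false' | exact UD.true'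
      | refine UD.ball ?_ ?_ | refine UD.bex ?_ ?_)
  refine h.congr fun N hN v => ?_
  constructor
  · rintro ⟨h1, h2⟩
    ext p
    rw [mem_nx]
    exact ⟨fun hp => h1 p hp, fun hp => h2 p hp.1 hp.2⟩
  · intro h
    rw [h]
    exact ⟨fun p hp => mem_nx.1 hp, fun p hp hp' => mem_nx.2 ⟨hp, hp'⟩⟩

theorem nx_mem {N : Set ZFSet.{0}} (hN : CTM N) {δ 𝓕 q b β : ZFSet.{0}} (hδ : δ ∈ N) (hF : 𝓕 ∈ N)
    (hq : q ∈ N) (hb : b ∈ N) (hβ : β ∈ N) : nx δ 𝓕 q b β ∈ N := by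
  refine hN.sep_mem (p := fun p => InSt δ q b β p) ?_ hF
  exact UD.d5 (P := fun N a b c d e => InSt a.1 b.1 c.1 d.1 e.1) (a := fun _ => ⟨δ, hδ⟩) (b := fun _ => ⟨q, hq⟩)
    (c := fun _ => ⟨b, hb⟩) (d := fun _ => ⟨β, hβ⟩) ud_InSt hN (DT.const _) (DT.const _) (DT.const _) (DT.const _)
    (DT.var 0)

theorem ud_Acc : UD CtmC (fun N (v : Fin 5 → N) => Acc N (v 0).1 (v 1).1 (v 2).1 (v 3).1 (v 4).1) := by
  have h : UD CtmC (fun N (v : Fin 5 → N) => NmS (v 0).1 (v 2).1 (v 3).1 ∧ Cvr N (v 0).1 (v 3).1 ∧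
      ∃ w : N, w.1 = nx (v 0).1 (v 1).1 (v 2).1 (v 3).1 (v 4).1 ∧ Ccc N w.1) := by
    (repeat' first
      | exact UT.var _ | exact UT.last | assumption
      | exact UD.sub3 (P := fun N a b c => NmS a.1 b.1 c.1) ud_NmS (UT.var _) (UT.var _) (UT.var _)
      | exact UD.sub2 (P := fun N a b => Cvr N a.1 b.1) ud_Cvr (UT.var _) (UT.var _)
      | exact UD.sub6 (P := fun N a b c d e f => f.1 = nx a.1 b.1 c.1 d.1 e.1) ud_nx (UT.var _) (UT.var _) (UT.var _) (UT.var _) (UT.var _) (UT.var _)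
      | exact UD.sub1 (P := fun N a => Ccc N a.1) ud_Ccc (UT.var _)
      | refine UD.pairMem ?_ ?_ ?_ | refine UD.isPair ?_ ?_ ?_ | refine UD.mem ?_ ?_
      | refine UD.eqv ?_ ?_ | refine UD.eq ?_ ?_ | refine UD.subset ?_ ?_
      | refine UD.isEmpty ?_ | refine UD.isTrans ?_ | refine UD.isOrd ?_ | refine UD.isNat ?_
      | refine UD.isUpair ?_ ?_ ?_ | refine UD.isInsert ?_ ?_ ?_ | refine UD.isUnion ?_ ?_ ?_
      | refine UD.and ?_ ?_ | refine UD.or ?_ ?_ | refine UD.iff ?_ ?_ | refine UD.not ?_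
      | refine UD.imp ?_ ?_ | refine UD.all ?_ | refine UD.ex ?_ | exact UD.false' | exact UD.true'
      | refine UD.ball ?_ ?_ | refine UD.bex ?_ ?_)
  refine h.congr fun N hN v => ?_
  have hN' : CTM N := hN
  constructor
  · rintro ⟨h1, h2, w, hw, h3⟩
    rw [hw] at h3
    exact ⟨h1, h2, h3⟩
  · rintro ⟨h1, h2, h3⟩
    exact ⟨h1, h2, ⟨_, nx_mem hN' (v 0).2 (v 1).2 (v 2).2 (v 3).2 (v 4).2⟩, rfl, h3⟩

theorem ud_PC : UD CtmC (fun N (v : Fin 2 → N) => PC N (v 0).1 (v 1).1) := by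
  have h : UD CtmC (fun N (v : Fin 2 → N) => ((∀ z ∈ (v 0).1, ¬ ZFSet.pair z z ∈ (v 1).1) ∧
      (∀ x ∈ (v 0).1, ∀ y ∈ (v 0).1, ∀ z ∈ (v 0).1, ¬ ZFSet.pair x y ∈ (v 1).1 → ¬ ZFSet.pair y z ∈ (v 1).1 →
        ¬ ZFSet.pair x z ∈ (v 1).1)) ∧
      ∀ A : N, A.1 ⊆ (v 0).1 → (∀ a ∈ A.1, ∀ b ∈ A.1, ¬ a = b → ∀ z ∈ (v 0).1, ¬ ZFSet.pair z a ∈ (v 1).1 →
        ZFSet.pair z b ∈ (v 1).1) → Ctb N A.1) := by
    (repeat' first
      | exact UT.var _ | exact UT.last | assumption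
      | exact UD.sub1 (P := fun N a => Ctb N a.1) ud_Ctb (UT.var _)
      | refine UD.pairMem ?_ ?_ ?_ | refine UD.isPair ?_ ?_ ?_ | refine UD.mem ?_ ?_
      | refine UD.eqv ?_ ?_ | refine UD.eq ?_ ?_ | refine UD.subset ?_ ?_
      | refine UD.isEmpty ?_ | refine UD.isTrans ?_ | refine UD.isOrd ?_ | refine UD.isNat ?_
      | refine UD.isUpair ?_ ?_ ?_ | refine UD.isInsert ?_ ?_ ?_ | refine UD.isUnion ?_ ?_ ?_
      | refine UD.and ?_ ?_ | refine UD.or ?_ ?_ | refine UD.iff ?_ ?_ | refine UD.not ?_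
      | refine UD.imp ?_ ?_ | refine UD.all ?_ | refine UD.ex ?_ | exact UD.false' | exact UD.true'
      | refine UD.ball ?_ ?_ | refine UD.bex ?_ ?_)
  exact h.congr fun N hN v => ⟨fun h => ⟨⟨h.1.1, h.1.2⟩, fun A hA => h.2 ⟨A, hA⟩⟩,
    fun h => ⟨⟨h.pre.refl, h.pre.trans⟩, fun A => h.ccc A.1 A.2⟩⟩

theorem ud_Cnd : UD CtmC (fun N (v : Fin 3 → N) => Cnd (v 0).1 (v 1).1 (v 2).1) := by
  have h : UD CtmC (fun N (v : Fin 3 → N) => ∀ w ∈ (v 2).1, ∃ z ∈ (v 0).1, ∃ y ∈ (v 0).1, ∃ p : N,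
      w = ZFSet.pair (ZFSet.pair z y) p.1 ∧ Dm (v 0).1 p.1 (v 1).1) := by
    (repeat' first
      | exact UT.var _ | exact UT.last | assumption
      | exact UD.sub4 (P := fun N a b c d => a.1 = ZFSet.pair (ZFSet.pair b.1 c.1) d.1) j2_tr (UT.var _) (UT.var _) (UT.var _) (UT.var _)
      | exact UD.sub3 (P := fun N a b c => Dm a.1 b.1 c.1) j2_Dm (UT.var _) (UT.var _) (UT.var _)
      | refine UD.pairMem ?_ ?_ ?_ | refine UD.isPair ?_ ?_ ?_ | refine UD.mem ?_ ?_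
      | refine UD.eqv ?_ ?_ | refine UD.eq ?_ ?_ | refine UD.subset ?_ ?_
      | refine UD.isEmpty ?_ | refine UD.isTrans ?_ | refine UD.isOrd ?_ | refine UD.isNat ?_
      | refine UD.isUpair ?_ ?_ ?_ | refine UD.isInsert ?_ ?_ ?_ | refine UD.isUnion ?_ ?_ ?_
      | refine UD.and ?_ ?_ | refine UD.or ?_ ?_ | refine UD.iff ?_ ?_ | refine UD.not ?_
      | refine UD.imp ?_ ?_ | refine UD.all ?_ | refine UD.ex ?_ | exact UD.false' | exact UD.true'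
      | refine UD.ball ?_ ?_ | refine UD.bex ?_ ?_)
  refine h.congr fun N hN v => ?_
  have hN' : CTM N := hN
  constructor
  · intro h w hw
    obtain ⟨z, hz, y, hy, p, h1, h2⟩ := h w hw
    exact ⟨z, hz, y, hy, p.1, h1, h2⟩
  · intro h w hw
    obtain ⟨z, hz, y, hy, p, h1, h2⟩ := h w hw
    have h3 : w ∈ N := hN'.mem_of_mem (v 2).2 hw
    rw [h1] at h3
    exact ⟨z, hz, y, hy, ⟨p, (hN'.of_pair_mem h3).2⟩, h1, h2⟩

theorem lw_mem {N : Set ZFSet.{0}} (hN : CTM N) {δ Q β : ZFSet.{0}} (hδ : δ ∈ N) (hQ : Q ∈ N) (hβ : β ∈ N) :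
    lw δ Q β ∈ N := by
  refine hN.sep_mem (p := fun p => Dm δ p β) ?_ hQ
  exact UD.d3 (P := fun N a b c => Dm a.1 b.1 c.1) (a := fun _ => ⟨δ, hδ⟩) (c := fun _ => ⟨β, hβ⟩) j2_Dm hN
    (DT.const _) (DT.var 0) (DT.const _)

theorem sc_mem {N : Set ZFSet.{0}} (hN : CTM N) {E K Y : ZFSet.{0}} (hE : E ∈ N) (hK : K ∈ N) (hY : Y ∈ N) :
    sc E K Y ∈ N := by
  refine hN.sep_mem (p := fun x => ∃ p ∈ K, ZFSet.pair x p ∈ E) ?_ hY
  show hN.Dfn (fun v : Fin 1 → N => ∃ p ∈ ((⟨K, hK⟩ : N)).1, ZFSet.pair (v 0).1 p ∈ ((⟨E, hE⟩ : N)).1)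
  (repeat' first
      | exact DT.var _ | exact DT.last | exact DT.const _ | assumption
      | refine Dfn.pairMem ?_ ?_ ?_ | refine Dfn.isPair ?_ ?_ ?_ | refine Dfn.mem ?_ ?_
      | refine Dfn.and ?_ ?_ | refine Dfn.bexZ ?_ ?_ | exact Dfn.const _)

end Pool.Agent.H7.IG
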