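import Pool.Agent.H19.IG.J0
import Pool.Agent.H7.IG.Tk4

/-!
# IG, Part 2: a code for Cohen forcing

`Coh δ R`: `z ≤ y :↔ (z, y) ∉ R` is a preorder on `δ`, every element of `δ` has an extension in `ω`, and every element has two
incompatible extensions. `coh_pc`: it is ccc in every ctm: for an antichain `A` the relation `{(n, a) : n ∈ ω, a ∈ A, n ≤ a}` is
single valued and covers `A` (`ctb_iff_cvr`). `Coh.split`: for `z, z' ∈ δ` there are `y, y' ∈ ω`, `y ≤ z`, `y' ≤ z'`, incompatible: let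
`y₁, y₂ ≤ z` be incompatible; if some `w` is below `z'` and `y₁` take `y' ≤ w` and `y ≤ y₂` in `ω`, otherwise `y ≤ y₁`, `y' ≤ z'` in `ω`.
`exists_coh`: let `C ∈ N` be the set of the finite subsets `s` of `ω × {∅, {∅}}` such that not both `(n, ∅), (n, {∅}) ∈ s` (`exists_fin`,
separation); it is countable (`Ctb.fin`, `Ctb.prod`): `π : ℕ → C` onto with `seqZ π ∈ N` (if `Ctb` gives a sequence with values outside
`C` replace them by `∅`, or define `R` by: `x, y` as below with `s x = π x` if `x = natZ n` and `π n ∈ C`, otherwise `s x = ∅`). Let `s(x) = π n` for `x = natZ n`, `s(x) = ∅`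
for `x ∈ δ ∖ ω`; `R = {(z, y) ∈ δ × δ : ¬ s(y) ⊆ s(z)}`.
-/

set_option autoImplicit false
set_option linter.unusedVariables false
set_option linter.unusedSectionVars false
set_option linter.unusedSimpArgs false
set_option linter.unusedTactic false
set_option linter.unreachableTactic false

namespace Pool.Agent.H7.IG

open Pool.Agent.H17.Omega Pool.Agent.H17.Omega.CTM Pool.Agent.H52.GX Pool.Agent.H52.GC

/-- `R` codes Cohen forcing. -/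
structure Coh (δ R : ZFSet.{0}) : Prop where
  sub : R ⊆ ZFSet.prod δ δ
  pre : PreR δ R
  om : ∀ x ∈ δ, ∃ n ∈ omZ, n ∈ δ ∧ ZFSet.pair n x ∉ R
  spl : ∀ x ∈ δ, ∃ y ∈ δ, ∃ z ∈ δ, ZFSet.pair y x ∉ R ∧ ZFSet.pair z x ∉ R ∧
    ∀ w ∈ δ, ZFSet.pair w y ∉ R → ZFSet.pair w z ∈ R

theorem Coh.pc {N : Set ZFSet.{0}} (hN : CTM N) {δ R : ZFSet.{0}} (hδ : δ ∈ N) (hR : R ∈ N) (h : Coh δ R) :
    PC N δ R := by
  refine ⟨h.pre, ?_⟩
  intro A hA hAδ hanti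
  rw [ctb_iff_cvr hN]
  refine cvr_of_dfn hN (F := fun n a => a.1 ∈ (⟨A, hA⟩ : N).1 ∧ n.1 ∈ (⟨δ, hδ⟩ : N).1 ∧
    ¬ ZFSet.pair n.1 a.1 ∈ (⟨R, hR⟩ : N).1) (by
      (repeat' first
        | exact DT.var _ | exact DT.last | exact DT.const _ | assumption
        | refine Dfn.pairMem ?_ ?_ ?_ | refine Dfn.isPair ?_ ?_ ?_ | refine Dfn.mem ?_ ?_
        | refine Dfn.eqv ?_ ?_ | refine Dfn.eq ?_ ?_ | refine Dfn.subset ?_ ?_
        | refine Dfn.and ?_ ?_ | refine Dfn.or ?_ ?_ | refine Dfn.iff ?_ ?_ | refine Dfn.not ?_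
        | refine Dfn.imp ?_ ?_ | refine Dfn.all ?_ | refine Dfn.ex ?_)) hN.omZ_mem hA ?_ ?_
  · rintro n hn x x' ⟨h1, h2, h3⟩ ⟨h1', h2', h3'⟩
    by_contra hne
    exact h3' (hanti x.1 h1 x'.1 h1' (fun h => hne (Subtype.ext h)) n.1 h2 h3)
  · intro x hx
    obtain ⟨n, hn, hnδ, hnR⟩ := h.om x.1 (hAδ hx)
    exact ⟨⟨n, hN.mem_of_mem hN.omZ_mem hn⟩, hn, hx, hnδ, hnR⟩

theorem Coh.split {δ R : ZFSet.{0}} (h : Coh δ R) {z z' : ZFSet.{0}} (hz : z ∈ δ) (hz' : z' ∈ δ) :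
    ∃ y ∈ omZ, ∃ y' ∈ omZ, y ∈ δ ∧ y' ∈ δ ∧ ZFSet.pair y z ∉ R ∧ ZFSet.pair y' z' ∉ R ∧
      ∀ w ∈ δ, ZFSet.pair w y ∉ R → ZFSet.pair w y' ∈ R := by
  obtain ⟨y1, hy1, y2, hy2, h1, h2, h3⟩ := h.spl z hz
  by_cases hc : ∃ w ∈ δ, ZFSet.pair w z' ∉ R ∧ ZFSet.pair w y1 ∉ R
  · obtain ⟨w, hw, hw1, hw2⟩ := hc
    obtain ⟨y', hy'ω, hy'δ, hy'⟩ := h.om w hw
    obtain ⟨y, hyω, hyδ, hy⟩ := h.om y2 hy2
    refine ⟨y, hyω, y', hy'ω, hyδ, hy'δ, h.pre.trans y hyδ y2 hy2 z hz hy h2,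
      h.pre.trans y' hy'δ w hw z' hz' hy' hw1, ?_⟩
    intro v hv hv1
    by_contra hv2
    exact h.pre.trans v hv y hyδ y2 hy2 hv1 hy
      (h3 v hv (h.pre.trans v hv w hw y1 hy1 (h.pre.trans v hv y' hy'δ w hw hv2 hy') hw2))
  · obtain ⟨y', hy'ω, hy'δ, hy'⟩ := h.om z' hz'
    obtain ⟨y, hyω, hyδ, hy⟩ := h.om y1 hy1
    refine ⟨y, hyω, y', hy'ω, hyδ, hy'δ, h.pre.trans y hyδ y1 hy1 z hz hy h1, hy', ?_⟩
    intro v hv hv1
    by_contra hv2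
    exact hc ⟨v, hv, h.pre.trans v hv y' hy'δ z' hz' hv2 hy', h.pre.trans v hv y hyδ y1 hy1 hv1 hy⟩

/-- A finite set of pairs misses a pair of new elements. -/
theorem exists_new {s : ZFSet.{0}} (hs : FinZ s) (a b : ZFSet.{0}) :
    ∃ n : ℕ, ZFSet.pair (natZ n) a ∉ s ∧ ZFSet.pair (natZ n) b ∉ s := by
  obtain ⟨F, hF⟩ := hs
  have hfin : ∀ c : ZFSet.{0}, {n : ℕ | ZFSet.pair (natZ n) c ∈ F}.Finite := by
    intro c
    refine Set.Finite.preimage (f := fun n : ℕ => ZFSet.pair (natZ n) c) ?_ F.finite_toSet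
    intro m hm n hn hmn
    exact natZ_inj.1 (ZFSet.pair_inj.1 hmn).1
  obtain ⟨n, hn⟩ := ((hfin a).union (hfin b)).exists_notMem
  refine ⟨n, fun h => hn (Or.inl ((hF _).1 h)), fun h => hn (Or.inr ((hF _).1 h))⟩

theorem FinZ.insert' {s : ZFSet.{0}} (hs : FinZ s) (a : ZFSet.{0}) : FinZ (insert a s) := by
  classical
  obtain ⟨F, hF⟩ := hs
  refine ⟨insert a F, fun z => ?_⟩
  rw [ZFSet.mem_insert_iff, Finset.mem_insert, hF]

theorem FinZ.empty' : FinZ (∅ : ZFSet.{0}) :=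
  ⟨∅, fun z => ⟨fun h => absurd h (ZFSet.notMem_empty z), fun h => absurd h (Finset.notMem_empty z)⟩⟩

theorem exists_coh {N : Set ZFSet.{0}} (hN : CTM N) {δ : Ordinal.{0}} (hδ : IsOm1 N δ) :
    ∃ R ∈ N, Coh δ.toZFSet R := by
  classical
  -- the two values
  obtain ⟨a, b, hab, ha, hb⟩ : ∃ a b : ZFSet.{0}, a ≠ b ∧ a ∈ omZ ∧ b ∈ omZ :=
    ⟨natZ 0, natZ 1, fun h => by simpa using natZ_inj.1 h, natZ_mem_omZ 0, natZ_mem_omZ 1⟩
  have haN := hN.mem_of_mem hN.omZ_mem ha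
  have hbN := hN.mem_of_mem hN.omZ_mem hb
  obtain ⟨Fi, hFi, hFi'⟩ := exists_fin hN (hN.prod_mem hN.omZ_mem hN.omZ_mem)
  obtain ⟨C, hC, hC'⟩ := hN.exists_sep (P := fun s => ∀ n : N,
      ¬ (ZFSet.pair n.1 (⟨a, haN⟩ : N).1 ∈ s.1 ∧ ZFSet.pair n.1 (⟨b, hbN⟩ : N).1 ∈ s.1)) (by
      (repeat' first
        | exact DT.var _ | exact DT.last | exact DT.const _ | assumption
        | refine Dfn.pairMem ?_ ?_ ?_ | refine Dfn.isPair ?_ ?_ ?_ | refine Dfn.mem ?_ ?_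
        | refine Dfn.eqv ?_ ?_ | refine Dfn.eq ?_ ?_ | refine Dfn.subset ?_ ?_
        | refine Dfn.and ?_ ?_ | refine Dfn.or ?_ ?_ | refine Dfn.iff ?_ ?_ | refine Dfn.not ?_
        | refine Dfn.imp ?_ ?_ | refine Dfn.all ?_ | refine Dfn.ex ?_)) hFi
  have hC1 : ∀ s, s ∈ C ↔ (s ⊆ ZFSet.prod omZ omZ ∧ FinZ s) ∧
      ∀ n : ℕ, ¬ (ZFSet.pair (natZ n) a ∈ s ∧ ZFSet.pair (natZ n) b ∈ s) := by
    intro s
    rw [hC', hFi']
    refine and_congr_right fun hs => ?_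
    constructor
    · rintro ⟨h1, h2⟩ n
      exact h2 ⟨natZ n, hN.natZ_mem_N n⟩
    · intro h
      refine ⟨hN.mem_of_mem hFi ((hFi' s).2 hs), ?_⟩
      rintro ⟨n, hn⟩ ⟨h1, h2⟩
      have := hs.1 h1
      rw [ZFSet.pair_mem_prod] at this
      obtain ⟨m, rfl⟩ := mem_omZ.1 this.1
      exact h m ⟨h1, h2⟩
  have hCe : (∅ : ZFSet.{0}) ∈ C := by
    rw [hC1]
    exact ⟨⟨fun z hz => absurd hz (ZFSet.notMem_empty z), FinZ.empty'⟩,
      fun n h => ZFSet.notMem_empty _ h.1⟩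
  have hCc : Ctb N C := Ctb.fin hN (Ctb.prod hN (ctb_om hN) (ctb_om hN)) (fun y hy => ((hC1 y).1 hy).1)
  obtain ⟨f, hf, hfn, hfo⟩ := cvr_onto hN hN.omZ_mem hC ((ctb_iff_cvr hN).1 hCc) ⟨∅, hCe⟩
  -- the value
  let s : ZFSet.{0} → ZFSet.{0} := fun x =>
    if h : x ∈ (omZ : ZFSet.{0}) then Classical.choose (hfn.tot x h) else ∅
  have hs1 : ∀ x, s x ∈ C := by
    intro x
    by_cases h : x ∈ (omZ : ZFSet.{0})
    · simp only [s, dif_pos h]; exact (Classical.choose_spec (hfn.tot x h)).1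
    · simp only [s, dif_neg h]; exact hCe
  have hs2 : ∀ x ∈ (omZ : ZFSet.{0}), ∀ t, ZFSet.pair x t ∈ f → t = s x := by
    intro x h t ht
    have h1 := Classical.choose_spec (hfn.tot x h)
    have h2 : t ∈ C := by
      obtain ⟨u, hu, v, hv, e⟩ := hfn.sub _ ht
      rw [(ZFSet.pair_inj.1 e).2]; exact hv
    have h3 : s x = Classical.choose (hfn.tot x h) := by simp only [s, dif_pos h]
    rw [h3]
    exact hfn.uni x h t h2 _ h1.1 ht h1.2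
  have hs3 : ∀ x ∈ (omZ : ZFSet.{0}), ZFSet.pair x (s x) ∈ f := by
    intro x h
    have h3 : s x = Classical.choose (hfn.tot x h) := by simp only [s, dif_pos h]
    rw [h3]; exact (Classical.choose_spec (hfn.tot x h)).2
  have hs4 : ∀ x, x ∉ (omZ : ZFSet.{0}) → s x = ∅ := fun x h => by simp only [s, dif_neg h]
  have hs5 : ∀ c ∈ C, ∃ n ∈ (omZ : ZFSet.{0}), s n = c := by
    intro c hc
    obtain ⟨n, hn, hnc⟩ := hfo c hc
    exact ⟨n, hn, (hs2 n hn c hnc).symm⟩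
  -- the relation
  obtain ⟨R, hR, hR'⟩ := hN.exists_sep (P := fun z => ∃ x y t u : N, z.1 = ZFSet.pair x.1 y.1 ∧
      (ZFSet.pair x.1 t.1 ∈ (⟨f, hf⟩ : N).1 ∨ (¬ x.1 ∈ (⟨_, hN.omZ_mem⟩ : N).1 ∧ t.1 = (⟨_, hN.empty_mem⟩ : N).1)) ∧
      (ZFSet.pair y.1 u.1 ∈ (⟨f, hf⟩ : N).1 ∨ (¬ y.1 ∈ (⟨_, hN.omZ_mem⟩ : N).1 ∧ u.1 = (⟨_, hN.empty_mem⟩ : N).1)) ∧
      ¬ u.1 ⊆ t.1) (by
      (repeat' first
        | exact DT.var _ | exact DT.last | exact DT.const _ | assumption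
        | refine Dfn.pairMem ?_ ?_ ?_ | refine Dfn.isPair ?_ ?_ ?_ | refine Dfn.mem ?_ ?_
        | refine Dfn.eqv ?_ ?_ | refine Dfn.eq ?_ ?_ | refine Dfn.subset ?_ ?_
        | refine Dfn.and ?_ ?_ | refine Dfn.or ?_ ?_ | refine Dfn.iff ?_ ?_ | refine Dfn.not ?_
        | refine Dfn.imp ?_ ?_ | refine Dfn.all ?_ | refine Dfn.ex ?_)) (hN.prod_mem hδ.mem hδ.mem)
  have hval : ∀ x t : ZFSet.{0}, (ZFSet.pair x t ∈ f ∨ (¬ x ∈ (omZ : ZFSet.{0}) ∧ t = ∅)) → t = s x := by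
    rintro x t (h | ⟨h1, h2⟩)
    · obtain ⟨u, hu, v, hv, e⟩ := hfn.sub _ h
      have hx : x ∈ (omZ : ZFSet.{0}) := by rw [(ZFSet.pair_inj.1 e).1]; exact hu
      exact hs2 x hx t h
    · rw [h2, hs4 x h1]
  have hval' : ∀ x : ZFSet.{0}, (ZFSet.pair x (s x) ∈ f ∨ (¬ x ∈ (omZ : ZFSet.{0}) ∧ s x = ∅)) := by
    intro x
    by_cases h : x ∈ (omZ : ZFSet.{0})
    · exact Or.inl (hs3 x h)
    · exact Or.inr ⟨h, hs4 x h⟩
  have hR1 : ∀ x y, ZFSet.pair x y ∈ R ↔ (x ∈ δ.toZFSet ∧ y ∈ δ.toZFSet) ∧ ¬ s y ⊆ s x := by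
    intro x y
    rw [hR', ZFSet.pair_mem_prod]
    refine and_congr_right fun hxy => ?_
    constructor
    · rintro ⟨h1, x', y', t, u, e, h2, h3, h4⟩
      obtain ⟨e1, e2⟩ := ZFSet.pair_inj.1 e
      subst e1 e2
      have e3 := hval _ _ h2
      have e4 := hval _ _ h3
      rw [e3, e4] at h4
      exact h4
    · intro h
      have hx := hN.mem_of_mem hδ.mem hxy.1
      have hy := hN.mem_of_mem hδ.mem hxy.2
      exact ⟨hN.pair_mem hx hy, ⟨x, hx⟩, ⟨y, hy⟩, ⟨s x, hN.mem_of_mem hC (hs1 x)⟩,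
        ⟨s y, hN.mem_of_mem hC (hs1 y)⟩, rfl, hval' x, hval' y, h⟩
  have hR2 : ∀ x ∈ δ.toZFSet, ∀ y ∈ δ.toZFSet, (ZFSet.pair x y ∉ R ↔ s y ⊆ s x) := by
    intro x hx y hy
    rw [hR1]
    constructor
    · intro h
      by_contra h'
      exact h ⟨⟨hx, hy⟩, h'⟩
    · intro h h'
      exact h'.2 h
  have hωδ : ∀ n ∈ (omZ : ZFSet.{0}), n ∈ δ.toZFSet := by
    intro n hn
    obtain ⟨m, rfl⟩ := mem_omZ.1 hn
    rw [natZ_eq]
    exact Ordinal.toZFSet_mem_toZFSet_iff.2 (hδ.omega_lt hN m)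
  refine ⟨R, hR, ?_, ⟨?_, ?_⟩, ?_, ?_⟩
  · intro z hz
    exact ((hR' z).1 hz).1
  · intro z hz
    rw [hR2 z hz z hz]
  · intro x hx y hy z hz h1 h2
    rw [hR2 x hx y hy] at h1
    rw [hR2 y hy z hz] at h2
    rw [hR2 x hx z hz]
    exact fun _ h => h1 (h2 h)
  · intro x hx
    obtain ⟨n, hn, hnx⟩ := hs5 (s x) (hs1 x)
    refine ⟨n, hn, hωδ n hn, ?_⟩
    rw [hR2 n (hωδ n hn) x hx, hnx]
  · intro x hx
    obtain ⟨⟨h1, h2⟩, h3⟩ := (hC1 _).1 (hs1 x)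
    obtain ⟨n, hn1, hn2⟩ := exists_new h2 a b
    have key : ∀ c d : ZFSet.{0}, c ∈ (omZ : ZFSet.{0}) → ZFSet.pair (natZ n) d ∉ s x →
        (∀ m : ℕ, ¬ (ZFSet.pair (natZ m) a = ZFSet.pair (natZ n) c ∧ ZFSet.pair (natZ m) b = ZFSet.pair (natZ n) c)) →
        (∀ m : ℕ, ZFSet.pair (natZ m) a = ZFSet.pair (natZ n) c → ZFSet.pair (natZ m) b ∉ s x) →
        (∀ m : ℕ, ZFSet.pair (natZ m) b = ZFSet.pair (natZ n) c → ZFSet.pair (natZ m) a ∉ s x) →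
        insert (ZFSet.pair (natZ n) c) (s x) ∈ C := by
      intro c d hc hd k1 k2 k3
      rw [hC1]
      refine ⟨⟨?_, FinZ.insert' h2 _⟩, ?_⟩
      · intro z hz
        rcases ZFSet.mem_insert_iff.1 hz with rfl | hz
        · rw [ZFSet.pair_mem_prod]; exact ⟨natZ_mem_omZ n, hc⟩
        · exact h1 hz
      · rintro m ⟨hm1, hm2⟩
        rcases ZFSet.mem_insert_iff.1 hm1 with e1 | e1 <;> rcases ZFSet.mem_insert_iff.1 hm2 with e2 | e2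
        · exact k1 m ⟨e1, e2⟩
        · exact k2 m e1 e2
        · exact k3 m e2 e1
        · exact h3 m ⟨e1, e2⟩
    have ka : insert (ZFSet.pair (natZ n) a) (s x) ∈ C := by
      refine key a b ha hn2 ?_ ?_ ?_
      · rintro m ⟨e1, e2⟩
        exact hab ((ZFSet.pair_inj.1 e2).2.symm)
      · intro m e
        rw [(ZFSet.pair_inj.1 e).1]; exact hn2
      · intro m e
        exact absurd ((ZFSet.pair_inj.1 e).2.symm) hab
    have kb : insert (ZFSet.pair (natZ n) b) (s x) ∈ C := by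
      refine key b a hb hn1 ?_ ?_ ?_
      · rintro m ⟨e1, e2⟩
        exact hab ((ZFSet.pair_inj.1 e1).2)
      · intro m e
        exact absurd ((ZFSet.pair_inj.1 e).2) hab
      · intro m e
        rw [(ZFSet.pair_inj.1 e).1]; exact hn1
    obtain ⟨y, hy, hy'⟩ := hs5 _ ka
    obtain ⟨z, hz, hz'⟩ := hs5 _ kb
    have hyδ := hωδ y hy
    have hzδ := hωδ z hz
    refine ⟨y, hyδ, z, hzδ, ?_, ?_, ?_⟩
    · rw [hR2 y hyδ x hx, hy']
      exact fun _ h => ZFSet.mem_insert_iff.2 (Or.inr h)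
    · rw [hR2 z hzδ x hx, hz']
      exact fun _ h => ZFSet.mem_insert_iff.2 (Or.inr h)
    · intro w hw hwy
      rw [hR2 w hw y hyδ, hy'] at hwy
      by_contra hwz
      rw [hR2 w hw z hzδ, hz'] at hwz
      exact ((hC1 _).1 (hs1 w)).2 n ⟨hwy (ZFSet.mem_insert_iff.2 (Or.inl rfl)),
        hwz (ZFSet.mem_insert_iff.2 (Or.inl rfl))⟩

end Pool.Agent.H7.IG
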