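import Pool.Agent.H19.IG.J4
import Pool.Agent.H19.IG.J11
import Pool.Agent.H19.IG.J12
import Pool.Agent.H19.IG.J13
import Pool.Agent.H19.IG.J20

/-!
# IG, Part 2: the continuum in the extension

`chk R = R × {∅}`: the canonical name of `R ∈ N`; `Rv δ (chk R) K = R` for all filters `K ⊆ Q` (`∅ ∈ K` by `Gen.up`, `Gen.ne`).
`coh_stage`: if `B(β) = chk R`, `R` a Cohen code, then `chk R` is accepted at stage `β` (`acc_of_forced` (J12), `Ccc.om1` (J4),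
`Coh.pc` in `N[K]`), so it is the name used (`ItB.yes`).
`coh_ne`: let `β ≠ β'` be such stages, `H` generic. There are `y, y' ∈ ω` incompatible for `R`, `(β, y), (β', y')` in conditions of `H`.
Proof: `Gen.gp`: let `p ∈ H`, `z, z'` lower bounds of `p(β), p(β')` (`stg_lb`), `y, y'` from `Coh.split`. Assume `β < β'`. Then
`p₁ = p ∪ {(β, y)} ∈ Q` (`stg_ext` with `q = rs p β`, `F = p(β) ∪ {y}`, `y` is a lower bound of `F` by transitivity, `LbS` is trivial to check: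
`((y, x), p') ∈ chk R` implies `(y, x) ∈ R`), and `p₂ = p₁ ∪ {(β', y')} ∈ Q` in the same way (`p₁(β') = p(β')`, because `β ≠ β'`).
-/

set_option autoImplicit false
set_option linter.unusedVariables false
set_option linter.unusedSectionVars false
set_option linter.unusedSimpArgs false
set_option linter.unusedTactic false
set_option linter.unreachableTactic false

namespace Pool.Agent.H7.IG

open Pool.Agent.H17.Omega Pool.Agent.H17.Omega.CTM Pool.Agent.H52.GX Pool.Agent.H52.GC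

variable {N : Set ZFSet.{0}} {δ Λ κ : Ordinal.{0}} {𝓡 Q 𝓕 B : ZFSet.{0}}

/-- The canonical name of `R`. -/
noncomputable def chk (R : ZFSet.{0}) : ZFSet.{0} := ZFSet.prod R {∅}

/-! ## Auxiliary lemmas -/

theorem pair_mem_chk {R s p : ZFSet.{0}} : ZFSet.pair s p ∈ chk R ↔ s ∈ R ∧ p = ∅ := by
  rw [chk, ZFSet.pair_mem_prod, ZFSet.mem_singleton]

theorem j21_mem {N : Set ZFSet.{0}} (hN : CTM N) {R : ZFSet.{0}} (hR : R ∈ N) : chk R ∈ N :=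
  hN.prod_mem hR (hN.singleton_mem hN.empty_mem)

theorem j21_rv {N : Set ZFSet.{0}} {δ Q R K : ZFSet.{0}} (hs : R ⊆ ZFSet.prod δ δ) (hK : Gen N Q K)
    (he : ∅ ∈ Q) : Rv δ (chk R) K = R := by
  ext w
  rw [Rv, mem_sc]
  constructor
  · rintro ⟨h1, p, hp, h2⟩
    exact (pair_mem_chk.1 h2).1
  · intro hw
    obtain ⟨q, hq⟩ := hK.ne
    exact ⟨hs hw, ∅, hK.up q hq ∅ he (ZFSet.empty_subset q), pair_mem_chk.2 ⟨hw, rfl⟩⟩

/-- Adding one element to a coordinate. -/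
theorem coh_add (hN : CTM N) (h : IsIt δ.toZFSet Λ.toZFSet 𝓡 Q 𝓕) (hF : FinSub δ.toZFSet Λ.toZFSet 𝓕)
    {R : ZFSet.{0}} {β : Ordinal.{0}} (hβ : β < Λ)
    (hb : ∀ z y p, R4 𝓡 β.toZFSet z y p ↔ ZFSet.pair (ZFSet.pair z y) p ∈ chk R) {p y : ZFSet.{0}}
    (hp : p ∈ Q) (hy : y ∈ δ.toZFSet) (hyy : ZFSet.pair y y ∉ R)
    (hyp : ∀ x ∈ δ.toZFSet, ZFSet.pair β.toZFSet x ∈ p → ZFSet.pair y x ∉ R) :
    p ∪ {ZFSet.pair β.toZFSet y} ∈ Q := by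
  have hpF := h.q_sub p hp
  obtain ⟨f1, f2⟩ := (hF p).1 hpF
  let r : ZFSet.{0} := rs p {β.toZFSet} ∪ {ZFSet.pair β.toZFSet y}
  have hrm : ∀ w, w ∈ r ↔ w ∈ rs p {β.toZFSet} ∨ w = ZFSet.pair β.toZFSet y := by
    intro w
    show w ∈ rs p {β.toZFSet} ∪ {ZFSet.pair β.toZFSet y} ↔ _
    rw [ZFSet.mem_union, ZFSet.mem_singleton]
  have hr' : ∀ w ∈ r, ∃ x ∈ δ.toZFSet, w = ZFSet.pair β.toZFSet x := by
    intro w hw
    rcases (hrm w).1 hw with h1 | h1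
    · obtain ⟨γ, hγ, x, hx, rfl⟩ := f2 w (rs_sub h1)
      rw [pair_mem_rs, ZFSet.mem_singleton] at h1
      exact ⟨x, hx, by rw [h1.1]⟩
    · exact ⟨y, hy, h1⟩
  have hrF : r ∈ 𝓕 := by
    refine (hF _).2 ⟨itA_union (itA_fin f1 rs_sub) ⟨{ZFSet.pair β.toZFSet y}, fun z => ?_⟩, fun w hw => ?_⟩
    · rw [Finset.mem_singleton, ZFSet.mem_singleton]
    · obtain ⟨x, hx, h1⟩ := hr' w hw
      exact ⟨β.toZFSet, Ordinal.toZFSet_mem_toZFSet_iff.2 hβ, x, hx, h1⟩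
  have hpr : ∀ x, ZFSet.pair β.toZFSet x ∈ p → ZFSet.pair β.toZFSet x ∈ r := by
    intro x hx
    refine (hrm _).2 (Or.inl ?_)
    rw [pair_mem_rs, ZFSet.mem_singleton]
    exact ⟨rfl, hx⟩
  have hmain := stg_ext hN h hF hβ hb hp (h.rs_mem hF hp hβ.le) (fun w hw => hw) hrF hr' hpr hy (by
    intro x hx hxr p' hp' hb' s hs h1 h2
    have h3 := (pair_mem_chk.1 hb').1
    rcases (hrm _).1 hxr with h4 | h4
    · exact hyp x hx (rs_sub h4) h3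
    · rw [ZFSet.pair_inj] at h4
      rw [h4.2] at h3
      exact hyy h3)
  have he : p ∪ {ZFSet.pair β.toZFSet y} = p ∪ (rs p β.toZFSet ∪ r) := by
    ext w
    rw [ZFSet.mem_union, ZFSet.mem_union, ZFSet.mem_union, ZFSet.mem_singleton, hrm]
    constructor
    · rintro (h1 | h1)
      · exact Or.inl h1
      · exact Or.inr (Or.inr (Or.inr h1))
    · rintro (h1 | h1 | h1 | h1)
      · exact Or.inl h1
      · exact Or.inl (rs_sub h1)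
      · exact Or.inl (rs_sub h1)
      · exact Or.inr h1
  rw [he]
  exact hmain

theorem coh_stage (hN : CTM N) (h : ItB N δ Λ 𝓡 Q 𝓕 B) (hδ : IsOm1 N δ) (hB : BK N δ Λ κ B) {R : ZFSet.{0}}
    (hR : R ∈ N) (hc : Coh δ.toZFSet R) {β : Ordinal.{0}} (hβ : β < Λ)
    (hb : ZFSet.pair β.toZFSet (chk R) ∈ B) :
    (∀ z y p, R4 𝓡 β.toZFSet z y p ↔ ZFSet.pair (ZFSet.pair z y) p ∈ chk R) ∧
      ∀ K, Gen N Q K → Rv δ.toZFSet (chk R) K = R := by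
  have hemp := h.empty_mem hN
  have hδ0 : 0 < δ := by simpa using hδ.omega_lt hN 0
  have hrv : ∀ K, Gen N Q K → Rv δ.toZFSet (chk R) K = R := fun K hK => j21_rv hc.sub hK hemp
  refine ⟨h.yes β hβ _ hb ?_, hrv⟩
  have hccc : Ccc N Q := h.ccc hN hδ hB.fn
  refine acc_of_forced hN h.it h.fin h.Q_mem h.F_mem hδ h.L_mem hccc hβ (j21_mem hN hR) ?_ ?_ ?_ ?_
  · intro w hw
    obtain ⟨s, hs, p, hp, rfl⟩ := ZFSet.mem_prod.1 (show w ∈ ZFSet.prod R {∅} from hw)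
    obtain ⟨z, hz, y, hy, rfl⟩ := ZFSet.mem_prod.1 (hc.sub hs)
    rw [ZFSet.mem_singleton] at hp
    subst hp
    exact ⟨z, hz, y, hy, ∅, mem_lw.2 ⟨hemp, fun w hw => (ZFSet.notMem_empty w hw).elim⟩, rfl⟩
  · refine cvr_prod2_om1 hN hδ hR (hN.singleton_mem hN.empty_mem) ((cvr_prod_om1 hN hδ).mono hc.sub) ?_
    refine cvr_of_subset hN hδ.mem fun x hx => ?_
    rw [ZFSet.mem_singleton] at hx
    rw [hx, ← Ordinal.toZFSet_zero]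
    exact Ordinal.toZFSet_mem_toZFSet_iff.2 hδ0
  · intro K hK
    exact hccc.om1 hN h.Q_mem hK hδ
  · intro K hK
    rw [hrv K hK]
    have hs := hK.sub_xt hN h.Q_mem
    exact hc.pc (hK.ctm hN h.Q_mem) (hs hδ.mem) (hs hR)

theorem coh_ne (hN : CTM N) (h : ItB N δ Λ 𝓡 Q 𝓕 B) (hδ : IsOm1 N δ) (hB : BK N δ Λ κ B) {R : ZFSet.{0}}
    (hR : R ∈ N) (hc : Coh δ.toZFSet R) {β β' : Ordinal.{0}} (hβ : β < Λ) (hβ' : β' < Λ) (hne : β ≠ β')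
    (hb : ZFSet.pair β.toZFSet (chk R) ∈ B) (hb' : ZFSet.pair β'.toZFSet (chk R) ∈ B) {H : ZFSet.{0}}
    (hH : Gen N Q H) :
    ∃ y ∈ omZ, ∃ y' ∈ omZ, y ∈ δ.toZFSet ∧ y' ∈ δ.toZFSet ∧ (∃ p ∈ H, ZFSet.pair β.toZFSet y ∈ p) ∧
      (∃ p ∈ H, ZFSet.pair β'.toZFSet y' ∈ p) ∧ ∀ w ∈ δ.toZFSet, ZFSet.pair w y ∉ R → ZFSet.pair w y' ∈ R := by
  have hδ0 : 0 < δ := by simpa using hδ.omega_lt hN 0
  obtain ⟨h1, h2⟩ := coh_stage hN h hδ hB hR hc hβ hb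
  obtain ⟨h3, h4⟩ := coh_stage hN h hδ hB hR hc hβ' hb'
  have hQ := h.Q_mem
  have hβN : β.toZFSet ∈ N := hN.mem_of_mem h.L_mem (Ordinal.toZFSet_mem_toZFSet_iff.2 hβ)
  have hβN' : β'.toZFSet ∈ N := hN.mem_of_mem h.L_mem (Ordinal.toZFSet_mem_toZFSet_iff.2 hβ')
  have hdf : hN.Dfn (fun v : Fin 1 → N => ∃ y y' : N, y.1 ∈ (⟨omZ, hN.omZ_mem⟩ : N).1 ∧
      y'.1 ∈ (⟨omZ, hN.omZ_mem⟩ : N).1 ∧ y.1 ∈ (⟨δ.toZFSet, hδ.mem⟩ : N).1 ∧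
      y'.1 ∈ (⟨δ.toZFSet, hδ.mem⟩ : N).1 ∧ ZFSet.pair (⟨β.toZFSet, hβN⟩ : N).1 y.1 ∈ (v 0).1 ∧
      ZFSet.pair (⟨β'.toZFSet, hβN'⟩ : N).1 y'.1 ∈ (v 0).1 ∧
      ∀ w ∈ (⟨δ.toZFSet, hδ.mem⟩ : N).1, ZFSet.pair w y.1 ∉ (⟨R, hR⟩ : N).1 →
        ZFSet.pair w y'.1 ∈ (⟨R, hR⟩ : N).1) := by
    refine Dfn.ex (Dfn.ex ((Dfn.mem (DT.var _) (DT.const _)).and ((Dfn.mem (DT.var _) (DT.const _)).and
      ((Dfn.mem (DT.var _) (DT.const _)).and ((Dfn.mem (DT.var _) (DT.const _)).and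
      ((Dfn.pairMem (DT.const _) (DT.var _) (DT.var _)).and
      ((Dfn.pairMem (DT.const _) (DT.var _) (DT.var _)).and (Dfn.ballZ (DT.const _)
      ((Dfn.pairMem (DT.var _) (DT.var _) (DT.const _)).not.imp
        (Dfn.pairMem (DT.var _) (DT.var _) (DT.const _)))))))))))
  obtain ⟨u, hu, y, y', k1, k2, k3, k4, k5, k6, k7⟩ := hH.gp hN hQ (D := fun u : N => ∃ y y' : N, y.1 ∈ omZ ∧
      y'.1 ∈ omZ ∧ y.1 ∈ δ.toZFSet ∧ y'.1 ∈ δ.toZFSet ∧ ZFSet.pair β.toZFSet y.1 ∈ u.1 ∧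
      ZFSet.pair β'.toZFSet y'.1 ∈ u.1 ∧
      ∀ w ∈ δ.toZFSet, ZFSet.pair w y.1 ∉ R → ZFSet.pair w y'.1 ∈ R) hdf (by
    intro p hp
    have hpQ := hH.sub p hp
    obtain ⟨z, hz, hzp⟩ := stg_lb hN h.it h.fin hQ h.R_mem hδ.mem hδ0 h.L_mem hβ (j21_mem hN hR) h1 hH hp
    obtain ⟨z', hz', hzp'⟩ := stg_lb hN h.it h.fin hQ h.R_mem hδ.mem hδ0 h.L_mem hβ' (j21_mem hN hR) h3 hH hp
    rw [h2 H hH] at hzp hzp'
    obtain ⟨y, hy, y', hy', hyd, hyd', hyz, hyz', hinc⟩ := hc.split hz hz'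
    have hq1 := coh_add hN h.it h.fin hβ h1 hpQ hyd (hc.pre.refl y hyd) (fun x hx hxp =>
      hc.pre.trans y hyd z hz x hx hyz (hzp x hx hxp))
    have hq2 := coh_add hN h.it h.fin hβ' h3 hq1 hyd' (hc.pre.refl y' hyd') (fun x hx hxp => by
      rcases ZFSet.mem_union.1 hxp with h5 | h5
      · exact hc.pre.trans y' hyd' z' hz' x hx hyz' (hzp' x hx h5)
      · rw [ZFSet.mem_singleton, ZFSet.pair_inj] at h5
        exact (hne (Ordinal.toZFSet_injective h5.1.symm)).elim)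
    refine ⟨⟨_, hN.mem_of_mem hQ hq2⟩, hq2, fun w hw => ZFSet.mem_union.2 (Or.inl (ZFSet.mem_union.2 (Or.inl hw))),
      ⟨y, hN.mem_of_mem hδ.mem hyd⟩, ⟨y', hN.mem_of_mem hδ.mem hyd'⟩, hy, hy', hyd, hyd', ?_, ?_, hinc⟩
    · exact ZFSet.mem_union.2 (Or.inl (ZFSet.mem_union.2 (Or.inr (ZFSet.mem_singleton.2 rfl))))
    · exact ZFSet.mem_union.2 (Or.inr (ZFSet.mem_singleton.2 rfl)))
  exact ⟨y.1, k1, y'.1, k2, k3, k4, ⟨u.1, hu, k5⟩, ⟨u.1, hu, k6⟩, k7⟩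

end Pool.Agent.H7.IG
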