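import Pool.Agent.H19.IG.J21

/-!
# IG, Part 2: the continuum in the extension is larger than `κ`

`bigC`: let `f ∈ W = N[H]` be single valued and suppose that every real of `W` is a value `f(x)`, `x ∈ κ`. Let `c = chk R`,
`Z = {β.toZFSet : β < Λ, B(β) = c} ∈ N`, `g_β = {x ∈ ω : ∃ p ∈ H, (β, x) ∈ p} ∈ W`. For different `β, β' ∈ Z`: `g_β ≠ g_β'`, because otherwise
(`coh_ne`) `y, y' ∈ g_β`, both in one condition `p ∈ H` (directedness), and `stg_lb` gives `z ≤ y, y'`: contradiction. So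
`{(x, β) : x ∈ κ, β ∈ Z, (x, g_β) ∈ f} ∈ W` is single valued on `κ` and covers `Z`; by `Ccc.cvr` `κ × ω` covers `Z` in `N`, contradiction to
`BK.rep` (`α = 0`, `Cnd` is clear).
-/

set_option autoImplicit false
set_option linter.unusedVariables false
set_option linter.unusedSectionVars false
set_option linter.unusedSimpArgs false
set_option linter.unusedTactic false
set_option linter.unreachableTactic false

namespace Pool.Agent.H7.IG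

open Pool.Agent.H17.Omega Pool.Agent.H17.Omega.CTM Pool.Agent.H52.GX Pool.Agent.H52.GC

variable {N : Set ZFSet.{0}} {δ Λ κ : Ordinal.{0}} {𝓡 Q 𝓕 B : ZFSet.{0}}

/-- The real added at the stage `b`. -/
noncomputable def gr (H b : ZFSet.{0}) : ZFSet.{0} := ZFSet.sep (fun x => ∃ p ∈ H, ZFSet.pair b x ∈ p) omZ

theorem mem_gr {H b x : ZFSet.{0}} : x ∈ gr H b ↔ x ∈ omZ ∧ ∃ p ∈ H, ZFSet.pair b x ∈ p := ZFSet.mem_sep

theorem gr_mem {W : Set ZFSet.{0}} (hW : CTM W) {H b : ZFSet.{0}} (hH : H ∈ W) (hb : b ∈ W) : gr H b ∈ W := by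
  obtain ⟨g, hg, hg'⟩ := hW.exists_sep (P := fun x => ∃ p : W, p.1 ∈ (⟨H, hH⟩ : W).1 ∧
      ZFSet.pair (⟨b, hb⟩ : W).1 x.1 ∈ p.1) (by
      (repeat' first
        | exact DT.var _ | exact DT.last | exact DT.const _ | assumption
        | refine Dfn.pairMem ?_ ?_ ?_ | refine Dfn.isPair ?_ ?_ ?_ | refine Dfn.mem ?_ ?_
        | refine Dfn.eqv ?_ ?_ | refine Dfn.eq ?_ ?_ | refine Dfn.subset ?_ ?_
        | refine Dfn.and ?_ ?_ | refine Dfn.or ?_ ?_ | refine Dfn.iff ?_ ?_ | refine Dfn.not ?_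
        | refine Dfn.imp ?_ ?_ | refine Dfn.all ?_ | refine Dfn.ex ?_)) hW.omZ_mem
  have : gr H b = g := by
    ext x
    rw [mem_gr, hg']
    refine and_congr_right fun hx => ?_
    constructor
    · rintro ⟨p, hp, hpx⟩
      exact ⟨hW.mem_of_mem hW.omZ_mem hx, ⟨p, hW.mem_of_mem hH hp⟩, hp, hpx⟩
    · rintro ⟨_, p, hp, hpx⟩
      exact ⟨p.1, hp, hpx⟩
  rw [this]; exact hg

/-- Different stages with the same Cohen code add different reals. -/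
theorem gr_ne (hN : CTM N) (h : ItB N δ Λ 𝓡 Q 𝓕 B) (hδ : IsOm1 N δ) (hB : BK N δ Λ κ B) {R : ZFSet.{0}}
    (hR : R ∈ N) (hcN : chk R ∈ N) (hc : Coh δ.toZFSet R) {β β' : Ordinal.{0}} (hβ : β < Λ) (hβ' : β' < Λ) (hne : β ≠ β')
    (hb : ZFSet.pair β.toZFSet (chk R) ∈ B) (hb' : ZFSet.pair β'.toZFSet (chk R) ∈ B) {H : ZFSet.{0}}
    (hH : Gen N Q H) : gr H β.toZFSet ≠ gr H β'.toZFSet := by
  intro he
  obtain ⟨y, hy, y', hy', hyδ, hy'δ, ⟨p, hp, hpy⟩, ⟨p', hp', hp'y'⟩, hinc⟩ :=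
    coh_ne hN h hδ hB hR hc hβ hβ' hne hb hb' hH
  have h1 : y ∈ gr H β'.toZFSet := by
    rw [← he]
    exact mem_gr.2 ⟨hy, p, hp, hpy⟩
  obtain ⟨_, p1, hp1, hp1y⟩ := mem_gr.1 h1
  obtain ⟨r, hr, hr1, hr2⟩ := hH.dir p1 hp1 p' hp'
  obtain ⟨hst, hval⟩ := coh_stage hN h hδ hB hR hc hβ' hb'
  have hδ0 : 0 < δ := by
    have := hδ.omega_lt hN 0
    simpa using this
  obtain ⟨z, hz, hz'⟩ := stg_lb hN h.it h.fin h.Q_mem h.R_mem hδ.mem hδ0 h.L_mem hβ' hcN hst hH hr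
  rw [hval H hH] at hz'
  exact hz' y' hy'δ (hr2 hp'y') (hinc z hz (hz' y hyδ (hr1 hp1y)))

theorem bigC (hN : CTM N) (h : ItB N δ Λ 𝓡 Q 𝓕 B) (hδ : IsOm1 N δ) (hκ : κ.toZFSet ∈ N) (hB : BK N δ Λ κ B)
    {H : ZFSet.{0}} (hH : Gen N Q H) : BigC (Xt N H) κ := by
  classical
  intro f hf huni
  by_contra hcon
  push Not at hcon
  obtain ⟨R, hR, hc⟩ := exists_coh hN hδ
  have hQN := h.Q_mem
  have hW := hH.ctm hN hQN
  have hsub := hH.sub_xt hN hQN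
  have hHW := hH.mem_xt hN hQN
  have hcN : chk R ∈ N := hN.prod_mem hR (hN.singleton_mem hN.empty_mem)
  obtain ⟨Z, hZ, hZ'⟩ := hN.exists_sep (P := fun b => ZFSet.pair b.1 (⟨chk R, hcN⟩ : N).1 ∈ (⟨B, hB.B_mem⟩ : N).1) (by
      (repeat' first
        | exact DT.var _ | exact DT.last | exact DT.const _ | assumption
        | refine Dfn.pairMem ?_ ?_ ?_ | refine Dfn.isPair ?_ ?_ ?_ | refine Dfn.mem ?_ ?_)) h.L_mem
  have hZ1 : ∀ b, b ∈ Z ↔ b ∈ Λ.toZFSet ∧ ZFSet.pair b (chk R) ∈ B := by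
    intro b
    rw [hZ']
    refine and_congr_right fun hb => ?_
    exact ⟨fun ⟨_, h1⟩ => h1, fun h1 => ⟨hN.mem_of_mem h.L_mem hb, h1⟩⟩
  refine hB.rep (chk R) hcN 0 hB.pos ?_ Z hZ ?_ ?_
  · intro w hw
    obtain ⟨w', hw', p, hp, rfl⟩ := ZFSet.mem_prod.1 hw
    obtain ⟨z, hz, y, hy, rfl⟩ := ZFSet.mem_prod.1 (hc.sub hw')
    refine ⟨z, hz, y, hy, p, rfl, ?_⟩
    rw [ZFSet.mem_singleton] at hp
    rw [hp]
    intro v hv
    exact absurd hv (ZFSet.notMem_empty v)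
  · intro β hβ _ hb
    exact (hZ1 _).2 ⟨Ordinal.toZFSet_mem_toZFSet_iff.2 hβ, hb⟩
  refine (h.ccc hN hδ hB.fn).cvr hN hQN hH hκ hZ ?_
  -- the cover in the extension
  refine cvr_of_dfn hW (F := fun x b => b.1 ∈ (⟨Z, hsub hZ⟩ : Xt N H).1 ∧ ∃ r : Xt N H,
      ZFSet.pair x.1 r.1 ∈ (⟨f, hf⟩ : Xt N H).1 ∧
      ∀ n : Xt N H, (n.1 ∈ r.1 ↔ (n.1 ∈ (⟨_, hW.omZ_mem⟩ : Xt N H).1 ∧ ∃ p : Xt N H, p.1 ∈ (⟨H, hHW⟩ : Xt N H).1 ∧
        ZFSet.pair b.1 n.1 ∈ p.1))) (by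
      (repeat' first
        | exact DT.var _ | exact DT.last | exact DT.const _ | assumption
        | refine Dfn.pairMem ?_ ?_ ?_ | refine Dfn.isPair ?_ ?_ ?_ | refine Dfn.mem ?_ ?_
        | refine Dfn.eqv ?_ ?_ | refine Dfn.eq ?_ ?_ | refine Dfn.subset ?_ ?_
        | refine Dfn.and ?_ ?_ | refine Dfn.or ?_ ?_ | refine Dfn.iff ?_ ?_ | refine Dfn.not ?_
        | refine Dfn.imp ?_ ?_ | refine Dfn.all ?_ | refine Dfn.ex ?_)) (hsub hκ) (hsub hZ) ?_ ?_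
  · rintro x hx b b' ⟨hb, r, hr, hr'⟩ ⟨hb', r', hr2, hr2'⟩
    have e : r.1 = r'.1 := huni _ _ _ hr hr2
    have key : ∀ b : Xt N H, ∀ r : Xt N H, (∀ n : Xt N H, (n.1 ∈ r.1 ↔ (n.1 ∈ (omZ : ZFSet.{0}) ∧
        ∃ p : Xt N H, p.1 ∈ H ∧ ZFSet.pair b.1 n.1 ∈ p.1))) → r.1 = gr H b.1 := by
      intro b r hr
      ext n
      rw [mem_gr]
      constructor
      · intro hn
        obtain ⟨h1, p, hp, hpn⟩ := (hr ⟨n, hW.mem_of_mem r.2 hn⟩).1 hn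
        exact ⟨h1, p.1, hp, hpn⟩
      · rintro ⟨h1, p, hp, hpn⟩
        exact (hr ⟨n, hW.mem_of_mem hW.omZ_mem h1⟩).2 ⟨h1, ⟨p, hW.mem_of_mem hHW hp⟩, hp, hpn⟩
    have e1 := key b r hr'
    have e2 := key b' r' hr2'
    obtain ⟨h1, h2⟩ := (hZ1 _).1 hb
    obtain ⟨h1', h2'⟩ := (hZ1 _).1 hb'
    obtain ⟨β, hβ, hβe⟩ := Ordinal.mem_toZFSet_iff.1 h1
    obtain ⟨β', hβ', hβe'⟩ := Ordinal.mem_toZFSet_iff.1 h1'
    by_contra hne
    have hne' : β ≠ β' := by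
      rintro rfl
      exact hne (Subtype.ext (hβe.symm.trans hβe'))
    rw [← hβe] at h2 e1
    rw [← hβe'] at h2' e2
    exact gr_ne hN h hδ hB hR hcN hc hβ hβ' hne' h2 h2' hH (e1.symm.trans (e.trans e2))
  · intro b hb
    have hg := gr_mem hW hHW b.2
    obtain ⟨x, hx, hxf⟩ := hcon (gr H b.1) hg (fun z hz => (mem_gr.1 hz).1)
    refine ⟨⟨x, hsub (hN.mem_of_mem hκ hx)⟩, hx, hb, ⟨gr H b.1, hg⟩, hxf, ?_⟩
    intro n
    show n.1 ∈ gr H b.1 ↔ _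
    rw [mem_gr]
    refine and_congr_right fun _ => ?_
    constructor
    · rintro ⟨p, hp, hpn⟩
      exact ⟨⟨p, hW.mem_of_mem hHW hp⟩, hp, hpn⟩
    · rintro ⟨p, hp, hpn⟩
      exact ⟨p.1, hp, hpn⟩

end Pool.Agent.H7.IG
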