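import Pool.Agent.H19.IG.J2
import Pool.Agent.H7.IG.Gx
import Pool.Agent.H7.IG.Tk3
import Pool.Agent.H7.IG.Tk5
import Pool.Agent.H7.IG.Tk8

/-!
# IG, Part 2: functions in ccc extensions

`Gen.gp`: if every `p ∈ G` has an extension `q ∈ P` with `D q`, then some `q ∈ G` satisfies `D`. Apply `Gen.meet` to
`D' q :↔ D q ∨ ¬ ∃ r ∈ P, q ⊆ r ∧ D r` (dense).
`Ccc.fn`: `f = vl G τ`, `τ ∈ M`; by the truth lemma (`Frc.truth`, for the uniformly definable statement about `(A, B, f)`) some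
`p₀ ∈ G` forces that `τ` is single valued on `A` (with values in `B`). Let `F` be the set of the `(x, y) ∈ A × B` such that some
`p ∈ P`, `p₀ ⊆ p` forces `pair x y ∈ τ` (in `M` by separation and `Frc.dfn3`, `Frc.dfn4`; the statement `pair x y ∈ τ` is a
`UD` statement of `(x, y, τ)` with arguments `.g x, .g y, .n τ`). For `x ∈ A` let `Y = {y ∈ B : (x, y) ∈ F}`; choose
(`exists_choice`) `c ∈ M`, `c : Y → P`, `c(y)` forces `(x, y) ∈ τ`, `p₀ ⊆ c(y)`. For `y ≠ y'` the conditions `c(y), c(y')` are incompatible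
(otherwise take a generic filter containing both, `exists_gen`), so `c[Y]` is an antichain, hence countable, and `Y` is
its image under `c⁻¹` (`Ctb.image`).
-/

set_option autoImplicit false
set_option linter.unusedVariables false
set_option linter.unusedSectionVars false
set_option linter.unusedSimpArgs false
set_option linter.unusedTactic false
set_option linter.unreachableTactic false

namespace Pool.Agent.H7.IG

open Pool.Agent.H17.Omega Pool.Agent.H17.Omega.CTM Pool.Agent.H52.GX Pool.Agent.H52.GC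

variable {M : Set ZFSet.{0}} {P G : ZFSet.{0}}

theorem Gen.gp (hG : Gen M P G) (hM : CTM M) (hP : P ∈ M) {D : M → Prop}
    (hD : hM.Dfn (fun v : Fin 1 → M => D (v 0)))
    (h : ∀ p ∈ G, ∃ q : M, q.1 ∈ P ∧ p ⊆ q.1 ∧ D q) : ∃ q : M, q.1 ∈ G ∧ D q := by
  classical
  obtain ⟨p, hp⟩ := hG.ne
  have hPM : ∀ z ∈ P, z ∈ M := fun z hz => hM.mem_of_mem hP hz
  have hD' : hM.Dfn (fun v : Fin 1 → M => D (v 0) ∨ ¬ ∃ r : M, r.1 ∈ (⟨P, hP⟩ : M).1 ∧ (v 0).1 ⊆ r.1 ∧ D r) := by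
    refine Dfn.or hD (Dfn.not (Dfn.ex (Dfn.and (Dfn.mem (DT.var _) (DT.const _))
      (Dfn.and (Dfn.subset (DT.var _) (DT.var _)) ?_))))
    exact Dfn.subst1 (P := fun x => D x) hD (DT.var _)
  obtain ⟨q, hq, _, h1⟩ := hG.meet hM hP (D := fun q => D q ∨ ¬ ∃ r : M, r.1 ∈ (⟨P, hP⟩ : M).1 ∧ q.1 ⊆ r.1 ∧ D r)
    hD' hp (by
      intro r hr _
      by_cases hr' : ∃ q : M, q.1 ∈ P ∧ r ⊆ q.1 ∧ D q
      · obtain ⟨q, h1, h2, h3⟩ := hr'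
        exact ⟨q, h1, h2, Or.inl h3⟩
      · exact ⟨⟨r, hPM r hr⟩, hr, fun z hz => hz, Or.inr hr'⟩)
  refine ⟨q, hq, ?_⟩
  rcases h1 with h1 | h1
  · exact h1
  · exact (h1 (h q.1 hq)).elim

/-- The uniformly definable statement: single valued. -/
def j3U (N : Set ZFSet.{0}) (v : Fin 3 → N) : Prop :=
  ∀ x ∈ (v 0).1, ∀ y ∈ (v 1).1, ∀ y' ∈ (v 1).1, ZFSet.pair x y ∈ (v 2).1 → ZFSet.pair x y' ∈ (v 2).1 → y = y'

theorem j3U_ud : UD CtmC j3U := by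
  unfold j3U
  (repeat' first
      | exact UT.var _ | exact UT.last | assumption
      | refine UD.pairMem ?_ ?_ ?_ | refine UD.isPair ?_ ?_ ?_ | refine UD.mem ?_ ?_
      | refine UD.eqv ?_ ?_ | refine UD.eq ?_ ?_ | refine UD.subset ?_ ?_
      | refine UD.and ?_ ?_ | refine UD.or ?_ ?_ | refine UD.iff ?_ ?_ | refine UD.not ?_
      | refine UD.imp ?_ ?_ | refine UD.all ?_ | refine UD.ex ?_ | exact UD.false' | exact UD.true'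
      | refine UD.ball ?_ ?_ | refine UD.bex ?_ ?_)

/-- The uniformly definable statement: `pair x y ∈ f`. -/
def j3E (N : Set ZFSet.{0}) (v : Fin 3 → N) : Prop := ZFSet.pair (v 0).1 (v 1).1 ∈ (v 2).1

theorem j3E_ud : UD CtmC j3E := by
  unfold j3E
  exact UD.pairMem (UT.var _) (UT.var _) (UT.var _)

/-- Functions of a ccc extension are covered by multivalued functions of `M` with countable values. -/
theorem Ccc.fn (hc : Ccc M P) (hM : CTM M) (hP : P ∈ M) (hG : Gen M P G) {A B f : ZFSet.{0}} (hA : A ∈ M)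
    (hB : B ∈ M) (hf : f ∈ Xt M G)
    (huni : ∀ x ∈ A, ∀ y ∈ B, ∀ y' ∈ B, ZFSet.pair x y ∈ f → ZFSet.pair x y' ∈ f → y = y') :
    ∃ F ∈ M, F ⊆ ZFSet.prod A B ∧ (∀ x ∈ A, ∀ y ∈ B, ZFSet.pair x y ∈ f → ZFSet.pair x y ∈ F) ∧
      ∀ x ∈ A, ∃ Y ∈ M, Ctb M Y ∧ ∀ y, ZFSet.pair x y ∈ F → y ∈ Y := by
  classical
  obtain ⟨τ, hτ, rfl⟩ := hf
  have hPM : ∀ z ∈ P, z ∈ M := fun z hz => hM.mem_of_mem hP hz
  have hAM : ∀ z ∈ A, z ∈ M := fun z hz => hM.mem_of_mem hA hz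
  have hBM : ∀ z ∈ B, z ∈ M := fun z hz => hM.mem_of_mem hB hz
  have hsub : ∀ {G' : ZFSet.{0}}, Gen M P G' → ∀ {z : ZFSet.{0}}, z ∈ M → z ∈ Xt M G' :=
    fun {_} hG' {_} hz => hG'.sub_xt hM hP hz
  obtain ⟨p₀, hp₀, hF₀⟩ := (Frc.truth j3U_ud hM hP hG ![.g ⟨A, hA⟩, .g ⟨B, hB⟩, .n ⟨τ, hτ⟩]
    ![⟨A, hsub hG hA⟩, ⟨B, hsub hG hB⟩, ⟨vl G τ, ⟨τ, hτ, rfl⟩⟩] (by
      intro i; fin_cases i <;> rfl)).1 huni
  have hp₀M : p₀ ∈ M := hPM _ (hG.sub _ hp₀)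
  -- the key consequence of `hF₀`
  have key : ∀ x ∈ A, ∀ y ∈ B, ∀ y' ∈ B, ∀ G', Gen M P G' → p₀ ∈ G' → ZFSet.pair x y ∈ vl G' τ →
      ZFSet.pair x y' ∈ vl G' τ → y = y' := by
    intro x hx y hy y' hy' G' hG' hp h1 h2
    have h3 := hF₀ G' hG' hp ![⟨A, hsub hG' hA⟩, ⟨B, hsub hG' hB⟩, ⟨vl G' τ, ⟨τ, hτ, rfl⟩⟩] (by
      intro i; fin_cases i <;> rfl)
    exact h3 x hx y hy y' hy' h1 h2
  -- forcing of membership
  have hfE : ∀ (p : ZFSet.{0}) (x y : M), Frc M P j3E p ![.g x, .g y, .n ⟨τ, hτ⟩] →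
      ∀ G', Gen M P G' → p ∈ G' → ZFSet.pair x.1 y.1 ∈ vl G' τ := by
    intro p x y h G' hG' hp
    exact h G' hG' hp ![⟨x.1, hsub hG' x.2⟩, ⟨y.1, hsub hG' y.2⟩, ⟨vl G' τ, ⟨τ, hτ, rfl⟩⟩] (by
      intro i; fin_cases i <;> rfl)
  obtain ⟨F, hF, hF'⟩ := hM.exists_sep (P := fun z => ∃ x y : M, z.1 = ZFSet.pair x.1 y.1 ∧ ∃ p : M,
      p.1 ∈ (⟨P, hP⟩ : M).1 ∧ (⟨p₀, hp₀M⟩ : M).1 ⊆ p.1 ∧ Frc M P j3E p.1 ![.g x, .g y, .n ⟨τ, hτ⟩]) (by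
    refine Dfn.ex (Dfn.ex (Dfn.and (Dfn.isPair (DT.var _) (DT.var _) (DT.var _)) (Dfn.ex (Dfn.and
      (Dfn.mem (DT.var _) (DT.const _)) (Dfn.and (Dfn.subset (DT.const _) (DT.var _)) ?_)))))
    exact Frc.dfn3 j3E_ud hP (DT.var _) (AT.g (DT.var _)) (AT.g (DT.var _)) (AT.n (DT.const _)))
    (hM.prod_mem hA hB)
  have hFi : ∀ x y : M, ZFSet.pair x.1 y.1 ∈ F ↔ x.1 ∈ A ∧ y.1 ∈ B ∧ ∃ p : M, p.1 ∈ P ∧ p₀ ⊆ p.1 ∧
      Frc M P j3E p.1 ![.g x, .g y, .n ⟨τ, hτ⟩] := by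
    intro x y
    rw [hF', ZFSet.pair_mem_prod]
    constructor
    · rintro ⟨⟨h1, h2⟩, _, x', y', h3, h4⟩
      have h3 : ZFSet.pair x.1 y.1 = ZFSet.pair x'.1 y'.1 := h3
      rw [ZFSet.pair_inj] at h3
      rw [Subtype.ext h3.1, Subtype.ext h3.2]
      exact ⟨h3.1 ▸ h1, h3.2 ▸ h2, h4⟩
    · rintro ⟨h1, h2, h3⟩
      exact ⟨⟨h1, h2⟩, hM.pair_mem x.2 y.2, x, y, rfl, h3⟩
  refine ⟨F, hF, fun z hz => ((hF' z).1 hz).1, ?_, ?_⟩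
  · intro x hx y hy hxy
    refine (hFi ⟨x, hAM x hx⟩ ⟨y, hBM y hy⟩).2 ⟨hx, hy, ?_⟩
    obtain ⟨p, hp, hpF⟩ := (Frc.truth j3E_ud hM hP hG ![.g ⟨x, hAM x hx⟩, .g ⟨y, hBM y hy⟩, .n ⟨τ, hτ⟩]
      ![⟨x, hsub hG (hAM x hx)⟩, ⟨y, hsub hG (hBM y hy)⟩, ⟨vl G τ, ⟨τ, hτ, rfl⟩⟩] (by
        intro i; fin_cases i <;> rfl)).1 hxy
    obtain ⟨r, hr, h1, h2⟩ := hG.dir p hp p₀ hp₀
    have hrP := hG.sub r hr
    exact ⟨⟨r, hPM r hrP⟩, hrP, h2, hpF.mono (hG.sub p hp) h1⟩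
  · intro x hx
    have hxM := hAM x hx
    obtain ⟨Y, hY, hY'⟩ := hM.exists_sep (P := fun y => ZFSet.pair (⟨x, hxM⟩ : M).1 y.1 ∈ (⟨F, hF⟩ : M).1)
      (Dfn.pairMem (DT.const _) (DT.var _) (DT.const _)) hB
    have hYM : ∀ z ∈ Y, z ∈ M := fun z hz => hM.mem_of_mem hY hz
    have hYB : ∀ z ∈ Y, z ∈ B := fun z hz => ((hY' z).1 hz).1
    refine ⟨Y, hY, ?_, fun y hy => ?_⟩
    swap
    · have hyB : y ∈ B := (ZFSet.pair_mem_prod.1 ((hF' _).1 hy).1).2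
      exact (hY' y).2 ⟨hyB, hBM y hyB, hy⟩
    obtain ⟨c, hc', hcf, hcF⟩ := exists_choice hM (F := fun y p : M => (⟨p₀, hp₀M⟩ : M).1 ⊆ p.1 ∧
        Frc M P j3E p.1 ![.g ⟨x, hxM⟩, .g y, .n ⟨τ, hτ⟩]) (by
      refine Dfn.and (Dfn.subset (DT.const _) (DT.var _)) ?_
      exact Frc.dfn3 j3E_ud hP (DT.var _) (AT.g (DT.const _)) (AT.g (DT.var _)) (AT.n (DT.const _)))
      hY hP (by
        intro y hy
        obtain ⟨_, _, p, h1, h2, h3⟩ := (hFi ⟨x, hxM⟩ y).1 ((hY' y.1).1 hy).2.2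
        exact ⟨p, h1, h2, h3⟩)
    -- compatible conditions have the same argument
    have hcomp : ∀ y y' a b : ZFSet.{0}, ZFSet.pair y a ∈ c → ZFSet.pair y' b ∈ c → ∀ q ∈ P, a ⊆ q → b ⊆ q →
        y = y' := by
      intro y y' a b h1 h2 q hq h3 h4
      have hm : ∀ y a : ZFSet.{0}, ZFSet.pair y a ∈ c → y ∈ Y ∧ a ∈ P := by
        intro y a h
        obtain ⟨x', hx', y', hy', h'⟩ := hcf.sub _ h
        rw [ZFSet.pair_inj] at h'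
        exact ⟨h'.1 ▸ hx', h'.2 ▸ hy'⟩
      obtain ⟨hy, ha⟩ := hm _ _ h1
      obtain ⟨hy', hb⟩ := hm _ _ h2
      obtain ⟨G', hG', hqG⟩ := exists_gen hM hP hq
      have haG := hG'.up q hqG a ha h3
      have hbG := hG'.up q hqG b hb h4
      obtain ⟨h5, h6⟩ := hcF ⟨y, hYM y hy⟩ ⟨a, hPM a ha⟩ h1
      obtain ⟨_, h8⟩ := hcF ⟨y', hYM y' hy'⟩ ⟨b, hPM b hb⟩ h2
      have hp₀G : p₀ ∈ G' := hG'.up a haG p₀ (hG.sub _ hp₀) h5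
      exact key x hx y (hYB y hy) y' (hYB y' hy') G' hG' hp₀G (hfE a _ _ h6 G' hG' haG) (hfE b _ _ h8 G' hG' hbG)
    obtain ⟨K, hK, hK'⟩ := hM.exists_sep (P := fun p => ∃ y : M, ZFSet.pair y.1 p.1 ∈ (⟨c, hc'⟩ : M).1)
      (Dfn.ex (Dfn.pairMem (DT.var _) (DT.var _) (DT.const _))) hP
    have hKP : K ⊆ P := fun z hz => ((hK' z).1 hz).1
    have hKc : Ctb M K := by
      refine hc K hK hKP ?_
      intro a ha b hb hab q hq h1 h2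
      obtain ⟨_, _, y, hy⟩ := (hK' a).1 ha
      obtain ⟨_, _, y', hy'⟩ := (hK' b).1 hb
      have hy : ZFSet.pair y.1 a ∈ c := hy
      have hy' : ZFSet.pair y'.1 b ∈ c := hy'
      have e := hcomp _ _ _ _ hy hy' q hq h1 h2
      rw [← e] at hy'
      exact hab ((hcf.ap_eq hy).symm.trans (hcf.ap_eq hy'))
    refine Ctb.image hM hKc hK (F := fun p y => ZFSet.pair y.1 p.1 ∈ (⟨c, hc'⟩ : M).1)
      (Dfn.pairMem (DT.var _) (DT.var _) (DT.const _)) ?_ ?_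
    · intro p hp y y' h1 h2
      exact Subtype.ext (hcomp _ _ _ _ h1 h2 p.1 (hKP hp) (fun z hz => hz) (fun z hz => hz))
    · intro y hy
      obtain ⟨p, hpP, hyp⟩ := hcf.tot y hy
      exact ⟨⟨p, hPM p hpP⟩, ⟨y, hYM y hy⟩, (hK' p).2 ⟨hpP, hPM p hpP, ⟨y, hYM y hy⟩, hyp⟩, rfl, hyp⟩

end Pool.Agent.H7.IG
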