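import Pool.Agent.H19.IG.J3
import Pool.Agent.H7.IG.Gn1

/-!
# IG, Part 2: ccc extensions preserve sizes

`Ccc.cvr`: let `f ∈ M[G]` be single valued on `A` and cover `Z`. `Ccc.fn` with `B := Z` gives `F ∈ M`. For `x ∈ A` the section
`F_x` is countable: choose (`exists_coll` to get a set containing such functions, then `exists_choice`) functions
`h_x ∈ M` that are single valued on `ω` and cover `F_x` (`ctb_iff_cvr`). The set of all `((x, n), y)` with `y ∈ Z`, `(n, y) ∈ h_x`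
is in `M` and shows `Cvr M (A × ω) Z`.
`Ccc.cov` (the covering property) is proved in H7/IG/Gn1.lean; use `hc.cov hM hP hG`.
`Ccc.om1`: `Cov.om1` (Tk8).
`Ccc.ctb`: `Cov.ctb`.
-/

set_option autoImplicit false
set_option linter.unusedVariables false
set_option linter.unusedSectionVars false
set_option linter.unusedSimpArgs false
set_option linter.unusedTactic false
set_option linter.unreachableTactic false

namespace Pool.Agent.H7.IG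

open Pool.Agent.H17.Omega Pool.Agent.H17.Omega.CTM Pool.Agent.H52.GX Pool.Agent.H52.GC

variable {M : Set ZFSet.{0}} {P G : ZFSet.{0}}

theorem Ccc.cvr (hc : Ccc M P) (hM : CTM M) (hP : P ∈ M) (hG : Gen M P G) {A Z : ZFSet.{0}} (hA : A ∈ M)
    (hZ : Z ∈ M) (h : Cvr (Xt M G) A Z) : Cvr M (ZFSet.prod A omZ) Z := by
  obtain ⟨f, hf, hf1, hf2⟩ := h
  obtain ⟨F, hF, hFs, hFf, hFc⟩ := hc.fn hM hP hG hA hZ hf
    (fun x hx y _ y' _ h1 h2 => hf1 x hx y y' h1 h2)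
  have hω := hM.omZ_mem
  let R : M → M → Prop := fun x g => (∀ n : M, n.1 ∈ (⟨omZ, hω⟩ : M).1 → ∀ y y' : M,
    ZFSet.pair n.1 y.1 ∈ g.1 → ZFSet.pair n.1 y'.1 ∈ g.1 → y = y') ∧
    ∀ y : M, ZFSet.pair x.1 y.1 ∈ (⟨F, hF⟩ : M).1 → ∃ n : M, n.1 ∈ (⟨omZ, hω⟩ : M).1 ∧
      ZFSet.pair n.1 y.1 ∈ g.1
  have hR : hM.Dfn (fun v : Fin 2 → M => R (v 0) (v 1)) := by
    (repeat' first
      | exact DT.var _ | exact DT.last | exact DT.const _ | assumption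
      | refine Dfn.pairMem ?_ ?_ ?_ | refine Dfn.isPair ?_ ?_ ?_ | refine Dfn.mem ?_ ?_
      | refine Dfn.eqv ?_ ?_ | refine Dfn.eq ?_ ?_ | refine Dfn.subset ?_ ?_
      | refine Dfn.isEmpty ?_ | refine Dfn.isTrans ?_ | refine Dfn.isOrd ?_ | refine Dfn.isNat ?_
      | refine Dfn.isUpair ?_ ?_ ?_ | refine Dfn.isInsert ?_ ?_ ?_
      | refine Dfn.and ?_ ?_ | refine Dfn.or ?_ ?_ | refine Dfn.iff ?_ ?_ | refine Dfn.not ?_
      | refine Dfn.imp ?_ ?_ | refine Dfn.all ?_ | refine Dfn.ex ?_ | exact Dfn.false'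
      | refine Dfn.ballZ ?_ ?_ | refine Dfn.bexZ ?_ ?_ | exact Dfn.const _)
  have hex : ∀ x : M, x.1 ∈ A → ∃ g : M, R x g := by
    intro x hx
    obtain ⟨Y, hY, hYc, hY'⟩ := hFc x.1 hx
    obtain ⟨g, hg, hg1, hg2⟩ := (ctb_iff_cvr hM).1 hYc
    refine ⟨⟨g, hg⟩, fun n hn y y' h1 h2 => Subtype.ext (hg1 n.1 hn _ _ h1 h2), fun y hy => ?_⟩
    obtain ⟨n, hn, hny⟩ := hg2 y.1 (hY' _ hy)
    exact ⟨⟨n, hM.mem_of_mem hω hn⟩, hn, hny⟩
  obtain ⟨B, hB, hB'⟩ := exists_coll hM (F := R) hR hA hex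
  obtain ⟨c, hc1, hc2, hc3⟩ := exists_choice hM (F := R) hR hA hB hB'
  refine cvr_of_dfn hM (F := fun w y => ∃ x n g : M, w.1 = ZFSet.pair x.1 n.1 ∧
    ZFSet.pair x.1 g.1 ∈ (⟨c, hc1⟩ : M).1 ∧ ZFSet.pair n.1 y.1 ∈ g.1) ?_ (hM.prod_mem hA hω) hZ ?_ ?_
  · (repeat' first
      | exact DT.var _ | exact DT.last | exact DT.const _ | assumption
      | refine Dfn.pairMem ?_ ?_ ?_ | refine Dfn.isPair ?_ ?_ ?_ | refine Dfn.mem ?_ ?_
      | refine Dfn.eqv ?_ ?_ | refine Dfn.eq ?_ ?_ | refine Dfn.subset ?_ ?_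
      | refine Dfn.isEmpty ?_ | refine Dfn.isTrans ?_ | refine Dfn.isOrd ?_ | refine Dfn.isNat ?_
      | refine Dfn.isUpair ?_ ?_ ?_ | refine Dfn.isInsert ?_ ?_ ?_
      | refine Dfn.and ?_ ?_ | refine Dfn.or ?_ ?_ | refine Dfn.iff ?_ ?_ | refine Dfn.not ?_
      | refine Dfn.imp ?_ ?_ | refine Dfn.all ?_ | refine Dfn.ex ?_ | exact Dfn.false'
      | refine Dfn.ballZ ?_ ?_ | refine Dfn.bexZ ?_ ?_ | exact Dfn.const _)
  · rintro w hw y y' ⟨x, n, g, h1, h2, h3⟩ ⟨x', n', g', h1', h2', h3'⟩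
    rw [h1, ZFSet.pair_mem_prod] at hw
    rw [h1, ZFSet.pair_inj] at h1'
    have e1 : x = x' := Subtype.ext h1'.1
    have e2 : n = n' := Subtype.ext h1'.2
    subst e1 e2
    have e3 : g = g' := Subtype.ext (hc2.fnD.uni _ _ _ h2 h2')
    subst e3
    exact (hc3 x g h2).1 n hw.2 y y' h3 h3'
  · intro z hz
    obtain ⟨x, hx, hxz⟩ := hf2 z.1 hz
    have hxM := hM.mem_of_mem hA hx
    obtain ⟨g, hg, hxg⟩ := hc2.tot x hx
    have hgM := hM.mem_of_mem hB hg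
    obtain ⟨n, hn, hnz⟩ := (hc3 ⟨x, hxM⟩ ⟨g, hgM⟩ hxg).2 z (hFf x hx _ hz hxz)
    exact ⟨⟨ZFSet.pair x n.1, hM.pair_mem hxM n.2⟩, ZFSet.pair_mem_prod.2 ⟨hx, hn⟩, ⟨x, hxM⟩, n,
      ⟨g, hgM⟩, rfl, hxg, hnz⟩

theorem Ccc.om1 (hc : Ccc M P) (hM : CTM M) (hP : P ∈ M) (hG : Gen M P G) {δ : Ordinal.{0}}
    (hδ : IsOm1 M δ) : IsOm1 (Xt M G) δ :=
  Cov.om1 (hG.sub_xt hM hP) (hc.cov hM hP hG) hδ

theorem Ccc.ctb (hc : Ccc M P) (hM : CTM M) (hP : P ∈ M) (hG : Gen M P G) {X : ZFSet.{0}} (hX : X ∈ M)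
    (h : Ctb (Xt M G) X) : Ctb M X :=
  Cov.ctb (hG.sub_xt hM hP) (hc.cov hM hP hG) hX h

end Pool.Agent.H7.IG
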