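import Pool.Agent.H19.IG.J3

/-!
# IG, Part 2: a condition forcing that uncountably many conditions are in the generic filter

`f : δ → P` a sequence of conditions of a ccc poset. Some `q` forces that `{ξ : f(ξ) ∈ K}` is unbounded in `δ`.
Proof: call `r ∈ P` bad if there is `α < δ` such that `r` is incompatible with all `f(ξ)`, `α ≤ ξ < δ`. Let `A ∈ M` be a
maximal antichain of bad conditions (`exists_maxac`); it is countable. Choose `α_a` for `a ∈ A` (the least one; `IsOm1.bdd`) and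
let `α* < δ` be an upper bound of the `α_a`. Let `q = f(α*)`. No extension `r` of `q` is bad: otherwise `r` is compatible with
some `a ∈ A`, so `a` is compatible with `f(α*)`, contradiction to `α_a ≤ α*`. Now let `K ∋ q` be generic and `α < δ`. For
every `r ⊇ q`, `r` is compatible with some `f(ξ)`, `α ≤ ξ < δ`, so by `Gen.meet` (property `D s`: `f(ξ) ⊆ s` for some
`α ≤ ξ < δ`) some `s ∈ K` contains such an `f(ξ)`, and `f(ξ) ∈ K` (`Gen.up`).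
-/

set_option autoImplicit false
set_option linter.unusedVariables false
set_option linter.unusedSectionVars false
set_option linter.unusedSimpArgs false
set_option linter.unusedTactic false
set_option linter.unreachableTactic false

namespace Pool.Agent.H7.IG

open Pool.Agent.H17.Omega Pool.Agent.H17.Omega.CTM Pool.Agent.H52.GX Pool.Agent.H52.GC

variable {M : Set ZFSet.{0}} {P G : ZFSet.{0}}

/-- `r` is incompatible with all `f(x)`, `x ∉ a`. -/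
def J5_Bad (P f : M) (r a : M) : Prop := ∀ x p : M, ZFSet.pair x.1 p.1 ∈ f.1 → ¬ x.1 ∈ a.1 → ∀ q : M,
  q.1 ∈ P.1 → ¬ (r.1 ⊆ q.1 ∧ p.1 ⊆ q.1)

theorem J5_dfn {hM : CTM M} (P f : M) : hM.Dfn (fun v : Fin 2 → M => J5_Bad P f (v 0) (v 1)) := by
  unfold J5_Bad
  (repeat' first
      | exact DT.var _ | exact DT.last | exact DT.const _ | assumption
      | refine Dfn.pairMem ?_ ?_ ?_ | refine Dfn.isPair ?_ ?_ ?_ | refine Dfn.mem ?_ ?_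
      | refine Dfn.eqv ?_ ?_ | refine Dfn.eq ?_ ?_ | refine Dfn.subset ?_ ?_
      | refine Dfn.isEmpty ?_ | refine Dfn.isTrans ?_ | refine Dfn.isOrd ?_ | refine Dfn.isNat ?_
      | refine Dfn.isUpair ?_ ?_ ?_ | refine Dfn.isInsert ?_ ?_ ?_
      | refine Dfn.and ?_ ?_ | refine Dfn.or ?_ ?_ | refine Dfn.iff ?_ ?_ | refine Dfn.not ?_
      | refine Dfn.imp ?_ ?_ | refine Dfn.all ?_ | refine Dfn.ex ?_ | exact Dfn.false'
      | refine Dfn.ballZ ?_ ?_ | refine Dfn.bexZ ?_ ?_ | exact Dfn.const _)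

theorem Ccc.unb (hc : Ccc M P) (hM : CTM M) (hP : P ∈ M) {δ : Ordinal.{0}} (hδ : IsOm1 M δ) {f : ZFSet.{0}}
    (hf : f ∈ M) (hfn : Fn f δ.toZFSet P) : ∃ q ∈ P, ∀ K, Gen M P K → q ∈ K → ∀ α < δ, ∃ ξ, α ≤ ξ ∧ ξ < δ ∧
      ∃ p ∈ K, ZFSet.pair ξ.toZFSet p ∈ f := by
  let Bad : M → M → Prop := J5_Bad ⟨P, hP⟩ ⟨f, hf⟩
  have hBad : hM.Dfn (fun v : Fin 2 → M => Bad (v 0) (v 1)) := J5_dfn _ _
  obtain ⟨A, hA, hAP, hAB, hAc, hAm⟩ := exists_maxac hM hP (B := fun r => ∃ a : M,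
    a.1 ∈ (⟨_, hδ.mem⟩ : M).1 ∧ Bad r a) (by
    refine Dfn.ex (Dfn.and (Dfn.mem (DT.var _) (DT.const _)) ?_)
    exact Dfn.subst2 (P := Bad) hBad (DT.var _) (DT.var _))
  have hActb : Ctb M A := hc A hA hAP hAc
  obtain ⟨α₀, hα₀, hα₀'⟩ := hδ.bdd hM hA hActb (F := fun x y => y.1 ∈ (⟨_, hδ.mem⟩ : M).1 ∧ Bad x y ∧
    ∀ z : M, z.1 ∈ y.1 → ¬ Bad x z) (by
    refine Dfn.and (Dfn.mem (DT.var _) (DT.const _)) (Dfn.and hBad (Dfn.all (Dfn.imp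
      (Dfn.mem (DT.var _) (DT.var _)) (Dfn.not ?_))))
    exact Dfn.subst2 (P := Bad) hBad (DT.var _) (DT.var _)) (by
    rintro x hx y y' ⟨h1, h2, h3⟩ ⟨h4, h5, h6⟩
    obtain ⟨β, hβ, hβy⟩ := Ordinal.mem_toZFSet_iff.1 h1
    obtain ⟨β', hβ', hβy'⟩ := Ordinal.mem_toZFSet_iff.1 h4
    apply Subtype.ext
    rcases lt_trichotomy β β' with h | h | h
    · refine absurd h2 (h6 y ?_)
      rw [← hβy, ← hβy']
      exact Ordinal.toZFSet_mem_toZFSet_iff.2 h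
    · rw [← hβy, ← hβy', h]
    · refine absurd h5 (h3 y' ?_)
      rw [← hβy, ← hβy']
      exact Ordinal.toZFSet_mem_toZFSet_iff.2 h)
  have hleast : ∀ a : M, a.1 ∈ A → Bad a ⟨_, hM.toZFSet_mem_of_le hα₀.le hδ.mem⟩ := by
    intro a ha
    obtain ⟨b, hb, hb'⟩ := hAB a ha
    obtain ⟨β, hβ, hβb⟩ := Ordinal.mem_toZFSet_iff.1 hb
    -- the least ordinal
    have hex : ∃ γ : Ordinal.{0}, ∃ h : γ < δ, Bad a ⟨γ.toZFSet, hM.toZFSet_mem_of_le h.le hδ.mem⟩ := by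
      refine ⟨β, hβ, ?_⟩
      have e : (⟨β.toZFSet, hM.toZFSet_mem_of_le hβ.le hδ.mem⟩ : M) = b := Subtype.ext hβb
      rw [e]
      exact hb'
    obtain ⟨γ, ⟨hγ, hγB⟩, hγm⟩ := WellFounded.has_min (wellFounded_lt (α := Ordinal.{0}))
      {γ | ∃ h : γ < δ, Bad a ⟨γ.toZFSet, hM.toZFSet_mem_of_le h.le hδ.mem⟩} hex
    have h1 := hα₀' a ha ⟨γ.toZFSet, hM.toZFSet_mem_of_le hγ.le hδ.mem⟩ ⟨Ordinal.toZFSet_mem_toZFSet_iff.2 hγ,
      hγB, by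
      intro z hz hzB
      obtain ⟨ε, hε, hεz⟩ := Ordinal.mem_toZFSet_iff.1 hz
      refine hγm ε ⟨hε.trans hγ, ?_⟩ hε
      have e : (⟨ε.toZFSet, hM.toZFSet_mem_of_le (hε.trans hγ).le hδ.mem⟩ : M) = z := Subtype.ext hεz
      rw [e]
      exact hzB⟩ γ hγ rfl
    intro x p hxp hx
    refine hγB x p hxp fun h => hx ?_
    obtain ⟨ε, hε, hεx⟩ := Ordinal.mem_toZFSet_iff.1 h
    rw [← hεx]
    exact Ordinal.toZFSet_mem_toZFSet_iff.2 (hε.trans_le h1)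
  obtain ⟨q, hqP, hq⟩ := hfn.tot α₀.toZFSet (Ordinal.toZFSet_mem_toZFSet_iff.2 hα₀)
  have hnb : ∀ r : M, r.1 ∈ P → q ⊆ r.1 → ∀ a : M, a.1 ∈ δ.toZFSet → ¬ Bad r a := by
    intro r hr hqr a ha hBa
    obtain ⟨c, hcA, s, hs, hcs, hrs⟩ := hAm r hr ⟨a, ha, hBa⟩
    exact hleast ⟨c, hM.mem_of_mem hA hcA⟩ hcA ⟨α₀.toZFSet, hM.toZFSet_mem_of_le hα₀.le hδ.mem⟩
      ⟨q, hM.mem_of_mem hP hqP⟩ hq (ZFSet.mem_irrefl _) ⟨s, hM.mem_of_mem hP hs⟩ hs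
      ⟨hcs, fun w hw => hrs (hqr hw)⟩
  refine ⟨q, hqP, fun K hK hqK α hα => ?_⟩
  have hαM : α.toZFSet ∈ M := hM.toZFSet_mem_of_le hα.le hδ.mem
  obtain ⟨s, hsK, -, x, p, hxp, hx, hps⟩ := hK.meet hM hP (D := fun s => ∃ x p : M,
    ZFSet.pair x.1 p.1 ∈ (⟨f, hf⟩ : M).1 ∧ ¬ x.1 ∈ (⟨α.toZFSet, hαM⟩ : M).1 ∧ p.1 ⊆ s.1) (by
    (repeat' first
      | exact DT.var _ | exact DT.last | exact DT.const _ | assumption
      | refine Dfn.pairMem ?_ ?_ ?_ | refine Dfn.isPair ?_ ?_ ?_ | refine Dfn.mem ?_ ?_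
      | refine Dfn.eqv ?_ ?_ | refine Dfn.eq ?_ ?_ | refine Dfn.subset ?_ ?_
      | refine Dfn.isEmpty ?_ | refine Dfn.isTrans ?_ | refine Dfn.isOrd ?_ | refine Dfn.isNat ?_
      | refine Dfn.isUpair ?_ ?_ ?_ | refine Dfn.isInsert ?_ ?_ ?_
      | refine Dfn.and ?_ ?_ | refine Dfn.or ?_ ?_ | refine Dfn.iff ?_ ?_ | refine Dfn.not ?_
      | refine Dfn.imp ?_ ?_ | refine Dfn.all ?_ | refine Dfn.ex ?_ | exact Dfn.false'
      | refine Dfn.ballZ ?_ ?_ | refine Dfn.bexZ ?_ ?_ | exact Dfn.const _)) hqK (by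
    intro r hr hqr
    have h1 := hnb ⟨r, hM.mem_of_mem hP hr⟩ hr hqr ⟨α.toZFSet, hαM⟩ (Ordinal.toZFSet_mem_toZFSet_iff.2 hα)
    have h2 : ∃ x p : M, ZFSet.pair x.1 p.1 ∈ f ∧ ¬ x.1 ∈ α.toZFSet ∧ ∃ q : M, q.1 ∈ P ∧
        (r ⊆ q.1 ∧ p.1 ⊆ q.1) := by
      by_contra hcon
      apply h1
      intro x p h3 h4 q' h5 h6
      exact hcon ⟨x, p, h3, h4, q', h5, h6⟩
    obtain ⟨x, p, h3, h4, q', h5, h6, h7⟩ := h2
    exact ⟨q', h5, h6, x, p, h3, h4, h7⟩)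
  obtain ⟨x', hx', p', hp', he⟩ := hfn.sub _ hxp
  rw [ZFSet.pair_inj] at he
  obtain ⟨ξ, hξ, hξx⟩ := Ordinal.mem_toZFSet_iff.1 hx'
  have hxξ : x.1 = ξ.toZFSet := he.1.trans hξx.symm
  refine ⟨ξ, ?_, hξ, p.1, hK.up s.1 hsK p.1 (he.2 ▸ hp') hps, hxξ ▸ hxp⟩
  by_contra hlt
  apply hx
  show x.1 ∈ α.toZFSet
  rw [hxξ]
  exact Ordinal.toZFSet_mem_toZFSet_iff.2 (not_le.1 hlt)

end Pool.Agent.H7.IG
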