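import Pool.Agent.H19.IG.J7

/-!
# IG, Part 2: the successor step of the iteration

If `b` is the name used at stage `β < Λ` then `Q_{β+1} = nx δ 𝓕 Q_β b β`.
(⊆) Let `p ∈ Q_{β+1}`. If `(β, x) ∈ p` for some `x`, `q_iff` at `β` gives `InSt` (`LbF` and `LbS` are the same: `p' ∈ Q_β` for the
`p'` with `R4 𝓡 β z y p'` by `nm`; write `r ∈ Q_β` as `r ∈ Q ∧ Dm r β`). Otherwise `p ∈ Q_β`, take `p₀ = p`, `q' = r`, `z = ∅ ∈ δ`: `LbS` is
vacuous. (⊇) `p ∈ 𝓕`, `InSt` with `p₀`. Use `q_iff`: for `γ < β` the condition of `p₀` at `γ`, for `γ = β` take `p₀`; `γ > β` does not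
occur. `Dm p (β+1)`.
-/

set_option autoImplicit false
set_option linter.unusedVariables false
set_option linter.unusedSectionVars false
set_option linter.unusedSimpArgs false
set_option linter.unusedTactic false
set_option linter.unreachableTactic false

namespace Pool.Agent.H7.IG

open Pool.Agent.H17.Omega Pool.Agent.H17.Omega.CTM Pool.Agent.H52.GX Pool.Agent.H52.GC

variable {δ Λ : Ordinal.{0}} {𝓡 Q 𝓕 : ZFSet.{0}}

theorem lbF_iff_lbS (h : IsIt δ.toZFSet Λ.toZFSet 𝓡 Q 𝓕) {β : Ordinal.{0}} (hβ : β < Λ) {b : ZFSet.{0}}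
    (hb : ∀ z y p, R4 𝓡 β.toZFSet z y p ↔ ZFSet.pair (ZFSet.pair z y) p ∈ b) {p q' z : ZFSet.{0}} :
    LbF δ.toZFSet 𝓡 Q β.toZFSet p q' z ↔ LbS δ.toZFSet (lw δ.toZFSet Q β.toZFSet) b β.toZFSet p q' z := by
  constructor
  · intro h1 y hy hp p' hp' hb' r hr hq' hpr
    exact h1 y hy hp p' (mem_lw.1 hp').1 ((hb z y p').2 hb') r (mem_lw.1 hr).1 (mem_lw.1 hr).2 hq' hpr
  · intro h1 y hy hp p' hp' hR r hr hd hq' hpr
    have h2 : Dm δ.toZFSet p' β.toZFSet := by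
      obtain ⟨β', hβ', z', hz', y', hy', p'', hp'', hD, he⟩ := h.nm _ hR
      rw [ZFSet.pair_inj, ZFSet.pair_inj, ZFSet.pair_inj] at he
      rw [he.1.1, he.2.2]
      exact hD
    exact h1 y hy hp p' (mem_lw.2 ⟨hp', h2⟩) ((hb z y p').1 hR) r (mem_lw.2 ⟨hr, hd⟩) hq' hpr

theorem IsIt.succ (h : IsIt δ.toZFSet Λ.toZFSet 𝓡 Q 𝓕) (hF : FinSub δ.toZFSet Λ.toZFSet 𝓕) (hδ : 0 < δ)
    {β : Ordinal.{0}} (hβ : β < Λ) {b : ZFSet.{0}}
    (hb : ∀ z y p, R4 𝓡 β.toZFSet z y p ↔ ZFSet.pair (ZFSet.pair z y) p ∈ b) :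
    lw δ.toZFSet Q (β + 1).toZFSet = nx δ.toZFSet 𝓕 (lw δ.toZFSet Q β.toZFSet) b β.toZFSet := by
  have hβΛ : β.toZFSet ∈ Λ.toZFSet := Ordinal.toZFSet_mem_toZFSet_iff.2 hβ
  have hββ : β.toZFSet ∈ (β + 1).toZFSet := Ordinal.toZFSet_mem_toZFSet_iff.2 (Order.lt_add_one_iff.2 le_rfl)
  ext p
  rw [mem_lw, mem_nx]
  constructor
  · rintro ⟨hp, hd⟩
    refine ⟨h.q_sub p hp, ?_⟩
    have hd' : ∀ z ∈ p, (∃ γ ∈ β.toZFSet, ∃ x ∈ δ.toZFSet, z = ZFSet.pair γ x) ∨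
        ∃ x ∈ δ.toZFSet, z = ZFSet.pair β.toZFSet x := by
      intro z hz
      obtain ⟨γ, hγ, x, hx, rfl⟩ := hd z hz
      obtain ⟨γ', hγ', rfl⟩ := Ordinal.mem_toZFSet_iff.1 hγ
      rcases (Order.lt_add_one_iff.1 hγ').lt_or_eq with h1 | h1
      · exact Or.inl ⟨_, Ordinal.toZFSet_mem_toZFSet_iff.2 h1, x, hx, rfl⟩
      · subst h1
        exact Or.inr ⟨x, hx, rfl⟩
    by_cases hx : ∃ x ∈ δ.toZFSet, ZFSet.pair β.toZFSet x ∈ p
    · obtain ⟨p₀, h1, h2, h3, h4, h5⟩ := (h.q_iff p (h.q_sub p hp)).1 hp _ hβΛ hx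
      refine ⟨p₀, mem_lw.2 ⟨h1, h3⟩, h2, fun z hz => ?_, fun r hr h6 => ?_⟩
      · rcases hd' z hz with h7 | h7
        · exact Or.inl (h4 z hz h7)
        · exact Or.inr h7
      · obtain ⟨q', h8, h9, h10, z, hz, h11⟩ := h5 r (mem_lw.1 hr).1 (mem_lw.1 hr).2 h6
        exact ⟨q', mem_lw.2 ⟨h8, h9⟩, h10, z, hz, (lbF_iff_lbS h hβ hb).1 h11⟩
    · have h0 : Dm δ.toZFSet p β.toZFSet := by
        intro z hz
        rcases hd' z hz with h7 | ⟨x, hx', rfl⟩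
        · exact h7
        · exact absurd ⟨x, hx', hz⟩ hx
      refine ⟨p, mem_lw.2 ⟨hp, h0⟩, fun _ h1 => h1, fun z hz => Or.inl hz, fun r hr h6 =>
        ⟨r, hr, fun _ h1 => h1, (0 : Ordinal.{0}).toZFSet, Ordinal.toZFSet_mem_toZFSet_iff.2 hδ, ?_⟩⟩
      intro y hy hp'
      exact absurd ⟨y, hy, hp'⟩ hx
  · rintro ⟨hp, p₀, h1, h2, h3, h4⟩
    obtain ⟨h5, h6⟩ := mem_lw.1 h1
    have h7 := h.q_sub p₀ h5
    refine ⟨?_, ?_⟩
    · rw [h.q_iff p hp]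
      rintro γ hγ ⟨x, hx, hγx⟩
      have main : γ = β.toZFSet → ∃ p₀ ∈ Q, p₀ ⊆ p ∧ Dm δ.toZFSet p₀ γ ∧
          (∀ z ∈ p, (∃ γ' ∈ γ, ∃ x ∈ δ.toZFSet, z = ZFSet.pair γ' x) → z ∈ p₀) ∧
          ∀ q ∈ Q, Dm δ.toZFSet q γ → p₀ ⊆ q → ∃ q' ∈ Q, Dm δ.toZFSet q' γ ∧ q ⊆ q' ∧
            ∃ z ∈ δ.toZFSet, LbF δ.toZFSet 𝓡 Q γ p q' z := by
        rintro rfl
        refine ⟨p₀, h5, h2, h6, fun z hz h8 => ?_, fun q hq h8 h9 => ?_⟩
        · rcases h3 z hz with h10 | ⟨x', hx', rfl⟩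
          · exact h10
          · obtain ⟨γ', hγ', x'', hx'', he⟩ := h8
            rw [ZFSet.pair_inj] at he
            rw [← he.1] at hγ'
            exact absurd hγ' (ZFSet.mem_irrefl _)
        · obtain ⟨q', h10, h11, z, hz, h12⟩ := h4 q (mem_lw.2 ⟨hq, h8⟩) h9
          exact ⟨q', (mem_lw.1 h10).1, (mem_lw.1 h10).2, h11, z, hz, (lbF_iff_lbS h hβ hb).2 h12⟩
      rcases h3 _ hγx with h8 | ⟨x', hx', he⟩
      · have h9 : γ ∈ β.toZFSet := by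
          obtain ⟨γ', hγ', x', hx', he⟩ := h6 _ h8
          rw [ZFSet.pair_inj] at he
          rw [he.1]
          exact hγ'
        obtain ⟨s₀, g1, g2, g3, g4, g5⟩ := (h.q_iff p₀ h7).1 h5 γ hγ ⟨x, hx, h8⟩
        refine ⟨s₀, g1, fun z hz => h2 (g2 hz), g3, fun z hz h10 => ?_, fun q hq h10 h11 => ?_⟩
        · rcases h3 z hz with h12 | ⟨x', hx', rfl⟩
          · exact g4 z h12 h10
          · obtain ⟨γ', hγ', x'', hx'', he⟩ := h10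
            rw [ZFSet.pair_inj] at he
            rw [← he.1] at hγ'
            exact absurd h9 (ZFSet.mem_asymm hγ')
        · obtain ⟨q', k1, k2, k3, z, hz, k4⟩ := g5 q hq h10 h11
          refine ⟨q', k1, k2, k3, z, hz, itA_lb k4 fun y _ h12 => ?_⟩
          rcases h3 _ h12 with h13 | ⟨x', hx', he⟩
          · exact h13
          · rw [ZFSet.pair_inj] at he
            rw [he.1] at h9
            exact absurd h9 (ZFSet.mem_irrefl _)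
      · rw [ZFSet.pair_inj] at he
        exact main he.1
    · intro z hz
      rcases h3 z hz with h8 | ⟨x, hx, rfl⟩
      · obtain ⟨γ, hγ, x, hx, rfl⟩ := h6 z h8
        obtain ⟨γ', hγ', rfl⟩ := Ordinal.mem_toZFSet_iff.1 hγ
        exact ⟨_, Ordinal.toZFSet_mem_toZFSet_iff.2 (Order.lt_add_one_iff.2 hγ'.le), x, hx, rfl⟩
      · exact ⟨_, hββ, x, hx, rfl⟩

end Pool.Agent.H7.IG
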