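import Pool.Agent.H19.IG.J14
import Pool.Agent.H19.IG.J15
import Pool.Agent.H19.IG.J17
import Pool.Agent.H19.IG.J19
import Pool.Agent.H19.IG.J22

/-!
# IG, Part 2: assembly
-/

set_option autoImplicit false
set_option linter.unusedVariables false
set_option linter.unusedSectionVars false
set_option linter.unusedSimpArgs false
set_option linter.unusedTactic false
set_option linter.unreachableTactic false

namespace Pool.Agent.H7.IG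

open Pool.Agent.H17.Omega Pool.Agent.H17.Omega.CTM Pool.Agent.H52.GX Pool.Agent.H52.GC

theorem exists_iteration' {N : Set ZFSet.{0}} (hN : CTM N) {δ : Ordinal.{0}} (hδ : IsOm1 N δ) {κ : Ordinal.{0}}
    (hκ : κ.toZFSet ∈ N) :
    ∃ (Λ : Ordinal.{0}) (𝓡 Q 𝓕 : ZFSet.{0}), Λ.toZFSet ∈ N ∧ 𝓡 ∈ N ∧ Q ∈ N ∧ 𝓕 ∈ N ∧
      FinSub δ.toZFSet Λ.toZFSet 𝓕 ∧ IsIt δ.toZFSet Λ.toZFSet 𝓡 Q 𝓕 ∧ SmallNm N δ.toZFSet Λ.toZFSet 𝓡 ∧
      ∅ ∈ Q ∧ Ccc N Q ∧ ∀ H, Gen N Q H → MA1 (Xt N H) δ ∧ BigC (Xt N H) κ := by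
  obtain ⟨Λ, B, hB⟩ := exists_bk hN hδ hκ
  have hδ0 : 0 < δ := by
    have := hδ.omega_lt hN 0
    simpa using this
  obtain ⟨𝓕, hF, hFs⟩ := exists_fin hN (hN.prod_mem hB.L_mem hδ.mem)
  have hFs' : FinSub δ.toZFSet Λ.toZFSet 𝓕 := by
    intro p
    rw [hFs]
    constructor
    · rintro ⟨h1, h2⟩
      refine ⟨h2, fun z hz => ?_⟩
      have h3 := h1 hz
      rw [ZFSet.mem_prod] at h3
      obtain ⟨a, ha, b, hb, rfl⟩ := h3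
      exact ⟨a, ha, b, hb, rfl⟩
    · rintro ⟨h1, h2⟩
      refine ⟨fun z hz => ?_, h1⟩
      obtain ⟨a, ha, b, hb, rfl⟩ := h2 z hz
      rw [ZFSet.pair_mem_prod]
      exact ⟨ha, hb⟩
  obtain ⟨𝓡, Q, h⟩ := exists_itB hN hδ.mem hδ0 hB.L_mem hF hFs' hB.B_mem hB.fn
  have hc := h.ccc hN hδ hB.fn
  refine ⟨Λ, 𝓡, Q, 𝓕, hB.L_mem, h.R_mem, h.Q_mem, h.F_mem, h.fin, h.it, h.small hN hδ hB.fn, h.empty_mem hN,
    hc, fun H hH => ⟨?_, bigC hN h hδ hκ hB hH⟩⟩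
  refine ma_of_mac (hH.ctm hN h.Q_mem) (hc.om1 hN h.Q_mem hH hδ) ?_
  intro R hR hRs hpc D hD hDs hden
  exact ma_code hN h hδ hB hH hR hRs hpc hD hDs hden

end Pool.Agent.H7.IG
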